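import Pool.Agent.Y886.EPC

set_option autoImplicit false
set_option maxHeartbeats 1000000

/-! # Few integers are the sum of an element of `K` and a `k` with `6 k ± 1` almost twins -/

namespace Pool.Agent.Y886.EP

open Finset Filter Pool.Agent.H373R2.T7 Pool.Agent.W123.RP

/-- `q` is a prime, and `p ^ r > q` for each prime factor `p` of `q + 2` -/
def AT (r q : ℕ) : Prop :=
  q.Prime ∧ ∀ p : ℕ, p.Prime → p ∣ q + 2 → q < p ^ r

open Classical in
/-- the sums -/
noncomputable def repr (T : ℕ → Prop) (K : Set ℕ) (x : ℕ) : Finset ℕ :=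
  (Icc 1 x).filter (fun n => ∃ k m : ℕ, 1 ≤ k ∧ 1 ≤ m ∧ k + m = n ∧ m ∈ K ∧ T (6 * k - 1))

lemma not_Q_of {r k W p : ℕ} (h : AT r (6 * k - 1)) (hk : 1 ≤ k) (hW : W ^ r < k) (hp : p.Prime)
    (hpW : p ≤ W) : ¬ Twin.Q p k := by
  obtain ⟨h1, h3⟩ := h
  have e : 6 * k - 1 + 2 = 6 * k + 1 := by omega
  rw [e] at h3
  have hr : r ≠ 0 := by
    rintro rfl
    have h4 := h3 (6 * k + 1).minFac (Nat.minFac_prime (by omega)) (Nat.minFac_dvd _)
    simp at h4
    omega
  intro hQ
  unfold Twin.Q at hQ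
  have hpi : Prime (p : ℤ) := Nat.prime_iff_prime_int.1 hp
  rw [hpi.dvd_mul] at hQ
  have hWW : W ≤ W ^ r := Nat.le_self_pow hr W
  rcases hQ with h5 | h5
  · have h6 : (6 * (k : ℤ) - 1) = ((6 * k - 1 : ℕ) : ℤ) := by omega
    rw [h6, Int.natCast_dvd_natCast, Nat.prime_dvd_prime_iff_eq hp h1] at h5
    omega
  · have h6 : (6 * (k : ℤ) + 1) = ((6 * k + 1 : ℕ) : ℤ) := by push_cast; ring
    rw [h6, Int.natCast_dvd_natCast] at h5
    have h7 := h3 p hp h5
    have h8 : p ^ r ≤ W ^ r := Nat.pow_le_pow_left hpW r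
    omega

lemma Q_add {p k m : ℕ} (h : p ∣ m) (hQ : Twin.Q p (k + m)) : Twin.Q p k := by
  rw [Twin.per] at hQ ⊢
  obtain ⟨c, rfl⟩ := h
  rwa [Nat.add_mul_mod_self_left] at hQ

open Classical in
/-- the three parts -/
lemma repr_sub (r x y0 : ℕ) : repr (AT r) K x ⊆
    (((Icc 1 x).filter (fun k => (6 * k - 1).Prime)) ×ˢ (Icc 1 y0)).image (fun z => z.1 + z.2) ∪
    ((Icc 1 (w y0 ^ r)) ×ˢ ((Icc 1 x).filter (fun m => F y0 ∣ m))).image (fun z => z.1 + z.2) ∪
    (Icc 1 x).filter (fun n => ∀ p ∈ pz (w y0), ¬ Twin.Q p n) := by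
  intro n hn
  unfold repr at hn
  rw [mem_filter, mem_Icc] at hn
  obtain ⟨⟨hn1, hnx⟩, k, m, hk, hm, hkm, hmK, hT⟩ := hn
  rw [mem_union, mem_union, mem_image, mem_image, mem_filter, mem_Icc]
  rcases le_or_gt m y0 with h1 | h1
  · left; left
    refine ⟨(k, m), ?_, hkm⟩
    rw [mem_product, mem_filter, mem_Icc, mem_Icc]
    exact ⟨⟨⟨hk, by omega⟩, hT.1⟩, hm, h1⟩
  have hdvd : F y0 ∣ m := (F_dvd h1.le).trans hmK
  rcases le_or_gt k (w y0 ^ r) with h2 | h2
  · left; right
    refine ⟨(k, m), ?_, hkm⟩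
    rw [mem_product, mem_filter, mem_Icc, mem_Icc]
    exact ⟨⟨hk, h2⟩, ⟨hm, by omega⟩, hdvd⟩
  · right
    refine ⟨⟨hn1, hnx⟩, ?_⟩
    intro p hp hQ
    have hp' := mem_pz.1 hp
    rw [← hkm] at hQ
    refine not_Q_of hT hk h2 hp'.2 hp'.1 (Q_add ?_ hQ)
    refine dvd_trans ?_ hdvd
    exact Nat.dvd_factorial hp'.2.pos hp'.1

lemma card_mult (x d : ℕ) : ((Icc 1 x).filter (fun m => d ∣ m)).card = x / d := by
  have := Nat.Ioc_filter_dvd_card_eq_div x d
  rw [← this]
  rfl

lemma card_primes (x : ℕ) : ((Icc 1 x).filter (fun k => (6 * k - 1).Prime)).card ≤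
    Nat.primeCounting (6 * x) := by
  rw [Nat.primeCounting, Nat.primeCounting', Nat.count_eq_card_filter_range]
  apply card_le_card_of_injOn (fun k => 6 * k - 1)
  · intro k hk
    rw [mem_coe, mem_filter, mem_Icc] at hk
    rw [mem_coe, mem_filter, mem_range]
    refine ⟨?_, hk.2⟩
    show 6 * k - 1 < 6 * x + 1
    omega
  · intro a ha b hb hab
    rw [mem_coe, mem_filter, mem_Icc] at ha hb
    simp only at hab
    omega

lemma log_le_natlog (b : ℕ) (hb : b ≠ 0) : Real.log b ≤ Nat.log 2 b + 1 := by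
  have h1 : b < 2 ^ (Nat.log 2 b + 1) := Nat.lt_pow_succ_log_self (by norm_num) b
  have h2 : (b : ℝ) ≤ 2 ^ (Nat.log 2 b + 1) := by exact_mod_cast h1.le
  have hb0 : (0 : ℝ) < b := by exact_mod_cast Nat.pos_of_ne_zero hb
  have h3 := Real.log_le_log hb0 h2
  rw [Real.log_pow] at h3
  have h4 : Real.log 2 ≤ 1 := by
    have := Real.log_two_lt_d9
    linarith
  have h5 : ((Nat.log 2 b + 1 : ℕ) : ℝ) * Real.log 2 ≤ ((Nat.log 2 b + 1 : ℕ) : ℝ) * 1 :=
    mul_le_mul_of_nonneg_left h4 (Nat.cast_nonneg _)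
  push_cast at h3 h5
  linarith

/-- the bound of the sieving primes is large -/
lemma w_big : ∀ᶠ k : ℕ in atTop, Real.log (Real.log (Real.log k)) ≤ 4 * Real.log (w k) ∧ 0 < w k := by
  have tL : Tendsto (fun N : ℕ => Real.log (N : ℝ)) atTop atTop :=
    Real.tendsto_log_atTop.comp tendsto_natCast_atTop_atTop
  have tLL := Real.tendsto_log_atTop.comp tL
  have tLLL := Real.tendsto_log_atTop.comp tLL
  filter_upwards [tL.eventually_ge_atTop 2, tLL.eventually_ge_atTop 16, tLLL.eventually_ge_atTop 6]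
    with k h1 h2 h3
  simp only [Function.comp_apply] at h2 h3
  have hk0 : k ≠ 0 := by
    rintro rfl
    simp at h1
    linarith
  set b := Nat.log 2 k with hb
  set a := Nat.log 2 b with ha
  have h4 := log_le_natlog k hk0
  have h5 : Real.log k / 2 ≤ b := by linarith
  have hb0 : (0 : ℝ) < b := by linarith
  have hbn : b ≠ 0 := by
    intro h
    rw [h] at hb0
    simp at hb0
  have h6 := log_le_natlog b hbn
  have h7 : Real.log (Real.log k) - Real.log 2 ≤ Real.log b := by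
    have h8 := Real.log_le_log (by linarith) h5
    rw [Real.log_div (by linarith) (by norm_num)] at h8
    exact h8
  have hl2 : Real.log 2 ≤ 1 := by
    have := Real.log_two_lt_d9
    linarith
  have h9 : Real.log (Real.log k) / 2 ≤ a := by linarith
  have h10 : a < (w k + 1) * (w k + 1) := Nat.lt_succ_sqrt a
  have h11 : (a : ℝ) < (w k + 1) * (w k + 1) := by exact_mod_cast h10
  have hw1 : 0 < w k := by
    rw [Nat.pos_iff_ne_zero]
    intro h
    rw [h] at h10
    have h12 : a = 0 := by omega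
    rw [h12, Nat.cast_zero] at h9
    linarith
  have hwr : (1 : ℝ) ≤ w k := by exact_mod_cast hw1
  have h12 : Real.log (Real.log k) / 8 ≤ (w k : ℝ) ^ 2 := by nlinarith
  refine ⟨?_, hw1⟩
  have h13 := Real.log_le_log (by linarith) h12
  rw [Real.log_div (by linarith) (by norm_num), Real.log_pow] at h13
  have h14 : Real.log 8 ≤ 3 := by
    rw [show (8 : ℝ) = 2 ^ 3 by norm_num, Real.log_pow]
    push_cast
    linarith
  push_cast at h13
  linarith

lemma w_le (k : ℕ) : w k ≤ k :=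
  (Nat.sqrt_le_self _).trans ((Nat.log_le_self 2 _).trans (Nat.log_le_self 2 _))

/-- the factorial beats powers -/
lemma fact_big (r : ℕ) : ∀ᶠ u : ℕ in atTop, 64 * (u : ℝ) ^ (r + 2) ≤ (u.factorial : ℝ) := by
  have h1 := tendsto_pow_const_div_const_pow_of_one_lt (r + 2) (show (1 : ℝ) < 2 by norm_num)
  have h2 := FloorSemiring.tendsto_pow_div_factorial_atTop (2 : ℝ)
  have h3 := h1.mul h2
  rw [zero_mul] at h3
  filter_upwards [h3.eventually (gt_mem_nhds (show (0 : ℝ) < 1 / 64 by norm_num))] with u hu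
  have h2u : (0 : ℝ) < 2 ^ u := by positivity
  have hf : (0 : ℝ) < u.factorial := by exact_mod_cast Nat.factorial_pos u
  have h4 : (u : ℝ) ^ (r + 2) / 2 ^ u * (2 ^ u / u.factorial) = (u : ℝ) ^ (r + 2) / u.factorial := by
    field_simp
  rw [h4, div_lt_iff₀ hf] at hu
  linarith

/-- the number of the sums is small -/
theorem upper (r : ℕ) : ∃ C : ℝ, 0 < C ∧ ∀ᶠ x : ℕ in atTop,
    ((repr (AT r) K x).card : ℝ) ≤
      C * x / Real.log (Real.log (Real.log (Real.log x))) ^ 2 := by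
  classical
  obtain ⟨Cv, hCv, hV⟩ := Vq_upper Twin.Q 2 3 (fun p hp h => (Twin.nuB_eq p hp h).ge)
  obtain ⟨K1, x0, hK1, hfund⟩ := sys_fund 2 (by omega) 1 one_pos
  have tN : Tendsto (fun N : ℕ => (N : ℝ)) atTop atTop := tendsto_natCast_atTop_atTop
  have tL : Tendsto (fun N : ℕ => Real.log (N : ℝ)) atTop atTop := Real.tendsto_log_atTop.comp tN
  have tLL : Tendsto (fun N : ℕ => Real.log (Real.log (N : ℝ))) atTop atTop :=
    Real.tendsto_log_atTop.comp tL
  have tLLL : Tendsto (fun N : ℕ => Real.log (Real.log (Real.log (N : ℝ)))) atTop atTop :=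
    Real.tendsto_log_atTop.comp tLL
  have t4 : Tendsto (fun N : ℕ => Real.log (Real.log (Real.log (Real.log (N : ℝ))))) atTop atTop :=
    Real.tendsto_log_atTop.comp tLLL
  obtain ⟨y0, hy0⟩ : ∃ y0 : ℕ → ℕ, y0 = fun x : ℕ => ⌊Real.sqrt (Real.log (x : ℝ))⌋₊ := ⟨_, rfl⟩
  have ty : Tendsto y0 atTop atTop := by
    rw [hy0]
    exact tendsto_nat_floor_atTop.comp (Real.tendsto_sqrt_atTop.comp tL)
  have e3 : ∀ᶠ L : ℝ in atTop, 18 * Real.log L ^ 2 ≤ Real.sqrt L := by
    have h := (isLittleO_log_rpow_rpow_atTop ((2 : ℕ) : ℝ) (by norm_num : (0 : ℝ) < 1 / 2)).bound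
      (by norm_num : (0 : ℝ) < 1 / 18)
    filter_upwards [h, eventually_ge_atTop 1] with L hL hL1
    have hl := Real.log_nonneg hL1
    rw [Real.rpow_natCast, Real.norm_of_nonneg (by positivity), Real.norm_of_nonneg (by positivity),
      ← Real.sqrt_eq_rpow] at hL
    linarith
  have e4 : ∀ᶠ x : ℕ in atTop, Real.log (x : ℝ) ^ (K1 + 2) ≤ x := by
    have h := ((isLittleO_log_rpow_rpow_atTop ((K1 + 2 : ℕ) : ℝ)
      (by norm_num : (0 : ℝ) < 1)).comp_tendsto tN).bound (by norm_num : (0 : ℝ) < 1)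
    filter_upwards [h, eventually_ge_atTop 1] with X hX hX1
    have hX1' : (1 : ℝ) ≤ X := by exact_mod_cast hX1
    have hl := Real.log_nonneg hX1'
    simp only [Function.comp_def, Real.rpow_natCast, Real.rpow_one, one_mul] at hX
    rw [Real.norm_of_nonneg (by positivity), Real.norm_of_nonneg (by positivity)] at hX
    exact hX
  have t6 : Tendsto (fun N : ℕ => ((6 * N : ℕ) : ℝ)) atTop atTop := by
    push_cast
    exact tN.const_mul_atTop (by norm_num)
  have e5 := t6.eventually (Chebyshev.eventually_primeCounting_le (show (0 : ℝ) < 1 by norm_num))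
  refine ⟨128 * Cv + 3, by positivity, ?_⟩
  filter_upwards [tL.eventually_ge_atTop 9, tLL.eventually_ge_atTop 16, tLLL.eventually_ge_atTop 6,
    t4.eventually_ge_atTop 2, tL.eventually e3, e4, e5, ty.eventually w_big,
    (tw.comp ty).eventually (fact_big r), (tw.comp ty).eventually_ge_atTop (x0 + 2),
    eventually_ge_atTop 2] with x h1 h2 h3 h4 h5 h6 h7 h8 h9 h10 hx2
  simp only [Function.comp_apply] at h9 h10
  obtain ⟨L, hL⟩ : ∃ L : ℝ, L = Real.log (x : ℝ) := ⟨_, rfl⟩
  obtain ⟨y, hy⟩ : ∃ y : ℕ, y = y0 x := ⟨_, rfl⟩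
  rw [← hy] at h8 h9 h10
  rw [← hL] at h1 h2 h3 h4 h5 h6 ⊢
  have hyf : y = ⌊Real.sqrt L⌋₊ := by rw [hy, hy0, hL]
  obtain ⟨W, hW⟩ : ∃ W : ℕ, W = w y := ⟨_, rfl⟩
  have hFy : F y = W.factorial := by rw [hW]; rfl
  obtain ⟨l4, hl4⟩ : ∃ l4 : ℝ, l4 = Real.log (Real.log (Real.log L)) := ⟨_, rfl⟩
  rw [← hl4] at h4 ⊢
  obtain ⟨h8, h8'⟩ := h8
  rw [← hW] at h8 h8' h9 h10
  have hx0 : (0 : ℝ) < x := by exact_mod_cast (by omega : 0 < x)
  have hL0 : 0 < L := by linarith
  have hsL : (3 : ℝ) ≤ Real.sqrt L := by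
    apply Real.le_sqrt_of_sq_le
    linarith
  have hyle : (y : ℝ) ≤ Real.sqrt L := by
    rw [hyf]
    exact Nat.floor_le (by positivity)
  have hyge : Real.sqrt L / 2 ≤ y := by
    have := Nat.lt_floor_add_one (Real.sqrt L)
    rw [← hyf] at this
    linarith
  have l2 := Real.log_two_lt_d9
  have l2' := Real.log_two_gt_d9
  -- iterated logarithms of `y`
  have g1 : Real.log L / 4 ≤ Real.log y := by
    have := Real.log_le_log (by linarith) hyge
    rw [Real.log_div (by linarith) (by norm_num), Real.log_sqrt hL0.le] at this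
    linarith
  have g2 : Real.log (Real.log L) / 2 ≤ Real.log (Real.log y) := by
    have := Real.log_le_log (by linarith) g1
    rw [Real.log_div (by linarith) (by norm_num), show (4 : ℝ) = 2 ^ 2 by norm_num,
      Real.log_pow] at this
    push_cast at this
    linarith
  have g3 : l4 / 2 ≤ Real.log (Real.log (Real.log y)) := by
    have := Real.log_le_log (by linarith) g2
    rw [Real.log_div (by linarith) (by norm_num), ← hl4] at this
    linarith
  have hlW : l4 / 8 ≤ Real.log W := by linarith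
  have hW0 : (0 : ℝ) < W := by exact_mod_cast h8'
  have hW1 : (1 : ℝ) ≤ W := by exact_mod_cast h8'
  have hlWW : Real.log W ≤ W := by
    have := Real.log_le_sub_one_of_pos hW0
    linarith
  have hl4W : l4 ≤ 8 * W := by linarith
  have hl40 : 0 < l4 := by linarith
  have hl42 : 0 < l4 ^ 2 := by positivity
  have hl4L : l4 ≤ Real.log L := by
    have a1 : Real.log (Real.log L) ≤ Real.log L := by
      have := Real.log_le_sub_one_of_pos (show 0 < Real.log L by linarith)
      linarith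
    have a2 : l4 ≤ Real.log (Real.log L) := by
      rw [hl4]
      have := Real.log_le_sub_one_of_pos (show 0 < Real.log (Real.log L) by linarith)
      linarith
    linarith
  -- the parts
  have hcard : ((repr (AT r) K x).card : ℝ) ≤
      (((Icc 1 x).filter (fun k => (6 * k - 1).Prime)).card : ℝ) * y + (W : ℝ) ^ r * ((x / F y : ℕ) : ℝ) +
      (((Icc 1 x).filter (fun n => ∀ p ∈ pz W, ¬ Twin.Q p n)).card : ℝ) := by
    have a1 := (card_le_card (repr_sub r x y)).trans
      ((card_union_le _ _).trans (Nat.add_le_add_right (card_union_le _ _) _))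
    have a2 : ((((Icc 1 x).filter (fun k => (6 * k - 1).Prime)) ×ˢ (Icc 1 y)).image
        (fun z => z.1 + z.2)).card ≤ ((Icc 1 x).filter (fun k => (6 * k - 1).Prime)).card * y := by
      refine card_image_le.trans ?_
      rw [card_product, Nat.card_Icc, Nat.add_sub_cancel]
    have a3 : (((Icc 1 (w y ^ r)) ×ˢ ((Icc 1 x).filter (fun m => F y ∣ m))).image
        (fun z => z.1 + z.2)).card ≤ W ^ r * (x / F y) := by
      refine card_image_le.trans ?_
      rw [card_product, Nat.card_Icc, Nat.add_sub_cancel, card_mult, ← hW]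
    rw [← hW] at a1 a3
    have a4 : (repr (AT r) K x).card ≤
        ((Icc 1 x).filter (fun k => (6 * k - 1).Prime)).card * y + W ^ r * (x / F y) +
        ((Icc 1 x).filter (fun n => ∀ p ∈ pz W, ¬ Twin.Q p n)).card := by omega
    exact_mod_cast a4
  -- (A)
  have hA : (((Icc 1 x).filter (fun k => (6 * k - 1).Prime)).card : ℝ) * y ≤ x / l4 ^ 2 := by
    have a1 : (((Icc 1 x).filter (fun k => (6 * k - 1).Prime)).card : ℝ) ≤
        Nat.primeCounting (6 * x) := by exact_mod_cast card_primes x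
    rw [Nat.floor_natCast] at h7
    have a2 : L ≤ Real.log ((6 * x : ℕ) : ℝ) := by
      rw [hL]
      apply Real.log_le_log hx0
      push_cast
      linarith
    have a3 : (Nat.primeCounting (6 * x) : ℝ) ≤ 18 * x / L := by
      refine h7.trans ?_
      rw [div_le_div_iff₀ (by linarith) hL0]
      have b1 : Real.log 4 + 1 ≤ 3 := by
        rw [show (4 : ℝ) = 2 ^ 2 by norm_num, Real.log_pow]
        push_cast
        linarith
      have b2 : (Real.log 4 + 1) * ((6 * x : ℕ) : ℝ) ≤ 18 * x := by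
        push_cast
        nlinarith
      calc (Real.log 4 + 1) * ((6 * x : ℕ) : ℝ) * L ≤ 18 * x * L :=
            mul_le_mul_of_nonneg_right b2 hL0.le
        _ ≤ 18 * x * Real.log ((6 * x : ℕ) : ℝ) := by gcongr
    have a4 : 18 * l4 ^ 2 ≤ Real.sqrt L := by
      have : l4 ^ 2 ≤ Real.log L ^ 2 := pow_le_pow_left₀ hl40.le hl4L 2
      linarith
    have hs : Real.sqrt L * Real.sqrt L = L := Real.mul_self_sqrt hL0.le
    calc (((Icc 1 x).filter (fun k => (6 * k - 1).Prime)).card : ℝ) * y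
        ≤ (18 * x / L) * Real.sqrt L := by
          apply mul_le_mul (a1.trans a3) hyle (Nat.cast_nonneg _) (by positivity)
      _ ≤ x / l4 ^ 2 := by
          rw [div_mul_eq_mul_div, div_le_div_iff₀ hL0 hl42]
          calc 18 * x * Real.sqrt L * l4 ^ 2 = x * Real.sqrt L * (18 * l4 ^ 2) := by ring
            _ ≤ x * Real.sqrt L * Real.sqrt L := by gcongr
            _ = x * L := by rw [mul_assoc, hs]
  -- (B)
  have hB : (W : ℝ) ^ r * ((x / F y : ℕ) : ℝ) ≤ x / l4 ^ 2 := by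
    have a1 : ((x / F y : ℕ) : ℝ) ≤ x / W.factorial := by
      rw [hFy]
      exact Nat.cast_div_le
    have hf : (0 : ℝ) < W.factorial := by exact_mod_cast Nat.factorial_pos W
    have a2 : l4 ^ 2 ≤ 64 * (W : ℝ) ^ 2 := by
      have := pow_le_pow_left₀ hl40.le hl4W 2
      calc l4 ^ 2 ≤ (8 * (W : ℝ)) ^ 2 := this
        _ = 64 * (W : ℝ) ^ 2 := by ring
    calc (W : ℝ) ^ r * ((x / F y : ℕ) : ℝ) ≤ (W : ℝ) ^ r * (x / W.factorial) := by gcongr
      _ ≤ x / l4 ^ 2 := by
          rw [← mul_div_assoc, div_le_div_iff₀ hf hl42]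
          calc (W : ℝ) ^ r * x * l4 ^ 2 ≤ (W : ℝ) ^ r * x * (64 * (W : ℝ) ^ 2) := by gcongr
            _ = x * (64 * (W : ℝ) ^ (r + 2)) := by ring
            _ ≤ x * W.factorial := by gcongr
  -- (C)
  have hC : (((Icc 1 x).filter (fun n => ∀ p ∈ pz W, ¬ Twin.Q p n)).card : ℝ) ≤
      128 * Cv * (x / l4 ^ 2) + x / l4 ^ 2 := by
    have a1 := hfund (W ^ K1) W (by omega) le_rfl Twin.Q Twin.perB x
    have a2 := hV W (by omega)
    unfold Vq at a2
    have a3 := (abs_le.1 a1).2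
    have hlW0 : 0 < Real.log W := by linarith
    have a4 : Cv / Real.log W ^ 2 ≤ 64 * Cv / l4 ^ 2 := by
      rw [div_le_div_iff₀ (by positivity) hl42]
      have := pow_le_pow_left₀ (by positivity) hlW 2
      calc Cv * l4 ^ 2 = 64 * Cv * (l4 / 8) ^ 2 := by ring
        _ ≤ 64 * Cv * Real.log W ^ 2 := by gcongr
    have a5 : (x : ℝ) * ∏ p ∈ pz W, (1 - (nuB Twin.Q p : ℝ) / p) ≤ x * (64 * Cv / l4 ^ 2) :=
      mul_le_mul_of_nonneg_left (a2.trans a4) hx0.le
    have a6 : Real.sqrt ((W ^ K1 : ℕ) : ℝ) ≤ x / l4 ^ 2 := by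
      have b1 : (W : ℝ) ≤ L := by
        have c1 : (W : ℝ) ≤ y := by
          rw [hW]
          exact_mod_cast w_le y
        have c2 : Real.sqrt L ≤ L := by
          calc Real.sqrt L = Real.sqrt L * 1 := (mul_one _).symm
            _ ≤ Real.sqrt L * Real.sqrt L := by gcongr; linarith
            _ = L := Real.mul_self_sqrt hL0.le
        linarith
      have b2 : ((W ^ K1 : ℕ) : ℝ) ≤ L ^ K1 := by
        push_cast
        exact pow_le_pow_left₀ hW0.le b1 K1
      have b3 : Real.sqrt ((W ^ K1 : ℕ) : ℝ) ≤ ((W ^ K1 : ℕ) : ℝ) := by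
        have c1 : (1 : ℝ) ≤ ((W ^ K1 : ℕ) : ℝ) := by
          push_cast
          exact one_le_pow₀ hW1
        rw [Real.sqrt_le_left (by linarith)]
        nlinarith
      have b4 : l4 ^ 2 ≤ L ^ 2 := by
        apply pow_le_pow_left₀ hl40.le
        have := Real.log_le_sub_one_of_pos hL0
        linarith
      rw [le_div_iff₀ hl42]
      calc Real.sqrt ((W ^ K1 : ℕ) : ℝ) * l4 ^ 2 ≤ L ^ K1 * L ^ 2 := by
            apply mul_le_mul (b3.trans b2) b4 (by positivity) (by positivity)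
        _ = L ^ (K1 + 2) := by rw [pow_add]
        _ ≤ x := h6
    have a7 : x * (64 * Cv / l4 ^ 2) = 64 * Cv * (x / l4 ^ 2) := by ring
    linarith
  calc ((repr (AT r) K x).card : ℝ) ≤ x / l4 ^ 2 + x / l4 ^ 2 +
        (128 * Cv * (x / l4 ^ 2) + x / l4 ^ 2) := by linarith
    _ = (128 * Cv + 3) * x / l4 ^ 2 := by ring

end Pool.Agent.Y886.EP
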