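import Pool.Agent.W123.RP.Twin

set_option autoImplicit false
set_option maxHeartbeats 1000000

/-! # Sets of summands that are multiples of slowly growing factorials -/

namespace Pool.Agent.Y886.EP

open Finset Filter Pool.Agent.H373R2.T7 Pool.Agent.W123.RP

/-- a slowly increasing function -/
def w (k : ℕ) : ℕ := Nat.sqrt (Nat.log 2 (Nat.log 2 k))

lemma w_mono : Monotone w := by
  intro j k h
  exact Nat.sqrt_le_sqrt (Nat.log_mono_right (Nat.log_mono_right h))

/-- the modulus -/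
def F (k : ℕ) : ℕ := (w k).factorial

lemma F_pos (k : ℕ) : 0 < F k := Nat.factorial_pos _

lemma F_dvd {j k : ℕ} (h : j ≤ k) : F j ∣ F k := Nat.factorial_dvd_factorial (w_mono h)

/-- the multiples of the modulus -/
def K : Set ℕ := {m | F m ∣ m}

open Classical in
/-- the number of elements of `K` in `[1, t]` -/
noncomputable def cnt (K : Set ℕ) (t : ℕ) : ℕ := ((Icc 1 t).filter (· ∈ K)).card

lemma tw : Tendsto w atTop atTop := by
  rw [tendsto_atTop_atTop]
  intro b
  refine ⟨2 ^ (2 ^ (b * b)), fun a ha => ?_⟩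
  have h1 : w (2 ^ (2 ^ (b * b))) = b := by
    unfold w
    rw [Nat.log_pow (by norm_num), Nat.log_pow (by norm_num), Nat.sqrt_eq]
  rw [← h1]
  exact w_mono ha

lemma loglog_ge {t : ℕ} (ht : 2 ≤ w t) :
    (w t : ℝ) ^ 2 / 2 - 1 ≤ Real.log (Real.log t) := by
  obtain ⟨a, ha⟩ : ∃ a, a = Nat.log 2 (Nat.log 2 t) := ⟨_, rfl⟩
  obtain ⟨b, hb⟩ : ∃ b, b = Nat.log 2 t := ⟨_, rfl⟩
  have hw : w t * w t ≤ a := by
    rw [ha]
    exact Nat.sqrt_le _
  have ha4 : 4 ≤ a := by
    have : 2 * 2 ≤ w t * w t := Nat.mul_le_mul ht ht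
    omega
  have hb0 : b ≠ 0 := by
    intro h
    rw [← hb, h] at ha
    simp at ha
    omega
  have ht0 : t ≠ 0 := by
    intro h
    rw [h] at hb
    simp at hb
    omega
  have h1 : 2 ^ a ≤ b := by
    rw [ha, ← hb]
    exact Nat.pow_log_le_self 2 hb0
  have h2 : 2 ^ b ≤ t := by
    rw [hb]
    exact Nat.pow_log_le_self 2 ht0
  have h1r : ((2 : ℝ) ^ a) ≤ b := by exact_mod_cast h1
  have h2r : ((2 : ℝ) ^ b) ≤ t := by exact_mod_cast h2
  have hb0r : (0 : ℝ) < b := by exact_mod_cast Nat.pos_of_ne_zero hb0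
  have h3 := Real.log_le_log (by positivity) h1r
  have h4 := Real.log_le_log (by positivity) h2r
  rw [Real.log_pow] at h3 h4
  have l1 := Real.log_two_gt_d9
  have l2 := Real.log_two_lt_d9
  have h5 : (b : ℝ) / 2 ≤ Real.log t := by nlinarith
  have h6 := Real.log_le_log (by positivity) h5
  rw [Real.log_div hb0r.ne' (by norm_num)] at h6
  have har : (w t : ℝ) ^ 2 ≤ a := by
    rw [sq]
    exact_mod_cast hw
  have ha0 : (0 : ℝ) ≤ a := Nat.cast_nonneg a
  nlinarith

lemma F_small (δ : ℝ) (hδ : 0 < δ) : ∀ᶠ t : ℕ in atTop, (F t : ℝ) ≤ Real.log t ^ δ / 4 := by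
  have e1 : ∀ᶠ u : ℕ in atTop, Real.log u ≤ δ / 4 * u := by
    have h1 := Real.isLittleO_log_id_atTop.bound (show (0 : ℝ) < δ / 4 by positivity)
    have h2 := (tendsto_natCast_atTop_atTop (R := ℝ)).eventually h1
    filter_upwards [h2] with u hu
    simp only [id] at hu
    rw [Real.norm_of_nonneg (Real.log_natCast_nonneg u), Real.norm_of_nonneg (Nat.cast_nonneg u)] at hu
    exact hu
  have e2 : ∀ᶠ u : ℕ in atTop, (2 + δ) / (δ / 4) ≤ (u : ℝ) :=
    (tendsto_natCast_atTop_atTop (R := ℝ)).eventually_ge_atTop _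
  filter_upwards [tw.eventually e1, tw.eventually e2, tw.eventually_ge_atTop 2,
    eventually_ge_atTop 2] with t h1 h2 h3 ht2
  have h4 := loglog_ge h3
  obtain ⟨u, hu⟩ : ∃ u, u = w t := ⟨_, rfl⟩
  have hF : F t = u.factorial := by rw [hu]; rfl
  rw [← hu] at h1 h2 h3 h4
  rw [hF]
  have hu1 : (1 : ℝ) ≤ u := by exact_mod_cast (by omega : 1 ≤ u)
  have h5 : (u.factorial : ℝ) ≤ (u : ℝ) ^ u := by exact_mod_cast Nat.factorial_le_pow u
  have h6 : (u : ℝ) ^ u = Real.exp (u * Real.log u) := by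
    rw [Real.exp_nat_mul, Real.exp_log (by linarith)]
  have ht : 0 < Real.log (t : ℝ) := Real.log_pos (by exact_mod_cast (by omega : 1 < t))
  have h7 : Real.log t ^ δ / 4 = Real.exp (Real.log (Real.log t) * δ - Real.log 4) := by
    rw [Real.rpow_def_of_pos ht, Real.exp_sub, Real.exp_log (by norm_num)]
  rw [h7]
  refine h5.trans ?_
  rw [h6]
  apply Real.exp_le_exp.2
  have l4 : Real.log 4 ≤ 2 := by
    rw [show (4 : ℝ) = 2 ^ 2 by norm_num, Real.log_pow]
    have := Real.log_two_lt_d9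
    push_cast
    linarith
  rw [div_le_iff₀ (by positivity)] at h2
  have h8 : (u : ℝ) * Real.log u ≤ u * (δ / 4 * u) := mul_le_mul_of_nonneg_left h1 (by linarith)
  have h9 : δ * ((u : ℝ) ^ 2 / 2 - 1) ≤ δ * Real.log (Real.log t) :=
    mul_le_mul_of_nonneg_left h4 hδ.le
  have h10 : (2 + δ) ≤ (δ / 4) * ((u : ℝ) * u) := by
    have : (u : ℝ) ≤ u * u := le_mul_of_one_le_right (by linarith) hu1
    have h11 : (δ / 4) * (u : ℝ) ≤ (δ / 4) * (u * u) := mul_le_mul_of_nonneg_left this (by positivity)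
    linarith
  nlinarith

theorem cnt_ge (δ : ℝ) (hδ : 0 < δ) : ∀ᶠ t : ℕ in atTop, (t : ℝ) / Real.log t ^ δ ≤ cnt K t := by
  classical
  have e1 : ∀ᶠ t : ℕ in atTop, Real.log t ^ δ ≤ t := by
    have h1 := (isLittleO_log_rpow_rpow_atTop δ (show (0 : ℝ) < 1 by norm_num)).bound
      (show (0 : ℝ) < 1 by norm_num)
    have h2 := (tendsto_natCast_atTop_atTop (R := ℝ)).eventually h1
    filter_upwards [h2] with t ht
    have hl : 0 ≤ Real.log t := Real.log_natCast_nonneg t
    rw [Real.rpow_one, Real.norm_of_nonneg (by positivity), Real.norm_of_nonneg (Nat.cast_nonneg t),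
      one_mul] at ht
    exact ht
  filter_upwards [F_small δ hδ, e1, eventually_ge_atTop 2] with t h1 h2 ht
  have hlt : 0 < Real.log (t : ℝ) := Real.log_pos (by exact_mod_cast (by omega : 1 < t))
  have hp : 0 < Real.log (t : ℝ) ^ δ := Real.rpow_pos_of_pos hlt δ
  have hF0 : (0 : ℝ) < F t := by exact_mod_cast F_pos t
  have h3 : t / F t ≤ cnt K t := by
    unfold cnt
    have h4 : (Icc 1 (t / F t)).card = t / F t := by simp
    rw [← h4]
    apply card_le_card_of_injOn (fun j => j * F t)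
    · intro j hj
      have hj' := mem_Icc.1 (mem_coe.1 hj)
      have h5 : j * F t ≤ t := (Nat.le_div_iff_mul_le (F_pos t)).1 hj'.2
      rw [mem_coe, mem_filter, mem_Icc]
      refine ⟨⟨Nat.mul_pos (by omega) (F_pos t), h5⟩, ?_⟩
      show F (j * F t) ∣ j * F t
      exact (F_dvd h5).trans (Dvd.intro_left _ rfl)
    · intro a _ b _ hab
      exact Nat.eq_of_mul_eq_mul_right (F_pos t) hab
  have h3r : ((t / F t : ℕ) : ℝ) ≤ cnt K t := by exact_mod_cast h3
  have h4 : (t : ℝ) / F t - 1 ≤ ((t / F t : ℕ) : ℝ) := by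
    have h5 : t < (t / F t + 1) * F t := by
      have := Nat.lt_div_mul_add (a := t) (F_pos t)
      linarith
    have h6 : (t : ℝ) < ((t / F t : ℕ) + 1) * F t := by exact_mod_cast h5
    rw [sub_le_iff_le_add, div_le_iff₀ hF0]
    exact h6.le
  have h5 : 4 * ((t : ℝ) / Real.log t ^ δ) ≤ (t : ℝ) / F t := by
    rw [← mul_div_assoc, div_le_div_iff₀ hp hF0]
    have : (t : ℝ) * (4 * F t) ≤ t * Real.log t ^ δ := by
      apply mul_le_mul_of_nonneg_left _ (Nat.cast_nonneg t)
      linarith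
    linarith
  have h6 : 1 ≤ (t : ℝ) / Real.log t ^ δ := by
    rw [le_div_iff₀ hp]
    linarith
  linarith

end Pool.Agent.Y886.EP
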