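import Pool.Agent.TH665.GP.F3
import Pool.Agent.Y959.Sv.Up
import Pool.Agent.H305R2.MertensE

/-!
An upper bound for the number of the integers `m` for which all the `m - t` are primes, `t` running
through `k` integers which may be as large as `m`.
-/

set_option autoImplicit false

open Finset Filter Topology

namespace Pool.Agent.Y886.GI

/-- the Mertens product -/
noncomputable def V (W : ℕ) : ℝ := ∏ p ∈ (Icc 1 W).filter Nat.Prime, (1 - (p : ℝ)⁻¹)

lemma fac_pos {p : ℕ} (hp : p.Prime) : 0 < 1 - (p : ℝ)⁻¹ := by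
  have h6 : (1 : ℝ) < p := by exact_mod_cast hp.one_lt
  have h7 : (p : ℝ)⁻¹ < 1 := inv_lt_one_of_one_lt₀ h6
  linarith

lemma V_pos (W : ℕ) : 0 < V W := prod_pos fun _ hp => fac_pos (mem_filter.1 hp).2

/-- Mertens -/
lemma mer : ∃ c C : ℝ, 0 < c ∧ 0 < C ∧ ∃ W0 : ℕ, 2 ≤ W0 ∧ ∀ W : ℕ, W0 ≤ W →
    c / Real.log W ≤ V W ∧ V W ≤ C / Real.log W := by
  have h := Pool.Agent.H305R2.mertens_three
  set G := Real.exp Real.eulerMascheroniConstant with hG
  have hpos : (0 : ℝ) < G := Real.exp_pos _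
  have h1 := h.eventually (lt_mem_nhds (show G / 2 < G by linarith))
  have h2 := h.eventually (gt_mem_nhds (show G < 2 * G by linarith))
  obtain ⟨W1, hW1⟩ := eventually_atTop.1 (h1.and h2)
  refine ⟨1 / (2 * G), 2 / G, by positivity, by positivity, max W1 2, le_max_right _ _, fun W hW => ?_⟩
  have hW2 : 2 ≤ W := (le_max_right _ _).trans hW
  obtain ⟨h3, h4⟩ := hW1 W ((le_max_left _ _).trans hW)
  have hlog : 0 < Real.log W := Real.log_pos (by exact_mod_cast (by omega : 1 < W))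
  have hV0 := V_pos W
  have e : ∏ p ∈ (Icc 1 W).filter Nat.Prime, (1 - (p : ℝ)⁻¹)⁻¹ = (V W)⁻¹ := by
    unfold V
    rw [prod_inv_distrib]
  rw [e] at h3 h4
  rw [lt_div_iff₀ hlog] at h3
  rw [div_lt_iff₀ hlog] at h4
  constructor
  · rw [div_div, div_le_iff₀ (by positivity)]
    have h5 : (V W)⁻¹ * V W = 1 := inv_mul_cancel₀ hV0.ne'
    have h6 : (V W)⁻¹ * V W ≤ (2 * G * Real.log W) * V W := mul_le_mul_of_nonneg_right h4.le hV0.le
    linarith
  · rw [le_div_iff₀ hlog, le_div_iff₀ hpos]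
    have h5 : (V W)⁻¹ * V W = 1 := inv_mul_cancel₀ hV0.ne'
    have h6 : (G / 2 * Real.log W) * V W ≤ (V W)⁻¹ * V W := mul_le_mul_of_nonneg_right h3.le hV0.le
    linarith

/-- removing few primes changes the product by a constant factor only -/
lemma bad_ge (w : ℕ) (hw : 2 ≤ w) (n : ℕ) (B : Finset ℕ) (hB : ∀ p ∈ B, p.Prime ∧ w ≤ p)
    (hn : B.card ≤ n * w) : Real.exp (-(2 * n)) ≤ ∏ p ∈ B, (1 - (p : ℝ)⁻¹) := by
  have hw1 : (1 : ℝ) < w := by exact_mod_cast (by omega : 1 < w)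
  have hw0 : (0 : ℝ) < w := by linarith
  have h0 : 0 < 1 - (w : ℝ)⁻¹ := by
    have : (w : ℝ)⁻¹ < 1 := inv_lt_one_of_one_lt₀ hw1
    linarith
  have h0' : 1 - (w : ℝ)⁻¹ ≤ 1 := by
    have : 0 < (w : ℝ)⁻¹ := by positivity
    linarith
  have h1 : (1 - (w : ℝ)⁻¹) ^ B.card ≤ ∏ p ∈ B, (1 - (p : ℝ)⁻¹) := by
    rw [← prod_const]
    apply prod_le_prod (fun _ _ => h0.le)
    intro p hp
    have h2 : (w : ℝ) ≤ p := by exact_mod_cast (hB p hp).2
    have : (p : ℝ)⁻¹ ≤ (w : ℝ)⁻¹ := inv_anti₀ hw0 h2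
    linarith
  refine le_trans ?_ h1
  have h2 : (1 - (w : ℝ)⁻¹) ^ (n * w) ≤ (1 - (w : ℝ)⁻¹) ^ B.card := pow_le_pow_of_le_one h0.le h0' hn
  refine le_trans ?_ h2
  have h3 : Real.exp (-(2 / w)) ≤ 1 - (w : ℝ)⁻¹ := by
    rw [Real.exp_neg, inv_le_comm₀ (Real.exp_pos _) h0]
    have h4 : (1 - (w : ℝ)⁻¹)⁻¹ ≤ 1 + 2 / w := by
      rw [inv_le_iff_one_le_mul₀ h0]
      have h5 : (1 + 2 / (w : ℝ)) * (1 - (w : ℝ)⁻¹) = 1 + (1 / w) * (1 - 2 / w) := by
        field_simp
        ring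
      rw [h5]
      have h6 : 2 / (w : ℝ) ≤ 1 := by
        rw [div_le_one hw0]
        exact_mod_cast hw
      have h7 : 0 ≤ (1 / (w : ℝ)) * (1 - 2 / w) := mul_nonneg (by positivity) (by linarith)
      linarith
    refine h4.trans ?_
    have := Real.add_one_le_exp (2 / (w : ℝ))
    linarith
  calc Real.exp (-(2 * n)) = Real.exp (-(2 / w)) ^ (n * w) := by
        rw [← Real.exp_nat_mul]
        congr 1
        push_cast
        field_simp
    _ ≤ (1 - (w : ℝ)⁻¹) ^ (n * w) := pow_le_pow_left₀ (Real.exp_pos _).le h3 _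

/-- few large primes divide a given integer -/
lemma few (w J h : ℕ) (hw : w = Nat.log 2 J) (h1 : 1 ≤ h) (h2 : h ≤ J) (B : Finset ℕ)
    (hB : ∀ p ∈ B, p.Prime ∧ p ∣ h) : B.card ≤ w := by
  have h3 : ∏ p ∈ B, p ∣ h := by
    apply Finset.prod_primes_dvd
    · intro p hp
      exact (hB p hp).1.prime
    · intro p hp
      exact (hB p hp).2
  have h4 : 2 ^ B.card ≤ ∏ p ∈ B, p := by
    rw [← prod_const]
    exact prod_le_prod' fun p hp => (hB p hp).1.two_le
  have h5 : 2 ^ B.card ≤ J := h4.trans ((Nat.le_of_dvd h1 h3).trans h2)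
  rw [hw]
  exact Nat.le_log_of_pow_le (by norm_num) h5

/-- the primes at which `T` is not injective -/
def badp (T : Finset ℕ) (w y : ℕ) : Finset ℕ :=
  ((Ioc w y).filter Nat.Prime).filter (fun p => ¬ Set.InjOn (· % p) (T : Set ℕ))

lemma card_badp (T : Finset ℕ) (J w y : ℕ) (hw : w = Nat.log 2 J) (hT : T ⊆ range J) :
    (badp T w y).card ≤ (T.card * T.card) * w := by
  classical
  have hsub : badp T w y ⊆ (T ×ˢ T).biUnion (fun z => ((Ioc w y).filter Nat.Prime).filter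
      (fun p => z.1 < z.2 ∧ p ∣ z.2 - z.1)) := by
    intro p hp
    unfold badp at hp
    rw [mem_filter] at hp
    obtain ⟨h1, h2⟩ := hp
    unfold Set.InjOn at h2
    push Not at h2
    obtain ⟨s, hs, t, ht, h3, h4⟩ := h2
    rw [mem_biUnion]
    rcases lt_or_gt_of_ne h4 with h5 | h5
    · refine ⟨(s, t), by rw [mem_product]; exact ⟨hs, ht⟩, ?_⟩
      rw [mem_filter]
      exact ⟨h1, h5, (Nat.modEq_iff_dvd' h5.le).1 h3⟩
    · refine ⟨(t, s), by rw [mem_product]; exact ⟨ht, hs⟩, ?_⟩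
      rw [mem_filter]
      exact ⟨h1, h5, (Nat.modEq_iff_dvd' h5.le).1 h3.symm⟩
  refine (card_le_card hsub).trans ?_
  rw [← card_product]
  apply card_biUnion_le_card_mul
  intro z hz
  rw [mem_product] at hz
  by_cases h : z.1 < z.2
  · apply few w J (z.2 - z.1) hw (by omega)
    · have := mem_range.1 (hT hz.2)
      omega
    · intro p hp
      rw [mem_filter, mem_filter] at hp
      exact ⟨hp.1.2, hp.2.2⟩
  · have : ((Ioc w y).filter Nat.Prime).filter (fun p => z.1 < z.2 ∧ p ∣ z.2 - z.1) = ∅ := by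
      apply filter_eq_empty_iff.2
      rintro p - ⟨h1, -⟩
      exact h h1
    rw [this, card_empty]
    exact Nat.zero_le _

end Pool.Agent.Y886.GI
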