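import Pool.Agent.Y886.GIA

set_option autoImplicit false

open Finset Filter Topology

namespace Pool.Agent.Y886.GI

/-- a power of `X` -/
lemma floor_pow {κ : ℝ} (hκ : 0 < κ) (y₀ : ℕ) : ∀ᶠ X : ℕ in atTop,
    y₀ ≤ ⌊(X : ℝ) ^ κ⌋₊ ∧ κ / 2 * Real.log X ≤ Real.log (⌊(X : ℝ) ^ κ⌋₊ : ℕ) := by
  have tN : Tendsto (fun N : ℕ => (N : ℝ)) atTop atTop := tendsto_natCast_atTop_atTop
  have t1 : Tendsto (fun N : ℕ => (N : ℝ) ^ (κ / 2)) atTop atTop :=
    (tendsto_rpow_atTop (by positivity)).comp tN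
  filter_upwards [t1.eventually_ge_atTop (max 2 (y₀ : ℝ)), eventually_ge_atTop 1] with X h1 hX1
  have hX0 : (0 : ℝ) < X := by exact_mod_cast hX1
  set u : ℝ := (X : ℝ) ^ (κ / 2) with hu
  have hu2 : 2 ≤ u := (le_max_left _ _).trans h1
  have huy : (y₀ : ℝ) ≤ u := (le_max_right _ _).trans h1
  have e : (X : ℝ) ^ κ = u * u := by
    rw [hu, ← Real.rpow_add hX0]; congr 1; ring
  have h3 : u ≤ (⌊(X : ℝ) ^ κ⌋₊ : ℝ) := by
    have := Nat.lt_floor_add_one ((X : ℝ) ^ κ)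
    rw [e] at this ⊢
    nlinarith
  refine ⟨by exact_mod_cast huy.trans h3, ?_⟩
  have h4 := Real.log_le_log (by linarith) h3
  rw [hu, Real.log_rpow hX0] at h4
  exact h4

/-- the good primes: `T` is injective modulo `p` -/
def goodp (T : Finset ℕ) (w y : ℕ) : Finset ℕ :=
  ((Ioc w y).filter Nat.Prime).filter (fun p => Set.InjOn (· % p) (T : Set ℕ))

lemma nu_good (T : Finset ℕ) {p : ℕ} (hp : 0 < p) (h : Set.InjOn (· % p) (T : Set ℕ)) :
    Pool.Agent.Y959.Sv.nu (fun p n => ∃ t ∈ T, n ≡ t [MOD p]) p = T.card := by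
  classical
  unfold Pool.Agent.Y959.Sv.nu
  rw [← card_image_of_injOn h]
  congr 1
  ext r
  simp only [mem_filter, mem_range, mem_image]
  constructor
  · rintro ⟨h1, t, ht, h2⟩
    exact ⟨t, ht, by rw [← h2]; exact Nat.mod_eq_of_lt h1⟩
  · rintro ⟨t, ht, rfl⟩
    exact ⟨Nat.mod_lt _ hp, t, ht, Nat.mod_modEq t p⟩

lemma good_mul_bad (T : Finset ℕ) (w y : ℕ) :
    (∏ p ∈ goodp T w y, (1 - (p : ℝ)⁻¹)) * ∏ p ∈ badp T w y, (1 - (p : ℝ)⁻¹) =
      ∏ p ∈ (Ioc w y).filter Nat.Prime, (1 - (p : ℝ)⁻¹) :=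
  prod_filter_mul_prod_filter_not _ _ _

lemma V_mul {w y : ℕ} (h : w ≤ y) :
    V w * ∏ p ∈ (Ioc w y).filter Nat.Prime, (1 - (p : ℝ)⁻¹) = V y := by
  unfold V
  rw [← prod_union]
  · apply prod_congr _ (fun _ _ => rfl)
    ext p
    simp only [mem_union, mem_filter, mem_Icc, mem_Ioc]
    constructor
    · rintro (⟨⟨h1, h2⟩, h3⟩ | ⟨⟨h1, h2⟩, h3⟩)
      · exact ⟨⟨h1, h2.trans h⟩, h3⟩
      · exact ⟨⟨h3.one_lt.le, h2⟩, h3⟩
    · rintro ⟨⟨h1, h2⟩, h3⟩
      rcases le_or_gt p w with h4 | h4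
      · exact Or.inl ⟨⟨h1, h4⟩, h3⟩
      · exact Or.inr ⟨⟨h4, h2⟩, h3⟩
  · rw [disjoint_left]
    intro p h1 h2
    rw [mem_filter, mem_Icc] at h1
    rw [mem_filter, mem_Ioc] at h2
    omega

/-- the product over the good primes -/
lemma good_le (T : Finset ℕ) {J w y : ℕ} (hw : w = Nat.log 2 J) (hw2 : 2 ≤ w) (hwy : w ≤ y)
    (hT : T ⊆ range J) (hk : ∀ p ∈ goodp T w y, T.card ≤ p) :
    ∏ p ∈ goodp T w y, (1 - (T.card : ℝ) / p) ≤
      (Real.exp (2 * (T.card * T.card : ℕ)) * (V y / V w)) ^ T.card := by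
  classical
  have hVw := V_pos w
  have hgp : ∀ p ∈ goodp T w y, p.Prime := fun p hp => (mem_filter.1 (mem_filter.1 hp).1).2
  have h1 : ∏ p ∈ goodp T w y, (1 - (T.card : ℝ) / p) ≤
      (∏ p ∈ goodp T w y, (1 - (p : ℝ)⁻¹)) ^ T.card := by
    rw [← prod_pow]
    apply Finset.prod_le_prod
    · intro p hp
      have hp0 : (0 : ℝ) < p := by exact_mod_cast (hgp p hp).pos
      have : (T.card : ℝ) / p ≤ 1 := by
        rw [div_le_one hp0]
        exact_mod_cast hk p hp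
      linarith
    · intro p hp
      have hp1 : (1 : ℝ) ≤ p := by exact_mod_cast (hgp p hp).one_lt.le
      have h2 : -2 ≤ -(p : ℝ)⁻¹ := by
        have : (p : ℝ)⁻¹ ≤ 1 := inv_le_one_of_one_le₀ hp1
        linarith
      have h3 := one_add_mul_le_pow h2 T.card
      calc 1 - (T.card : ℝ) / p = 1 + T.card * -(p : ℝ)⁻¹ := by
            rw [div_eq_mul_inv]; ring
        _ ≤ (1 + -(p : ℝ)⁻¹) ^ T.card := h3
        _ = _ := by rw [← sub_eq_add_neg]
  refine h1.trans ?_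
  have hg0 : 0 ≤ ∏ p ∈ goodp T w y, (1 - (p : ℝ)⁻¹) := prod_nonneg fun p hp => (fac_pos (hgp p hp)).le
  apply pow_le_pow_left₀ hg0
  have h2 := good_mul_bad T w y
  have h3 := V_mul hwy
  have h4 : Real.exp (-(2 * (T.card * T.card : ℕ))) ≤ ∏ p ∈ badp T w y, (1 - (p : ℝ)⁻¹) := by
    apply bad_ge w hw2 (T.card * T.card) _ _ (card_badp T J w y hw hT)
    intro p hp
    have h5 := mem_filter.1 (mem_filter.1 hp).1
    exact ⟨h5.2, (mem_Ioc.1 h5.1).1.le⟩
  set G := ∏ p ∈ goodp T w y, (1 - (p : ℝ)⁻¹) with hG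
  set B := ∏ p ∈ badp T w y, (1 - (p : ℝ)⁻¹) with hB
  have h5 : V y / V w = G * B := by
    rw [h2, ← h3]
    field_simp
  rw [h5]
  rw [Real.exp_neg] at h4
  set E := Real.exp (2 * (T.card * T.card : ℕ)) with hE
  have hE0 : 0 < E := Real.exp_pos _
  have h6 : 1 ≤ E * B := by
    have : E * E⁻¹ ≤ E * B := mul_le_mul_of_nonneg_left h4 hE0.le
    rwa [mul_inv_cancel₀ hE0.ne'] at this
  calc G = G * 1 := (mul_one _).symm
    _ ≤ G * (E * B) := mul_le_mul_of_nonneg_left h6 hg0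
    _ = _ := by ring

/-- **The upper bound** -/
theorem tup (k : ℕ) (hk1 : 1 ≤ k) : ∃ C : ℝ, 0 < C ∧ ∃ J0 : ℕ, ∀ J : ℕ, J0 ≤ J → ∀ T ⊆ range J, T.card = k →
    (((Icc 1 (2 * J)).filter (fun m => ∀ t ∈ T, t < m ∧ (m - t).Prime)).card : ℝ) ≤
      C * J * (Real.log (Real.log J) / Real.log J) ^ k := by
  classical
  obtain ⟨K, z0, hK, hup⟩ := Pool.Agent.Y959.Sv.up_sieve k
  obtain ⟨c0, C0, hc0, hC0, W0, hW02, hW0⟩ := mer
  have hK0 : (0 : ℝ) < K := by exact_mod_cast hK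
  set κ : ℝ := 1 / (2 * K) with hκ
  have hκ0 : 0 < κ := by positivity
  set E : ℝ := Real.exp (2 * (k * k : ℕ)) with hE
  have hE0 : 0 < E := Real.exp_pos _
  set D : ℝ := E * (C0 * (4 / κ) / c0) with hD
  have hD0 : 0 < D := by positivity
  have tN : Tendsto (fun N : ℕ => (N : ℝ)) atTop atTop := tendsto_natCast_atTop_atTop
  have tL : Tendsto (fun N : ℕ => Real.log (N : ℝ)) atTop atTop := Real.tendsto_log_atTop.comp tN
  have tLL : Tendsto (fun N : ℕ => Real.log (Real.log (N : ℝ))) atTop atTop :=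
    Real.tendsto_log_atTop.comp tL
  have tlog : Tendsto (fun N : ℕ => Nat.log 2 N) atTop atTop := by
    apply Filter.tendsto_atTop_atTop.2
    intro b
    exact ⟨2 ^ b, fun a ha => Nat.le_log_of_pow_le (by norm_num) ha⟩
  have hsmall : ∀ᶠ J : ℕ in atTop, Real.log (J : ℝ) ^ k * √(2 * J : ℝ) ≤ J := by
    have h1 : (fun x : ℝ => Real.log x ^ k) =o[atTop] (fun x : ℝ => x ^ (1 / 2 : ℝ)) := by
      have := isLittleO_log_rpow_rpow_atTop (k : ℝ) (show (0 : ℝ) < 1 / 2 by norm_num)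
      simpa [Real.rpow_natCast] using this
    have h2 := (h1.bound (show (0 : ℝ) < 1 / 2 by norm_num))
    filter_upwards [tN.eventually h2, eventually_ge_atTop 1] with X hX hX1
    have hX0 : (0 : ℝ) ≤ X := Nat.cast_nonneg X
    have hlog : 0 ≤ Real.log (X : ℝ) := Real.log_natCast_nonneg X
    rw [Real.norm_of_nonneg (by positivity), Real.norm_of_nonneg (by positivity),
      ← Real.sqrt_eq_rpow] at hX
    have h3 : √(2 * X : ℝ) ≤ 2 * √(X : ℝ) := by
      rw [Real.sqrt_le_left (by positivity)]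
      have := Real.mul_self_sqrt hX0
      nlinarith
    calc Real.log (X : ℝ) ^ k * √(2 * X : ℝ) ≤ (1 / 2 * √(X : ℝ)) * (2 * √(X : ℝ)) := by gcongr
      _ = √(X : ℝ) * √(X : ℝ) := by ring
      _ = X := Real.mul_self_sqrt hX0
  obtain ⟨J0, hJ0⟩ := eventually_atTop.1 ((floor_pow hκ0 3).and (hsmall.and
    ((tLL.eventually_ge_atTop 1).and ((tlog.eventually_ge_atTop (max (max z0 k) (max W0 2))).and
      (eventually_ge_atTop 4)))))
  have hfl : ∀ᶠ J : ℕ in atTop, Nat.log 2 J ≤ ⌊(J : ℝ) ^ κ⌋₊ := by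
    have h1 := (isLittleO_log_rpow_atTop hκ0).bound (show (0 : ℝ) < 1 / 2 by norm_num)
    filter_upwards [tN.eventually h1, eventually_ge_atTop 1] with J h2 hJ1
    have hJ0 : (0 : ℝ) < J := by exact_mod_cast hJ1
    have hl : 0 ≤ Real.log (J : ℝ) := Real.log_natCast_nonneg J
    rw [Real.norm_of_nonneg hl, Real.norm_of_nonneg (by positivity)] at h2
    apply Nat.le_floor
    have h7 : 2 ^ Nat.log 2 J ≤ J := Nat.pow_log_le_self 2 (by omega)
    have h8 : ((2 : ℝ) ^ Nat.log 2 J) ≤ J := by exact_mod_cast h7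
    have h9 := Real.log_le_log (by positivity) h8
    rw [Real.log_pow] at h9
    have h10 : (0.5 : ℝ) ≤ Real.log 2 := by
      have := Real.log_two_gt_d9
      linarith
    have h11 : (0 : ℝ) ≤ Nat.log 2 J := Nat.cast_nonneg _
    nlinarith
  obtain ⟨J1, hJ1⟩ := eventually_atTop.1 hfl
  refine ⟨4 * D ^ k + 1 + k, by positivity, max J0 J1, fun J hJ T hT hcard => ?_⟩
  obtain ⟨⟨hy3, hylog⟩, hsm, hLL, hwl, hJ4⟩ := hJ0 J ((le_max_left _ _).trans hJ)
  have hwy := hJ1 J ((le_max_right _ _).trans hJ)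
  set y : ℕ := ⌊(J : ℝ) ^ κ⌋₊ with hy
  set w : ℕ := Nat.log 2 J with hw
  have hwz0 : z0 ≤ w := (le_max_left _ _).trans ((le_max_left _ _).trans hwl)
  have hwk : k ≤ w := (le_max_right _ _).trans ((le_max_left _ _).trans hwl)
  have hwW0 : W0 ≤ w := (le_max_left _ _).trans ((le_max_right _ _).trans hwl)
  have hw2 : 2 ≤ w := (le_max_right _ _).trans ((le_max_right _ _).trans hwl)
  have hJr0 : (0 : ℝ) < J := by exact_mod_cast (by omega : 0 < J)
  set L := Real.log (J : ℝ) with hL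
  have hL0 : 0 < L := Real.log_pos (by exact_mod_cast (by omega : 1 < J))
  have hL1 : 1 ≤ L := by
    have h1 : Real.log L ≤ L - 1 := Real.log_le_sub_one_of_pos hL0
    linarith
  have hyK : y ^ K ≤ 2 * J := by
    have h5 : (y : ℝ) ≤ (J : ℝ) ^ κ := Nat.floor_le (by positivity)
    have h6 : ((y : ℝ)) ^ K ≤ √(J : ℝ) := by
      calc ((y : ℝ)) ^ K ≤ ((J : ℝ) ^ κ) ^ K := pow_le_pow_left₀ (Nat.cast_nonneg _) h5 K
        _ = √(J : ℝ) := by
            rw [← Real.rpow_natCast, ← Real.rpow_mul hJr0.le, hκ]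
            have e : 1 / (2 * (K : ℝ)) * K = 1 / 2 := by field_simp
            rw [e, ← Real.sqrt_eq_rpow]
    have h7 : √(J : ℝ) ≤ 2 * J := by
      rw [Real.sqrt_le_left (by positivity)]
      have : (1 : ℝ) ≤ J := by exact_mod_cast (by omega : 1 ≤ J)
      nlinarith
    exact_mod_cast h6.trans h7
  have hysq : (y : ℝ) ≤ √(2 * J : ℝ) := by
    have h5 : (y : ℝ) ≤ (J : ℝ) ^ κ := Nat.floor_le (by positivity)
    have h6 : (J : ℝ) ^ κ ≤ (J : ℝ) ^ (1 / 2 : ℝ) := by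
      apply Real.rpow_le_rpow_of_exponent_le
      · exact_mod_cast (by omega : 1 ≤ J)
      · rw [hκ]
        apply div_le_div_of_nonneg_left (by norm_num) (by norm_num)
        have : (1 : ℝ) ≤ K := by exact_mod_cast hK
        linarith
    rw [← Real.sqrt_eq_rpow] at h6
    refine h5.trans (h6.trans (Real.sqrt_le_sqrt (by linarith)))
  -- the sieve
  set Q : ℕ → ℕ → Prop := fun p n => ∃ t ∈ T, n ≡ t [MOD p] with hQ
  have hgood : ∀ p ∈ goodp T w y, p.Prime ∧ w < p ∧ p ≤ y ∧ Set.InjOn (· % p) (T : Set ℕ) := by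
    intro p hp
    have h5 := mem_filter.1 hp
    have h6 := mem_filter.1 h5.1
    have h7 := mem_Ioc.1 h6.1
    exact ⟨h6.2, h7.1, h7.2, h5.2⟩
  have key := hup y (2 * J) hy3 hyK Q (by
      intro p n
      simp only [hQ]
      apply exists_congr
      intro t
      constructor
      · rintro ⟨h1, h2⟩
        exact ⟨h1, (Nat.mod_modEq n p).trans h2⟩
      · rintro ⟨h1, h2⟩
        exact ⟨h1, (Nat.mod_modEq n p).symm.trans h2⟩) (goodp T w y) (by
      intro p hp
      obtain ⟨a1, a2, a3, a4⟩ := hgood p hp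
      refine ⟨a1, by omega, a3, ?_⟩
      rw [nu_good T a1.pos a4, hcard])
  have hprod : ∏ p ∈ goodp T w y, (1 - (Pool.Agent.Y959.Sv.nu Q p : ℝ) / p) =
      ∏ p ∈ goodp T w y, (1 - (T.card : ℝ) / p) := by
    apply prod_congr rfl
    intro p hp
    obtain ⟨a1, a2, a3, a4⟩ := hgood p hp
    rw [nu_good T a1.pos a4]
  rw [hprod] at key
  have hgl := good_le T hw hw2 hwy hT (by
    intro p hp
    obtain ⟨a1, a2, a3, a4⟩ := hgood p hp
    omega)
  rw [hcard] at hgl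
  -- the size of the product
  have hVy := (hW0 y (hwW0.trans hwy)).2
  have hVw := (hW0 w hwW0).1
  have hw0 : (0 : ℝ) < w := by exact_mod_cast (by omega : 0 < w)
  have hlw0 : 0 < Real.log w := Real.log_pos (by exact_mod_cast (by omega : 1 < w))
  have hly0 : 0 < Real.log y := Real.log_pos (by exact_mod_cast (by omega : 1 < y))
  have hlw : Real.log w ≤ 2 * Real.log L := by
    have h7 : 2 ^ Nat.log 2 J ≤ J := Nat.pow_log_le_self 2 (by omega)
    have h8 : ((2 : ℝ) ^ w) ≤ J := by exact_mod_cast h7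
    have h9 := Real.log_le_log (by positivity) h8
    rw [Real.log_pow] at h9
    have h10 : (0.5 : ℝ) ≤ Real.log 2 := by
      have := Real.log_two_gt_d9
      linarith
    have h11 : (w : ℝ) ≤ 2 * L := by nlinarith
    have h12 := Real.log_le_log hw0 h11
    rw [Real.log_mul (by norm_num) hL0.ne'] at h12
    have := Real.log_two_lt_d9
    linarith
  have hVV : V y / V w ≤ (C0 * (4 / κ) / c0) * (Real.log L / L) := by
    have hV0 := V_pos w
    have h1 : V y / V w ≤ (C0 / Real.log y) / (c0 / Real.log w) := by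
      apply div_le_div₀ (by positivity) hVy (by positivity) hVw
    refine h1.trans ?_
    have h2 : (C0 / Real.log y) / (c0 / Real.log w) = C0 / c0 * (Real.log w / Real.log y) := by
      field_simp
    rw [h2]
    have h3 : Real.log w / Real.log y ≤ (2 * Real.log L) / (κ / 2 * L) :=
      div_le_div₀ (by positivity) hlw (by positivity) hylog
    calc C0 / c0 * (Real.log w / Real.log y) ≤ C0 / c0 * ((2 * Real.log L) / (κ / 2 * L)) := by
          apply mul_le_mul_of_nonneg_left h3 (by positivity)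
      _ = _ := by
          field_simp
          ring
  have hgl2 : ∏ p ∈ goodp T w y, (1 - (T.card : ℝ) / p) ≤ D ^ k * (Real.log L / L) ^ k := by
    rw [hcard]
    refine hgl.trans ?_
    rw [← mul_pow]
    apply pow_le_pow_left₀
    · have := V_pos w
      have := V_pos y
      positivity
    · calc E * (V y / V w) ≤ E * ((C0 * (4 / κ) / c0) * (Real.log L / L)) :=
            mul_le_mul_of_nonneg_left hVV hE0.le
        _ = _ := by rw [hD]; ring
  -- comparison of the sets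
  have hsub : (Icc 1 (2 * J)).filter (fun m => ∀ t ∈ T, t < m ∧ (m - t).Prime) ⊆
      ((Icc 1 (2 * J)).filter (fun n : ℕ => ∀ p ∈ goodp T w y, ¬ Q p n)) ∪
        (T ×ˢ Icc 1 y).image (fun z => z.1 + z.2) := by
    intro m hm
    rw [mem_filter] at hm
    obtain ⟨h1, h2⟩ := hm
    rw [mem_union]
    by_cases h3 : ∃ t ∈ T, m - t ≤ y
    · right
      obtain ⟨t, ht, h4⟩ := h3
      rw [mem_image]
      have h5 := h2 t ht
      refine ⟨(t, m - t), ?_, by simp only; omega⟩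
      rw [mem_product, mem_Icc]
      exact ⟨ht, by simp only; omega, h4⟩
    · left
      push Not at h3
      rw [mem_filter]
      refine ⟨h1, ?_⟩
      rintro p hp ⟨t, ht, h4⟩
      obtain ⟨a1, a2, a3, a4⟩ := hgood p hp
      have h5 := h2 t ht
      have h6 := h3 t ht
      have h7 : p ∣ m - t := (Nat.modEq_iff_dvd' h5.1.le).1 h4.symm
      have h8 := (Nat.prime_dvd_prime_iff_eq a1 h5.2).1 h7
      omega
  have hcnt : (((Icc 1 (2 * J)).filter (fun m => ∀ t ∈ T, t < m ∧ (m - t).Prime)).card : ℝ) ≤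
      (((Icc 1 (2 * J)).filter (fun n : ℕ => ∀ p ∈ goodp T w y, ¬ Q p n)).card : ℝ) + k * y := by
    have h1 := (card_le_card hsub).trans (card_union_le _ _)
    have h2 : ((T ×ˢ Icc 1 y).image (fun z => z.1 + z.2)).card ≤ k * y := by
      refine card_image_le.trans ?_
      rw [card_product, hcard, Nat.card_Icc, Nat.add_sub_cancel]
    exact_mod_cast h1.trans (Nat.add_le_add_left h2 _)
  have hkey2 : (((Icc 1 (2 * J)).filter (fun n : ℕ => ∀ p ∈ goodp T w y, ¬ Q p n)).card : ℝ) ≤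
      2 * ((2 * J : ℕ) * ∏ p ∈ goodp T w y, (1 - (T.card : ℝ) / p)) + √((2 * J : ℕ) : ℝ) := by
    refine le_trans (le_of_eq ?_) key
    congr!
  push_cast at hkey2
  have hsq0 : 0 ≤ √(2 * J : ℝ) := Real.sqrt_nonneg _
  have hLk : 0 < L ^ k := by positivity
  have hsq : √(2 * J : ℝ) ≤ J * (Real.log L / L) ^ k := by
    rw [div_pow, mul_div_assoc', le_div_iff₀ hLk]
    have h1 : 1 ≤ Real.log L ^ k := one_le_pow₀ hLL
    calc √(2 * J : ℝ) * L ^ k = L ^ k * √(2 * J : ℝ) := mul_comm _ _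
      _ ≤ J := hsm
      _ ≤ J * Real.log L ^ k := le_mul_of_one_le_right hJr0.le h1
  have hk0 : (0 : ℝ) ≤ k := Nat.cast_nonneg _
  have hky : (k : ℝ) * y ≤ k * (J * (Real.log L / L) ^ k) :=
    mul_le_mul_of_nonneg_left (hysq.trans hsq) hk0
  have h9 : 2 * (2 * (J : ℝ) * ∏ p ∈ goodp T w y, (1 - (T.card : ℝ) / p)) ≤
      4 * J * (D ^ k * (Real.log L / L) ^ k) := by
    have h10 := mul_le_mul_of_nonneg_left hgl2 (show (0 : ℝ) ≤ 4 * J by positivity)
    linarith
  have e : (4 * D ^ k + 1 + k) * J * (Real.log L / L) ^ k =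
      4 * J * (D ^ k * (Real.log L / L) ^ k) + J * (Real.log L / L) ^ k +
        k * (J * (Real.log L / L) ^ k) := by ring
  rw [e]
  linarith

end Pool.Agent.Y886.GI
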