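import Pool.Agent.Y886.GIB

/-!
The size of a sumset from the number of the translates of `k`-sets which are contained in a set.
-/

set_option autoImplicit false

open Finset Filter Topology

namespace Pool.Agent.Y886.GI

open Pool.Agent.TH665.GP (TT mem_TT PI_prime energy)
open Pool.Agent.H197R2.PG (PI)

/-- the sums -/
def sums (P Q : Finset ℕ) : Finset ℕ := (P ×ˢ Q).image (fun z => z.2 + z.1)

lemma mem_sums {P Q : Finset ℕ} {m : ℕ} : m ∈ sums P Q ↔ ∃ p ∈ P, ∃ q ∈ Q, q + p = m := by
  unfold sums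
  rw [mem_image]
  constructor
  · rintro ⟨z, hz, h⟩
    rw [mem_product] at hz
    exact ⟨z.1, hz.1, z.2, hz.2, h⟩
  · rintro ⟨p, hp, q, hq, h⟩
    exact ⟨(p, q), mem_product.2 ⟨hp, hq⟩, h⟩

/-- the elements of `Q` used in the representations of `m` -/
def rq (P Q : Finset ℕ) (m : ℕ) : Finset ℕ := Q.filter (fun q => q < m ∧ m - q ∈ P)

lemma sum_rq (P Q : Finset ℕ) (hP : ∀ p ∈ P, 0 < p) :
    ∑ m ∈ sums P Q, (rq P Q m).card = P.card * Q.card := by
  classical
  rw [← card_product]
  unfold sums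
  rw [card_eq_sum_card_image (fun z : ℕ × ℕ => z.2 + z.1) (P ×ˢ Q)]
  apply sum_congr rfl
  intro m _
  symm
  apply card_bij (fun z _ => z.2)
  · intro z hz
    rw [mem_filter, mem_product] at hz
    unfold rq
    rw [mem_filter]
    have := hP _ hz.1.1
    refine ⟨hz.1.2, by omega, ?_⟩
    have e : m - z.2 = z.1 := by omega
    rw [e]
    exact hz.1.1
  · intro z hz z' hz' h
    rw [mem_filter, mem_product] at hz hz'
    exact Prod.ext (by omega) h
  · intro q hq
    unfold rq at hq
    rw [mem_filter] at hq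
    refine ⟨(m - q, q), ?_, rfl⟩
    rw [mem_filter, mem_product]
    exact ⟨⟨hq.2.2, hq.1⟩, by simp only; omega⟩

lemma sum_choose (P Q : Finset ℕ) (k : ℕ) (U : ℝ) (hU : 0 ≤ U)
    (hT : ∀ T ⊆ Q, T.card = k →
      (((sums P Q).filter (fun m => ∀ t ∈ T, t < m ∧ m - t ∈ P)).card : ℝ) ≤ U) :
    ∑ m ∈ sums P Q, (k.factorial * ((rq P Q m).card.choose k : ℝ)) ≤ (Q.card : ℝ) ^ k * U := by
  classical
  have h1 : ∑ m ∈ sums P Q, ((rq P Q m).card.choose k) =
      ∑ T ∈ powersetCard k Q, ((sums P Q).filter (fun m => ∀ t ∈ T, t < m ∧ m - t ∈ P)).card := by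
    have e1 : ∀ m, ((rq P Q m).card.choose k) =
        ∑ T ∈ powersetCard k Q, (if ∀ t ∈ T, t < m ∧ m - t ∈ P then 1 else 0) := by
      intro m
      rw [← card_powersetCard, ← card_filter]
      congr 1
      ext T
      rw [mem_powersetCard, mem_filter, mem_powersetCard]
      unfold rq
      constructor
      · rintro ⟨h1, h2⟩
        refine ⟨⟨fun t ht => (mem_filter.1 (h1 ht)).1, h2⟩, fun t ht => (mem_filter.1 (h1 ht)).2⟩
      · rintro ⟨⟨h1, h2⟩, h3⟩
        exact ⟨fun t ht => mem_filter.2 ⟨h1 ht, h3 t ht⟩, h2⟩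
    calc ∑ m ∈ sums P Q, ((rq P Q m).card.choose k)
        = ∑ m ∈ sums P Q, ∑ T ∈ powersetCard k Q, (if ∀ t ∈ T, t < m ∧ m - t ∈ P then 1 else 0) :=
          sum_congr rfl fun m _ => e1 m
      _ = ∑ T ∈ powersetCard k Q, ∑ m ∈ sums P Q, (if ∀ t ∈ T, t < m ∧ m - t ∈ P then 1 else 0) :=
          sum_comm
      _ = _ := by
          apply sum_congr rfl
          intro T _
          rw [card_filter]
  rw [← mul_sum]
  have h2 : (∑ m ∈ sums P Q, ((rq P Q m).card.choose k : ℝ)) ≤ (Q.card.choose k) * U := by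
    have h3 : (∑ m ∈ sums P Q, ((rq P Q m).card.choose k : ℝ)) =
        ∑ T ∈ powersetCard k Q,
          (((sums P Q).filter (fun m => ∀ t ∈ T, t < m ∧ m - t ∈ P)).card : ℝ) := by
      exact_mod_cast h1
    rw [h3, ← card_powersetCard, ← nsmul_eq_mul]
    apply sum_le_card_nsmul
    intro T hT'
    rw [mem_powersetCard] at hT'
    exact hT T hT'.1 hT'.2
  have h4 : (k.factorial : ℝ) * (Q.card.choose k) ≤ (Q.card : ℝ) ^ k := by
    have := Nat.descFactorial_le_pow Q.card k
    rw [Nat.descFactorial_eq_factorial_mul_choose] at this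
    exact_mod_cast this
  calc (k.factorial : ℝ) * ∑ m ∈ sums P Q, ((rq P Q m).card.choose k : ℝ)
      ≤ k.factorial * ((Q.card.choose k) * U) := mul_le_mul_of_nonneg_left h2 (Nat.cast_nonneg _)
    _ = (k.factorial * (Q.card.choose k)) * U := by ring
    _ ≤ _ := mul_le_mul_of_nonneg_right h4 hU

lemma pw (r k : ℕ) : (r : ℝ) ^ k ≤ (2 * k) ^ k + 2 ^ k * (k.factorial * (r.choose k : ℝ)) := by
  have h0 : (0 : ℝ) ≤ 2 ^ k * (k.factorial * (r.choose k : ℝ)) := by positivity
  rcases le_or_gt r (2 * k) with h | h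
  · have h1 : (r : ℝ) ^ k ≤ (2 * k) ^ k := by
      apply pow_le_pow_left₀ (Nat.cast_nonneg _)
      exact_mod_cast h
    linarith
  · have h1 : (0 : ℝ) ≤ (2 * k) ^ k := by positivity
    have h2 := Nat.pow_sub_le_descFactorial r k
    rw [Nat.descFactorial_eq_factorial_mul_choose] at h2
    have h3 : r ^ k ≤ 2 ^ k * (k.factorial * r.choose k) := by
      calc r ^ k ≤ (2 * (r + 1 - k)) ^ k := Nat.pow_le_pow_left (by omega) k
        _ = 2 ^ k * (r + 1 - k) ^ k := mul_pow _ _ _
        _ ≤ _ := Nat.mul_le_mul_left _ h2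
    have h4 : (r : ℝ) ^ k ≤ 2 ^ k * (k.factorial * (r.choose k : ℝ)) := by exact_mod_cast h3
    linarith

/-- the moment inequality -/
lemma holder (n : ℕ) (P Q : Finset ℕ) (hP : ∀ p ∈ P, 0 < p) (U : ℝ) (hU : 0 ≤ U)
    (hT : ∀ T ⊆ Q, T.card = n + 1 →
      (((sums P Q).filter (fun m => ∀ t ∈ T, t < m ∧ m - t ∈ P)).card : ℝ) ≤ U) :
    ((P.card : ℝ) * Q.card) ^ (n + 1) ≤ ((sums P Q).card : ℝ) ^ n *
      ((2 * ((n + 1 : ℕ) : ℝ)) ^ (n + 1) * (sums P Q).card + 2 ^ (n + 1) * ((Q.card : ℝ) ^ (n + 1) * U)) := by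
  classical
  rcases (sums P Q).eq_empty_or_nonempty with h0 | h0
  · have h1 : P.card * Q.card = 0 := by
      rw [← sum_rq P Q hP, h0, sum_empty]
    have h2 : (P.card : ℝ) * Q.card = 0 := by exact_mod_cast h1
    rw [h2, zero_pow (by omega)]
    positivity
  have h1 := pow_sum_div_card_le_sum_pow (s := sums P Q) (f := fun m => ((rq P Q m).card : ℝ))
    (fun _ _ => Nat.cast_nonneg _) n
  have hpos : (0 : ℝ) < ((sums P Q).card : ℝ) ^ n := by
    have : 0 < (sums P Q).card := h0.card_pos
    positivity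
  rw [div_le_iff₀' hpos] at h1
  have h2 : ∑ m ∈ sums P Q, ((rq P Q m).card : ℝ) = (P.card : ℝ) * Q.card := by
    exact_mod_cast sum_rq P Q hP
  rw [h2] at h1
  refine h1.trans ?_
  apply mul_le_mul_of_nonneg_left _ hpos.le
  calc ∑ m ∈ sums P Q, ((rq P Q m).card : ℝ) ^ (n + 1)
      ≤ ∑ m ∈ sums P Q, ((2 * ((n + 1 : ℕ) : ℝ)) ^ (n + 1) +
        2 ^ (n + 1) * ((n + 1).factorial * ((rq P Q m).card.choose (n + 1) : ℝ))) :=
        sum_le_sum fun m _ => pw _ _
    _ = (2 * ((n + 1 : ℕ) : ℝ)) ^ (n + 1) * (sums P Q).card +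
        2 ^ (n + 1) * ∑ m ∈ sums P Q, ((n + 1).factorial * ((rq P Q m).card.choose (n + 1) : ℝ)) := by
        rw [sum_add_distrib, sum_const, nsmul_eq_mul, ← mul_sum]
        ring
    _ ≤ _ := by
        have h3 := sum_choose P Q (n + 1) U hU hT
        have h4 : (2 : ℝ) ^ (n + 1) * ∑ m ∈ sums P Q,
            ((n + 1).factorial * ((rq P Q m).card.choose (n + 1) : ℝ)) ≤
              2 ^ (n + 1) * ((Q.card : ℝ) ^ (n + 1) * U) :=
          mul_le_mul_of_nonneg_left h3 (by positivity)
        linarith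

/-- the window of index `i` -/
def win (J : ℕ) (Q : Finset ℕ) (i : ℕ) : Finset ℕ := Q.filter (fun q => q / J = i)

/-- many windows with many elements -/
lemma big (a X J : ℕ) (hJ : 1 ≤ J) (Q : Finset ℕ) (hQ : Q ⊆ range X) (hQa : ∀ q ∈ Q, PI a q)
    (M : ℝ) (hM0 : 0 ≤ M) (hM : ((X / J : ℕ) + 1 : ℝ) * M ≤ Q.card / 2) :
    ((Q.card : ℝ) / 2) ^ 2 ≤
      (((range (X / J + 1)).filter (fun i => M ≤ (win J Q i).card)).card : ℝ) *
        (Q.card + 2 * (TT a X J).card) := by
  classical
  set I := (range (X / J + 1)).filter (fun i => M ≤ (win J Q i).card) with hI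
  set Z := Q.filter (fun q => q / J ∈ I) with hZ
  have hdiv : ∀ q ∈ Q, q / J ∈ range (X / J + 1) := by
    intro q hq
    have := mem_range.1 (hQ hq)
    rw [mem_range]
    exact Nat.lt_succ_of_le (Nat.div_le_div_right this.le)
  -- the small windows
  have h1 : (Q.card : ℝ) / 2 ≤ Z.card := by
    have e1 : Q.card = Z.card + (Q.filter (fun q => ¬ q / J ∈ I)).card :=
      (card_filter_add_card_filter_not _).symm
    have e2 : ((Q.filter (fun q => ¬ q / J ∈ I)).card : ℝ) ≤ ((X / J : ℕ) + 1 : ℝ) * M := by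
      have h2 : (Q.filter (fun q => ¬ q / J ∈ I)).card =
          ∑ i ∈ (range (X / J + 1)).filter (fun i => ¬ M ≤ (win J Q i).card), (win J Q i).card := by
        rw [card_eq_sum_card_fiberwise (f := fun q => q / J)
          (t := (range (X / J + 1)).filter (fun i => ¬ M ≤ (win J Q i).card))]
        · apply sum_congr rfl
          intro i hi
          unfold win
          rw [filter_filter]
          congr 1
          apply filter_congr
          intro q hq
          constructor
          · rintro ⟨-, h⟩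
            exact h
          · intro h
            refine ⟨?_, h⟩
            rw [h, hI, mem_filter]
            rintro ⟨-, h3⟩
            exact (mem_filter.1 hi).2 h3
        · intro q hq
          rw [mem_coe, mem_filter] at hq
          rw [mem_coe, mem_filter]
          refine ⟨hdiv q hq.1, fun h => hq.2 ?_⟩
          rw [hI, mem_filter]
          exact ⟨hdiv q hq.1, h⟩
      rw [h2]
      push_cast
      have h3 : ∀ i ∈ (range (X / J + 1)).filter (fun i => ¬ M ≤ (win J Q i).card),
          ((win J Q i).card : ℝ) ≤ M := by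
        intro i hi
        exact (not_le.1 (mem_filter.1 hi).2).le
      refine (sum_le_card_nsmul _ _ _ h3).trans ?_
      rw [nsmul_eq_mul]
      apply mul_le_mul_of_nonneg_right _ hM0
      have := card_filter_le (range (X / J + 1)) (fun i => ¬ M ≤ (win J Q i).card)
      rw [card_range] at this
      exact_mod_cast this
    have e3 : (Q.card : ℝ) = Z.card + (Q.filter (fun q => ¬ q / J ∈ I)).card := by exact_mod_cast e1
    linarith
  have h2 := energy Z (fun q => q / J)
  have h3 : (Z.image (fun q => q / J)).card ≤ I.card := by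
    apply card_le_card
    intro i hi
    obtain ⟨q, hq, rfl⟩ := mem_image.1 hi
    exact (mem_filter.1 hq).2
  have h4 : ((Z ×ˢ Z).filter (fun z => z.1 / J = z.2 / J)).card ≤ Q.card + 2 * (TT a X J).card := by
    set W := (Z ×ˢ Z).filter (fun z => z.1 / J = z.2 / J) with hW
    have hmem : ∀ z ∈ W, z.1 ∈ Q ∧ z.2 ∈ Q ∧ z.1 / J = z.2 / J := by
      intro z hz
      rw [hW, mem_filter, mem_product] at hz
      exact ⟨(mem_filter.1 hz.1.1).1, (mem_filter.1 hz.1.2).1, hz.2⟩
    have hcov : W ⊆ Q.image (fun q => (q, q)) ∪ (TT a X J ∪ (TT a X J).image (fun z => (z.2, z.1))) := by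
      intro z hz
      obtain ⟨g1, g2, g3⟩ := hmem z hz
      have e1 := Nat.div_add_mod z.1 J
      have e2 := Nat.div_add_mod z.2 J
      have e3 := Nat.mod_lt z.1 (by omega : J > 0)
      have e4 := Nat.mod_lt z.2 (by omega : J > 0)
      rw [← g3] at e2
      rw [mem_union, mem_union]
      rcases lt_trichotomy z.1 z.2 with h | h | h
      · right; left
        rw [mem_TT]
        refine ⟨mem_range.1 (hQ g1), h, ?_, hQa _ g1, hQa _ g2⟩
        generalize J * (z.1 / J) = t at e1 e2
        omega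
      · left
        rw [mem_image]
        exact ⟨z.1, g1, Prod.ext rfl h⟩
      · right; right
        rw [mem_image]
        refine ⟨(z.2, z.1), ?_, rfl⟩
        rw [mem_TT]
        refine ⟨mem_range.1 (hQ g2), h, ?_, hQa _ g2, hQa _ g1⟩
        simp only
        generalize J * (z.1 / J) = t at e1 e2
        omega
    refine (card_le_card hcov).trans ((card_union_le _ _).trans ?_)
    refine (Nat.add_le_add card_image_le (card_union_le _ _)).trans ?_
    have : ((TT a X J).image (fun z => (z.2, z.1))).card ≤ (TT a X J).card := card_image_le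
    omega
  calc ((Q.card : ℝ) / 2) ^ 2 ≤ (Z.card : ℝ) ^ 2 := pow_le_pow_left₀ (by positivity) h1 2
    _ ≤ _ := h2
    _ ≤ _ := by
        apply mul_le_mul (by exact_mod_cast h3) (by exact_mod_cast h4) (Nat.cast_nonneg _)
          (Nat.cast_nonneg _)

/-- the sums over different windows hardly overlap -/
lemma union (J : ℕ) (hJ : 1 ≤ J) (P Q : Finset ℕ) (hP : ∀ p ∈ P, 0 < p ∧ p ≤ J) (I : Finset ℕ) (σ : ℝ)
    (hI : ∀ i ∈ I, σ ≤ (sums P (win J Q i)).card) : (I.card : ℝ) * σ ≤ 2 * (sums P Q).card := by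
  classical
  have h1 : (I.card : ℝ) * σ ≤ ∑ i ∈ I, ((sums P (win J Q i)).card : ℝ) := by
    rw [← nsmul_eq_mul]
    exact card_nsmul_le_sum _ _ _ hI
  refine h1.trans ?_
  have h2 : ∑ i ∈ I, (sums P (win J Q i)).card = (I.sigma (fun i => sums P (win J Q i))).card := by
    rw [card_sigma]
  have h3 : (I.sigma (fun i => sums P (win J Q i))).card ≤ (sums P Q ×ˢ range 2).card := by
    apply card_le_card_of_injOn (fun z => (z.2, z.2 / J - z.1))
    · rintro ⟨i, m⟩ hz
      rw [mem_coe, mem_sigma] at hz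
      simp only at hz
      obtain ⟨hi, hm⟩ := hz
      obtain ⟨p, hp, q, hq, h⟩ := mem_sums.1 hm
      unfold win at hq
      rw [mem_filter] at hq
      rw [mem_coe, mem_product, mem_range]
      refine ⟨mem_sums.2 ⟨p, hp, q, hq.1, h⟩, ?_⟩
      simp only
      have e1 := Nat.div_add_mod q J
      have e3 := Nat.mod_lt q (by omega : J > 0)
      have hpJ := (hP p hp).2
      have : m / J < i + 2 := by
        rw [Nat.div_lt_iff_lt_mul (by omega)]
        rw [hq.2] at e1
        rw [add_mul, mul_comm i J]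
        omega
      omega
    · rintro ⟨i, m⟩ hz ⟨i', m'⟩ hz' h
      rw [mem_coe, mem_sigma] at hz hz'
      simp only [Prod.mk.injEq] at h hz hz'
      obtain ⟨h4, h5⟩ := h
      subst h4
      have key : ∀ i, m ∈ sums P (win J Q i) → i ≤ m / J := by
        intro i hm
        obtain ⟨p, hp, q, hq, h⟩ := mem_sums.1 hm
        unfold win at hq
        rw [mem_filter] at hq
        rw [← hq.2]
        exact Nat.div_le_div_right (by omega)
      have k1 := key i hz.2
      have k2 := key i' hz'.2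
      have : i = i' := by omega
      subst this
      rfl
  rw [card_product, card_range, ← h2] at h3
  have h4 : (∑ i ∈ I, ((sums P (win J Q i)).card : ℝ)) ≤ (sums P Q).card * 2 := by exact_mod_cast h3
  linarith

end Pool.Agent.Y886.GI
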