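import Pool.Agent.Y886.GIC

/-!
The sums of the elements of a window with small numbers.
-/

set_option autoImplicit false

open Finset Filter Topology

namespace Pool.Agent.Y886.GI

open Pool.Agent.TH665.GP (TT mem_TT PI_prime energy)
open Pool.Agent.H197R2.PG (PI)

lemma winU (J i : ℕ) (hJ : 1 ≤ J) (k : ℕ) (U : ℝ)
    (hU : ∀ T ⊆ range J, T.card = k →
      (((Icc 1 (2 * J)).filter (fun m => ∀ t ∈ T, t < m ∧ (m - t).Prime)).card : ℝ) ≤ U)
    (P : Finset ℕ) (hP : ∀ p ∈ P, p.Prime ∧ p ≤ J) (Q : Finset ℕ) (hQ : ∀ q ∈ Q, q / J = i)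
    (T : Finset ℕ) (hT : T ⊆ Q) (hTk : T.card = k) :
    (((sums P Q).filter (fun m => ∀ t ∈ T, t < m ∧ m - t ∈ P)).card : ℝ) ≤ U := by
  classical
  have hq : ∀ q ∈ Q, i * J ≤ q ∧ q < i * J + J := by
    intro q hq
    have e1 := Nat.div_add_mod q J
    have e3 := Nat.mod_lt q (by omega : J > 0)
    rw [hQ q hq, mul_comm] at e1
    omega
  set T' := T.image (fun t => t - i * J) with hT'
  have hinj : Set.InjOn (fun t => t - i * J) (T : Set ℕ) := by
    intro s hs t ht h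
    have h1 := hq s (hT hs)
    have h2 := hq t (hT ht)
    simp only at h
    omega
  have hc : T'.card = k := by rw [hT', card_image_of_injOn hinj, hTk]
  have hr : T' ⊆ range J := by
    intro t ht
    obtain ⟨s, hs, rfl⟩ := mem_image.1 ht
    have h1 := hq s (hT hs)
    rw [mem_range]
    omega
  refine le_trans ?_ (hU T' hr hc)
  apply Nat.cast_le.2
  apply card_le_card_of_injOn (fun m => m - i * J)
  · intro m hm
    rw [mem_coe, mem_filter] at hm
    obtain ⟨h1, h2⟩ := hm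
    obtain ⟨p, hp, q, hqQ, h3⟩ := mem_sums.1 h1
    have h4 := hq q hqQ
    have h5 := hP p hp
    have h6 := h5.1.pos
    rw [mem_coe, mem_filter, mem_Icc]
    refine ⟨⟨?_, ?_⟩, ?_⟩
    · show 1 ≤ m - i * J
      omega
    · show m - i * J ≤ 2 * J
      omega
    intro t ht
    obtain ⟨s, hs, rfl⟩ := mem_image.1 ht
    have h7 := hq s (hT hs)
    have h8 := h2 s hs
    show s - i * J < m - i * J ∧ (m - i * J - (s - i * J)).Prime
    refine ⟨by omega, ?_⟩
    have e : m - i * J - (s - i * J) = m - s := by omega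
    rw [e]
    exact (hP _ h8.2).1
  · intro m hm m' hm' h
    rw [mem_coe, mem_filter] at hm hm'
    obtain ⟨p, hp, q, hqQ, h3⟩ := mem_sums.1 hm.1
    obtain ⟨p', hp', q', hqQ', h3'⟩ := mem_sums.1 hm'.1
    have h4 := hq q hqQ
    have h4' := hq q' hqQ'
    simp only at h
    omega

/-- the algebra of the moment inequality -/
lemma alg {s P q J U lam mu c1 C eps : ℝ} {n b : ℕ} (hs : 0 ≤ s) (hP : 0 ≤ P) (hq : 0 < q) (hJ : 0 < J)
    (hU : 0 ≤ U) (hlam : 1 ≤ lam) (hmu : 0 ≤ mu) (hc1 : 0 < c1) (hC : 0 < C) (heps : 0 < eps)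
    (hn : b + 1 ≤ eps * n)
    (h : (P * q) ^ (n + 1) ≤ s ^ n * ((2 * ((n + 1 : ℕ) : ℝ)) ^ (n + 1) * s + 2 ^ (n + 1) * (q ^ (n + 1) * U)))
    (hPl : c1 * J ≤ P * lam ^ (b + 1))
    (hql : 4 * ((n + 1 : ℕ) : ℝ) / c1 * lam ^ (b + 1) ≤ q)
    (hUe : U = C * J * (mu / lam) ^ (n + 1))
    (hbig : 2 ^ (n + 2) * C * mu ^ (n + 1) < c1 ^ (n + 1) * lam) :
    J / lam ^ ((b : ℝ) + eps) ≤ s := by
  have hlam0 : 0 < lam := by linarith
  have hk : (1 : ℝ) ≤ ((n + 1 : ℕ) : ℝ) := by
    push_cast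
    have : (0 : ℝ) ≤ n := Nat.cast_nonneg _
    linarith
  set k : ℝ := ((n + 1 : ℕ) : ℝ) with hkd
  have hLpos : 0 < lam ^ ((b : ℝ) + eps) := Real.rpow_pos_of_pos hlam0 _
  have hL1 : 1 ≤ lam ^ ((b : ℝ) + eps) := Real.one_le_rpow hlam (by positivity)
  rcases le_total (2 ^ (n + 1) * (q ^ (n + 1) * U)) ((2 * k) ^ (n + 1) * s) with h1 | h1
  · have h2 : (P * q) ^ (n + 1) ≤ (4 * k * s) ^ (n + 1) := by
      refine h.trans ?_
      calc s ^ n * ((2 * k) ^ (n + 1) * s + 2 ^ (n + 1) * (q ^ (n + 1) * U))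
          ≤ s ^ n * ((2 * k) ^ (n + 1) * s + (2 * k) ^ (n + 1) * s) := by
            apply mul_le_mul_of_nonneg_left _ (by positivity)
            linarith
        _ = 2 * ((2 * k) ^ (n + 1) * s ^ (n + 1)) := by ring
        _ ≤ 2 ^ (n + 1) * ((2 * k) ^ (n + 1) * s ^ (n + 1)) := by
            apply mul_le_mul_of_nonneg_right _ (by positivity)
            exact le_self_pow₀ (by norm_num) (by omega)
        _ = (4 * k * s) ^ (n + 1) := by
            rw [← mul_pow, ← mul_pow]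
            congr 1
            ring
    have h3 : P * q ≤ 4 * k * s := le_of_pow_le_pow_left₀ (by omega) (by positivity) h2
    have h4 : J ≤ s := by
      have h5 : P * (4 * k / c1 * lam ^ (b + 1)) ≤ P * q := mul_le_mul_of_nonneg_left hql hP
      have h6 : (4 * k / c1) * (c1 * J) ≤ (4 * k / c1) * (P * lam ^ (b + 1)) :=
        mul_le_mul_of_nonneg_left hPl (by positivity)
      have h7 : (4 * k / c1) * (c1 * J) = 4 * k * J := by field_simp
      have h8 : (4 * k) * J ≤ (4 * k) * s := by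
        calc (4 * k) * J = (4 * k / c1) * (c1 * J) := h7.symm
          _ ≤ (4 * k / c1) * (P * lam ^ (b + 1)) := h6
          _ = P * (4 * k / c1 * lam ^ (b + 1)) := by ring
          _ ≤ P * q := h5
          _ ≤ _ := h3
      exact le_of_mul_le_mul_left h8 (by positivity)
    exact (div_le_self hJ.le hL1).trans h4
  · have h2 : (P * q) ^ (n + 1) ≤ s ^ n * (2 ^ (n + 2) * (q ^ (n + 1) * U)) := by
      refine h.trans ?_
      apply mul_le_mul_of_nonneg_left _ (by positivity)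
      have e : (2 : ℝ) ^ (n + 2) = 2 * 2 ^ (n + 1) := by ring
      rw [e]
      linarith
    have h3 : P ^ (n + 1) ≤ s ^ n * (2 ^ (n + 2) * U) := by
      have hqk : 0 < q ^ (n + 1) := by positivity
      rw [mul_pow] at h2
      have e : s ^ n * (2 ^ (n + 2) * (q ^ (n + 1) * U)) = (s ^ n * (2 ^ (n + 2) * U)) * q ^ (n + 1) := by
        ring
      rw [e] at h2
      exact le_of_mul_le_mul_right h2 hqk
    by_contra hcon
    push Not at hcon
    rw [lt_div_iff₀ hLpos] at hcon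
    have h4 : s ^ n * lam ^ (b * (n + 1) + 1) ≤ J ^ n := by
      have h5 : (s * lam ^ ((b : ℝ) + eps)) ^ n ≤ J ^ n :=
        pow_le_pow_left₀ (by positivity) hcon.le n
      refine le_trans ?_ h5
      rw [mul_pow]
      apply mul_le_mul_of_nonneg_left _ (by positivity)
      rw [← Real.rpow_natCast, ← Real.rpow_natCast, ← Real.rpow_mul hlam0.le]
      apply Real.rpow_le_rpow_of_exponent_le hlam
      push_cast
      nlinarith
    have h6 : c1 ^ (n + 1) * J ^ (n + 1) ≤ 2 ^ (n + 2) * C * J * mu ^ (n + 1) * (s ^ n * lam ^ (b * (n + 1))) := by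
      calc c1 ^ (n + 1) * J ^ (n + 1) = (c1 * J) ^ (n + 1) := (mul_pow _ _ _).symm
        _ ≤ (P * lam ^ (b + 1)) ^ (n + 1) := pow_le_pow_left₀ (by positivity) hPl _
        _ = P ^ (n + 1) * lam ^ ((b + 1) * (n + 1)) := by rw [mul_pow, ← pow_mul]
        _ ≤ (s ^ n * (2 ^ (n + 2) * U)) * lam ^ ((b + 1) * (n + 1)) :=
            mul_le_mul_of_nonneg_right h3 (by positivity)
        _ = _ := by
            have e1 : mu ^ (n + 1) / lam ^ (n + 1) * lam ^ (n + 1) = mu ^ (n + 1) :=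
              div_mul_cancel₀ _ (by positivity)
            rw [hUe, div_pow, show (b + 1) * (n + 1) = b * (n + 1) + (n + 1) by ring,
              pow_add lam (b * (n + 1)) (n + 1)]
            calc s ^ n * (2 ^ (n + 2) * (C * J * (mu ^ (n + 1) / lam ^ (n + 1)))) *
                (lam ^ (b * (n + 1)) * lam ^ (n + 1)) =
                2 ^ (n + 2) * C * J * (mu ^ (n + 1) / lam ^ (n + 1) * lam ^ (n + 1)) *
                  (s ^ n * lam ^ (b * (n + 1))) := by ring
              _ = _ := by rw [e1]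
    have h7 : (c1 ^ (n + 1) * lam) * J ^ (n + 1) ≤ (2 ^ (n + 2) * C * mu ^ (n + 1)) * J ^ (n + 1) := by
      calc (c1 ^ (n + 1) * lam) * J ^ (n + 1) = lam * (c1 ^ (n + 1) * J ^ (n + 1)) := by ring
        _ ≤ lam * (2 ^ (n + 2) * C * J * mu ^ (n + 1) * (s ^ n * lam ^ (b * (n + 1)))) :=
            mul_le_mul_of_nonneg_left h6 hlam0.le
        _ = 2 ^ (n + 2) * C * J * mu ^ (n + 1) * (s ^ n * lam ^ (b * (n + 1) + 1)) := by
            rw [pow_succ lam]; ring
        _ ≤ 2 ^ (n + 2) * C * J * mu ^ (n + 1) * J ^ n := by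
            apply mul_le_mul_of_nonneg_left h4 (by positivity)
        _ = _ := by ring
    have h8 := le_of_mul_le_mul_right h7 (by positivity)
    linarith

/-- **The sums in a window** -/
theorem winlow (b : ℕ) (c1 : ℝ) (hc1 : 0 < c1) (eps : ℝ) (heps : 0 < eps) : ∃ D : ℝ, 0 < D ∧
    ∀ᶠ J : ℕ in atTop, ∀ P : Finset ℕ, (∀ p ∈ P, p.Prime ∧ p ≤ J) →
      c1 * J ≤ P.card * Real.log J ^ (b + 1) → ∀ (i : ℕ) (Q : Finset ℕ), (∀ q ∈ Q, q / J = i) →
      D * Real.log J ^ (b + 1) ≤ Q.card →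
      (J : ℝ) / Real.log J ^ ((b : ℝ) + eps) ≤ (sums P Q).card := by
  classical
  obtain ⟨n, hn⟩ := exists_nat_gt (((b : ℝ) + 1) / eps)
  rw [div_lt_iff₀ heps] at hn
  obtain ⟨C, hC, J0, hJ0⟩ := tup (n + 1) (by omega)
  have tL : Tendsto (fun N : ℕ => Real.log (N : ℝ)) atTop atTop :=
    Real.tendsto_log_atTop.comp tendsto_natCast_atTop_atTop
  have hev : ∀ᶠ lam : ℝ in atTop, 2 ^ (n + 2) * C * Real.log lam ^ (n + 1) < c1 ^ (n + 1) * lam := by
    have h1 := (isLittleO_log_rpow_rpow_atTop ((n + 1 : ℕ) : ℝ) one_pos).bound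
      (show (0 : ℝ) < c1 ^ (n + 1) / (2 ^ (n + 2) * C) / 2 by positivity)
    filter_upwards [h1, eventually_ge_atTop 1] with l h1 h2
    have hl : 0 ≤ Real.log l := Real.log_nonneg h2
    rw [Real.rpow_natCast, Real.rpow_one, Real.norm_of_nonneg (by positivity),
      Real.norm_of_nonneg (by positivity)] at h1
    have hl0 : 0 < l := by linarith
    have hc0 : 0 < c1 ^ (n + 1) := by positivity
    calc 2 ^ (n + 2) * C * Real.log l ^ (n + 1)
        ≤ 2 ^ (n + 2) * C * (c1 ^ (n + 1) / (2 ^ (n + 2) * C) / 2 * l) := by gcongr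
      _ = c1 ^ (n + 1) * l / 2 := by field_simp
      _ < c1 ^ (n + 1) * l := by
          have : 0 < c1 ^ (n + 1) * l := by positivity
          linarith
  refine ⟨4 * ((n + 1 : ℕ) : ℝ) / c1, by positivity, ?_⟩
  filter_upwards [eventually_ge_atTop J0, eventually_ge_atTop 1, tL.eventually hev,
    tL.eventually_ge_atTop 1] with J h1 h2 h3 h4
  intro P hP hPc i Q hQ hQc
  have hU0 : 0 ≤ C * J * (Real.log (Real.log J) / Real.log J) ^ (n + 1) := by
    have : 0 ≤ Real.log (Real.log J) := Real.log_nonneg h4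
    positivity
  have key := holder n P Q (fun p hp => (hP p hp).1.pos)
    (C * J * (Real.log (Real.log J) / Real.log J) ^ (n + 1)) hU0
    (fun T hT hTk => winU J i h2 (n + 1) _ (hJ0 J h1) P hP Q hQ T hT hTk)
  have hJr : (0 : ℝ) < J := by exact_mod_cast h2
  have hQ0 : (0 : ℝ) < Q.card := by
    refine lt_of_lt_of_le ?_ hQc
    positivity
  exact alg (Nat.cast_nonneg _) (Nat.cast_nonneg _) hQ0 hJr hU0 h4 (Real.log_nonneg h4) hc1 hC heps
    (by linarith) key hPc hQc rfl h3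

end Pool.Agent.Y886.GI
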