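import Pool.Agent.Y886.GID

/-!
Even numbers which are sums of an `a`-fold and a `b`-fold iterated prime.
-/

set_option autoImplicit false

open Finset Filter Topology

namespace Pool.Agent.Y886.GI

open Pool.Agent.TH665.GP (TT mem_TT PI_prime energy density density3 TT_le ev_pow ev_log_ge ff ff_pi
  exists_index)
open Pool.Agent.H197R2.PG (PI)

/-- the counting core, for numbers up to `X` -/
theorem core (a b : ℕ) (eps : ℝ) (heps : 0 < eps) : ∀ᶠ X : ℕ in atTop, ∃ S : Finset ℕ,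
    (∀ N ∈ S, N ≤ X ∧ ∃ p q : ℕ, p < q ∧ p % 2 = 1 ∧ q % 2 = 1 ∧ PI b p ∧ PI a q ∧ q + p = N) ∧
    X / Real.log (Real.log X) ^ ((b : ℝ) + eps) ≤ S.card := by
  classical
  obtain ⟨E, hE⟩ := TT_le a
  set e0 : ℕ := E + a + 3 with he0
  set F : ℕ := e0 + 1 with hF
  obtain ⟨C3, hC3, x1, hT⟩ := hE F
  obtain ⟨c1, hc1, y1, hA⟩ := density3 b
  obtain ⟨c2, hc2, y2, hQ⟩ := density3 a
  obtain ⟨D, hD, hwin⟩ := winlow b c1 hc1 (eps / 2) (by positivity)
  obtain ⟨J0, hJ0⟩ := eventually_atTop.1 hwin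
  set c4 : ℝ := min ((c2 / 4) ^ 2 / (16 * C3)) (c2 / 4 / 8) with hc4
  have hc40 : 0 < c4 := lt_min (by positivity) (by positivity)
  set K : ℝ := (F : ℝ) with hK
  have hK0 : 0 < K := by rw [hK]; exact_mod_cast (by omega : 0 < F)
  have hloglog : Tendsto (fun X : ℕ => Real.log (X : ℝ)) atTop atTop :=
    Real.tendsto_log_atTop.comp tendsto_natCast_atTop_atTop
  have hll : ∀ᶠ l : ℝ in atTop, D * (K * Real.log l) ^ (b + 1) ≤ c2 / 16 * l := by
    have h1 := (isLittleO_log_rpow_rpow_atTop ((b + 1 : ℕ) : ℝ) one_pos).bound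
      (by positivity : (0 : ℝ) < c2 / 16 / (D * K ^ (b + 1)))
    filter_upwards [h1, eventually_ge_atTop 1] with l h1 h2
    have hl : 0 ≤ Real.log l := Real.log_nonneg h2
    rw [Real.rpow_natCast, Real.rpow_one, Real.norm_of_nonneg (by positivity),
      Real.norm_of_nonneg (by positivity)] at h1
    rw [mul_pow]
    calc D * (K ^ (b + 1) * Real.log l ^ (b + 1)) = D * K ^ (b + 1) * Real.log l ^ (b + 1) := by ring
      _ ≤ D * K ^ (b + 1) * (c2 / 16 / (D * K ^ (b + 1)) * l) := by gcongr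
      _ = c2 / 16 * l := by field_simp
  have hlast : ∀ᶠ v : ℝ in atTop, 2 / c4 * K ^ ((b : ℝ) + eps / 2) ≤ v ^ (eps / 2) :=
    (tendsto_rpow_atTop (by positivity)).eventually_ge_atTop _
  filter_upwards [hloglog.eventually hll, (Real.tendsto_log_atTop.comp hloglog).eventually hlast,
    ev_log_ge (max 3 (max y1 J0 : ℕ)), eventually_ge_atTop x1,
    ev_pow (F + (a + 1)) (4 * (2 / c2) + 2) 1 (by positivity) one_pos,
    ev_pow F 4 1 (by norm_num) one_pos,
    (Real.tendsto_log_atTop.comp hloglog).eventually_ge_atTop 1,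
    eventually_ge_atTop (2 * y2 + 2)]
    with X g1 g1' g3 g4 g5 g6 gll g7
  simp only [Function.comp] at g1' gll
  rw [Real.rpow_one] at g5 g6
  set l : ℝ := Real.log X with hl
  have hl3' : 3 ≤ l := (le_max_left _ _).trans g3
  have hlM : ((max y1 J0 : ℕ) : ℝ) ≤ l := (le_max_right _ _).trans g3
  have hl0 : 0 < l := by linarith
  have hl1 : 1 ≤ l := by linarith
  have hX0n : 0 < X := by omega
  have hX0 : (0 : ℝ) < X := by exact_mod_cast hX0n
  -- the window length
  set J : ℕ := ⌈l ^ e0⌉₊ with hJdef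
  have hJge : l ^ e0 ≤ J := Nat.le_ceil _
  have hJle : (J : ℝ) ≤ l ^ F := by
    have h1 := (Nat.ceil_lt_add_one (by positivity : 0 ≤ l ^ e0)).le
    have h2 : 1 ≤ l ^ e0 := one_le_pow₀ hl1
    have h3 : l ^ F = l ^ e0 * l := by rw [hF, pow_succ]
    rw [h3]
    nlinarith
  have hJ1r : (1 : ℝ) ≤ J := (one_le_pow₀ hl1).trans hJge
  have hJ1 : 1 ≤ J := by exact_mod_cast hJ1r
  have hJr0 : (0 : ℝ) < J := by linarith
  have hlJ : l ≤ J := by
    refine le_trans ?_ hJge
    calc l = l ^ 1 := (pow_one l).symm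
      _ ≤ l ^ e0 := pow_le_pow_right₀ hl1 (by omega)
  have hyJ : max y1 J0 ≤ J := by exact_mod_cast hlM.trans hlJ
  have hy1J : y1 ≤ J := (le_max_left _ _).trans hyJ
  have hJ0J : J0 ≤ J := (le_max_right _ _).trans hyJ
  set lam : ℝ := Real.log J with hlam
  have hlamle : lam ≤ K * Real.log l := by
    calc lam ≤ Real.log (l ^ F) := Real.log_le_log hJr0 hJle
      _ = K * Real.log l := Real.log_pow _ _
  have hlam1 : 1 ≤ lam := by
    have h1 : Real.log l ≤ lam := Real.log_le_log hl0 hlJ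
    linarith
  have hlam0 : 0 < lam := by linarith
  have hJX : 4 * (J : ℝ) ≤ X := by
    calc 4 * (J : ℝ) ≤ 4 * l ^ F := by gcongr
      _ ≤ X := g6
  have hJXn : 4 * J ≤ X := by exact_mod_cast hJX
  obtain ⟨P, hP1, hP2, hP3⟩ := hA J hy1J
  obtain ⟨S1, hS1, hS2, hS3⟩ := hQ (X - J) (by omega)
  set Q := S1.filter (fun q => J < q) with hQdef
  have hcastXY : ((X - J : ℕ) : ℝ) = X - J := by
    rw [Nat.cast_sub (by omega)]
  have hQcard : (c2 / 4) * X ≤ Q.card * l ^ (a + 1) := by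
    have h1 : S1 ⊆ Q ∪ Icc 1 J := by
      intro q hq
      rw [mem_union, hQdef, mem_filter, mem_Icc]
      have h2 := (mem_Icc.mp (hS1 hq)).1
      rcases Nat.lt_or_ge J q with h | h
      · exact Or.inl ⟨hq, h⟩
      · exact Or.inr ⟨by omega, h⟩
    have h2 : (S1.card : ℝ) ≤ Q.card + J := by
      have h3 := (Finset.card_le_card h1).trans (Finset.card_union_le _ _)
      rw [Nat.card_Icc, Nat.add_sub_cancel] at h3
      exact_mod_cast h3
    have h3 : Real.log ((X - J : ℕ) : ℝ) ≤ l := by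
      apply Real.log_le_log
      · rw [hcastXY]; linarith
      · rw [hcastXY]; linarith
    have h3' : 0 ≤ Real.log ((X - J : ℕ) : ℝ) := Real.log_natCast_nonneg _
    have h4 : c2 * ((X - J : ℕ) : ℝ) ≤ (Q.card + J) * l ^ (a + 1) := by
      calc c2 * ((X - J : ℕ) : ℝ) ≤ S1.card * Real.log ((X - J : ℕ) : ℝ) ^ (a + 1) := hS3
        _ ≤ (Q.card + J) * l ^ (a + 1) := by gcongr
    have h5 : (J : ℝ) * l ^ (a + 1) ≤ c2 / 4 * X := by
      have h6 : (4 / c2) * l ^ (F + (a + 1)) ≤ X := by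
        refine le_trans ?_ g5
        apply mul_le_mul_of_nonneg_right _ (by positivity)
        have : 4 * (2 / c2) = 4 / c2 + 4 / c2 := by ring
        have : 0 < 4 / c2 := by positivity
        linarith
      calc (J : ℝ) * l ^ (a + 1) ≤ l ^ F * l ^ (a + 1) := by gcongr
        _ = (4 / c2 * l ^ (F + (a + 1))) * (c2 / 4) := by
            have e : l ^ (F + (a + 1)) = l ^ F * l ^ (a + 1) := pow_add _ _ _
            rw [e]
            field_simp
        _ ≤ X * (c2 / 4) := by gcongr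
        _ = _ := by ring
    rw [hcastXY] at h4
    have h6 : c2 * (X / 2) ≤ c2 * (X - J) := by
      apply mul_le_mul_of_nonneg_left _ hc2.le
      linarith
    rw [add_mul] at h4
    linarith
  have hla : 0 < l ^ (a + 1) := by positivity
  have hQpos : 0 < (Q.card : ℝ) := by
    by_contra hcon
    have h0 : (Q.card : ℝ) = 0 := le_antisymm (not_lt.mp hcon) (Nat.cast_nonneg _)
    rw [h0, zero_mul] at hQcard
    have : 0 < c2 / 4 * X := by positivity
    linarith
  have hTT := hT X J g4 (by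
    refine le_trans ?_ hJge
    exact pow_le_pow_right₀ hl1 (by omega)) hJle
  -- many windows with many elements
  set M : ℝ := Q.card * J / (4 * X) with hM
  have hM0 : 0 ≤ M := by positivity
  have hMle : ((X / J : ℕ) + 1 : ℝ) * M ≤ Q.card / 2 := by
    have h1 : ((X / J : ℕ) : ℝ) ≤ X / J := Nat.cast_div_le
    have h2 : (1 : ℝ) ≤ X / J := by
      rw [one_le_div hJr0]
      linarith
    calc ((X / J : ℕ) + 1 : ℝ) * M ≤ (2 * (X / J)) * M := by
          apply mul_le_mul_of_nonneg_right _ hM0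
          linarith
      _ = Q.card / 2 := by
          rw [hM]
          field_simp
          norm_num
  have hQX : Q ⊆ range X := by
    intro q hq
    have h1 := mem_Icc.mp (hS1 (mem_filter.mp hq).1)
    rw [mem_range]
    omega
  have hQa : ∀ q ∈ Q, PI a q := fun q hq => hS2 q (mem_filter.mp hq).1
  have hbig := big a X J hJ1 Q hQX hQa M hM0 hMle
  set I := (range (X / J + 1)).filter (fun i => M ≤ (win J Q i).card) with hI
  have hIc : c4 * (X / J) ≤ I.card := by
    have hTT0 : (0 : ℝ) ≤ (TT a X J).card := Nat.cast_nonneg _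
    have hI0 : (0 : ℝ) ≤ I.card := Nat.cast_nonneg _
    have hl2 : l ^ (2 * a + 2) = l ^ (a + 1) * l ^ (a + 1) := by rw [← pow_add]; congr 1; ring
    rcases le_total ((Q.card : ℝ)) (2 * (TT a X J).card) with h | h
    · have h1 : ((Q.card : ℝ) / 2) ^ 2 ≤ I.card * (4 * (C3 * J * X / l ^ (2 * a + 2))) := by
        refine hbig.trans ?_
        apply mul_le_mul_of_nonneg_left _ hI0
        linarith
      have h2 : (c2 / 4 * X) ^ 2 ≤ (Q.card * l ^ (a + 1)) ^ 2 := pow_le_pow_left₀ (by positivity) hQcard 2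
      have h3 : (c2 / 4 * X) ^ 2 ≤ I.card * (16 * C3 * J * X) := by
        calc (c2 / 4 * X) ^ 2 ≤ (Q.card * l ^ (a + 1)) ^ 2 := h2
          _ = 4 * (((Q.card : ℝ) / 2) ^ 2 * l ^ (2 * a + 2)) := by rw [hl2]; ring
          _ ≤ 4 * ((I.card * (4 * (C3 * J * X / l ^ (2 * a + 2)))) * l ^ (2 * a + 2)) := by gcongr
          _ = 16 * I.card * (C3 * J * X / l ^ (2 * a + 2) * l ^ (2 * a + 2)) := by ring
          _ = _ := by
              rw [div_mul_cancel₀ _ (by positivity)]
              ring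
      have h4 : (c2 / 4) ^ 2 / (16 * C3) * (X / J) ≤ I.card := by
        rw [div_mul_div_comm, div_le_iff₀ (by positivity)]
        have h5 : ((c2 / 4) ^ 2 * X) * X ≤ (I.card * (16 * C3 * J)) * X := by
          calc ((c2 / 4) ^ 2 * X) * X = (c2 / 4 * X) ^ 2 := by ring
            _ ≤ I.card * (16 * C3 * J * X) := h3
            _ = _ := by ring
        exact le_of_mul_le_mul_right h5 hX0
      refine le_trans ?_ h4
      apply mul_le_mul_of_nonneg_right (min_le_left _ _) (by positivity)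
    · have h1 : ((Q.card : ℝ) / 2) ^ 2 ≤ I.card * (2 * Q.card) := by
        refine hbig.trans ?_
        apply mul_le_mul_of_nonneg_left _ hI0
        linarith
      have h2 : (Q.card : ℝ) ≤ 8 * I.card := by
        have h3 : (Q.card : ℝ) * Q.card ≤ (8 * I.card) * Q.card := by nlinarith
        exact le_of_mul_le_mul_right h3 hQpos
      have h3 : c2 / 4 / 8 * (X / J) ≤ I.card := by
        have h4 : l ^ (a + 1) ≤ J := by
          refine le_trans ?_ hJge
          exact pow_le_pow_right₀ hl1 (by omega)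
        have h5 : c2 / 4 * X ≤ 8 * I.card * J := by
          refine hQcard.trans ?_
          apply mul_le_mul h2 h4 (by positivity) (by positivity)
        rw [mul_div_assoc', div_le_iff₀ hJr0]
        linarith
      refine le_trans ?_ h3
      apply mul_le_mul_of_nonneg_right (min_le_right _ _) (by positivity)
  -- the windows
  have hMD : D * lam ^ (b + 1) ≤ M := by
    have h1 : c2 / 16 * (J / l ^ (a + 1)) ≤ M := by
      rw [hM, mul_div_assoc', div_le_div_iff₀ hla (by positivity)]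
      calc c2 / 16 * J * (4 * X) = J * (c2 / 4 * X) := by ring
        _ ≤ J * (Q.card * l ^ (a + 1)) := mul_le_mul_of_nonneg_left hQcard hJr0.le
        _ = _ := by ring
    have h2 : l ≤ J / l ^ (a + 1) := by
      rw [le_div_iff₀ hla]
      calc l * l ^ (a + 1) = l ^ (a + 2) := by ring
        _ ≤ l ^ e0 := pow_le_pow_right₀ hl1 (by omega)
        _ ≤ J := hJge
    calc D * lam ^ (b + 1) ≤ D * (K * Real.log l) ^ (b + 1) := by gcongr
      _ ≤ c2 / 16 * l := g1
      _ ≤ c2 / 16 * (J / l ^ (a + 1)) := mul_le_mul_of_nonneg_left h2 (by positivity)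
      _ ≤ M := h1
  have hPp : ∀ p ∈ P, p.Prime ∧ p ≤ J := fun p hp => ⟨PI_prime (hP2 p hp), (mem_Icc.1 (hP1 hp)).2⟩
  have hsig : ∀ i ∈ I, (J : ℝ) / lam ^ ((b : ℝ) + eps / 2) ≤ (sums P (win J Q i)).card := by
    intro i hi
    have h1 := (mem_filter.1 hi).2
    exact hJ0 J hJ0J P hPp hP3 i (win J Q i) (fun q hq => (mem_filter.1 hq).2) (hMD.trans h1)
  have hun := union J hJ1 P Q (fun p hp => ⟨(hPp p hp).1.pos, (hPp p hp).2⟩) I _ hsig
  refine ⟨sums P Q, ?_, ?_⟩
  · intro N hN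
    obtain ⟨p, hp, q, hq, h⟩ := mem_sums.1 hN
    have h1 := mem_Icc.mp (hP1 hp)
    have h2 := mem_filter.mp hq
    have h3 := mem_Icc.mp (hS1 h2.1)
    have hpp := PI_prime (hP2 _ hp)
    have hqp := PI_prime (hS2 _ h2.1)
    have hp2 := hpp.eq_two_or_odd
    have hq2 := hqp.eq_two_or_odd
    exact ⟨by omega, p, q, by omega, by omega, by omega, hP2 _ hp, hS2 _ h2.1, h⟩
  · set v : ℝ := Real.log l with hv
    have hv0 : 0 < v := by linarith
    have hbe : 0 ≤ (b : ℝ) + eps / 2 := by positivity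
    have h1 : lam ^ ((b : ℝ) + eps / 2) ≤ K ^ ((b : ℝ) + eps / 2) * v ^ ((b : ℝ) + eps / 2) := by
      rw [← Real.mul_rpow hK0.le hv0.le]
      exact Real.rpow_le_rpow hlam0.le hlamle hbe
    have hlp : 0 < lam ^ ((b : ℝ) + eps / 2) := Real.rpow_pos_of_pos hlam0 _
    have hvp : 0 < v ^ ((b : ℝ) + eps / 2) := Real.rpow_pos_of_pos hv0 _
    have h2 : 2 / c4 * lam ^ ((b : ℝ) + eps / 2) ≤ v ^ ((b : ℝ) + eps) := by
      calc 2 / c4 * lam ^ ((b : ℝ) + eps / 2)
          ≤ 2 / c4 * (K ^ ((b : ℝ) + eps / 2) * v ^ ((b : ℝ) + eps / 2)) := by gcongr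
        _ = (2 / c4 * K ^ ((b : ℝ) + eps / 2)) * v ^ ((b : ℝ) + eps / 2) := by ring
        _ ≤ v ^ (eps / 2) * v ^ ((b : ℝ) + eps / 2) := by gcongr
        _ = v ^ ((b : ℝ) + eps) := by
            rw [← Real.rpow_add hv0]
            congr 1
            ring
    have h3 : c4 * (X / J) * ((J : ℝ) / lam ^ ((b : ℝ) + eps / 2)) ≤ 2 * (sums P Q).card := by
      refine le_trans ?_ hun
      apply mul_le_mul_of_nonneg_right hIc (by positivity)
    have h4 : c4 * (X / J) * ((J : ℝ) / lam ^ ((b : ℝ) + eps / 2)) =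
        c4 * X / lam ^ ((b : ℝ) + eps / 2) := by
      field_simp
    rw [h4, div_le_iff₀ hlp] at h3
    rw [div_le_iff₀ (Real.rpow_pos_of_pos hv0 _)]
    have h5 : c4 * X ≤ c4 * ((sums P Q).card * v ^ ((b : ℝ) + eps)) := by
      calc c4 * X ≤ 2 * (sums P Q).card * lam ^ ((b : ℝ) + eps / 2) := h3
        _ = (c4 * (sums P Q).card) * (2 / c4 * lam ^ ((b : ℝ) + eps / 2)) := by
            field_simp
        _ ≤ (c4 * (sums P Q).card) * v ^ ((b : ℝ) + eps) := by gcongr
        _ = _ := by ring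
    exact le_of_mul_le_mul_left h5 hc40

theorem main (a b : ℕ) (eps : ℝ) (heps : 0 < eps) : ∀ᶠ x : ℕ in atTop,
    (x : ℝ) / Real.log (Real.log x) ^ ((b : ℝ) + eps) ≤
      Set.ncard {n : ℕ | n ≤ x ∧ ∃ u v : ℕ, 0 < u ∧ 0 < v ∧
        Nat.iterate (fun k : ℕ => Nat.nth Nat.Prime (k - 1)) (a + 1) u ≠
          Nat.iterate (fun k : ℕ => Nat.nth Nat.Prime (k - 1)) (b + 1) v ∧
        Nat.iterate (fun k : ℕ => Nat.nth Nat.Prime (k - 1)) (a + 1) u +
          Nat.iterate (fun k : ℕ => Nat.nth Nat.Prime (k - 1)) (b + 1) v = 2 * n} := by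
  classical
  obtain ⟨X0, hX0⟩ := eventually_atTop.mp (core a b (eps / 2) (by positivity))
  have hll : Tendsto (fun x : ℕ => Real.log (Real.log (x : ℝ))) atTop atTop :=
    Real.tendsto_log_atTop.comp (Real.tendsto_log_atTop.comp tendsto_natCast_atTop_atTop)
  have hlast : ∀ᶠ v : ℝ in atTop, (2 : ℝ) ^ ((b : ℝ) + eps / 2) ≤ v ^ (eps / 2) :=
    (tendsto_rpow_atTop (by positivity)).eventually_ge_atTop _
  filter_upwards [eventually_ge_atTop X0, eventually_ge_atTop 2, ev_log_ge 2,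
    hll.eventually_ge_atTop 2, hll.eventually hlast] with x h1 h2 h3 h4 h4'
  obtain ⟨S, hS1, hS2⟩ := hX0 (2 * x) (by omega)
  have hx2 : (2 : ℝ) ≤ x := by exact_mod_cast h2
  have hx0 : (0 : ℝ) < x := by linarith
  set T := S.image (fun N => N / 2) with hT
  have hinj : Set.InjOn (fun N => N / 2) (S : Set ℕ) := by
    intro N hN M hM hNM
    obtain ⟨_, p, q, _, g1, g2, _, _, g3⟩ := hS1 N hN
    obtain ⟨_, p', q', _, g1', g2', _, _, g3'⟩ := hS1 M hM
    simp only at hNM
    omega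
  have hTcard : T.card = S.card := Finset.card_image_of_injOn hinj
  set R : Set ℕ := {n : ℕ | n ≤ x ∧ ∃ u v : ℕ, 0 < u ∧ 0 < v ∧
        Nat.iterate (fun k : ℕ => Nat.nth Nat.Prime (k - 1)) (a + 1) u ≠
          Nat.iterate (fun k : ℕ => Nat.nth Nat.Prime (k - 1)) (b + 1) v ∧
        Nat.iterate (fun k : ℕ => Nat.nth Nat.Prime (k - 1)) (a + 1) u +
          Nat.iterate (fun k : ℕ => Nat.nth Nat.Prime (k - 1)) (b + 1) v = 2 * n} with hR
  have hfin : R.Finite := (Set.finite_Iic x).subset (fun n hn => hn.1)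
  have hsub : (T : Set ℕ) ⊆ R := by
    intro n hn
    rw [Finset.mem_coe, hT, mem_image] at hn
    obtain ⟨N, hN, rfl⟩ := hn
    obtain ⟨g0, p, q, g, g1, g2, g4, g5, g3⟩ := hS1 N hN
    obtain ⟨v, hv, hv2⟩ := exists_index g4
    obtain ⟨u, hu, hu2⟩ := exists_index g5
    refine ⟨by omega, u, v, hu, hv, ?_, ?_⟩
    · change ff^[a + 1] u ≠ ff^[b + 1] v
      rw [hu2, hv2]
      omega
    · change ff^[a + 1] u + ff^[b + 1] v = 2 * (N / 2)
      rw [hu2, hv2]
      omega
  have h5 := Set.ncard_le_ncard hsub hfin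
  rw [Set.ncard_coe_finset, hTcard] at h5
  have h6 : (S.card : ℝ) ≤ Set.ncard R := by exact_mod_cast h5
  refine le_trans ?_ h6
  refine le_trans ?_ hS2
  push_cast
  have hl2 := Real.log_two_lt_d9
  have hlx : Real.log (2 * (x : ℝ)) = Real.log 2 + Real.log x :=
    Real.log_mul (by norm_num) hx0.ne'
  have hl20 : 0 < Real.log 2 := Real.log_pos (by norm_num)
  have k1 : Real.log (2 * (x : ℝ)) ≤ Real.log x ^ 2 := by
    rw [hlx]; nlinarith
  have k1' : Real.log x ≤ Real.log (2 * (x : ℝ)) := by rw [hlx]; linarith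
  have k2 : Real.log (Real.log (2 * (x : ℝ))) ≤ 2 * Real.log (Real.log x) := by
    have := Real.log_le_log (by linarith : 0 < Real.log (2 * (x : ℝ))) k1
    rw [Real.log_pow] at this
    push_cast at this
    exact this
  have k2' : Real.log (Real.log x) ≤ Real.log (Real.log (2 * (x : ℝ))) :=
    Real.log_le_log (by linarith) k1'
  set v := Real.log (Real.log (x : ℝ)) with hv
  have hv0 : 0 < v := by linarith
  have hw0 : 0 < Real.log (Real.log (2 * (x : ℝ))) := by linarith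
  have k3 : Real.log (Real.log (2 * (x : ℝ))) ^ ((b : ℝ) + eps / 2) ≤ v ^ ((b : ℝ) + eps) := by
    calc Real.log (Real.log (2 * (x : ℝ))) ^ ((b : ℝ) + eps / 2)
        ≤ (2 * v) ^ ((b : ℝ) + eps / 2) := Real.rpow_le_rpow hw0.le k2 (by positivity)
      _ = (2 : ℝ) ^ ((b : ℝ) + eps / 2) * v ^ ((b : ℝ) + eps / 2) :=
          Real.mul_rpow (by norm_num) hv0.le
      _ ≤ v ^ (eps / 2) * v ^ ((b : ℝ) + eps / 2) := by gcongr
      _ = v ^ ((b : ℝ) + eps) := by
          rw [← Real.rpow_add hv0]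
          congr 1
          ring
  have hp1 : 0 < Real.log (Real.log (2 * (x : ℝ))) ^ ((b : ℝ) + eps / 2) := Real.rpow_pos_of_pos hw0 _
  apply div_le_div₀ (by positivity) (by linarith) hp1 k3

end Pool.Agent.Y886.GI
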