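import Pool.Agent.TH899.UG.GD4

/-!
# Goldbach or de Polignac in terms of `n ± x`
-/

set_option autoImplicit false

namespace Pool.Agent.Y886.GPn

open Finset Filter Topology
open Pool.Agent.TH899.UG.GD

/-- odd numbers have at most two representations -/
lemma golc_odd {N c : ℕ} (hc : ¬ Even c) : golc N (-1) c ≤ 2 := by
  classical
  unfold golc
  have h : ((Icc 1 (3 * N)).filter (fun p : ℕ => p.Prime ∧ ((-1 : ℤ) * p + c).toNat.Prime)) ⊆
      {2, c - 2} := by
    intro p hp
    rw [mem_filter] at hp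
    obtain ⟨-, hp, hq⟩ := hp
    have h1 := toNat_eq' hq
    obtain ⟨q, hqe⟩ : ∃ q : ℕ, q = ((-1 : ℤ) * p + c).toNat := ⟨_, rfl⟩
    rw [← hqe] at hq h1
    rw [mem_insert, mem_singleton]
    rcases hp.eq_two_or_odd' with h2 | h2
    · exact Or.inl h2
    · rcases hq.eq_two_or_odd' with h3 | h3
      · right
        omega
      · exfalso
        apply hc
        have h4 : p + q = c := by omega
        rw [← h4]
        exact h2.add_odd h3
  calc _ ≤ ({2, c - 2} : Finset ℕ).card := card_le_card h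
    _ ≤ 2 := card_le_two

/-- The primes `p` with `2 n - p` prime. -/
lemma golc_even_le {N n : ℕ} (s : Set ℤ)
    (hs : ∀ p q : ℕ, p.Prime → q.Prime → p + q = 2 * n → (n : ℤ) - p ∈ s) (hfin : s.Finite) :
    golc N (-1) ((2 * n : ℕ) : ℤ) ≤ s.ncard := by
  classical
  unfold golc
  rw [← Set.ncard_coe_finset]
  refine Set.ncard_le_ncard_of_injOn (fun p : ℕ => (n : ℤ) - p) ?_ ?_ hfin
  · intro p hp
    rw [mem_coe, mem_filter] at hp
    obtain ⟨-, hp, hq⟩ := hp
    have h1 := toNat_eq' hq
    apply hs p _ hp hq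
    omega
  · intro a _ b _ h
    simp only at h
    omega

end Pool.Agent.Y886.GPn
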