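import Pool.Agent.H197R2.PG7
import Pool.Agent.W218.MU.Class
import Pool.Agent.W38.PRb
import Pool.Agent.H305R2.MertensE

/-!
Sets of indices of primes: the greedy subset of a set with a prescribed counting function.
-/

set_option autoImplicit false

open Finset Filter Topology

namespace Pool.Agent.Y886.IXS

open Classical in
/-- the number of the elements of `K` in `[1, t]` -/
noncomputable def cnt (K : Set ℕ) (t : ℕ) : ℕ := ((Icc 1 t).filter (· ∈ K)).card

lemma cnt_zero (K : Set ℕ) : cnt K 0 = 0 := by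
  unfold cnt; simp

lemma cnt_succ (K : Set ℕ) (t : ℕ) [Decidable (t + 1 ∈ K)] :
    cnt K (t + 1) = cnt K t + if t + 1 ∈ K then 1 else 0 := by
  classical
  unfold cnt
  have h : Icc 1 (t + 1) = insert (t + 1) (Icc 1 t) := by
    ext i; simp only [mem_Icc, mem_insert]; omega
  rw [h, filter_insert]
  split_ifs with h1
  · rw [card_insert_of_notMem]
    intro h2
    have := (mem_Icc.1 (mem_filter.1 h2).1).2
    omega
  · rfl

lemma cnt_mono (K : Set ℕ) {s t : ℕ} (h : s ≤ t) : cnt K s ≤ cnt K t := by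
  classical
  unfold cnt
  exact card_le_card (filter_subset_filter _ (Icc_subset_Icc_right h))

open Classical in
lemma cnt_diff (K : Set ℕ) {s t : ℕ} (h : s ≤ t) :
    cnt K t = cnt K s + ((Ioc s t).filter (· ∈ K)).card := by
  unfold cnt
  rw [← card_union_of_disjoint]
  · congr 1
    ext i
    simp only [mem_union, mem_filter, mem_Icc, mem_Ioc]
    constructor
    · rintro ⟨⟨h1, h2⟩, h3⟩
      rcases le_or_gt i s with h4 | h4
      · exact Or.inl ⟨⟨h1, h4⟩, h3⟩
      · exact Or.inr ⟨⟨h4, h2⟩, h3⟩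
    · rintro (⟨⟨h1, h2⟩, h3⟩ | ⟨⟨h1, h2⟩, h3⟩)
      · exact ⟨⟨h1, h2.trans h⟩, h3⟩
      · exact ⟨⟨by omega, h2⟩, h3⟩
  · rw [disjoint_left]
    intro i h1 h2
    rw [mem_filter, mem_Icc] at h1
    rw [mem_filter, mem_Ioc] at h2
    omega

lemma cnt_prime (t : ℕ) : cnt {p : ℕ | p.Prime} t = Nat.primeCounting t := by
  classical
  induction t with
  | zero => rw [cnt_zero]; simp
  | succ t ih =>
    rw [cnt_succ, ih]
    unfold Nat.primeCounting Nat.primeCounting'
    rw [Nat.count_succ Nat.Prime (t + 1)]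
    rfl

lemma pi1_eq (t : ℕ) : H343E.pi1 t = Nat.primeCounting t := by
  classical
  rw [← cnt_prime]
  unfold H343E.pi1 cnt
  congr 2
  ext p
  simp only [mem_filter, Set.mem_setOf_eq]

/-! ### The greedy subset -/

open Classical in
/-- the counting function of the greedy subset of `S` -/
noncomputable def g (S : Set ℕ) (F : ℕ → ℕ) : ℕ → ℕ
  | 0 => 0
  | k + 1 => g S F k + if k + 1 ∈ S ∧ g S F k < F (k + 1) then 1 else 0

/-- the greedy subset of `S` -/
def gs (S : Set ℕ) (F : ℕ → ℕ) : Set ℕ := {k | ∃ j, k = j + 1 ∧ k ∈ S ∧ g S F j < F k}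

lemma gs_sub (S : Set ℕ) (F : ℕ → ℕ) : gs S F ⊆ S := by
  rintro k ⟨j, -, h, -⟩
  exact h

lemma cnt_gs (S : Set ℕ) (F : ℕ → ℕ) (t : ℕ) : cnt (gs S F) t = g S F t := by
  classical
  induction t with
  | zero => rw [cnt_zero]; rfl
  | succ t ih =>
    rw [cnt_succ, ih]
    show _ = g S F t + if t + 1 ∈ S ∧ g S F t < F (t + 1) then 1 else 0
    congr 1
    have : t + 1 ∈ gs S F ↔ t + 1 ∈ S ∧ g S F t < F (t + 1) := by
      constructor
      · rintro ⟨j, h1, h2, h3⟩
        have : t = j := by omega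
        subst this
        exact ⟨h2, h3⟩
      · rintro ⟨h2, h3⟩
        exact ⟨t, rfl, h2, h3⟩
    simp only [this]

lemma g_le (S : Set ℕ) {F : ℕ → ℕ} (hF : Monotone F) (t : ℕ) : g S F t ≤ F t := by
  classical
  induction t with
  | zero => exact Nat.zero_le _
  | succ t ih =>
    show (g S F t + if t + 1 ∈ S ∧ g S F t < F (t + 1) then 1 else 0) ≤ _
    split_ifs with h
    · omega
    · have := hF (Nat.le_succ t)
      simp only [Nat.succ_eq_add_one] at this
      omega

lemma g_ge (S : Set ℕ) {F : ℕ → ℕ} (hF : F 0 = 0) (t : ℕ) :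
    ∃ s ≤ t, F s + cnt S t ≤ g S F t + cnt S s := by
  classical
  induction t with
  | zero => exact ⟨0, le_rfl, by rw [hF, zero_add]; exact Nat.le_add_left _ _⟩
  | succ t ih =>
    obtain ⟨s, hs, h⟩ := ih
    have e : g S F (t + 1) = g S F t + if t + 1 ∈ S ∧ g S F t < F (t + 1) then 1 else 0 := rfl
    by_cases h1 : t + 1 ∈ S
    · by_cases h2 : g S F t < F (t + 1)
      · refine ⟨s, by omega, ?_⟩
        rw [cnt_succ, if_pos h1, e, if_pos ⟨h1, h2⟩]
        omega
      · refine ⟨t + 1, le_rfl, ?_⟩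
        rw [e, if_neg (fun h3 => h2 h3.2)]
        omega
    · refine ⟨s, by omega, ?_⟩
      rw [cnt_succ, if_neg h1, e, if_neg (fun h3 => h1 h3.1)]
      omega

/-! ### The modulus -/

/-- a slowly increasing function -/
def w (k : ℕ) : ℕ := Nat.sqrt (Nat.log 2 (Nat.log 2 k))

/-- the modulus -/
def M (k : ℕ) : ℕ := primorial (w k)

lemma w_mono : Monotone w := by
  intro j k h
  exact Nat.sqrt_le_sqrt (Nat.log_mono_right (Nat.log_mono_right h))

lemma M_dvd {j k : ℕ} (h : j ≤ k) : M j ∣ M k := by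
  unfold M primorial
  apply Finset.prod_dvd_prod_of_subset
  intro p hp
  rw [mem_filter, mem_range] at hp ⊢
  have := w_mono h
  exact ⟨by omega, hp.2⟩

lemma M_pos (k : ℕ) : 0 < M k := primorial_pos _

lemma M_sq (k : ℕ) (hk : Nat.log 2 k ≠ 0) : M k ^ 2 ≤ Nat.log 2 k + 4096 := by
  have h1 : M k ≤ 4 ^ w k := primorial_le_four_pow _
  rcases lt_or_ge (w k) 4 with h | h
  · have h2 : 4 ^ w k ≤ 4 ^ 3 := Nat.pow_le_pow_right (by norm_num) (by omega)
    have h3 : M k ≤ 64 := by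
      calc M k ≤ 4 ^ w k := h1
        _ ≤ 4 ^ 3 := h2
        _ = 64 := by norm_num
    calc M k ^ 2 ≤ 64 ^ 2 := Nat.pow_le_pow_left h3 2
      _ ≤ _ := by norm_num
  · have h2 : w k * w k ≤ Nat.log 2 (Nat.log 2 k) := Nat.sqrt_le _
    calc M k ^ 2 ≤ (4 ^ w k) ^ 2 := Nat.pow_le_pow_left h1 2
      _ = 2 ^ (4 * w k) := by
          rw [← pow_mul, show (4 : ℕ) = 2 ^ 2 by norm_num, ← pow_mul]
          congr 1
          ring
      _ ≤ 2 ^ (Nat.log 2 (Nat.log 2 k)) := by
          apply Nat.pow_le_pow_right (by norm_num)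
          nlinarith
      _ ≤ Nat.log 2 k := Nat.pow_log_le_self 2 hk
      _ ≤ _ := Nat.le_add_right _ _

/-- the modulus is small -/
lemma M_small (c : ℝ) (hc : 0 < c) : ∀ᶠ t : ℕ in atTop, c * M t ≤ Real.log t := by
  have tL : Tendsto (fun N : ℕ => Real.log (N : ℝ)) atTop atTop :=
    Real.tendsto_log_atTop.comp tendsto_natCast_atTop_atTop
  filter_upwards [tL.eventually_ge_atTop (4096 * c ^ 2 + 1), tL.eventually_ge_atTop (4 * c ^ 2 + 1),
    tL.eventually_ge_atTop 2, eventually_ge_atTop 2] with t h1 h2 h2' h3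
  have ht0 : (0 : ℝ) < t := by exact_mod_cast (by omega : 0 < t)
  have hlog : Nat.log 2 t ≠ 0 := by
    intro h
    rw [Nat.log_eq_zero_iff] at h
    omega
  have h4 := M_sq t hlog
  have h5 : ((M t : ℝ)) ^ 2 ≤ Nat.log 2 t + 4096 := by exact_mod_cast h4
  have h6 : (Nat.log 2 t : ℝ) ≤ 2 * Real.log t := by
    have h7 : 2 ^ Nat.log 2 t ≤ t := Nat.pow_log_le_self 2 (by omega)
    have h8 : ((2 : ℝ) ^ Nat.log 2 t) ≤ t := by exact_mod_cast h7
    have h9 := Real.log_le_log (by positivity) h8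
    rw [Real.log_pow] at h9
    have h10 : (0.5 : ℝ) ≤ Real.log 2 := by
      have := Real.log_two_gt_d9
      linarith
    have h11 : (0 : ℝ) ≤ Nat.log 2 t := Nat.cast_nonneg _
    nlinarith
  have hM0 : (0 : ℝ) ≤ M t := Nat.cast_nonneg _
  by_contra hcon
  push Not at hcon
  have hL0 : 0 < Real.log t := by linarith
  have h12 : Real.log t * Real.log t < (c * M t) * (c * M t) :=
    mul_self_lt_mul_self hL0.le hcon
  have h13 : (c * M t) * (c * M t) = c ^ 2 * (M t : ℝ) ^ 2 := by ring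
  have h14 : c ^ 2 * (M t : ℝ) ^ 2 ≤ c ^ 2 * (2 * Real.log t + 4096) := by
    apply mul_le_mul_of_nonneg_left _ (by positivity)
    linarith
  have hcc : 0 < c ^ 2 := by positivity
  nlinarith

end Pool.Agent.Y886.IXS
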