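import Pool.Agent.Y886.IXA

/-!
Sets of indices of primes: the indices of the primes congruent to one modulo a slowly growing modulus are
more numerous than the primes in every long interval.
-/

set_option autoImplicit false

open Finset Filter Topology

namespace Pool.Agent.Y886.IXS

/-- the primes up to `Y s` are the first `s` primes -/
noncomputable def Y (s : ℕ) : ℕ := Nat.nth Nat.Prime s - 1

lemma pi_Y (s : ℕ) : Nat.primeCounting (Y s) = s := by
  unfold Nat.primeCounting Y
  have h := (Nat.prime_nth_prime s).one_lt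
  rw [Nat.sub_add_cancel h.le]
  exact Nat.primeCounting'_nth_eq s

lemma nth_pi {p : ℕ} (hp : p.Prime) : Nat.nth Nat.Prime (Nat.primeCounting p - 1) = p := by
  unfold Nat.primeCounting Nat.primeCounting'
  rw [Nat.count_succ, if_pos hp, Nat.add_sub_cancel]
  exact Nat.nth_count hp

lemma pi_pos {p : ℕ} (hp : p.Prime) : 0 < Nat.primeCounting p := by
  unfold Nat.primeCounting Nat.primeCounting'
  rw [Nat.count_succ, if_pos hp]
  omega

lemma pi_inj {p q : ℕ} (hp : p.Prime) (hq : q.Prime) (h : Nat.primeCounting p = Nat.primeCounting q) :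
    p = q := by
  rw [← nth_pi hp, ← nth_pi hq, h]

lemma pi_mono {a b : ℕ} (h : a ≤ b) : Nat.primeCounting a ≤ Nat.primeCounting b :=
  Nat.monotone_primeCounting h

lemma pi_le_iff {p s : ℕ} (_hp : p.Prime) : Nat.primeCounting p ≤ s ↔ p ≤ Y s := by
  constructor
  · intro h
    by_contra hcon
    push Not at hcon
    have h1 := (Nat.prime_nth_prime s).one_lt
    have h2 : Nat.nth Nat.Prime s ≤ p := by
      unfold Y at hcon
      omega
    have h3 := pi_mono h2
    have h4 : Nat.primeCounting (Nat.nth Nat.Prime s) = s + 1 := by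
      unfold Nat.primeCounting Nat.primeCounting'
      rw [Nat.count_succ, if_pos (Nat.prime_nth_prime s)]
      have := Nat.primeCounting'_nth_eq s
      unfold Nat.primeCounting' at this
      rw [this]
    omega
  · intro h
    have := pi_mono h
    rwa [pi_Y] at this

/-- the indices of the primes which are congruent to one modulo `M k` -/
def S : Set ℕ := {k | ∃ p : ℕ, p.Prime ∧ Nat.primeCounting p = k ∧ p ≡ 1 [MOD M k]}

lemma cls_le {s t : ℕ} (h : s ≤ t) : H343E.piAP (Y t) (M t) (1 % M t) ≤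
    H343E.piAP (Y s) (M t) (1 % M t) + ((cnt S t : ℝ) - cnt S s) := by
  classical
  set A : ℕ → Finset ℕ := fun u => (Icc 1 (Y u)).filter (fun p => p.Prime ∧ p ≡ 1 % M t [MOD M t]) with hA
  have hcard : (A t).card ≤ (A s).card + ((Ioc s t).filter (· ∈ S)).card := by
    have hsub : A t ⊆ A s ∪ (A t).filter (fun p => s < Nat.primeCounting p) := by
      intro p hp
      rw [mem_union, mem_filter (s := A t)]
      rcases le_or_gt (Nat.primeCounting p) s with h1 | h1
      · left
        simp only [hA, mem_filter, mem_Icc] at hp ⊢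
        exact ⟨⟨hp.1.1, (pi_le_iff hp.2.1).1 h1⟩, hp.2⟩
      · right
        exact ⟨hp, h1⟩
    refine (card_le_card hsub).trans ((card_union_le _ _).trans ?_)
    apply Nat.add_le_add_left
    apply card_le_card_of_injOn Nat.primeCounting
    · intro p hp
      rw [mem_coe, mem_filter] at hp
      obtain ⟨h1, h2⟩ := hp
      rw [hA] at h1
      simp only [mem_filter, mem_Icc] at h1
      rw [mem_coe, mem_filter, mem_Ioc]
      have h3 : Nat.primeCounting p ≤ t := (pi_le_iff h1.2.1).2 h1.1.2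
      refine ⟨⟨h2, h3⟩, p, h1.2.1, rfl, ?_⟩
      have h4 : p ≡ 1 [MOD M t] := h1.2.2.trans (Nat.mod_modEq 1 (M t))
      exact h4.of_dvd (M_dvd h3)
    · intro p hp q hq hpq
      rw [mem_coe, mem_filter] at hp hq
      have h1 := hp.1
      have h2 := hq.1
      rw [hA] at h1 h2
      simp only [mem_filter] at h1 h2
      exact pi_inj h1.2.1 h2.2.1 hpq
  have e := cnt_diff S h
  have e2 : (cnt S t : ℝ) - cnt S s = (((Ioc s t).filter (· ∈ S)).card : ℝ) := by
    rw [e]; push_cast; ring
  rw [e2]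
  unfold H343E.piAP
  exact_mod_cast hcard

lemma piAP_le (x q a : ℕ) : H343E.piAP x q a ≤ Nat.primeCounting x := by
  classical
  rw [← pi1_eq]
  unfold H343E.piAP H343E.pi1
  apply Nat.cast_le.2
  apply card_le_card
  intro p hp
  rw [mem_filter] at hp ⊢
  exact ⟨hp.1, hp.2.1⟩

lemma card_filter_inst (T : Finset ℕ) (P Q : ℕ → Prop) (i : DecidablePred P) (j : DecidablePred Q)
    (h : ∀ x, P x ↔ Q x) : (@filter ℕ P i T).card = (@filter ℕ Q j T).card := by
  have e : P = Q := funext fun x => propext (h x)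
  subst e
  congr

lemma pi_diff {s t : ℕ} (h : s ≤ t) :
    (Nat.primeCounting t : ℝ) - Nat.primeCounting s = (((Ioc s t).filter Nat.Prime).card : ℝ) := by
  classical
  have e := cnt_diff {p : ℕ | p.Prime} h
  rw [cnt_prime, cnt_prime] at e
  have e3 : Nat.primeCounting t = Nat.primeCounting s + ((Ioc s t).filter Nat.Prime).card := by
    rw [e]
    congr 1
    exact card_filter_inst _ _ _ _ _ (fun _ => Iff.rfl)
  rw [e3]
  push_cast
  ring

lemma bt {s t : ℕ} (h : s + 2 ≤ t) :
    (Nat.primeCounting t : ℝ) - Nat.primeCounting s ≤ 20 * (((t - s : ℕ) : ℝ) / Real.log ((t - s : ℕ) : ℝ)) := by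
  classical
  have h1 := Pool.Agent.W38.PR.bt_unif (a := s + 1) (q := 1) (N := t - s) le_rfl (by omega)
  rw [Nat.totient_one, Nat.cast_one, div_one, mul_one] at h1
  refine le_trans (le_of_eq ?_) h1
  rw [pi_diff (show s ≤ t by omega)]
  congr 1
  symm
  apply card_bij (fun k _ => s + 1 + k)
  · intro k hk
    rw [mem_filter, mem_range] at hk
    rw [mem_filter, mem_Ioc]
    refine ⟨⟨by omega, by omega⟩, ?_⟩
    have := hk.2
    rwa [mul_one] at this
  · intro k _ j _ hkj
    omega
  · intro p hp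
    rw [mem_filter, mem_Ioc] at hp
    refine ⟨p - (s + 1), ?_, by omega⟩
    rw [mem_filter, mem_range]
    refine ⟨by omega, ?_⟩
    have : s + 1 + (p - (s + 1)) * 1 = p := by omega
    rw [this]
    exact hp.2

lemma pi_diff_le {s t : ℕ} (h : s ≤ t) :
    (Nat.primeCounting t : ℝ) - Nat.primeCounting s ≤ (t : ℝ) - s := by
  classical
  rw [pi_diff h]
  have h1 : ((Ioc s t).filter Nat.Prime).card ≤ t - s := by
    refine (card_filter_le _ _).trans ?_
    rw [Nat.card_Ioc]
  have h2 : (((Ioc s t).filter Nat.Prime).card : ℝ) ≤ ((t - s : ℕ) : ℝ) := by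
    exact_mod_cast h1
  rwa [Nat.cast_sub h] at h2

/-- sizes -/
lemma Y_size : ∀ᶠ t : ℕ in atTop, (t : ℝ) ≤ Y t ∧ Real.log (Y t) ≤ 2 * Real.log t ∧
    (Y t : ℝ) ≤ 4 * t * Real.log t ^ 2 := by
  have hY : Tendsto Y atTop atTop := by
    apply tendsto_atTop_mono (f := fun t : ℕ => t) _ tendsto_id
    intro t
    have := pi_Y t
    have h := Pool.Agent.H197R2.PG.pi_le_self (Y t)
    omega
  have hs : ∀ᶠ y : ℕ in atTop, Real.log y ^ 2 ≤ √(y : ℝ) := by
    have h0 := (isLittleO_log_rpow_rpow_atTop ((2 : ℕ) : ℝ) (s := 1 / 2) (by norm_num)).bound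
      (c := 1) (by norm_num)
    have h1 := (tendsto_natCast_atTop_atTop (R := ℝ)).eventually h0
    filter_upwards [h1, eventually_ge_atTop 1] with y hy hy1
    have hl : 0 ≤ Real.log y := Real.log_natCast_nonneg y
    rw [Real.rpow_natCast, Real.norm_of_nonneg (by positivity),
      Real.norm_of_nonneg (by positivity), ← Real.sqrt_eq_rpow] at hy
    linarith
  filter_upwards [hY.eventually (Pool.Agent.H197R2.PG.pi_lower.and hs), eventually_ge_atTop 2] with t h1 ht
  obtain ⟨h1, h2⟩ := h1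
  rw [pi_Y] at h1
  have h3 : t ≤ Y t := by
    have := pi_Y t
    have h := Pool.Agent.H197R2.PG.pi_le_self (Y t)
    omega
  have h3' : (t : ℝ) ≤ Y t := by exact_mod_cast h3
  have ht0 : (0 : ℝ) < t := by exact_mod_cast (by omega : 0 < t)
  have hY0 : (0 : ℝ) < Y t := by linarith
  have h4 : √(Y t : ℝ) ≤ t := by
    have h5 : (Y t : ℝ) ≤ t * √(Y t : ℝ) := h1.trans (mul_le_mul_of_nonneg_left h2 ht0.le)
    have h6 : √(Y t : ℝ) * √(Y t : ℝ) = Y t := Real.mul_self_sqrt hY0.le
    have h7 : 0 < √(Y t : ℝ) := Real.sqrt_pos.2 hY0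
    nlinarith
  have h8 : Real.log (Y t) ≤ 2 * Real.log t := by
    have h9 : (Y t : ℝ) ≤ (t : ℝ) ^ 2 := by
      have h6 : √(Y t : ℝ) * √(Y t : ℝ) = Y t := Real.mul_self_sqrt hY0.le
      have h7 : 0 < √(Y t : ℝ) := Real.sqrt_pos.2 hY0
      nlinarith
    have h10 := Real.log_le_log hY0 h9
    rwa [Real.log_pow] at h10
  refine ⟨h3', h8, ?_⟩
  have hl : 0 ≤ Real.log (Y t) := Real.log_natCast_nonneg _
  calc (Y t : ℝ) ≤ t * Real.log (Y t) ^ 2 := h1
    _ ≤ t * (2 * Real.log t) ^ 2 := by gcongr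
    _ = 4 * t * Real.log t ^ 2 := by ring

end Pool.Agent.Y886.IXS
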