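import Pool.Agent.Y886.IXB

/-!
Sets of indices of primes: a set with the counting function of the primes, all of whose elements are indices
of primes congruent to one modulo a slowly growing modulus.
-/

set_option autoImplicit false

open Finset Filter Topology

namespace Pool.Agent.Y886.IXS

lemma Y_mono {s t : ℕ} (h : s ≤ t) : Y s ≤ Y t := by
  unfold Y
  have h1 : Nat.nth Nat.Prime s ≤ Nat.nth Nat.Prime t :=
    Nat.nth_monotone Nat.infinite_setOfPred_prime h
  omega

lemma s_le_Y (s : ℕ) : s ≤ Y s := by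
  have := pi_Y s
  have h := Pool.Agent.H197R2.PG.pi_le_self (Y s)
  omega

/-- In every long interval the elements of `S` are more numerous than the primes. -/
theorem key (A : ℕ) : ∀ᶠ t : ℕ in atTop, ∀ s ≤ t,
    (Nat.primeCounting t : ℝ) - Nat.primeCounting s ≤
      ((cnt S t : ℝ) - cnt S s) + t / Real.log t ^ A := by
  obtain ⟨x0, hsw⟩ := Pool.Agent.W218.MU.sw 1 (A + 4)
  have tN : Tendsto (fun N : ℕ => (N : ℝ)) atTop atTop := tendsto_natCast_atTop_atTop
  have tL : Tendsto (fun N : ℕ => Real.log (N : ℝ)) atTop atTop := Real.tendsto_log_atTop.comp tN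
  have hpow : ∀ᶠ y : ℝ in atTop, 40 * Real.log y ^ (A + 1) ≤ √y := by
    have h0 := (isLittleO_log_rpow_rpow_atTop ((A + 1 : ℕ) : ℝ) (s := 1 / 2) (by norm_num)).bound
      (c := 1 / 40) (by norm_num)
    filter_upwards [h0, eventually_ge_atTop (1 : ℝ)] with y hy hy1
    have hl : 0 ≤ Real.log y := Real.log_nonneg hy1
    rw [Real.rpow_natCast, Real.norm_of_nonneg (by positivity),
      Real.norm_of_nonneg (by positivity), ← Real.sqrt_eq_rpow] at hy
    linarith
  have tS : Tendsto (fun N : ℕ => √(N : ℝ)) atTop atTop := Real.tendsto_sqrt_atTop.comp tN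
  filter_upwards [Y_size, M_small 80 (by norm_num), tN.eventually hpow, tL.eventually_ge_atTop 4,
    tL.eventually_ge_atTop (4 + 4 * 2 ^ (A + 4)), tS.eventually_ge_atTop ((x0 : ℝ) + 2),
    eventually_ge_atTop (x0 + 4)] with t hY hM hp hL4 hLC hx0 ht
  intro s hs
  obtain ⟨hY1, hY2, hY3⟩ := hY
  set L := Real.log (t : ℝ) with hL
  have hL0 : 0 < L := by linarith
  have ht0 : (0 : ℝ) < t := by exact_mod_cast (by omega : 0 < t)
  have hq1 : 1 ≤ M t := M_pos t
  have hφ1 : (1 : ℝ) ≤ Nat.totient (M t) := by exact_mod_cast Nat.totient_pos.2 (M_pos t)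
  have hφM : (Nat.totient (M t) : ℝ) ≤ M t := by exact_mod_cast Nat.totient_le _
  set φ : ℝ := (Nat.totient (M t) : ℝ) with hφ
  have hφ0 : 0 < φ := by linarith
  have hφL : 80 * φ ≤ L := by linarith
  have ha1 : 1 % M t < M t := Nat.mod_lt _ (M_pos t)
  have ha2 : (1 % M t).Coprime (M t) := by
    have := (Nat.mod_modEq 1 (M t)).gcd_eq
    unfold Nat.Coprime
    rw [this]
    exact Nat.gcd_one_left _
  have hst : √(t : ℝ) * √(t : ℝ) = t := Real.mul_self_sqrt ht0.le
  have hst0 : 0 < √(t : ℝ) := Real.sqrt_pos.2 ht0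
  have hLA : 0 < L ^ A := by positivity
  have hLA1 : 1 ≤ L ^ A := one_le_pow₀ (by linarith)
  -- the main class count at `t`
  have hlogY : L ≤ Real.log (Y t) := Real.log_le_log ht0 hY1
  have hYt : x0 ≤ Y t := by
    have := s_le_Y t
    omega
  have e1 := hsw (Y t) hYt (M t) hq1 (by
    rw [pow_one]
    have : (0 : ℝ) ≤ M t := Nat.cast_nonneg _
    linarith) (1 % M t) ha1 ha2
  rw [pi1_eq, pi_Y, ← hφ] at e1
  have e2 : (Y t : ℝ) / Real.log (Y t) ^ (A + 4) ≤ 4 * (t / L ^ (A + 2)) := by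
    calc (Y t : ℝ) / Real.log (Y t) ^ (A + 4) ≤ (4 * t * L ^ 2) / L ^ (A + 4) := by
          apply div_le_div₀ (by positivity) hY3 (by positivity)
          exact pow_le_pow_left₀ hL0.le hlogY _
      _ = 4 * (t / L ^ (A + 2)) := by
          rw [show A + 4 = (A + 2) + 2 by ring, pow_add]
          field_simp
  have e3 := (abs_le.1 (e1.trans e2)).1
  have hcls := cls_le hs
  -- the error terms
  have herr : 4 * (t / L ^ (A + 2)) ≤ t / L ^ A := by
    have h1 : t / L ^ (A + 2) = t / L ^ A / L ^ 2 := by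
      rw [pow_add]; field_simp
    rw [h1, mul_div_assoc', div_le_iff₀ (by positivity)]
    have h2 : 0 < t / L ^ A := by positivity
    have h3 : 4 ≤ L ^ 2 := by nlinarith
    calc 4 * (t / L ^ A) ≤ L ^ 2 * (t / L ^ A) := mul_le_mul_of_nonneg_right h3 h2.le
      _ = t / L ^ A * L ^ 2 := mul_comm _ _
  have hcntm : (0 : ℝ) ≤ (cnt S t : ℝ) - cnt S s := by
    have : (cnt S s : ℝ) ≤ cnt S t := by exact_mod_cast cnt_mono S hs
    linarith
  have hstR : (s : ℝ) ≤ t := by exact_mod_cast hs
  have hs0 : (0 : ℝ) ≤ s := Nat.cast_nonneg _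
  -- upper bound for the primes in long intervals
  have hbt : √(t : ℝ) ≤ (t : ℝ) - s →
      (Nat.primeCounting t : ℝ) - Nat.primeCounting s ≤ 40 * (((t : ℝ) - s) / L) := by
    intro h1
    have h2 : (2 : ℝ) ≤ (t : ℝ) - s := by
      have : (0 : ℝ) ≤ x0 := Nat.cast_nonneg _
      linarith
    have h3 : s + 2 ≤ t := by
      have : ((s + 2 : ℕ) : ℝ) ≤ t := by push_cast; linarith
      exact_mod_cast this
    have h4 := bt h3
    rw [Nat.cast_sub hs] at h4
    refine h4.trans ?_
    have h5 : L / 2 ≤ Real.log ((t : ℝ) - s) := by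
      have h6 := Real.log_le_log hst0 h1
      rw [Real.log_sqrt ht0.le] at h6
      linarith
    have h7 : ((t : ℝ) - s) / Real.log ((t : ℝ) - s) ≤ ((t : ℝ) - s) / (L / 2) :=
      div_le_div_of_nonneg_left (by linarith) (by linarith) h5
    have h8 : ((t : ℝ) - s) / (L / 2) = 2 * (((t : ℝ) - s) / L) := by field_simp
    linarith
  rcases le_or_gt (s : ℝ) √(t : ℝ) with hc | hc
  · -- small `s`
    have h1 := piAP_le (Y s) (M t) (1 % M t)
    rw [pi_Y] at h1
    have hlL : 40 * L ≤ √(t : ℝ) := by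
      refine le_trans ?_ hp
      have : L ≤ L ^ (A + 1) := le_self_pow₀ (by linarith) (by omega)
      linarith
    have h2 : √(t : ℝ) ≤ (t : ℝ) - s := by nlinarith
    have h3 := hbt h2
    have h4 : 40 * (((t : ℝ) - s) / L) ≤ 40 * (t / L) := by
      have : ((t : ℝ) - s) / L ≤ t / L := div_le_div_of_nonneg_right (by linarith) hL0.le
      linarith
    have h5 : 80 * (t / L) ≤ t / φ := by
      rw [mul_div_assoc', div_le_div_iff₀ hL0 hφ0]
      calc 80 * (t : ℝ) * φ = t * (80 * φ) := by ring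
        _ ≤ t * L := mul_le_mul_of_nonneg_left hφL ht0.le
    have h6 : √(t : ℝ) ≤ 40 * (t / L) := by
      rw [mul_div_assoc', le_div_iff₀ hL0]
      have h7 : L ≤ √(t : ℝ) := by linarith
      calc √(t : ℝ) * L ≤ √(t : ℝ) * √(t : ℝ) := mul_le_mul_of_nonneg_left h7 hst0.le
        _ = t := hst
        _ ≤ 40 * t := by linarith
    linarith
  · -- large `s`
    have hs1 : (x0 : ℝ) + 2 ≤ s := by linarith
    have hsx : x0 ≤ Y s := by
      have h1 : x0 ≤ s := by
        have : (x0 : ℝ) ≤ s := by linarith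
        exact_mod_cast this
      exact h1.trans (s_le_Y s)
    have hlogs : L / 2 ≤ Real.log (Y s) := by
      have h1 : √(t : ℝ) ≤ Y s := hc.le.trans (by exact_mod_cast s_le_Y s)
      have h2 := Real.log_le_log hst0 h1
      rw [Real.log_sqrt ht0.le] at h2
      linarith
    have f1 := hsw (Y s) hsx (M t) hq1 (by rw [pow_one]; linarith) (1 % M t) ha1 ha2
    rw [pi1_eq, pi_Y, ← hφ] at f1
    have hYs : (Y s : ℝ) ≤ Y t := by exact_mod_cast Y_mono hs
    have f2 : (Y s : ℝ) / Real.log (Y s) ^ (A + 4) ≤ 4 * 2 ^ (A + 4) * (t / L ^ (A + 2)) := by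
      calc (Y s : ℝ) / Real.log (Y s) ^ (A + 4) ≤ (4 * t * L ^ 2) / (L / 2) ^ (A + 4) := by
            apply div_le_div₀ (by positivity) (hYs.trans hY3) (by positivity)
            exact pow_le_pow_left₀ (by positivity) hlogs _
        _ = 4 * 2 ^ (A + 4) * (t / L ^ (A + 2)) := by
            rw [div_pow, show A + 4 = (A + 2) + 2 by ring, pow_add L]
            field_simp
    have f3 := (abs_le.1 (f1.trans f2)).2
    have f4 : (4 + 4 * 2 ^ (A + 4)) * (t / L ^ (A + 2)) ≤ t / L ^ A := by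
      have h1 : t / L ^ (A + 2) = t / L ^ A / L ^ 2 := by
        rw [pow_add]; field_simp
      rw [h1, mul_div_assoc', div_le_iff₀ (by positivity)]
      have h2 : 0 < t / L ^ A := by positivity
      have h3 : L ≤ L ^ 2 := le_self_pow₀ (by linarith) (by norm_num)
      calc (4 + 4 * 2 ^ (A + 4)) * (t / L ^ A) ≤ L ^ 2 * (t / L ^ A) :=
            mul_le_mul_of_nonneg_right (hLC.trans h3) h2.le
        _ = t / L ^ A * L ^ 2 := mul_comm _ _
    have f5 : ((t : ℝ) - s) / φ - t / L ^ A ≤ (cnt S t : ℝ) - cnt S s := by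
      rw [sub_div]
      linarith
    rcases le_or_gt ((t : ℝ) - s) (t / L ^ A) with hd | hd
    · have := pi_diff_le hs
      linarith
    · have h2 : √(t : ℝ) ≤ (t : ℝ) - s := by
        refine le_trans ?_ hd.le
        rw [le_div_iff₀ hLA]
        have h3 : L ^ A ≤ √(t : ℝ) := by
          refine le_trans ?_ hp
          have h4 : L ^ A ≤ L ^ (A + 1) := pow_le_pow_right₀ (by linarith) (by omega)
          have h5 : 0 ≤ L ^ (A + 1) := by positivity
          linarith
        calc √(t : ℝ) * L ^ A ≤ √(t : ℝ) * √(t : ℝ) := mul_le_mul_of_nonneg_left h3 hst0.le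
          _ = t := hst
      have h3 := hbt h2
      have h4 : 40 * (((t : ℝ) - s) / L) ≤ ((t : ℝ) - s) / φ := by
        have h5 : 0 ≤ (t : ℝ) - s := by linarith
        rw [mul_div_assoc', div_le_div_iff₀ hL0 hφ0]
        calc 40 * ((t : ℝ) - s) * φ = ((t : ℝ) - s) * (40 * φ) := by ring
          _ ≤ ((t : ℝ) - s) * L := mul_le_mul_of_nonneg_left (by linarith) h5
      linarith

/-- the set of indices -/
def K : Set ℕ := gs S Nat.primeCounting

lemma K_sub : K ⊆ S := gs_sub _ _

lemma cnt_K_le (t : ℕ) : cnt K t ≤ Nat.primeCounting t := by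
  unfold K
  rw [cnt_gs]
  exact g_le _ Nat.monotone_primeCounting t

/-- the set of indices has the counting function of the primes -/
theorem cnt_K_ge (A : ℕ) : ∀ᶠ t : ℕ in atTop,
    (Nat.primeCounting t : ℝ) - t / Real.log t ^ A ≤ cnt K t := by
  filter_upwards [key A] with t ht
  obtain ⟨s, hs, h⟩ := g_ge S (F := Nat.primeCounting) (by simp) t
  have h1 := ht s hs
  have h2 : (Nat.primeCounting s : ℝ) + cnt S t ≤ cnt K t + cnt S s := by
    unfold K
    rw [cnt_gs]
    exact_mod_cast h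
  linarith

end Pool.Agent.Y886.IXS
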