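import Pool.Agent.Y886.IXC

/-!
Sets of indices of primes: few even integers are represented.
-/

set_option autoImplicit false

open Finset Filter Topology

namespace Pool.Agent.Y886.IXS

/-- Mertens -/
lemma mert : ∃ C : ℝ, 0 < C ∧ ∃ W0 : ℕ, 2 ≤ W0 ∧ ∀ W : ℕ, W0 ≤ W →
    (Nat.totient (primorial W) : ℝ) / primorial W ≤ C / Real.log W := by
  have h := Pool.Agent.H305R2.mertens_three
  have hpos : (0 : ℝ) < Real.exp Real.eulerMascheroniConstant := Real.exp_pos _
  have h1 := h.eventually (lt_mem_nhds (show Real.exp Real.eulerMascheroniConstant / 2 <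
    Real.exp Real.eulerMascheroniConstant by linarith))
  obtain ⟨W1, hW1⟩ := eventually_atTop.1 h1
  refine ⟨2 / Real.exp Real.eulerMascheroniConstant, by positivity, max W1 2, le_max_right _ _, fun W hW => ?_⟩
  have hW2 : 2 ≤ W := (le_max_right _ _).trans hW
  have h2 := hW1 W ((le_max_left _ _).trans hW)
  have hlog : 0 < Real.log W := Real.log_pos (by exact_mod_cast (by omega : 1 < W))
  have hP0 : (0 : ℝ) < primorial W := by exact_mod_cast primorial_pos W
  have h3 : (Nat.totient (primorial W) : ℝ) / primorial W =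
      ∏ p ∈ (Finset.Icc 1 W).filter Nat.Prime, (1 - (p : ℝ)⁻¹) := by
    have h4 := Nat.totient_eq_mul_prod_factors (primorial W)
    have h5 : (Nat.totient (primorial W) : ℝ) =
        primorial W * ∏ p ∈ (primorial W).primeFactors, (1 - (p : ℝ)⁻¹) := by
      have := congrArg (fun q : ℚ => (q : ℝ)) h4
      push_cast at this
      exact this
    rw [h5, mul_div_cancel_left₀ _ hP0.ne']
    apply prod_congr _ (fun _ _ => rfl)
    rw [primeFactors_primorial]
    ext p
    rw [Nat.mem_primesLE, mem_filter, mem_Icc]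
    constructor
    · rintro ⟨h6, h7⟩
      exact ⟨⟨h7.one_lt.le, h6⟩, h7⟩
    · rintro ⟨⟨_, h6⟩, h7⟩
      exact ⟨h6, h7⟩
  rw [h3]
  rw [prod_inv_distrib, lt_div_iff₀ hlog] at h2
  set V := ∏ p ∈ (Finset.Icc 1 W).filter Nat.Prime, (1 - (p : ℝ)⁻¹) with hV
  have hV0 : 0 < V := by
    apply prod_pos
    intro p hp
    have h6 : (1 : ℝ) < p := by exact_mod_cast (mem_filter.1 hp).2.one_lt
    have h7 : (p : ℝ)⁻¹ < 1 := inv_lt_one_of_one_lt₀ h6
    linarith
  have h8 : V = (V⁻¹)⁻¹ := (inv_inv V).symm
  have h9 : 0 < Real.exp Real.eulerMascheroniConstant / 2 * Real.log W := by positivity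
  rw [h8]
  refine (inv_anti₀ h9 h2.le).trans (le_of_eq ?_)
  field_simp

open Classical in
/-- the represented integers -/
noncomputable def rep (K : Set ℕ) (x : ℕ) : Finset ℕ := (Icc 3 x).filter (fun n => ∃ p : ℕ, p.Prime ∧
  p < 2 * n ∧ Nat.primeCounting p ∈ K ∧ (2 * n - p).Prime)

/-- the `n ≤ x` for which `2 n - p` is a prime -/
def sh (x p : ℕ) : Finset ℕ := (Icc 1 x).filter (fun n => p < 2 * n ∧ (2 * n - p).Prime)

lemma card_sh (x p : ℕ) : (sh x p).card ≤ Nat.primeCounting (2 * x) := by
  classical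
  have h := pi_diff (Nat.zero_le (2 * x))
  have h0 : Nat.primeCounting 0 = 0 := by simp
  rw [h0, Nat.cast_zero, sub_zero] at h
  have h1 : Nat.primeCounting (2 * x) = ((Ioc 0 (2 * x)).filter Nat.Prime).card := by exact_mod_cast h
  rw [h1]
  apply card_le_card_of_injOn (fun n => 2 * n - p)
  · intro n hn
    rw [mem_coe] at hn
    unfold sh at hn
    rw [mem_filter, mem_Icc] at hn
    rw [mem_coe, mem_filter, mem_Ioc]
    refine ⟨⟨?_, ?_⟩, hn.2.2⟩
    · show 0 < 2 * n - p
      omega
    · show 2 * n - p ≤ 2 * x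
      omega
  · intro n hn m hm hnm
    rw [mem_coe] at hn hm
    unfold sh at hn hm
    rw [mem_filter, mem_Icc] at hn hm
    simp only at hnm
    omega

/-- the three parts -/
lemma rep_sub {K : Set ℕ} (hK : K ⊆ S) (x y : ℕ) : rep K x ⊆
    (((Ioc 0 y).filter Nat.Prime).biUnion (sh x) ∪ (Icc 1 (w (Nat.primeCounting y))).biUnion (sh x)) ∪
      (Icc 1 x).filter (fun n => (primorial (w (Nat.primeCounting y))).Coprime (2 * n - 1)) := by
  classical
  intro n hn
  unfold rep at hn
  rw [mem_filter, mem_Icc] at hn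
  obtain ⟨⟨h1, h2⟩, p, hp, hpn, hpK, hq⟩ := hn
  set W := w (Nat.primeCounting y) with hW
  rw [mem_union, mem_union, mem_biUnion, mem_biUnion]
  rcases le_or_gt p y with hpy | hpy
  · left; left
    refine ⟨p, ?_, ?_⟩
    · rw [mem_filter, mem_Ioc]
      exact ⟨⟨hp.pos, hpy⟩, hp⟩
    · unfold sh
      rw [mem_filter, mem_Icc]
      exact ⟨⟨by omega, h2⟩, hpn, hq⟩
  · obtain ⟨p', hp', hpp, hmod⟩ := hK hpK
    have e := pi_inj hp' hp hpp
    subst e
    have hd : primorial W ∣ M (Nat.primeCounting p') := by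
      rw [hW]
      exact M_dvd (pi_mono hpy.le)
    have hmod2 : p' ≡ 1 [MOD primorial W] := hmod.of_dvd hd
    rcases le_or_gt (2 * n - p') W with hqW | hqW
    · left; right
      refine ⟨2 * n - p', ?_, ?_⟩
      · rw [mem_Icc]
        exact ⟨hq.one_lt.le, hqW⟩
      · unfold sh
        rw [mem_filter, mem_Icc]
        refine ⟨⟨by omega, h2⟩, ?_, ?_⟩
        · have := hp'.pos
          omega
        · have : 2 * n - (2 * n - p') = p' := by omega
          rw [this]
          exact hp'
    · right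
      rw [mem_filter, mem_Icc]
      refine ⟨⟨by omega, h2⟩, ?_⟩
      rw [Nat.coprime_iff_gcd_eq_one]
      by_contra hcon
      obtain ⟨l, hl, hld⟩ := Nat.exists_prime_and_dvd hcon
      have hl1 : l ∣ primorial W := hld.trans (Nat.gcd_dvd_left _ _)
      have hl2 : l ∣ 2 * n - 1 := hld.trans (Nat.gcd_dvd_right _ _)
      have hlW : l ≤ W := by
        have h5 : l ∈ (primorial W).primeFactors := by
          rw [Nat.mem_primeFactors]
          exact ⟨hl, hl1, primorial_ne_zero W⟩
        rw [primeFactors_primorial, Nat.mem_primesLE] at h5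
        exact h5.1
      have h6 : l ∣ p' - 1 := by
        have h7 : 1 ≡ p' [MOD l] := (hmod2.of_dvd hl1).symm
        exact (Nat.modEq_iff_dvd' hp'.one_lt.le).1 h7
      have h8 : l ∣ 2 * n - p' := by
        have h9 : 2 * n - 1 = (2 * n - p') + (p' - 1) := by
          have := hp'.pos
          omega
        rw [h9] at hl2
        exact (Nat.dvd_add_left h6).1 hl2
      have h10 := (Nat.prime_dvd_prime_iff_eq hl hq).1 h8
      omega

lemma card_cop (x W : ℕ) : ((Icc 1 x).filter (fun n => (primorial W).Coprime (2 * n - 1))).card ≤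
    Nat.totient (primorial W) * (2 * x / primorial W + 1) := by
  classical
  refine le_trans ?_ (Nat.Ico_filter_coprime_le 1 (2 * x) (primorial_ne_zero W))
  apply card_le_card_of_injOn (fun n => 2 * n - 1)
  · intro n hn
    rw [mem_coe, mem_filter, mem_Icc] at hn
    rw [mem_coe, mem_filter, mem_Ico]
    refine ⟨⟨?_, ?_⟩, hn.2⟩
    · show 1 ≤ 2 * n - 1
      omega
    · show 2 * n - 1 < 1 + 2 * x
      omega
  · intro n hn m hm hnm
    rw [mem_coe, mem_filter, mem_Icc] at hn hm
    simp only at hnm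
    omega

lemma w_le (k : ℕ) : w k ≤ k :=
  (Nat.sqrt_le_self _).trans ((Nat.log_le_self _ _).trans (Nat.log_le_self _ _))

/-- the number of the represented integers -/
lemma card_rep {K : Set ℕ} (hK : K ⊆ S) (x y : ℕ) : ((rep K x).card : ℝ) ≤
    2 * (Nat.primeCounting y * Nat.primeCounting (2 * x)) +
      (Nat.totient (primorial (w (Nat.primeCounting y))) : ℝ) *
        (2 * x / primorial (w (Nat.primeCounting y)) + 1) := by
  classical
  set W := w (Nat.primeCounting y) with hW
  have h1 := (card_le_card (rep_sub hK x y)).trans ((card_union_le _ _).trans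
    (Nat.add_le_add_right (card_union_le _ _) _))
  rw [← hW] at h1
  have hy : ((Ioc 0 y).filter Nat.Prime).card = Nat.primeCounting y := by
    have h := pi_diff (Nat.zero_le y)
    have h0 : Nat.primeCounting 0 = 0 := by simp
    rw [h0, Nat.cast_zero, sub_zero] at h
    exact_mod_cast h.symm
  have h2 : (((Ioc 0 y).filter Nat.Prime).biUnion (sh x)).card ≤
      Nat.primeCounting y * Nat.primeCounting (2 * x) := by
    refine card_biUnion_le.trans ?_
    calc ∑ p ∈ (Ioc 0 y).filter Nat.Prime, (sh x p).card ≤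
          ∑ _p ∈ (Ioc 0 y).filter Nat.Prime, Nat.primeCounting (2 * x) :=
            sum_le_sum (fun p _ => card_sh x p)
      _ = Nat.primeCounting y * Nat.primeCounting (2 * x) := by
            rw [sum_const, hy, smul_eq_mul]
  have h3 : ((Icc 1 W).biUnion (sh x)).card ≤ Nat.primeCounting y * Nat.primeCounting (2 * x) := by
    refine card_biUnion_le.trans ?_
    calc ∑ p ∈ Icc 1 W, (sh x p).card ≤ ∑ _p ∈ Icc 1 W, Nat.primeCounting (2 * x) :=
            sum_le_sum (fun p _ => card_sh x p)
      _ = W * Nat.primeCounting (2 * x) := by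
            rw [sum_const, Nat.card_Icc, smul_eq_mul, Nat.add_sub_cancel]
      _ ≤ _ := Nat.mul_le_mul_right _ (w_le _)
  have h4 := card_cop x W
  have h5 : (rep K x).card ≤ 2 * (Nat.primeCounting y * Nat.primeCounting (2 * x)) +
      Nat.totient (primorial W) * (2 * x / primorial W + 1) := by omega
  have h6 : ((rep K x).card : ℝ) ≤ 2 * (Nat.primeCounting y * Nat.primeCounting (2 * x)) +
      Nat.totient (primorial W) * (((2 * x / primorial W : ℕ) : ℝ) + 1) := by exact_mod_cast h5
  refine h6.trans ?_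
  have h7 : ((2 * x / primorial W : ℕ) : ℝ) ≤ 2 * x / primorial W := by
    have := @Nat.cast_div_le ℝ _ _ _ (2 * x) (primorial W)
    push_cast at this
    exact this
  gcongr

lemma log_le_natlog (b : ℕ) (hb : b ≠ 0) : Real.log b ≤ Nat.log 2 b + 1 := by
  have h1 : b < 2 ^ (Nat.log 2 b + 1) := Nat.lt_pow_succ_log_self (by norm_num) b
  have h2 : (b : ℝ) ≤ 2 ^ (Nat.log 2 b + 1) := by exact_mod_cast h1.le
  have hb0 : (0 : ℝ) < b := by exact_mod_cast Nat.pos_of_ne_zero hb
  have h3 := Real.log_le_log hb0 h2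
  rw [Real.log_pow] at h3
  have h4 : Real.log 2 ≤ 1 := by
    have := Real.log_two_lt_d9
    linarith
  have h5 : ((Nat.log 2 b + 1 : ℕ) : ℝ) * Real.log 2 ≤ ((Nat.log 2 b + 1 : ℕ) : ℝ) * 1 :=
    mul_le_mul_of_nonneg_left h4 (Nat.cast_nonneg _)
  push_cast at h3 h5
  linarith

/-- the bound of the sieving primes is large -/
lemma w_big : ∀ᶠ k : ℕ in atTop, Real.log (Real.log (Real.log k)) ≤ 4 * Real.log (w k) ∧ 0 < w k := by
  have tL : Tendsto (fun N : ℕ => Real.log (N : ℝ)) atTop atTop :=
    Real.tendsto_log_atTop.comp tendsto_natCast_atTop_atTop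
  have tLL := Real.tendsto_log_atTop.comp tL
  have tLLL := Real.tendsto_log_atTop.comp tLL
  filter_upwards [tL.eventually_ge_atTop 2, tLL.eventually_ge_atTop 16, tLLL.eventually_ge_atTop 6]
    with k h1 h2 h3
  simp only [Function.comp_apply] at h2 h3
  have hk0 : k ≠ 0 := by
    rintro rfl
    simp at h1
    linarith
  set b := Nat.log 2 k with hb
  set a := Nat.log 2 b with ha
  have h4 := log_le_natlog k hk0
  have h5 : Real.log k / 2 ≤ b := by linarith
  have hb0 : (0 : ℝ) < b := by linarith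
  have hbn : b ≠ 0 := by
    intro h
    rw [h] at hb0
    simp at hb0
  have h6 := log_le_natlog b hbn
  have h7 : Real.log (Real.log k) - Real.log 2 ≤ Real.log b := by
    have h8 := Real.log_le_log (by linarith) h5
    rw [Real.log_div (by linarith) (by norm_num)] at h8
    exact h8
  have hl2 : Real.log 2 ≤ 1 := by
    have := Real.log_two_lt_d9
    linarith
  have h9 : Real.log (Real.log k) / 2 ≤ a := by linarith
  have h10 : a < (w k + 1) * (w k + 1) := Nat.lt_succ_sqrt a
  have h11 : (a : ℝ) < (w k + 1) * (w k + 1) := by exact_mod_cast h10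
  have hw1 : 0 < w k := by
    rw [Nat.pos_iff_ne_zero]
    intro h
    rw [h] at h10
    have h12 : a = 0 := by omega
    rw [h12, Nat.cast_zero] at h9
    linarith
  have hwr : (1 : ℝ) ≤ w k := by exact_mod_cast hw1
  have h12 : Real.log (Real.log k) / 8 ≤ (w k : ℝ) ^ 2 := by nlinarith
  refine ⟨?_, hw1⟩
  have h13 := Real.log_le_log (by linarith) h12
  rw [Real.log_div (by linarith) (by norm_num), Real.log_pow] at h13
  have h14 : Real.log 8 ≤ 3 := by
    rw [show (8 : ℝ) = 2 ^ 3 by norm_num, Real.log_pow]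
    push_cast
    linarith
  push_cast at h13
  linarith

end Pool.Agent.Y886.IXS
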