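import Pool.Agent.Y886.IXD

/-!
Sets of indices of primes: the upper bound.
-/

set_option autoImplicit false

open Finset Filter Topology

namespace Pool.Agent.Y886.IXS

lemma pi_upper {t : ℕ} (ht : 2 ≤ t) : (Nat.primeCounting t : ℝ) ≤ 20 * (t / Real.log t) := by
  have h := bt (s := 0) (t := t) (by omega)
  have h0 : Nat.primeCounting 0 = 0 := by simp
  rw [h0, Nat.cast_zero, sub_zero, Nat.sub_zero] at h
  exact h

/-- few integers are represented by any subset of `S` -/
theorem upper : ∃ C : ℝ, 0 < C ∧ ∀ᶠ x : ℕ in atTop, ∀ K : Set ℕ, K ⊆ S →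
    ((rep K x).card : ℝ) ≤ C * x / Real.log (Real.log (Real.log (Real.log x))) := by
  obtain ⟨C, hC, W0, hW0, hm⟩ := mert
  have tN : Tendsto (fun N : ℕ => (N : ℝ)) atTop atTop := tendsto_natCast_atTop_atTop
  have tL : Tendsto (fun N : ℕ => Real.log (N : ℝ)) atTop atTop := Real.tendsto_log_atTop.comp tN
  have tLL : Tendsto (fun N : ℕ => Real.log (Real.log (N : ℝ))) atTop atTop :=
    Real.tendsto_log_atTop.comp tL
  have tLLL : Tendsto (fun N : ℕ => Real.log (Real.log (Real.log (N : ℝ)))) atTop atTop :=
    Real.tendsto_log_atTop.comp tLL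
  have t4 : Tendsto (fun N : ℕ => Real.log (Real.log (Real.log (Real.log (N : ℝ))))) atTop atTop :=
    Real.tendsto_log_atTop.comp tLLL
  have tF : Tendsto (fun N : ℕ => ⌊Real.log (N : ℝ)⌋₊) atTop atTop :=
    tendsto_nat_floor_atTop.comp tL
  have tK : Tendsto (fun N : ℕ => Nat.primeCounting ⌊Real.log (N : ℝ)⌋₊) atTop atTop :=
    Nat.tendsto_primeCounting.comp tF
  have hwt : ∀ᶠ k : ℕ in atTop, W0 ≤ w k := by
    have h1 : ∀ᶠ k : ℕ in atTop, (4 : ℝ) * Real.log (W0 + 1) ≤ Real.log (Real.log (Real.log k)) :=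
      tLLL.eventually_ge_atTop _
    filter_upwards [h1, w_big] with k h2 h3
    obtain ⟨h3, h4⟩ := h3
    have h5 : Real.log (W0 + 1) ≤ Real.log (w k) := by linarith
    have h6 : (0 : ℝ) < w k := by exact_mod_cast h4
    have h7 := (Real.log_le_log_iff (by positivity) h6).1 h5
    have h8 : ((W0 + 1 : ℕ) : ℝ) ≤ w k := by push_cast; exact h7
    have h9 : W0 + 1 ≤ w k := by exact_mod_cast h8
    omega
  have hsq : ∀ᶠ y : ℕ in atTop, Real.log y ^ 2 ≤ √(y : ℝ) := by
    have h0 := (isLittleO_log_rpow_rpow_atTop ((2 : ℕ) : ℝ) (s := 1 / 2) (by norm_num)).bound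
      (c := 1) (by norm_num)
    have h1 := (tendsto_natCast_atTop_atTop (R := ℝ)).eventually h0
    filter_upwards [h1, eventually_ge_atTop 1] with y hy hy1
    have hl : 0 ≤ Real.log y := Real.log_natCast_nonneg y
    rw [Real.rpow_natCast, Real.norm_of_nonneg (by positivity),
      Real.norm_of_nonneg (by positivity), ← Real.sqrt_eq_rpow] at hy
    linarith
  refine ⟨3200 * 2 + 64 * C + 1, by positivity, ?_⟩
  filter_upwards [tL.eventually_ge_atTop 8, tLL.eventually_ge_atTop 4, tLLL.eventually_ge_atTop 4,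
    t4.eventually_ge_atTop 2, tF.eventually (Pool.Agent.H197R2.PG.pi_lower.and hsq),
    tK.eventually (w_big.and (hwt.and (M_small 1 one_pos))), hsq, eventually_ge_atTop 3,
    tK.eventually_ge_atTop 2, tF.eventually_ge_atTop 2] with x h1 h2 h3 h4 h5 h6 h7 h8 h9 h9' K hK
  obtain ⟨h5, h5'⟩ := h5
  obtain ⟨⟨h6, h6'⟩, h6w, h6M⟩ := h6
  set y := ⌊Real.log (x : ℝ)⌋₊ with hy
  set k := Nat.primeCounting y with hk
  set W := w k with hW
  set L := Real.log (x : ℝ) with hL
  set u := Real.log L with hu
  set v := Real.log u with hv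
  set z := Real.log v with hz
  have hL0 : 0 < L := by linarith
  have hu0 : 0 < u := by linarith
  have hv0 : 0 < v := by linarith
  have hz0 : 0 < z := by linarith
  have hx0 : (0 : ℝ) < x := by exact_mod_cast (by omega : 0 < x)
  have hl2 : Real.log 2 ≤ 1 := by
    have := Real.log_two_lt_d9
    linarith
  have hyL : (y : ℝ) ≤ L := Nat.floor_le hL0.le
  have hyL' : L / 2 ≤ y := by
    have := Nat.lt_floor_add_one L
    rw [← hy] at this
    linarith
  have hy0 : (0 : ℝ) < y := by linarith
  have hlogy : u / 2 ≤ Real.log y := by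
    have h10 := Real.log_le_log (by linarith) hyL'
    rw [Real.log_div hL0.ne' (by norm_num)] at h10
    linarith
  -- the size of `k`
  have hky : √(y : ℝ) ≤ k := by
    have h10 : (y : ℝ) ≤ k * √(y : ℝ) := h5.trans (mul_le_mul_of_nonneg_left h5' (Nat.cast_nonneg _))
    have h11 : √(y : ℝ) * √(y : ℝ) = y := Real.mul_self_sqrt hy0.le
    have h12 : 0 < √(y : ℝ) := Real.sqrt_pos.2 hy0
    by_contra hcon
    push Not at hcon
    have : (k : ℝ) * √(y : ℝ) < √(y : ℝ) * √(y : ℝ) := mul_lt_mul_of_pos_right hcon h12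
    linarith
  have hk1 : u / 4 ≤ Real.log k := by
    have h10 := Real.log_le_log (Real.sqrt_pos.2 hy0) hky
    rw [Real.log_sqrt hy0.le] at h10
    linarith
  have hk2 : v / 2 ≤ Real.log (Real.log k) := by
    have h10 := Real.log_le_log (by linarith) hk1
    rw [Real.log_div hu0.ne' (by norm_num)] at h10
    have h11 : Real.log 4 ≤ 2 := by
      rw [show (4 : ℝ) = 2 ^ 2 by norm_num, Real.log_pow]
      push_cast
      linarith
    linarith
  have hk3 : z / 2 ≤ Real.log (Real.log (Real.log k)) := by
    have h10 := Real.log_le_log (by linarith) hk2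
    rw [Real.log_div hv0.ne' (by norm_num)] at h10
    linarith
  have hWz : z / 8 ≤ Real.log W := by linarith
  -- the three parts
  have hpi2 : (Nat.primeCounting (2 * x) : ℝ) ≤ 40 * (x / L) := by
    have h10 := pi_upper (t := 2 * x) (by omega)
    have h11 : L ≤ Real.log ((2 * x : ℕ) : ℝ) := by
      apply Real.log_le_log hx0
      push_cast
      linarith
    refine h10.trans ?_
    push_cast at h11 ⊢
    calc 20 * (2 * (x : ℝ) / Real.log (2 * x)) ≤ 20 * (2 * (x : ℝ) / L) := by
          apply mul_le_mul_of_nonneg_left _ (by norm_num)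
          exact div_le_div_of_nonneg_left (by positivity) hL0 h11
      _ = 40 * (x / L) := by ring
  have hpi1 : (k : ℝ) ≤ 40 * (L / u) := by
    have h10 := pi_upper (t := y) h9'
    refine h10.trans ?_
    calc 20 * ((y : ℝ) / Real.log y) ≤ 20 * (L / (u / 2)) := by
          apply mul_le_mul_of_nonneg_left _ (by norm_num)
          exact div_le_div₀ hL0.le hyL (by positivity) hlogy
      _ = 40 * (L / u) := by field_simp; ring
  have hzu : z ≤ u := by
    have h10 : z ≤ v := by
      rw [hz]
      exact (Real.log_le_sub_one_of_pos hv0).trans (by linarith)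
    have h11 : v ≤ u := by
      rw [hv]
      exact (Real.log_le_sub_one_of_pos hu0).trans (by linarith)
    linarith
  have huL : u ≤ L := by
    rw [hu]
    exact (Real.log_le_sub_one_of_pos hL0).trans (by linarith)
  have hpart1 : 2 * ((k : ℝ) * Nat.primeCounting (2 * x)) ≤ 3200 * (x / z) := by
    have h10 : (k : ℝ) * Nat.primeCounting (2 * x) ≤ (40 * (L / u)) * (40 * (x / L)) :=
      mul_le_mul hpi1 hpi2 (Nat.cast_nonneg _) (by positivity)
    have h11 : (40 * (L / u)) * (40 * (x / L)) = 1600 * (x / u) := by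
      field_simp
      ring
    have h12 : x / u ≤ x / z := div_le_div_of_nonneg_left hx0.le hz0 hzu
    linarith
  have hP0 : (0 : ℝ) < primorial W := by exact_mod_cast primorial_pos W
  have hWlog : 0 < Real.log W := by linarith
  have hpart2 : (Nat.totient (primorial W) : ℝ) * (2 * x / primorial W + 1) ≤ 16 * C * (x / z) + x / z := by
    have h10 := hm W h6w
    have h11 : C / Real.log W ≤ 8 * C / z := by
      rw [div_le_div_iff₀ hWlog hz0]
      have : C * z ≤ C * (8 * Real.log W) := mul_le_mul_of_nonneg_left (by linarith) hC.le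
      linarith
    have h12 : (Nat.totient (primorial W) : ℝ) * (2 * x / primorial W + 1) =
        2 * x * ((Nat.totient (primorial W) : ℝ) / primorial W) + Nat.totient (primorial W) := by
      field_simp
    rw [h12]
    have h13 : 2 * x * ((Nat.totient (primorial W) : ℝ) / primorial W) ≤ 2 * x * (8 * C / z) :=
      mul_le_mul_of_nonneg_left (h10.trans h11) (by positivity)
    have h14 : 2 * x * (8 * C / z) = 16 * C * (x / z) := by ring
    have h15 : (Nat.totient (primorial W) : ℝ) ≤ x / z := by
      have h16 : (Nat.totient (primorial W) : ℝ) ≤ primorial W := by exact_mod_cast Nat.totient_le _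
      have h17 : (primorial W : ℝ) ≤ Real.log k := by
        have : (M k : ℝ) ≤ Real.log k := by linarith
        exact this
      have hk0 : (0 : ℝ) < k := by
        have : (2 : ℝ) ≤ k := by exact_mod_cast h9
        linarith
      have h18 : Real.log k ≤ L := by
        have h19 : Real.log k ≤ k - 1 := Real.log_le_sub_one_of_pos hk0
        have h20 : (k : ℝ) ≤ y := by exact_mod_cast Pool.Agent.H197R2.PG.pi_le_self y
        linarith
      rw [le_div_iff₀ hz0]
      have h21 : (Nat.totient (primorial W) : ℝ) ≤ L := by linarith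
      calc (Nat.totient (primorial W) : ℝ) * z ≤ L * L :=
            mul_le_mul h21 (by linarith) hz0.le hL0.le
        _ = L ^ 2 := by ring
        _ ≤ √(x : ℝ) := h7
        _ ≤ x := by
            rw [Real.sqrt_le_left hx0.le]
            have : (1 : ℝ) ≤ x := by exact_mod_cast (by omega : 1 ≤ x)
            nlinarith
    linarith
  have hfin := card_rep hK x y
  rw [← hk, ← hW] at hfin
  refine (hfin.trans (add_le_add hpart1 hpart2)).trans ?_
  have hxz : 0 < x / z := by positivity
  have e : (3200 * 2 + 64 * C + 1) * x / z = (3200 * 2 + 64 * C + 1) * (x / z) := by ring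
  rw [e]
  have hCx : 0 < C * (x / z) := by positivity
  linarith

end Pool.Agent.Y886.IXS
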