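import Pool.Agent.TH881.RG.R3

/-!
# Robust Goldbach in terms of `n ± x`

Conversion of `Pool.Agent.TH881.RG.deleted_primes` (on the even numbers `2 n = p + q`) into a
statement on the numbers `n` and the integers `x` with `n - x` and `n + x` prime.
-/

set_option autoImplicit false

namespace Pool.Agent.Y886.RGn

open Finset Filter Topology
open Pool.Agent.TH881
open Pool.Agent.TH881.RG

/-- the doubled set -/
def dbl (S : Set ℕ) : Set ℕ := {m | Even m ∧ m / 2 ∈ S}

lemma mem_dbl {S : Set ℕ} {n : ℕ} : 2 * n ∈ dbl S ↔ n ∈ S := by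
  unfold dbl
  rw [Set.mem_setOf_eq]
  have h : 2 * n / 2 = n := by omega
  rw [h]
  exact ⟨fun h => h.2, fun h => ⟨even_two_mul n, h⟩⟩

/-- counting a set and the doubled set -/
lemma cnt_dbl (S : Set ℕ) (m : ℕ) : cnt (dbl S) m = cnt S (m / 2) := by
  classical
  unfold cnt
  symm
  apply Finset.card_bij (fun n _ => 2 * n)
  · intro n hn
    rw [mem_filter, mem_Icc] at hn ⊢
    refine ⟨⟨by omega, by omega⟩, mem_dbl.2 hn.2⟩
  · intro a _ b _ h
    omega
  · intro b hb
    rw [mem_filter, mem_Icc] at hb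
    obtain ⟨⟨h1, h2⟩, ⟨k, hk⟩, h3⟩ := hb
    refine ⟨k, ?_, by omega⟩
    have h4 : b / 2 = k := by omega
    rw [h4] at h3
    rw [mem_filter, mem_Icc]
    exact ⟨⟨by omega, by omega⟩, h3⟩

lemma cnt_le' (S : Set ℕ) (n : ℕ) : (cnt S n : ℝ) / n ≤ 1 := by
  rcases Nat.eq_zero_or_pos n with h | h
  · subst h; simp
  · have h1 : (0 : ℝ) < n := by exact_mod_cast h
    rw [div_le_one h1]
    exact_mod_cast cnt_le S n

lemma bddA (S : Set ℕ) : IsBoundedUnder (· ≤ ·) atTop (fun n : ℕ => (cnt S n : ℝ) / n) :=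
  isBoundedUnder_of ⟨1, cnt_le' S⟩

lemma bddB (S : Set ℕ) : IsBoundedUnder (· ≥ ·) atTop (fun n : ℕ => (cnt S n : ℝ) / n) :=
  isBoundedUnder_of ⟨0, fun n => by positivity⟩

/-- the density of the numbers `n` in terms of the even numbers `2 n`, upper bound -/
lemma upper_dbl (S : Set ℕ) : upperDensity S ≤ 2 * upperDensity (dbl S) := by
  apply le_of_forall_pos_le_add
  intro ε hε
  apply limsup_le_of_le (bddB S).isCoboundedUnder_le
  have h1 : upperDensity (dbl S) < upperDensity (dbl S) + ε / 2 := by linarith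
  have h2 := eventually_lt_of_limsup_lt h1 (bddA (dbl S))
  have h3 : Tendsto (fun n : ℕ => 2 * n) atTop atTop :=
    tendsto_id.const_mul_atTop' (by norm_num)
  filter_upwards [h3.eventually h2, eventually_ge_atTop 1] with n hn hn1
  have h4 : (0 : ℝ) < n := by exact_mod_cast hn1
  rw [cnt_dbl, show 2 * n / 2 = n by omega] at hn
  push_cast at hn
  have h5 : (cnt S n : ℝ) / n = 2 * ((cnt S n : ℝ) / (2 * n)) := by
    field_simp
  rw [h5]
  linarith

/-- the density of the numbers `n` in terms of the even numbers `2 n`, lower bound -/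
lemma lower_dbl (S : Set ℕ) : lowerDensity (dbl S) ≤ lowerDensity S := by
  apply le_of_forall_pos_le_add
  intro ε hε
  have key : lowerDensity (dbl S) - ε ≤ lowerDensity S := by
    apply le_liminf_of_le (bddA S).isCoboundedUnder_ge
    have h1 : lowerDensity (dbl S) - ε < lowerDensity (dbl S) := by linarith
    have h2 := eventually_lt_of_lt_liminf h1 (bddB (dbl S))
    have h3 : Tendsto (fun n : ℕ => 2 * n) atTop atTop :=
      tendsto_id.const_mul_atTop' (by norm_num)
    filter_upwards [h3.eventually h2, eventually_ge_atTop 1] with n hn hn1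
    have h4 : (0 : ℝ) < n := by exact_mod_cast hn1
    rw [cnt_dbl, show 2 * n / 2 = n by omega] at hn
    push_cast at hn
    have h5 : (cnt S n : ℝ) / (2 * n) ≤ (cnt S n : ℝ) / n := by
      apply div_le_div_of_nonneg_left (by positivity) h4
      linarith
    linarith
  linarith

end Pool.Agent.Y886.RGn
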