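import Pool.Agent.Y886.OneS
import Pool.Agent.Y886.RGn

/-!
# One restricted summand, in terms of `n ± x`
-/

set_option autoImplicit false

namespace Pool.Agent.Y886.OneN

open Finset Filter Topology Polynomial
open Pool.Agent.TH881
open Pool.Agent.TH881.RG
open Pool.Agent.TH881.RQ
open Pool.Agent.H373R2.T7
open Pool.Agent.Y886.RGn

/-- the `n` for which `2 n` is the sum of a prime of `A` and a prime -/
def half (A : Set ℕ) : Set ℕ := {n | 2 * n ∈ oneSum A}

/-- a lower bound for the density of the doubled set -/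
lemma lower_dbl_ge (S : Set ℕ) : lowerDensity S ≤ 2 * lowerDensity (dbl S) := by
  have hL1 := lowerDensity_le_one S
  have hL0 := lowerDensity_nonneg S
  have key : ∀ ε : ℝ, 0 < ε → (lowerDensity S - ε) / 2 ≤ lowerDensity (dbl S) := by
    intro ε hε
    rcases le_or_gt (lowerDensity S - ε / 2) 0 with hneg | hpos
    · have := lowerDensity_nonneg (dbl S)
      linarith
    apply le_of_eventually
    have h1 : lowerDensity S - ε / 2 < lowerDensity S := by linarith
    have h2 := eventually_lt_of_lt_liminf h1 (ratio_bdd_below S)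
    have h3 : Tendsto (fun n : ℕ => n / 2) atTop atTop :=
      Filter.tendsto_atTop_atTop.2 fun b => ⟨2 * b, fun a ha => by omega⟩
    obtain ⟨x0, hx0⟩ := exists_nat_ge (4 / ε)
    filter_upwards [h3.eventually h2, eventually_ge_atTop (x0 + 2)] with n hn hn1
    have hm : (1 : ℝ) ≤ ((n / 2 : ℕ) : ℝ) := by
      have : 1 ≤ n / 2 := by omega
      exact_mod_cast this
    rw [lt_div_iff₀ (by linarith)] at hn
    rw [cnt_dbl]
    have h4 : (n : ℝ) ≤ 2 * ((n / 2 : ℕ) : ℝ) + 1 := by
      have : n ≤ 2 * (n / 2) + 1 := by omega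
      exact_mod_cast this
    have h5 : 4 / ε ≤ n := by
      have : (x0 : ℝ) ≤ n := by exact_mod_cast (by omega : x0 ≤ n)
      linarith
    rw [div_le_iff₀ hε] at h5
    nlinarith
  by_contra hcon
  push Not at hcon
  have := key ((lowerDensity S - 2 * lowerDensity (dbl S)) / 2) (by linarith)
  linarith

lemma lower_dbl_eq (S : Set ℕ) : lowerDensity S = 2 * lowerDensity (dbl S) := by
  apply le_antisymm (lower_dbl_ge S)
  have key : ∀ ε : ℝ, 0 < ε → 2 * (lowerDensity (dbl S) - ε) ≤ lowerDensity S := by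
    intro ε hε
    apply le_of_eventually
    have h1 : lowerDensity (dbl S) - ε < lowerDensity (dbl S) := by linarith
    have h2 := eventually_lt_of_lt_liminf h1 (ratio_bdd_below (dbl S))
    have h3 : Tendsto (fun n : ℕ => 2 * n) atTop atTop :=
      tendsto_id.const_mul_atTop' (by norm_num)
    filter_upwards [h3.eventually h2, eventually_ge_atTop 1] with n hn hn1
    have h4 : (0 : ℝ) < n := by exact_mod_cast hn1
    rw [cnt_dbl, show 2 * n / 2 = n by omega, lt_div_iff₀ (by positivity)] at hn
    push_cast at hn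
    linarith
  by_contra hcon
  push Not at hcon
  have := key ((2 * lowerDensity (dbl S) - lowerDensity S) / 4) (by linarith)
  linarith

/-- a set of density zero does not matter -/
lemma lower_le_of_null {S S' T : Set ℕ} (h : S ⊆ S' ∪ T)
    (hT : ∀ ε : ℝ, 0 < ε → ∀ᶠ x : ℕ in atTop, (cnt T x : ℝ) ≤ ε * x) :
    lowerDensity S ≤ lowerDensity S' := by
  by_contra hcon
  push Not at hcon
  obtain ⟨ε, hε⟩ : ∃ ε : ℝ, ε = (lowerDensity S - lowerDensity S') / 3 := ⟨_, rfl⟩
  have hε0 : 0 < ε := by rw [hε]; linarith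
  have h1 : lowerDensity S - ε < lowerDensity S := by linarith
  have h2 := eventually_lt_of_lt_liminf h1 (ratio_bdd_below S)
  have h3 : lowerDensity S - 2 * ε ≤ lowerDensity S' := by
    apply le_of_eventually
    filter_upwards [h2, hT ε hε0, eventually_ge_atTop 1] with x h4 h5 h6
    have h7 : (0 : ℝ) < x := by exact_mod_cast h6
    rw [lt_div_iff₀ h7] at h4
    have h8 : (cnt S x : ℝ) ≤ cnt S' x + cnt T x := by
      exact_mod_cast (cnt_subset h x).trans (cnt_union_le S' T x)
    nlinarith
  linarith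

lemma lower_oneSum (A : Set ℕ) : lowerDensity (oneSum A) = lowerDensity (dbl (half A)) := by
  classical
  apply le_antisymm
  · -- odd sums are rare
    apply lower_le_of_null (T := {n | ∃ p : ℕ, p.Prime ∧ n = p + 2})
    · intro n hn
      obtain ⟨p, q, ⟨hp, hpA⟩, hq, h⟩ := hn
      by_cases hev : Even n
      · left
        obtain ⟨k, hk⟩ := hev
        have h2 : n = 2 * k := by omega
        rw [h2, mem_dbl]
        show 2 * k ∈ oneSum A
        rw [← h2]
        exact ⟨p, q, ⟨hp, hpA⟩, hq, h⟩
      · right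
        rcases hp.eq_two_or_odd' with h2 | h2
        · exact ⟨q, hq, by omega⟩
        · rcases hq.eq_two_or_odd' with h3 | h3
          · exact ⟨p, hp, by omega⟩
          · exact absurd (h ▸ h2.add_odd h3) hev
    · intro ε hε
      filter_upwards [Pool.Agent.TH494.RG.primes_small stPC ε hε] with x hx
      refine le_trans ?_ hx
      rw [Nat.cast_le]
      unfold cnt
      apply card_le_card_of_injOn (fun n => n - 2)
      · intro n hn
        rw [mem_coe, mem_filter, mem_Icc] at hn
        obtain ⟨⟨h1, h2⟩, p, hp, rfl⟩ := hn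
        rw [mem_coe, mem_filter, mem_Icc]
        have := hp.pos
        have e : p + 2 - 2 = p := by omega
        simp only [e]
        exact ⟨⟨by omega, by omega⟩, hp⟩
      · intro n hn m hm h
        rw [mem_coe, mem_filter, mem_Icc] at hn hm
        obtain ⟨-, p, hp, rfl⟩ := hn
        obtain ⟨-, q, hq, rfl⟩ := hm
        simp only at h
        omega
  · apply lowerDensity_mono
    rintro n ⟨⟨k, hk⟩, h⟩
    have h1 : n / 2 = k := by omega
    rw [h1] at h
    have h2 : n = 2 * k := by omega
    rw [h2]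
    exact h

/-- the density of the half -/
lemma lower_half (A : Set ℕ) : lowerDensity (half A) = 2 * lowerDensity (oneSum A) := by
  rw [lower_oneSum, lower_dbl_eq]

/-- The least lower density, over the numbers `n`. -/
noncomputable def FN (β : ℝ) : ℝ := sInf {d | ∃ A : Set ℕ, β ≤ relLower A ∧ d = lowerDensity (half A)}

lemma FN_eq (β : ℝ) (hβ : β ≤ 1) : FN β = 2 * FFq true (X : ℤ[X]) (-1) β := by
  have hne : {d | ∃ A : Set ℕ, β ≤ relq true A ∧ d = lowerDensity (hit true (X : ℤ[X]) (-1) A)}.Nonempty :=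
    ⟨lowerDensity (hit true (X : ℤ[X]) (-1) Set.univ), Set.univ, by rw [relq_univ]; exact hβ, rfl⟩
  have hne2 : {d | ∃ A : Set ℕ, β ≤ relLower A ∧ d = lowerDensity (half A)}.Nonempty :=
    ⟨lowerDensity (half Set.univ), Set.univ, by rw [← relq_true, relq_univ]; exact hβ, rfl⟩
  have hb2 : BddBelow {d | ∃ A : Set ℕ, β ≤ relLower A ∧ d = lowerDensity (half A)} := by
    refine ⟨0, ?_⟩
    rintro x ⟨A, _, rfl⟩
    exact lowerDensity_nonneg _
  apply le_antisymm
  · have h1 : FN β / 2 ≤ FFq true (X : ℤ[X]) (-1) β := by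
      apply le_csInf hne
      rintro d ⟨A, hA, rfl⟩
      rw [Pool.Agent.Y886.OneS.hit_X]
      have h2 : FN β ≤ lowerDensity (half A) := by
        apply csInf_le hb2
        exact ⟨A, by rw [← relq_true]; exact hA, rfl⟩
      rw [lower_half] at h2
      linarith
    linarith
  · apply le_csInf hne2
    rintro d ⟨A, hA, rfl⟩
    rw [lower_half]
    have h2 : FFq true (X : ℤ[X]) (-1) β ≤ lowerDensity (hit true (X : ℤ[X]) (-1) A) :=
      csInf_le (FFq_bdd true X (-1) β) ⟨A, by rw [relq_true]; exact hA, rfl⟩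
    rw [Pool.Agent.Y886.OneS.hit_X] at h2
    linarith

/-- the law at density one for `FN` -/
theorem law_FN :
    Tendsto (fun β : ℝ => (1 - β) * Real.log (Real.log (1 / (1 - FN β)))) (𝓝[<] 1)
      (𝓝 (2 * C2 * Real.exp (-Real.eulerMascheroniConstant))) := by
  have hc : 0 < 2 * C2 * Real.exp (-Real.eulerMascheroniConstant) := by
    have := D_pos
    linarith
  have h := Pool.Agent.Y886.OneS.law_X
  obtain ⟨c, hcd⟩ : ∃ c : ℝ, c = 2 * C2 * Real.exp (-Real.eulerMascheroniConstant) := ⟨_, rfl⟩
  rw [← hcd] at h hc ⊢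
  obtain ⟨y, hy⟩ : ∃ y : ℝ → ℝ, y = fun β => Real.log (1 / (1 / 2 - FFq true (X : ℤ[X]) (-1) β)) := ⟨_, rfl⟩
  have h' : Tendsto (fun β : ℝ => (1 - β) * Real.log (y β)) (𝓝[<] 1) (𝓝 c) := by
    rw [hy]
    exact h
  have h0 : Tendsto (fun β : ℝ => 1 - β) (𝓝[<] 1) (𝓝[>] 0) := by
    rw [tendsto_nhdsWithin_iff]
    constructor
    · have : Tendsto (fun β : ℝ => 1 - β) (𝓝 1) (𝓝 (1 - 1)) := (continuous_const.sub continuous_id).tendsto 1
      rw [sub_self] at this
      exact this.mono_left nhdsWithin_le_nhds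
    · filter_upwards [self_mem_nhdsWithin] with β hβ
      exact sub_pos.2 (show β < 1 from hβ)
  -- `log y → ∞`
  have h1 : Tendsto (fun β : ℝ => Real.log (y β)) (𝓝[<] 1) atTop := by
    have h2 : Tendsto (fun β : ℝ => (1 - β)⁻¹) (𝓝[<] 1) atTop := tendsto_inv_nhdsGT_zero.comp h0
    have h3 := h2.atTop_mul_pos hc h'
    refine h3.congr' ?_
    filter_upwards [self_mem_nhdsWithin] with β hβ
    have h4 : (1 - β) ≠ 0 := (sub_pos.2 (show β < 1 from hβ)).ne'
    field_simp
  -- so `y` is large, and `1 / 2 - FFq` is positive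
  have h2 : ∀ᶠ β in 𝓝[<] (1 : ℝ),
      |Real.log (Real.log (1 / (1 - FN β))) - Real.log (y β)| ≤ 1 := by
    filter_upwards [h1.eventually_ge_atTop (Real.log 4), self_mem_nhdsWithin] with β hβ hβ1
    have hβ1' : β ≤ 1 := (show β < 1 from hβ1).le
    obtain ⟨u, hu⟩ : ∃ u : ℝ, u = 1 / 2 - FFq true (X : ℤ[X]) (-1) β := ⟨_, rfl⟩
    have hyu : y β = Real.log (1 / u) := by rw [hy, hu]
    have hFN : 1 - FN β = 2 * u := by rw [FN_eq β hβ1', hu]; ring
    have hu0 : 0 ≤ u := by
      have h3 : FN β ≤ 1 := by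
        have hbd : BddBelow {d | ∃ A : Set ℕ, β ≤ relLower A ∧ d = lowerDensity (half A)} := by
          refine ⟨0, ?_⟩
          rintro x ⟨A, _, rfl⟩
          exact lowerDensity_nonneg _
        have hmem : lowerDensity (half Set.univ) ∈
            {d | ∃ A : Set ℕ, β ≤ relLower A ∧ d = lowerDensity (half A)} :=
          ⟨Set.univ, by rw [← relq_true, relq_univ]; exact hβ1', rfl⟩
        exact (csInf_le hbd hmem).trans (lowerDensity_le_one _)
      linarith
    have hlog4 : 0 < Real.log 4 := Real.log_pos (by norm_num)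
    have hu1 : 0 < u := by
      rcases hu0.eq_or_lt with h3 | h3
      · rw [hyu, ← h3, div_zero, Real.log_zero, Real.log_zero] at hβ
        linarith
      · exact h3
    have hu2 : u ≤ 1 / 2 := by
      rw [hu]
      have : 0 ≤ FFq true (X : ℤ[X]) (-1) β := by
        apply Real.sInf_nonneg
        rintro x ⟨A, _, rfl⟩
        exact lowerDensity_nonneg _
      linarith
    have hy0 : 0 < y β := by
      rw [hyu]
      apply Real.log_pos
      rw [lt_div_iff₀ hu1]
      linarith
    have hy4 : 4 ≤ y β := by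
      rwa [Real.log_le_log_iff (by norm_num) hy0] at hβ
    have h3 : Real.log (1 / (1 - FN β)) = y β - Real.log 2 := by
      rw [hFN, hyu, one_div, one_div, Real.log_inv, Real.log_inv, Real.log_mul (by norm_num) hu1.ne']
      ring
    have hl2 : Real.log 2 ≤ 1 := by
      have := Real.log_two_lt_d9
      linarith
    have hl2' : 0 < Real.log 2 := Real.log_pos (by norm_num)
    rw [h3]
    have h5 : Real.log (y β - Real.log 2) ≤ Real.log (y β) := Real.log_le_log (by linarith) (by linarith)
    have h6 : Real.log (y β) ≤ Real.log (y β - Real.log 2) + 1 := by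
      have h7 : y β ≤ (y β - Real.log 2) * Real.exp 1 := by
        have h8 : (2 : ℝ) ≤ Real.exp 1 := by
          have := Real.add_one_le_exp (1 : ℝ)
          linarith
        nlinarith
      calc Real.log (y β) ≤ Real.log ((y β - Real.log 2) * Real.exp 1) := Real.log_le_log hy0 h7
        _ = _ := by rw [Real.log_mul (by linarith) (Real.exp_pos 1).ne', Real.log_exp]
    rw [abs_le]
    constructor <;> linarith
  have h3 : Tendsto (fun β : ℝ => (1 - β) * (Real.log (Real.log (1 / (1 - FN β))) - Real.log (y β)))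
      (𝓝[<] 1) (𝓝 0) := by
    apply squeeze_zero_norm' (a := fun β => 1 - β)
    · filter_upwards [h2, self_mem_nhdsWithin] with β hβ hβ1
      have h4 : 0 < 1 - β := sub_pos.2 (show β < 1 from hβ1)
      rw [Real.norm_eq_abs, abs_mul, abs_of_pos h4]
      exact mul_le_of_le_one_right h4.le hβ
    · exact h0.mono_right nhdsWithin_le_nhds
  have h4 := h3.add h'
  rw [zero_add] at h4
  refine h4.congr (fun β => ?_)
  ring

end Pool.Agent.Y886.OneN
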