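import Pool.Agent.TH881.RQ.Wrap

/-!
# One restricted summand: the exact formula and the law at density one
-/

set_option autoImplicit false

namespace Pool.Agent.Y886.OneS

open Finset Filter Topology Polynomial
open Pool.Agent.TH881
open Pool.Agent.TH881.RG
open Pool.Agent.TH881.RQ
open Pool.Agent.H373R2.T7
open Pool.Agent.TH416.J3004
open Pool.Agent.TH914.J2925

lemma natDegree_one : (X : ℤ[X]).natDegree = 1 := natDegree_X

lemma lead_pos : 0 < (X : ℤ[X]).leadingCoeff := by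
  rw [leadingCoeff_X]
  norm_num

/-- the numbers hit are the sums of a prime of `A` and a prime -/
lemma hit_X (A : Set ℕ) : hit true (X : ℤ[X]) (-1) A = oneSum A := by
  ext N
  constructor
  · rintro ⟨n, hn, hA, hq⟩
    rw [eval_X] at hq
    have h1 := hq.pos
    obtain ⟨q, hqd⟩ : ∃ q : ℕ, q = ((N : ℤ) + -1 * (n : ℤ)).toNat := ⟨_, rfl⟩
    rw [← hqd] at hq h1
    exact ⟨n, q, ⟨hn rfl, hA⟩, hq, by omega⟩
  · rintro ⟨p, q, ⟨hp, hA⟩, hq, h⟩
    refine ⟨p, fun _ => hp, hA, ?_⟩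
    rw [eval_X]
    have h1 : ((N : ℤ) + -1 * (p : ℤ)).toNat = q := by omega
    rw [h1]
    exact hq

/-- the number of the primes up to `x` is small -/
lemma primes_small (ε : ℝ) (hε : 0 < ε) : ∀ᶠ x : ℕ in atTop,
    (((Icc 1 x).filter Nat.Prime).card : ℝ) ≤ ε * x :=
  Pool.Agent.TH494.RG.primes_small stPC ε hε

open Classical in
/-- the `N` hit by a small prime -/
noncomputable def T1 (w x : ℕ) : Finset ℕ :=
  (Icc 1 x).filter (fun N => ∃ q n : ℕ, q ≤ w ∧ n.Prime ∧ N = n + q)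

lemma T1_card (w x : ℕ) : (T1 w x).card ≤ (w + 1) * ((Icc 1 x).filter Nat.Prime).card := by
  classical
  have hsub : T1 w x ⊆ ((range (w + 1)) ×ˢ ((Icc 1 x).filter Nat.Prime)).image
      (fun p : ℕ × ℕ => p.2 + p.1) := by
    intro N hN
    unfold T1 at hN
    rw [mem_filter, mem_Icc] at hN
    obtain ⟨⟨h1, h2⟩, q, n, hq, hn, rfl⟩ := hN
    rw [mem_image]
    refine ⟨(q, n), ?_, rfl⟩
    rw [mem_product, mem_range, mem_filter, mem_Icc]
    exact ⟨by show q < w + 1; omega, ⟨hn.pos, by show n ≤ x; omega⟩, hn⟩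
  refine (card_le_card hsub).trans (card_image_le.trans ?_)
  rw [card_product, card_range]

lemma T1_small (w : ℕ) (ε : ℝ) (hε : 0 < ε) : ∀ᶠ x : ℕ in atTop, ((T1 w x).card : ℝ) ≤ ε * x := by
  filter_upwards [primes_small (ε / (w + 1)) (by positivity)] with x hx
  have h1 := T1_card w x
  have h2 : ((T1 w x).card : ℝ) ≤ ((w : ℝ) + 1) * (((Icc 1 x).filter Nat.Prime).card : ℝ) := by
    exact_mod_cast h1
  refine h2.trans ?_
  have h3 : ((w : ℝ) + 1) * (((Icc 1 x).filter Nat.Prime).card : ℝ) ≤ ((w : ℝ) + 1) * (ε / (w + 1) * x) :=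
    mul_le_mul_of_nonneg_left hx (by positivity)
  refine h3.trans (le_of_eq ?_)
  field_simp

lemma cnt_hit_le1 (w : ℕ) (B : Finset (ZMod (Wp w))) (x : ℕ) :
    cnt (hit true (X : ℤ[X]) (-1) {n : ℕ | (n : ZMod (Wp w)) ∈ B}) x ≤
      cnt (per (Wp w) (sumq (X : ℤ[X]) (-1) w B)) x + (T1 w x).card := by
  classical
  have hsub : (Icc 1 x).filter (fun N => N ∈ hit true (X : ℤ[X]) (-1) {n : ℕ | (n : ZMod (Wp w)) ∈ B}) ⊆
      (Icc 1 x).filter (fun N => N ∈ per (Wp w) (sumq (X : ℤ[X]) (-1) w B)) ∪ T1 w x := by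
    intro N hN
    rw [mem_filter] at hN
    obtain ⟨hNI, n, hnp, hnB, hq⟩ := hN
    obtain ⟨q, hqd⟩ : ∃ q : ℕ, q = ((N : ℤ) + -1 * (X : ℤ[X]).eval (n : ℤ)).toNat := ⟨_, rfl⟩
    rw [← hqd] at hq
    have hqe : (N : ℤ) + -1 * (X : ℤ[X]).eval (n : ℤ) = q := by
      have h1 : 0 < ((N : ℤ) + -1 * (X : ℤ[X]).eval (n : ℤ)).toNat := by rw [← hqd]; exact hq.pos
      rw [hqd, Int.toNat_of_nonneg]
      omega
    rw [mem_union]
    by_cases hqw : q ≤ w
    · right
      unfold T1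
      rw [mem_filter]
      rw [eval_X] at hqe
      exact ⟨hNI, q, n, hqw, hnp rfl, by omega⟩
    · left
      rw [mem_filter]
      refine ⟨hNI, (mem_Icc.1 hNI).1, ?_⟩
      unfold sumq
      rw [mem_filter]
      refine ⟨mem_univ _, (n : ZMod (Wp w)), hnB, ?_⟩
      unfold gd
      rw [Pool.Agent.TH416.J3004.gv_cast]
      have h2 : ((N : ZMod (Wp w))) + ((-1 : ℤ) : ZMod (Wp w)) *
          (((X : ℤ[X]).eval (n : ℤ) : ℤ) : ZMod (Wp w)) = (q : ZMod (Wp w)) := by
        have := congrArg (fun z : ℤ => (z : ZMod (Wp w))) hqe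
        push_cast at this
        push_cast
        exact this
      rw [h2, ZMod.isUnit_iff_coprime, Nat.Prime.coprime_iff_not_dvd hq, prime_dvd_Wp hq]
      omega
  have h := (card_le_card hsub).trans (card_union_le _ _)
  unfold cnt
  refine le_trans (le_of_eq ?_) (h.trans (le_of_eq ?_))
  · congr
  · congr

theorem stClass_X : StClass true (X : ℤ[X]) (-1) := by
  intro w B hB
  refine ⟨{n : ℕ | (n : ZMod (Wp w)) ∈ B}, rel_true stPC w B hB, ?_⟩
  apply le_of_forall_pos_le_add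
  intro ε hε
  apply Pool.Agent.TH416.J3004.lowerDensity_le
  have hlin : ∀ᶠ x : ℕ in atTop, ((sumq (X : ℤ[X]) (-1) w B).card : ℝ) ≤ ε / 2 * (x : ℝ) :=
    (tendsto_natCast_atTop_atTop.const_mul_atTop (by positivity)).eventually_ge_atTop _
  filter_upwards [hlin, T1_small w (ε / 2) (by positivity)] with x h1 h2
  have h3 := cnt_hit_le1 w B x
  have h4 : (cnt (hit true (X : ℤ[X]) (-1) {n : ℕ | (n : ZMod (Wp w)) ∈ B}) x : ℝ) ≤
      (cnt (per (Wp w) (sumq (X : ℤ[X]) (-1) w B)) x : ℝ) + ((T1 w x).card : ℝ) := by exact_mod_cast h3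
  have h5 := (abs_le.1 (cnt_per (Wp w) (Wp_pos w) (sumq (X : ℤ[X]) (-1) w B) x)).2
  have h6 : (((sumq (X : ℤ[X]) (-1) w B).card : ℝ) / Wp w + ε) * x =
      ((sumq (X : ℤ[X]) (-1) w B).card : ℝ) / Wp w * x + ε / 2 * x + ε / 2 * x := by ring
  rw [h6]
  linarith

/-- the exact formula -/
theorem formula_X (β : ℝ) (hβ : 0 < β) (hβ1 : β < 1) :
    FFq true (X : ℤ[X]) (-1) β = Flocq true (X : ℤ[X]) (-1) β :=
  FFq_eq true X natDegree_one.ge lead_pos (-1) (Or.inr rfl) (stPMq_in true X natDegree_one.ge lead_pos)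
    (stCont_in true X (-1) (Or.inr rfl)) stClass_X β hβ hβ1

lemma mq_X {p : ℕ} (hp : p.Prime) (h3 : 3 ≤ p) : mq true (X : ℤ[X]) p = 1 := by
  have h1 := Pool.Agent.TH914.J2922.mq_le true (X : ℤ[X]) p hp
  rw [natDegree_X] at h1
  have h4 : nuq true (X : ℤ[X]) p 1 < Aq true p := by
    refine nuq_lt hp 2 (by omega) (fun _ h => by have := Nat.le_of_dvd (by norm_num) h; omega) ?_
    rw [eval_X]
    intro h
    have h5 : (p : ℤ) ∣ 1 := by
      have e : ((2 : ℕ) : ℤ) - ((1 : ℕ) : ℤ) = 1 := by norm_num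
      rwa [e] at h
    have := Int.le_of_dvd (by norm_num) h5
    omega
  have h5 := le_mq (by omega) h4
  have h6 : 1 ≤ nuq true (X : ℤ[X]) p 1 := by
    refine one_le_nuq (a := 1) (by omega) (fun _ h => by have := Nat.le_of_dvd (by norm_num) h; omega) ?_
    rw [eval_X]
    simp
  omega

lemma Phq_X {w : ℕ} (hw : 2 ≤ w) : Phq (uq true (X : ℤ[X])) w = Pool.Agent.TH494.RG.om w := by
  unfold Phq Pool.Agent.TH494.RG.om
  have h2mem : 2 ∈ pz w := mem_pz.2 ⟨hw, Nat.prime_two⟩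
  have herase : (pz w).erase 2 = (Icc 3 w).filter Nat.Prime := by
    ext p
    rw [mem_erase, mem_pz, mem_filter, mem_Icc]
    constructor
    · rintro ⟨h1, h3, h4⟩
      have := h4.two_le
      exact ⟨⟨by omega, h3⟩, h4⟩
    · rintro ⟨⟨h1, h2⟩, h3⟩
      exact ⟨by omega, h2, h3⟩
  rw [← mul_prod_erase _ _ h2mem, herase]
  have h2 : 1 - uq true (X : ℤ[X]) 2 = 1 := by
    unfold uq
    rw [mqQ_two]
    simp
  rw [h2, one_mul]
  apply prod_congr rfl
  intro p hp
  rw [mem_filter, mem_Icc] at hp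
  unfold uq
  rw [mq_X hp.2 hp.1.1]
  have h3 : (3 : ℝ) ≤ p := by exact_mod_cast hp.1.1
  have h5 : (0 : ℝ) < p - 1 := by linarith
  have h6 : ((Aq true p : ℕ) : ℝ) = p - 1 := by
    unfold Aq
    rw [if_pos rfl, Nat.cast_sub (by omega)]
    norm_num
  rw [h6]
  field_simp
  push_cast
  ring

lemma lim_X : Tendsto (fun w : ℕ => Phq (uq true (X : ℤ[X])) w * Real.log w ^ 1) atTop
    (𝓝 (2 * C2 * Real.exp (-Real.eulerMascheroniConstant))) := by
  refine Pool.Agent.TH494.RG.om_log.congr' ?_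
  filter_upwards [eventually_ge_atTop 2] with w hw
  rw [Phq_X hw, pow_one]

lemma stAdm_X : StAdm true (X : ℤ[X]) (-1) (1 / 2) := by
  apply stAdm_half true _ (-1) 0 (by norm_num)
  · intro p hp n hn
    by_cases h2 : p = 2
    · refine ⟨1, by rw [h2]; simp, ?_⟩
      rw [eval_X, h2]
      omega
    · by_contra hcon
      push Not at hcon
      have hp3 : 3 ≤ p := by
        have := hp.two_le
        omega
      have k1 := hcon 1 (fun _ h => by have := Nat.le_of_dvd (by norm_num) h; omega)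
      have k2 := hcon 2 (fun _ h => by have := Nat.le_of_dvd (by norm_num) h; omega)
      rw [eval_X] at k1 k2
      have h4 := dvd_sub k1 k2
      have h5 : (n : ℤ) + -1 * ((1 : ℕ) : ℤ) - (n + -1 * ((2 : ℕ) : ℤ)) = 1 := by
        push_cast
        ring
      rw [h5] at h4
      have := Int.le_of_dvd (by norm_num) h4
      omega
  · intro n hn r hr
    rw [eval_X]
    have h1 := hr rfl
    omega

/-- the law at density one -/
theorem law_X :
    Tendsto (fun β : ℝ => (1 - β) * Real.log (Real.log (1 / (1 / 2 - FFq true (X : ℤ[X]) (-1) β)))) (𝓝[<] 1)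
      (𝓝 (2 * C2 * Real.exp (-Real.eulerMascheroniConstant))) := by
  have hc : 0 < 2 * C2 * Real.exp (-Real.eulerMascheroniConstant) := by
    have := D_pos
    linarith
  have h := Flocq_one true (X : ℤ[X]) (-1) (1 / 2) _ 1 hc le_rfl stAdm_X
    (stOne_in true X (-1) (Or.inr rfl) _ 1 hc le_rfl lim_X)
    (stOneUp_in true X (-1) (Or.inr rfl) _ 1 hc le_rfl lim_X)
  refine h.congr' ?_
  filter_upwards [Ioo_mem_nhdsLT (show (0 : ℝ) < 1 by norm_num)] with β hβ
  rw [formula_X β hβ.1 hβ.2, pow_one]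

end Pool.Agent.Y886.OneS
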