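import Mathlib
import Pool.Agent.W168.Wrap2

/-!
# The boundary relation with prescribed coefficients outside the nodes
-/

set_option autoImplicit false

open Finset MeasureTheory Filter

namespace Pool.Agent.Y886.PC

open Pool.Agent.H469R10.HO
open Pool.Agent.W168.Lin (nn om om_near xx_zero xx_gap nn_zero om_zero nn_inj QQ_id summable_abs PP_abs_le)
open Pool.Agent.H54R3.T469O (PP_add PP_sub PP_const_mul PP_cos PP_hasSum DD_abs chi_zero chi_one)

variable {c lam : ℝ}

/-- the column of the node `i`, with the sign `τ` -/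
noncomputable def TS (τ c lam : ℝ) (m i j : ℕ) : ℝ :=
  - PP (fun t => Real.cos (om c lam i * t) - Real.cos (xx i * t)) j +
    τ * PP (DD m (fun y => Real.cos (om c lam i * y))) j

/-- the source term of `S`, with the sign `τ` -/
noncomputable def sg (τ : ℝ) (S : ℝ → ℝ) (m j : ℕ) : ℝ := - PP S j + τ * PP (DD m S) j

lemma fin_bound {τ : ℝ} (hτ : τ ^ 2 = 1) {m : ℕ} {κ : ℝ} (hm : 1 ≤ m) (hc : 0 < c) (hc1 : c ≤ 1 / 4)
    (hlam : 1 ≤ lam)
    (hM : MBound m κ) (S : Finset ℕ) (β : ℕ → ℝ) (J : ℕ) :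
    ∑ j ∈ range J, (1 + (j : ℝ)) ^ 2 * (∑ i ∈ S, β i * TS τ c lam m i j) ^ 2 ≤
      (800 * c ^ 2 + 2 * κ) * ∑ i ∈ S, (1 + (i : ℝ)) ^ 2 * β i ^ 2 := by
  have hnear : ∀ i ∈ S, |om c lam i - xx (id i)| ≤ c := fun i _ => om_near hc hlam i
  have hnear1 : ∀ i ∈ S, |om c lam i - xx (id i)| ≤ 1 := fun i hi => (hnear i hi).trans (by linarith)
  have e1 : ∀ j, ∑ i ∈ S, β i * TS τ c lam m i j =
      - ∑ i ∈ S, β i * PP (fun t => Real.cos (om c lam i * t) - Real.cos (xx (id i) * t)) j +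
      τ * PP (DD m (fun y => ∑ i ∈ S, β i * Real.cos (om c lam i * y))) j := by
    intro j
    rw [← PP_DD_sum hm, ← sum_neg_distrib, mul_sum, ← sum_add_distrib]
    apply sum_congr rfl
    intro i _
    unfold TS
    simp only [id]
    ring
  have hMS := (hM S id (om c lam) β hnear1).2 J
  have c2 := colR_two S id (om c lam) β hc.le (by linarith) hnear (range J)
  rw [QQ_id] at hMS c2
  simp_rw [e1]
  calc ∑ j ∈ range J, (1 + (j : ℝ)) ^ 2 * (- ∑ i ∈ S, β i * PP (fun t => Real.cos (om c lam i * t) - Real.cos (xx (id i) * t)) j +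
      τ * PP (DD m (fun y => ∑ i ∈ S, β i * Real.cos (om c lam i * y))) j) ^ 2
        ≤ ∑ j ∈ range J, (2 * ((1 + (j : ℝ)) ^ 2 * (∑ i ∈ S, β i * PP (fun t => Real.cos (om c lam i * t) - Real.cos (xx (id i) * t)) j) ^ 2) +
          2 * ((1 + (j : ℝ)) ^ 2 * (PP (DD m (fun y => ∑ i ∈ S, β i * Real.cos (om c lam i * y))) j) ^ 2)) := by
          apply sum_le_sum; intro j _
          obtain ⟨A, hA⟩ : ∃ A : ℝ, A = ∑ i ∈ S, β i * PP (fun t => Real.cos (om c lam i * t) - Real.cos (xx (id i) * t)) j := ⟨_, rfl⟩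
          obtain ⟨B, hB⟩ : ∃ B : ℝ, B = PP (DD m (fun y => ∑ i ∈ S, β i * Real.cos (om c lam i * y))) j := ⟨_, rfl⟩
          rw [← hA, ← hB]
          have h0 : 0 ≤ (1 + (j : ℝ)) ^ 2 := by positivity
          have h1 := mul_nonneg h0 (sq_nonneg (A + τ * B))
          have h2 : (τ * B) ^ 2 = B ^ 2 := by rw [mul_pow, hτ, one_mul]
          have h3 : (-A + τ * B) ^ 2 = 2 * A ^ 2 + 2 * B ^ 2 - (A + τ * B) ^ 2 := by
            linear_combination 2 * h2
          rw [h3]
          nlinarith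
      _ ≤ 2 * (400 * c ^ 2 * ∑ i ∈ S, (1 + (i : ℝ)) ^ 2 * β i ^ 2) + 2 * (κ * ∑ i ∈ S, (1 + (i : ℝ)) ^ 2 * β i ^ 2) := by
          rw [sum_add_distrib, ← mul_sum, ← mul_sum]
          linarith
      _ = _ := by ring

lemma abs_of_sq {τ : ℝ} (hτ : τ ^ 2 = 1) : |τ| = 1 := by
  have h1 : |τ| ^ 2 = 1 := by rw [sq_abs, hτ]
  nlinarith [abs_nonneg τ]

lemma TS_abs_le {τ : ℝ} (hτ : τ ^ 2 = 1) {m : ℕ} (i j : ℕ) :
    |TS τ c lam m i j| ≤ 4 + 2 * 2 ^ (2 * m) := by
  unfold TS
  refine (abs_add_le _ _).trans ?_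
  rw [abs_neg, abs_mul, abs_of_sq hτ, one_mul]
  have h1 : |PP (fun t => Real.cos (om c lam i * t) - Real.cos (xx i * t)) j| ≤ 2 * 2 := by
    apply PP_abs_le
    intro x _
    refine (abs_sub _ _).trans ?_
    have := Real.abs_cos_le_one (om c lam i * x)
    have := Real.abs_cos_le_one (xx i * x)
    linarith
  have h2 : |PP (DD m (fun y => Real.cos (om c lam i * y))) j| ≤ 2 * 2 ^ (2 * m) := by
    apply PP_abs_le
    intro x hx
    have h3 := DD_abs (m := m) (f := fun y => Real.cos (om c lam i * y)) (C := 1)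
      (fun y => Real.abs_cos_le_one _) x
    have h4 : x ^ (2 * m) ≤ 2 ^ (2 * m) := pow_le_pow_left₀ hx.1 hx.2 _
    linarith
  linarith

lemma summable_TS {τ : ℝ} (hτ : τ ^ 2 = 1) {m : ℕ} {d : ℕ → ℝ} (hd : Summable (fun i => |d i|)) (j : ℕ) :
    Summable (fun i => d i * TS τ c lam m i j) := by
  refine Summable.of_norm_bounded (hd.mul_right (4 + 2 * 2 ^ (2 * m))) fun i => ?_
  rw [Real.norm_eq_abs, abs_mul]
  exact mul_le_mul_of_nonneg_left (TS_abs_le hτ i j) (abs_nonneg _)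

lemma inf_bound {τ : ℝ} (hτ : τ ^ 2 = 1) {m : ℕ} {κ : ℝ} (hm : 1 ≤ m) (hc : 0 < c) (hc1 : c ≤ 1 / 4)
    (hlam : 1 ≤ lam) (hM : MBound m κ) {d : ℕ → ℝ} {D : ℝ} (hκ : 0 ≤ κ)
    (hd : ∀ J : ℕ, ∑ j ∈ range J, (1 + (j : ℝ)) ^ 2 * d j ^ 2 ≤ D) (J : ℕ) :
    ∑ j ∈ range J, (1 + (j : ℝ)) ^ 2 * (∑' i, d i * TS τ c lam m i j) ^ 2 ≤
      (800 * c ^ 2 + 2 * κ) * D := by
  have hs := fun j => (summable_TS (c := c) (lam := lam) (m := m) hτ (summable_abs hd) j).hasSum.tendsto_sum_nat
  have ht : Tendsto (fun N => ∑ j ∈ range J, (1 + (j : ℝ)) ^ 2 * (∑ i ∈ range N, d i * TS τ c lam m i j) ^ 2) atTop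
      (nhds (∑ j ∈ range J, (1 + (j : ℝ)) ^ 2 * (∑' i, d i * TS τ c lam m i j) ^ 2)) :=
    tendsto_finsetSum _ fun j _ => ((hs j).pow 2).const_mul _
  refine le_of_tendsto ht (Eventually.of_forall fun N => ?_)
  refine (fin_bound hτ hm hc hc1 hlam hM (range N) d J).trans ?_
  exact mul_le_mul_of_nonneg_left (hd N) (by positivity)

/-- a source: a function with bounded values and bounded continuous derivative -/
structure Src (S S' : ℝ → ℝ) : Prop where
  der : ∀ x, HasDerivAt S (S' x) x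
  cont' : Continuous S'
  bdd : ∃ M, ∀ x, |S x| ≤ M
  bdd' : ∃ M, ∀ x, |S' x| ≤ M

lemma Src.cont {S S' : ℝ → ℝ} (h : Src S S') : Continuous S :=
  continuous_iff_continuousAt.2 fun x => (h.der x).continuousAt

/-- the source has finite norm -/
lemma src_bound (τ : ℝ) {S S' : ℝ → ℝ} (h : Src S S') {m : ℕ} (hm : 2 ≤ m) : ∃ R : ℝ, ∀ J : ℕ,
    ∑ j ∈ range J, (1 + (j : ℝ)) ^ 2 * (sg τ S m j) ^ 2 ≤ R := by
  obtain ⟨M, hM⟩ := h.bdd
  obtain ⟨M', hM'⟩ := h.bdd'
  have hD := Pool.Agent.H5R3.T469N.hasDeriv_DD m hm h.der hM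
  have hDc := Pool.Agent.H5R3.T469N.cont_DD' m hm h.cont h.cont' hM hM'
  have hDc0 := Pool.Agent.H5R3.T469N.cont_DD m hm h.cont hM
  have hd : ∀ x, HasDerivAt (fun x => τ * DD m S x - S x)
      (τ * Pool.Agent.H5R3.T469N.DD' m S S' x - S' x) x :=
    fun x => ((hD x).const_mul τ).sub (h.der x)
  have hcd : Continuous (fun x => τ * Pool.Agent.H5R3.T469N.DD' m S S' x - S' x) :=
    (continuous_const.mul hDc).sub h.cont'
  refine ⟨2 * (∫ t in (0:ℝ)..2, (τ * DD m S t - S t) ^ 2) +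
    ∫ t in (0:ℝ)..2, (τ * Pool.Agent.H5R3.T469N.DD' m S S' t - S' t) ^ 2, fun J => ?_⟩
  have hb := Pool.Agent.H469R10.HO.weighted_bessel hd hcd (range J)
  have e : ∀ j, PP (fun x => τ * DD m S x - S x) j = sg τ S m j := by
    intro j
    have hcm : Continuous (fun x => τ * DD m S x) := continuous_const.mul hDc0
    rw [PP_sub hcm h.cont, PP_const_mul]
    unfold sg
    ring
  simp_rw [e] at hb
  exact hb

theorem fixed {τ : ℝ} (hτ : τ ^ 2 = 1) {S S' : ℝ → ℝ} (h : Src S S') {m : ℕ} {κ : ℝ} (hm : 2 ≤ m)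
    (hc : 0 < c) (hc1 : c ≤ 1 / 4) (hlam : 1 ≤ lam) (hκ : 0 ≤ κ)
    (hM : MBound m κ) (hK : 800 * c ^ 2 + 2 * κ ≤ 1 / 4) :
    ∃ b : ℕ → ℝ, Summable (fun i => |b i|) ∧ ∀ j, b j = sg τ S m j + ∑' i, b i * TS τ c lam m i j := by
  obtain ⟨R, hR⟩ := src_bound τ h hm
  have hR0 : 0 ≤ R := by simpa using hR 0
  have hm1 : 1 ≤ m := by omega
  set ρ : ℝ := 2 * (R + 1) with hρ
  have hρ0 : 0 < ρ := by positivity
  obtain ⟨b, hb, hfix⟩ := Pool.Agent.H180R3.Q469.taskQ (fun j => (1 + (j : ℝ)) ^ 2) (fun j => by positivity)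
    (fun b j => sg τ S m j + ∑' i, b i * TS τ c lam m i j) ρ (1 / 2) hρ0 (by norm_num) (by norm_num)
    (fun J => by
      have : ∀ j, sg τ S m j + ∑' i : ℕ, (0:ℝ) * TS τ c lam m i j = sg τ S m j := by
        intro j; simp
      simp_rw [this]
      refine (hR J).trans ?_
      rw [hρ]
      nlinarith)
    (fun b b' hb hb' D hD hd J => by
      have hsb := summable_abs hb
      have hsb' := summable_abs hb'
      have e : ∀ j, (sg τ S m j + ∑' i, b i * TS τ c lam m i j) - (sg τ S m j + ∑' i, b' i * TS τ c lam m i j) =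
          ∑' i, (b i - b' i) * TS τ c lam m i j := by
        intro j
        have h1 := (summable_TS (c := c) (lam := lam) (m := m) hτ hsb j).tsum_sub
          (summable_TS (c := c) (lam := lam) (m := m) hτ hsb' j)
        have h2 : ∀ i, b i * TS τ c lam m i j - b' i * TS τ c lam m i j = (b i - b' i) * TS τ c lam m i j :=
          fun i => by ring
        simp_rw [h2] at h1
        rw [h1]; ring
      simp_rw [e]
      refine (inf_bound hτ hm1 hc hc1 hlam hM hκ hd J).trans ?_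
      have hD2 : 0 ≤ D ^ 2 := sq_nonneg D
      nlinarith)
  exact ⟨b, summable_abs hb, hfix⟩

theorem relation {τ : ℝ} (hτ : τ ^ 2 = 1) {S S' : ℝ → ℝ} (hS : Src S S') {m : ℕ} (hm : 2 ≤ m) {b : ℕ → ℝ}
    (hb : Summable fun i => |b i|)
    (hfix : ∀ j, b j = sg τ S m j + ∑' i, b i * TS τ c lam m i j) {x : ℝ} (hx : 0 < x) :
    S x + ∑' i, b i * Real.cos (om c lam i * x) =
      τ * x ^ (2 * m) * (S x⁻¹ + ∑' i, b i * Real.cos (om c lam i * x⁻¹)) := by
  have hm1 : 1 ≤ m := by omega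
  obtain ⟨M, hM⟩ := hS.bdd
  let G : ℝ → ℝ := fun x => ∑' n, b n * Real.cos (om c lam n * x)
  have hGb : ∀ n x, ‖b n * Real.cos (om c lam n * x)‖ ≤ |b n| := by
    intro n x
    rw [Real.norm_eq_abs, abs_mul]
    calc |b n| * |Real.cos (om c lam n * x)| ≤ |b n| * 1 := by
          gcongr
          exact Real.abs_cos_le_one _
      _ = |b n| := mul_one _
  have hGs : ∀ x, HasSum (fun n => b n * Real.cos (om c lam n * x)) (G x) := fun x =>
    (Summable.of_norm_bounded hb (fun n => hGb n x)).hasSum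
  have hGc : Continuous G := continuous_tsum (fun n => by fun_prop) hb hGb
  have hGB : ∀ x, |G x| ≤ ∑' n, |b n| := fun x => tsum_of_norm_bounded hb.hasSum (fun n => hGb n x)
  have hs0c : Continuous S := hS.cont
  let h : ℝ → ℝ := fun x => S x + G x
  have hhc : Continuous h := hs0c.add hGc
  have hhB : ∀ x, |h x| ≤ M + ∑' n, |b n| := fun x =>
    (abs_add_le _ _).trans (add_le_add (hM x) (hGB x))
  have hP : ∀ j, PP h j = τ * PP (DD m h) j := by
    intro j
    have H1 : HasSum (fun n => b n * PP (fun t => Real.cos (om c lam n * t)) j) (PP G j) := by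
      have h1 := PP_hasSum (F := fun n x => b n * Real.cos (om c lam n * x)) (a := fun n => |b n|)
        (fun n => by fun_prop) (fun n x _ => hGb n x) hb j (f := G) (fun x _ => hGs x)
      simpa only [PP_const_mul] using h1
    have hcosB : ∀ n x, |Real.cos (om c lam n * x)| ≤ 1 := fun n x => Real.abs_cos_le_one _
    have hDc : ∀ n, Continuous (DD m (fun y => Real.cos (om c lam n * y))) := fun n =>
      DD_cont hm1 (by fun_prop) (hcosB n)
    have H2 : HasSum (fun n => b n * PP (DD m (fun y => Real.cos (om c lam n * y))) j) (PP (DD m G) j) := by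
      have h1 := PP_hasSum (F := fun n x => b n * DD m (fun y => Real.cos (om c lam n * y)) x)
        (a := fun n => |b n| * 2 ^ (2 * m))
        (fun n => continuous_const.mul (hDc n)) (fun n x hx => by
          rw [abs_mul]
          have h2 := DD_abs (m := m) (hcosB n) x
          have h3 : x ^ (2 * m) ≤ 2 ^ (2 * m) := pow_le_pow_left₀ hx.1 hx.2 _
          have h4 : |DD m (fun y => Real.cos (om c lam n * y)) x| ≤ 2 ^ (2 * m) := by linarith
          gcongr) (hb.mul_right _) j (f := DD m G) (fun x _ => by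
          have h2 := (hGs x⁻¹).mul_left (chi x * x ^ (2 * m))
          have h3 : (fun n => b n * DD m (fun y => Real.cos (om c lam n * y)) x) =
              fun n => chi x * x ^ (2 * m) * (b n * Real.cos (om c lam n * x⁻¹)) := by
            funext n
            unfold DD
            ring
          rw [h3]
          exact h2)
      simpa only [PP_const_mul] using h1
    have H3 : HasSum (fun n => if n = j then b j else 0) (b j) := hasSum_ite_eq j (b j)
    have H4 : HasSum (fun n => b n * TS τ c lam m n j) (- PP G j + τ * PP (DD m G) j + b j) := by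
      have h1 := ((H1.neg).add (H2.mul_left τ)).add H3
      have h2 : (fun n => b n * TS τ c lam m n j) = fun n =>
          -(b n * PP (fun t => Real.cos (om c lam n * t)) j) +
            τ * (b n * PP (DD m (fun y => Real.cos (om c lam n * y))) j) +
            (if n = j then b j else 0) := by
        funext n
        unfold TS
        rw [PP_sub (by fun_prop) (by fun_prop), PP_cos]
        split_ifs with h0
        · subst h0; ring
        · ring
      rw [h2]
      exact h1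
    have h5 := hfix j
    rw [H4.tsum_eq] at h5
    unfold sg at h5
    have h6 : PP h j = PP S j + PP G j := PP_add hs0c hGc j
    have h7 : PP (DD m h) j = PP (DD m S) j + PP (DD m G) j := by
      rw [← PP_add (DD_cont hm1 hs0c hM) (DD_cont hm1 hGc hGB)]
      congr 1
      funext x
      simp only [DD, h]
      ring
    rw [h6, h7]
    linarith
  have hDhc : Continuous (DD m h) := DD_cont hm1 hhc hhB
  have hL := Pool.Agent.H82R3.T469L.taskL (fun x => h x - τ * DD m h x)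
    (hhc.sub (continuous_const.mul hDhc)) (fun j => by
    have h1 : PP (fun x => h x - τ * DD m h x) j = 0 := by
      have hcm : Continuous (fun x => τ * DD m h x) := continuous_const.mul hDhc
      rw [PP_sub hhc hcm, PP_const_mul, hP j, sub_self]
    unfold PP at h1
    have h2 : ww j ≠ 0 := by have := ww_ge j; positivity
    exact (div_eq_zero_iff.mp h1).resolve_right h2)
  have hL' : ∀ x ∈ Set.Icc (0:ℝ) 2, h x = τ * (chi x * x ^ (2 * m) * h x⁻¹) := fun x hx => by
    have := hL x hx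
    simp only [DD] at this
    linarith
  have hz1 : ∀ x ∈ Set.Icc (3 / 4 : ℝ) 2, h x = 0 := by
    intro x hx
    rw [hL' x ⟨by linarith [hx.1], hx.2⟩, chi_zero hx.1]
    ring
  have hz : ∀ x ∈ Set.Icc (1 / 2 : ℝ) 2, h x = 0 := by
    intro x hx
    rcases le_total (3 / 4) x with h1 | h1
    · exact hz1 x ⟨h1, hx.2⟩
    · have hx0 : 0 < x := by linarith [hx.1]
      rw [hL' x ⟨by linarith [hx.1], hx.2⟩, hz1 x⁻¹ ?_, mul_zero, mul_zero]
      constructor
      · rw [le_inv_comm₀ (by norm_num) hx0]; linarith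
      · rw [inv_le_comm₀ hx0 (by norm_num)]; linarith [hx.1]
  have hinv : ∀ x : ℝ, 0 < x → x ≤ 1 / 2 → h x = τ * (x ^ (2 * m) * h x⁻¹) := by
    intro x hx0 hx1
    rw [hL' x ⟨hx0.le, by linarith⟩, chi_one hx1, one_mul]
  change h x = τ * x ^ (2 * m) * h x⁻¹
  rcases le_total x (1 / 2) with h1 | h1
  · rw [hinv x hx h1, mul_assoc]
  rcases le_total x 2 with h2 | h2
  · rw [hz x ⟨h1, h2⟩, hz x⁻¹ ?_, mul_zero]
    constructor
    · rw [le_inv_comm₀ (by norm_num) hx]; linarith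
    · rw [inv_le_comm₀ hx (by norm_num)]; linarith
  · have h3 := hinv x⁻¹ (inv_pos.mpr hx) (by rw [inv_le_comm₀ hx (by norm_num)]; linarith)
    rw [inv_inv] at h3
    have hx2 : x ^ (2 * m) * (x⁻¹) ^ (2 * m) = 1 := by
      rw [← mul_pow, mul_inv_cancel₀ hx.ne', one_pow]
    rw [h3]
    linear_combination (-(h x * x ^ (2 * m) * (x⁻¹) ^ (2 * m))) * hτ - h x * hx2

end Pool.Agent.Y886.PC
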