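import Mathlib
import Pool.Agent.Y886.PC1

/-!
# The boundary relation as a series over the integers, prescribed coefficients outside the nodes
-/

set_option autoImplicit false

open Finset MeasureTheory Filter

namespace Pool.Agent.Y886.PC

open Pool.Agent.H469R10.HO
open Pool.Agent.W168.Lin (nn om nn_inj)

variable {c lam : ℝ}

/-- the cosine series of `s` -/
noncomputable def cs (c lam : ℝ) (s : ℕ → ℝ) (x : ℝ) : ℝ := ∑' n, s n * Real.cos (uu c lam n * x)

noncomputable def cs' (c lam : ℝ) (s : ℕ → ℝ) (x : ℝ) : ℝ :=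
  ∑' n, -(s n * uu c lam n * Real.sin (uu c lam n * x))

lemma src_cs (hc : 0 < c) {s : ℕ → ℝ} (h0 : Summable fun n => |s n|)
    (h1 : Summable fun n => |s n| * uu c lam n) : Src (cs c lam s) (cs' c lam s) := by
  have hu : ∀ n, 0 ≤ uu c lam n := fun n => by unfold uu; positivity
  have hb : ∀ n x, ‖s n * Real.cos (uu c lam n * x)‖ ≤ |s n| := fun n x => by
    rw [Real.norm_eq_abs, abs_mul]
    calc |s n| * |Real.cos (uu c lam n * x)| ≤ |s n| * 1 := by
          gcongr
          exact Real.abs_cos_le_one _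
      _ = |s n| := mul_one _
  have hb' : ∀ n x, ‖-(s n * uu c lam n * Real.sin (uu c lam n * x))‖ ≤ |s n| * uu c lam n := fun n x => by
    rw [norm_neg, Real.norm_eq_abs, abs_mul, abs_mul, abs_of_nonneg (hu n)]
    have h2 := hu n
    calc |s n| * uu c lam n * |Real.sin (uu c lam n * x)| ≤ |s n| * uu c lam n * 1 := by
          gcongr
          exact Real.abs_sin_le_one _
      _ = _ := mul_one _
  refine ⟨fun x => ?_, ?_, ⟨∑' n, |s n|, fun x => ?_⟩, ⟨∑' n, |s n| * uu c lam n, fun x => ?_⟩⟩
  · refine hasDerivAt_tsum h1 (fun n y => ?_) hb' (y₀ := 0) ?_ x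
    · have h2 : HasDerivAt (fun y : ℝ => uu c lam n * y) (uu c lam n) y := by
        simpa using (hasDerivAt_id y).const_mul (uu c lam n)
      have h3 := (h2.cos).const_mul (s n)
      refine h3.congr_deriv ?_
      ring
    · exact Summable.of_norm_bounded h0 (fun n => hb n 0)
  · exact continuous_tsum (fun n => by fun_prop) h1 hb'
  · exact tsum_of_norm_bounded h0.hasSum (fun n => hb n x)
  · exact tsum_of_norm_bounded h1.hasSum (fun n => hb' n x)

/-- coefficients over the integers -/
noncomputable def al (c lam : ℝ) (b s : ℕ → ℝ) (n : ℕ) : ℝ :=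
  Function.extend (nn c lam) b (fun _ => 0) n + s n

lemma hasSum_al (hc : 0 < c) (hc1 : c ≤ 1 / 4) (hlam : 1 ≤ lam) {b s : ℕ → ℝ} (hb : Summable fun i => |b i|)
    (hs0 : Summable fun n => |s n|) (x : ℝ) : HasSum (fun n => al c lam b s n * Real.cos (uu c lam n * x))
      (cs c lam s x + ∑' i, b i * Real.cos (om c lam i * x)) := by
  have hinj := nn_inj hc hc1 hlam
  have hs : Summable (fun n => b n * Real.cos (om c lam n * x)) := by
    refine Summable.of_norm_bounded hb (fun n => ?_)
    rw [Real.norm_eq_abs, abs_mul]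
    calc |b n| * |Real.cos (om c lam n * x)| ≤ |b n| * 1 := by
          gcongr
          exact Real.abs_cos_le_one _
      _ = |b n| := mul_one _
  have hs' : Summable (fun n => s n * Real.cos (uu c lam n * x)) := by
    refine Summable.of_norm_bounded hs0 (fun n => ?_)
    rw [Real.norm_eq_abs, abs_mul]
    calc |s n| * |Real.cos (uu c lam n * x)| ≤ |s n| * 1 := by
          gcongr
          exact Real.abs_cos_le_one _
      _ = |s n| := mul_one _
  have h1 : HasSum (fun n => Function.extend (nn c lam) b (fun _ => 0) n * Real.cos (uu c lam n * x))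
      (∑' i, b i * Real.cos (om c lam i * x)) := by
    rw [← hinj.hasSum_iff]
    · have e : ((fun n => Function.extend (nn c lam) b (fun _ => 0) n * Real.cos (uu c lam n * x)) ∘ nn c lam) =
          fun n => b n * Real.cos (om c lam n * x) := by
        funext i
        simp only [Function.comp, hinj.extend_apply]
        rfl
      rw [e]
      exact hs.hasSum
    · intro n hn
      rw [Function.extend_apply' _ _ _ (fun h => hn h), zero_mul]
  have h2 := hs'.hasSum.add h1
  have e2 : (fun n => al c lam b s n * Real.cos (uu c lam n * x)) =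
      fun n => s n * Real.cos (uu c lam n * x) +
        Function.extend (nn c lam) b (fun _ => 0) n * Real.cos (uu c lam n * x) := by
    funext n
    unfold al
    ring
  rw [e2]
  exact h2

lemma summable_al (hc : 0 < c) (hc1 : c ≤ 1 / 4) (hlam : 1 ≤ lam) {b s : ℕ → ℝ} (hb : Summable fun i => |b i|)
    (hs0 : Summable fun n => |s n|) : Summable (fun n => |al c lam b s n|) := by
  have hinj := nn_inj hc hc1 hlam
  have h1 : Summable (fun n => |Function.extend (nn c lam) b (fun _ => 0) n|) := by
    rw [← hinj.summable_iff]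
    · refine hb.congr fun i => ?_
      simp only [Function.comp, hinj.extend_apply]
    · intro n hn
      rw [Function.extend_apply' _ _ _ (fun h => hn h), abs_zero]
  exact Summable.of_nonneg_of_le (fun _ => abs_nonneg _) (fun n => abs_add_le _ _) (h1.add hs0)

lemma al_off {b s : ℕ → ℝ} {n : ℕ} (hn : n ∉ Set.range (nn c lam)) : al c lam b s n = s n := by
  unfold al
  rw [Function.extend_apply' _ _ _ (fun h => hn h), zero_add]

/-- For all large `m`, all `lam ≥ 1` and both signs: the boundary relation of weight `-2m` with frequencies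
`c n^{1/lam}` has a solution with prescribed coefficients outside the nodes. -/
theorem exists_relation : ∃ m₀ : ℕ, ∀ m : ℕ, m₀ ≤ m → ∀ lam : ℝ, 1 ≤ lam → ∀ c : ℝ, 0 < c → c ≤ 1 / 100 →
    ∀ τ : ℝ, τ ^ 2 = 1 → ∀ s : ℕ → ℝ, Summable (fun n => |s n|) → Summable (fun n => |s n| * uu c lam n) →
    ∃ α : ℕ → ℝ, Summable (fun n => |α n|) ∧ (∀ n, n ∉ Set.range (nn c lam) → α n = s n) ∧
      ∀ x : ℝ, 0 < x → ∑' n, α n * Real.cos (uu c lam n * x) =
        τ * x ^ (2 * m) * ∑' n, α n * Real.cos (uu c lam n / x) := by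
  obtain ⟨m₀, hm₀⟩ := Pool.Agent.H99R3.M469.taskM (1 / 20) (by norm_num)
  refine ⟨max m₀ 2, fun m hm lam hlam c hc hc1 τ hτ s h0 h1 => ?_⟩
  have hm2 : 2 ≤ m := le_trans (le_max_right _ _) hm
  have hM : MBound m (1 / 20) := hm₀ m (le_trans (le_max_left _ _) hm)
  have hc4 : c ≤ 1 / 4 := by linarith
  have hS := src_cs (lam := lam) hc h0 h1
  obtain ⟨b, hb, hfix⟩ := fixed hτ hS hm2 hc hc4 hlam (by norm_num) hM (by nlinarith)
  refine ⟨al c lam b s, summable_al hc hc4 hlam hb h0, fun n hn => al_off hn, fun x hx => ?_⟩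
  have h8 : ∀ n, uu c lam n / x = uu c lam n * x⁻¹ := fun n => div_eq_mul_inv _ _
  simp_rw [h8]
  rw [(hasSum_al hc hc4 hlam hb h0 x).tsum_eq, (hasSum_al hc hc4 hlam hb h0 x⁻¹).tsum_eq]
  exact relation hτ hS hm2 hb hfix hx

end Pool.Agent.Y886.PC
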