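import Mathlib
import Pool.Agent.Y886.PC2
import Pool.Agent.W168.Wrap2

/-!
# Entire Dirichlet series with prescribed coefficients outside the nodes
-/

set_option autoImplicit false

open Finset Complex

namespace Pool.Agent.Y886.PC

open Pool.Agent.H469R10.HO
open Pool.Agent.W168.Lin (nn om nn_inj)
open Pool.Agent.W168.Wrap

/-- abscissa -/
noncomputable def sig (lam : ℝ) (m : ℕ) : ℝ := (2 * m + 2 + |mu lam m|) / lam

/-- conductor -/
noncomputable def QQc (lam c : ℝ) : ℝ := Real.exp (-(lam * Real.log c))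

theorem wrap {lam : ℝ} (hlam : 1 ≤ lam) {m : ℕ} (hm1 : 1 ≤ m) {c : ℝ} (hc : 0 < c) {τ : ℝ}
    (hτ : τ = 1 ∨ τ = -1) {α : ℕ → ℝ} (hsum : Summable fun n => |α n|)
    (hrel : ∀ x : ℝ, 0 < x → ∑' n, α n * Real.cos (uu c lam n * x) =
        τ * x ^ (2 * m) * ∑' n, α n * Real.cos (uu c lam n / x)) :
    ∃ F : ℂ → ℂ, Differentiable ℂ F ∧
    (∀ s : ℂ, sig lam m < s.re → LSeriesSummable (ff lam m α) s ∧ F s = LSeries (ff lam m α) s) ∧
    (∀ σ₁ σ₂ : ℝ, ∃ M C : ℝ, ∀ s : ℂ, σ₁ ≤ s.re → s.re ≤ σ₂ → ‖F s‖ ≤ C * (1 + |s.im|) ^ M) ∧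
    (∀ s : ℂ, (∀ n : ℕ, (lam : ℂ) * s + mu lam m ≠ -(n : ℂ)) →
      (∀ n : ℕ, (lam : ℂ) * (1 - starRingEnd ℂ s) + mu lam m ≠ -(n : ℂ)) →
      F s * (QQc lam c : ℂ) ^ s * Gamma ((lam : ℂ) * s + mu lam m) =
        (((-1) ^ (m + 1) * τ : ℝ) : ℂ) *
          starRingEnd ℂ (F (1 - starRingEnd ℂ s) * (QQc lam c : ℂ) ^ (1 - starRingEnd ℂ s) *
          Gamma ((lam : ℂ) * (1 - starRingEnd ℂ s) + mu lam m))) := by
  have hF := Pool.Agent.H144R3.T469F.taskF
  have hG := Pool.Agent.H853R3.Bol.taskG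
  have hl : 0 < lam := by linarith
  have hrel2 := hG m hm1 α (uu c lam) hsum (Pool.Agent.W168.Wrap.uu_zero hl) (fun n hn => uu_pos hc hn) τ hτ
    (fun x hx => hrel x hx)
  obtain ⟨ε, hε⟩ : ∃ ε : ℝ, ε = (-1) ^ (m + 1) * τ := ⟨_, rfl⟩
  have hε1 : ε = 1 ∨ ε = -1 := by
    rw [hε]
    rcases neg_one_pow_eq_or ℝ (m + 1) with h | h <;> rcases hτ with h2 | h2 <;> rw [h, h2] <;> norm_num
  have hεε : ε * ε = 1 := by
    rcases hε1 with h | h <;> rw [h] <;> norm_num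
  have hm0 : (0 : ℝ) ≤ m := Nat.cast_nonneg m
  have hm1' : (1 : ℝ) ≤ m := by exact_mod_cast hm1
  obtain ⟨Λ, hΛd, hΛfe, hΛc, hΛs, C, hΛg⟩ := hF c lam (2 * m + 2) hc hlam (by linarith)
    (fun n => α n * uu c lam n ^ (2 * m + 1))
    (by rw [Pool.Agent.W168.Wrap.uu_zero hl]; simp)
    (by
      refine Summable.of_nonneg_of_le (fun n => by
        apply mul_nonneg (abs_nonneg _)
        apply Real.rpow_nonneg
        rcases Nat.eq_zero_or_pos n with h | h
        · rw [h, Pool.Agent.W168.Wrap.uu_zero hl]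
        · exact (uu_pos hc h).le) (fun n => ?_) hsum
      rcases Nat.eq_zero_or_pos n with h | h
      · subst h
        rw [Pool.Agent.W168.Wrap.uu_zero hl]
        simp
      · have hu := uu_pos (lam := lam) hc h
        rw [abs_mul, abs_of_pos (pow_pos hu _), mul_assoc, ← Real.rpow_natCast,
          ← Real.rpow_add hu]
        have : ((2 * m + 1 : ℕ) : ℝ) + -((2 * (m : ℝ) + 2) - 1) = 0 := by push_cast; ring
        rw [this, Real.rpow_zero, mul_one])
    ε hε1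
    (by
      intro t ht
      have h1 := hrel2 t ht
      rw [hε]
      have h2 : t ^ (2 * (m : ℝ) + 2) = t ^ (2 * m + 2) := by
        rw [← Real.rpow_natCast]
        push_cast
        rfl
      rw [h2]
      exact h1)
  obtain ⟨σ₀, hσ₀⟩ : ∃ σ₀ : ℝ, σ₀ = (2 * m + 2 + |mu lam m|) / lam := ⟨_, rfl⟩
  have hmu : 0 ≤ |mu lam m| := abs_nonneg _
  have hσ₀0 : 0 ≤ σ₀ := by rw [hσ₀]; positivity
  have hFser : ∀ s : ℂ, σ₀ < s.re → LSeriesSummable (ff lam m α) s ∧ FF lam m c Λ s = LSeries (ff lam m α) s := by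
    intro s hs
    apply FF_series hc hl
    apply hΛs
    have h1 : ((lam : ℂ) * s + mu lam m).re = lam * s.re + mu lam m := by
      simp
    rw [h1]
    rw [hσ₀, div_lt_iff₀ hl] at hs
    have := neg_abs_le (mu lam m)
    linarith
  have hgr := FF_growth (lam := lam) (m := m) (c := c) hl hΛg
  refine ⟨FF lam m c Λ, FF_diff hΛd, fun s hs => hFser s (by rw [hσ₀]; exact hs), ?_, ?_⟩
  · exact FF_strip hl hσ₀0 hε1 (FF_diff hΛd) hgr hFser hΛfe
  · intro s hs1 hs2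
    have g1 := FF_completed (m := m) (c := c) (Λ := Λ) (s := s) hs1
    have g2 := FF_completed (m := m) (c := c) (Λ := Λ) (s := 1 - starRingEnd ℂ s) hs2
    unfold QQc
    rw [← hε, g1, g2, map_mul, Complex.conj_ofReal, ← hΛc]
    have h3 : starRingEnd ℂ ((lam : ℂ) * (1 - starRingEnd ℂ s) + mu lam m) =
        (((2 * (m : ℝ) + 2 : ℝ)) : ℂ) - ((lam : ℂ) * s + mu lam m) := by
      rw [map_add, map_mul, map_sub, map_one, Complex.conj_conj, Complex.conj_ofReal, Complex.conj_ofReal]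
      unfold mu
      push_cast
      ring
    rw [h3, hΛfe]
    have h5 : (ε : ℂ) * ε = 1 := by exact_mod_cast hεε
    linear_combination (-((Real.exp (Real.log c * (mu lam m - 2 * m - 1)) : ℝ) : ℂ) *
      Λ ((lam : ℂ) * s + mu lam m)) * h5

end Pool.Agent.Y886.PC
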