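import Mathlib
import Pool.Agent.Y886.PC3

/-!
# Complex coefficients, counting of the nodes
-/

set_option autoImplicit false

open Finset Complex Filter

namespace Pool.Agent.Y886.PC

open Pool.Agent.H469R10.HO
open Pool.Agent.W168.Lin (nn om nn_inj om_near xx_gap xx_zero nn_zero)
open Pool.Agent.W168.Wrap

theorem next_off {c lam : ℝ} (hc : 0 < c) (hc1 : c ≤ 1 / 100) (hlam : 1 ≤ lam) (n : ℕ) :
    n ∉ Set.range (nn c lam) ∨ n + 1 ∉ Set.range (nn c lam) := by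
  by_contra hcon
  push Not at hcon
  obtain ⟨⟨i, hi⟩, ⟨j, hj⟩⟩ := hcon
  have hl0 : 0 < lam := by linarith
  have h1 : om c lam i = c * (n : ℝ) ^ (1 / lam) := by
    unfold om uu; rw [hi]
  have h2 : om c lam j = c * ((n + 1 : ℕ) : ℝ) ^ (1 / lam) := by
    unfold om uu; rw [hj]
  have h3 : ((n + 1 : ℕ) : ℝ) ^ (1 / lam) ≤ (n : ℝ) ^ (1 / lam) + 1 := by
    push_cast
    calc ((n : ℝ) + 1) ^ (1 / lam) ≤ (n : ℝ) ^ (1 / lam) + 1 ^ (1 / lam) :=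
          Real.rpow_add_le_add_rpow (Nat.cast_nonneg n) zero_le_one (by positivity)
            (by rw [div_le_one hl0]; exact hlam)
      _ = _ := by rw [Real.one_rpow]
  have h4 : (n : ℝ) ^ (1 / lam) ≤ ((n + 1 : ℕ) : ℝ) ^ (1 / lam) := by
    apply Real.rpow_le_rpow (Nat.cast_nonneg n) (by push_cast; linarith) (by positivity)
  have h5 : om c lam j - om c lam i ≤ c := by
    rw [h1, h2]; nlinarith
  have h6 : 0 ≤ om c lam j - om c lam i := by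
    rw [h1, h2]; nlinarith
  have n1 := abs_le.1 (om_near hc hlam i)
  have n2 := abs_le.1 (om_near hc hlam j)
  have hne : i ≠ j := by
    rintro rfl
    rw [hi] at hj
    omega
  rcases Nat.lt_or_gt_of_ne hne with h | h
  · have := xx_gap h
    linarith [n1.1, n1.2, n2.1, n2.2]
  · have := xx_gap h
    linarith [n1.1, n1.2, n2.1, n2.2]

theorem nodes_sub {c lam : ℝ} (hc : 0 < c) (hlam : 1 ≤ lam) (x : ℝ) {n : ℕ} (hn : 1 ≤ n)
    (hr : n ∈ Set.range (nn c lam)) (hnx : (n : ℝ) ≤ x) :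
    n ∈ (nn c lam) '' (Icc 1 ⌊2 * c / Real.pi * x ^ (1 / lam)⌋₊ : Finset ℕ) := by
  obtain ⟨j, hj⟩ := hr
  have hl0 : 0 < lam := by linarith
  refine ⟨j, ?_, hj⟩
  have hj0 : j ≠ 0 := by
    rintro rfl
    rw [nn_zero hlam] at hj
    omega
  have hxx := xx_nonneg j
  have h1 : (xx j / c) ^ lam ≤ (nn c lam j : ℝ) := Nat.le_ceil _
  have h2 : (xx j / c) ^ lam ≤ x := by rw [hj] at h1; linarith
  have h3 : xx j / c ≤ x ^ (1 / lam) := by
    have h4 : ((xx j / c) ^ lam) ^ (1 / lam) ≤ x ^ (1 / lam) :=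
      Real.rpow_le_rpow (by positivity) h2 (by positivity)
    rwa [← Real.rpow_mul (by positivity), mul_one_div_cancel hl0.ne', Real.rpow_one] at h4
  have h5 : (j : ℝ) ≤ 2 * c / Real.pi * x ^ (1 / lam) := by
    rw [div_le_iff₀ hc] at h3
    unfold xx at h3
    have hpi := Real.pi_pos
    rw [div_mul_eq_mul_div, le_div_iff₀ hpi]
    nlinarith
  simp only [coe_Icc, Set.mem_Icc]
  exact ⟨by omega, Nat.le_floor h5⟩

theorem count_bound {c lam : ℝ} (hc : 0 < c) (hlam : 1 ≤ lam) {n0 : ℕ} {δ : ℝ} (hδ : 0 < δ)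
    (hcδ : 2 * c / Real.pi ≤ δ / 2) (hn0 : 1 ≤ δ / 2 * (n0 : ℝ) ^ (1 / lam)) (x : ℝ) (hx : 0 ≤ x) :
    (({n : ℕ | n ∈ {n : ℕ | 1 ≤ n ∧ (n ∈ Set.range (nn c lam) ∨ n = n0)} ∧ (n : ℝ) ≤ x}.ncard : ℕ) : ℝ) ≤
      δ * x ^ (1 / lam) := by
  classical
  have hl0 : 0 < lam := by linarith
  obtain ⟨J, hJ⟩ : ∃ J : ℕ, J = ⌊2 * c / Real.pi * x ^ (1 / lam)⌋₊ := ⟨_, rfl⟩
  have hpos : 0 ≤ x ^ (1 / lam) := Real.rpow_nonneg hx _
  have hpi := Real.pi_pos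
  have hJ1 : (J : ℝ) ≤ δ / 2 * x ^ (1 / lam) := by
    have h1 : (J : ℝ) ≤ 2 * c / Real.pi * x ^ (1 / lam) := by
      rw [hJ]; exact Nat.floor_le (by positivity)
    exact h1.trans (by gcongr)
  have hsub : {n : ℕ | n ∈ {n : ℕ | 1 ≤ n ∧ (n ∈ Set.range (nn c lam) ∨ n = n0)} ∧ (n : ℝ) ≤ x} ⊆
      (((Icc 1 J).image (nn c lam)) ∪ (if (n0 : ℝ) ≤ x then {n0} else ∅) : Finset ℕ) := by
    rintro n ⟨⟨h1, h2⟩, h3⟩
    rw [mem_coe, mem_union]
    rcases h2 with h2 | h2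
    · left
      have := nodes_sub hc hlam x h1 h2 h3
      rw [← hJ] at this
      rw [mem_image]
      obtain ⟨j, hj, hj2⟩ := this
      exact ⟨j, by simpa using hj, hj2⟩
    · right
      subst h2
      rw [if_pos h3]
      simp
  have h1 := Set.ncard_le_ncard hsub (Finset.finite_toSet _)
  rw [Set.ncard_coe_finset] at h1
  have h2 : (((Icc 1 J).image (nn c lam)) ∪ (if (n0 : ℝ) ≤ x then {n0} else ∅) : Finset ℕ).card ≤
      J + (if (n0 : ℝ) ≤ x then 1 else 0) := by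
    refine (card_union_le _ _).trans ?_
    refine add_le_add ?_ ?_
    · refine card_image_le.trans ?_
      simp
    · split_ifs <;> simp
  have h3 : (({n : ℕ | n ∈ {n : ℕ | 1 ≤ n ∧ (n ∈ Set.range (nn c lam) ∨ n = n0)} ∧ (n : ℝ) ≤ x}.ncard : ℕ) : ℝ) ≤
      ((J + (if (n0 : ℝ) ≤ x then 1 else 0) : ℕ) : ℝ) := by exact_mod_cast h1.trans h2
  refine h3.trans ?_
  split_ifs with h
  · have h4 : (n0 : ℝ) ^ (1 / lam) ≤ x ^ (1 / lam) := Real.rpow_le_rpow (Nat.cast_nonneg _) h (by positivity)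
    push_cast
    nlinarith
  · push_cast
    nlinarith

/-- summability of the normalized coefficients -/
theorem sum_norm {lam c A C : ℝ} (hlam : 1 ≤ lam) (hc : 0 < c) {m : ℕ}
    (hm : lam * (A + 1 / 2) + 1 + lam < m) {r : ℕ → ℝ} (hr : ∀ n : ℕ, 1 ≤ n → |r n| ≤ C * (n : ℝ) ^ A)
    (hr0 : r 0 = 0) :
    Summable (fun n => |r n * (n : ℝ) ^ (-kap lam m)|) ∧
      Summable (fun n => |r n * (n : ℝ) ^ (-kap lam m)| * uu c lam n) := by
  have hl0 : 0 < lam := by linarith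
  have hC : 0 ≤ C := by
    have h1 := hr 1 le_rfl
    rw [Nat.cast_one, Real.one_rpow, mul_one] at h1
    exact (abs_nonneg _).trans h1
  have hk : A - kap lam m + 1 / lam < -1 := by
    unfold kap
    have h1 : (A - (1 / 2 + m / lam) + 1 / lam + 1) * lam < 0 := by
      have e : (A - (1 / 2 + m / lam) + 1 / lam + 1) * lam = lam * (A + 1 / 2) + 1 - m := by
        field_simp
        ring
      rw [e]; linarith
    by_contra hcon
    push Not at hcon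
    have := mul_nonneg (by linarith : 0 ≤ A - (1 / 2 + m / lam) + 1 / lam + 1) hl0.le
    linarith
  have hS : Summable (fun n : ℕ => C * c * (n : ℝ) ^ (A - kap lam m + 1 / lam)) :=
    (Real.summable_nat_rpow.2 hk).mul_left _
  have h2 : Summable (fun n => |r n * (n : ℝ) ^ (-kap lam m)| * uu c lam n) := by
    refine Summable.of_nonneg_of_le (fun n => ?_) (fun n => ?_) hS
    · unfold uu; positivity
    · rcases Nat.eq_zero_or_pos n with h | h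
      · subst h
        rw [hr0]
        simp only [zero_mul, abs_zero]
        positivity
      · have hn : (0 : ℝ) < n := by exact_mod_cast h
        rw [abs_mul, abs_of_pos (Real.rpow_pos_of_pos hn _)]
        unfold uu
        calc |r n| * (n : ℝ) ^ (-kap lam m) * (c * (n : ℝ) ^ (1 / lam)) ≤
            (C * (n : ℝ) ^ A) * (n : ℝ) ^ (-kap lam m) * (c * (n : ℝ) ^ (1 / lam)) := by
              gcongr
              exact hr n h
          _ = C * c * ((n : ℝ) ^ A * (n : ℝ) ^ (-kap lam m) * (n : ℝ) ^ (1 / lam)) := by ring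
          _ = _ := by rw [← Real.rpow_add hn, ← Real.rpow_add hn, ← sub_eq_add_neg]
  refine ⟨?_, h2⟩
  refine Summable.of_nonneg_of_le (fun n => abs_nonneg _) (fun n => ?_) (h2.mul_left c⁻¹)
  rcases Nat.eq_zero_or_pos n with h | h
  · subst h
    rw [hr0]
    simp
  · have h1 : (1 : ℝ) ≤ n := by exact_mod_cast h
    have h3 : c ≤ uu c lam n := by
      unfold uu
      have : 1 ≤ (n : ℝ) ^ (1 / lam) := Real.one_le_rpow h1 (by positivity)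
      nlinarith
    have h4 : 0 ≤ |r n * (n : ℝ) ^ (-kap lam m)| := abs_nonneg _
    calc |r n * (n : ℝ) ^ (-kap lam m)| = c⁻¹ * (|r n * (n : ℝ) ^ (-kap lam m)| * c) := by
          field_simp
      _ ≤ _ := by gcongr

/-- real coefficients -/
theorem real_case {lam c : ℝ} (hlam : 1 ≤ lam) (hc : 0 < c) {m : ℕ} (hm1 : 1 ≤ m) {τ : ℝ}
    (hτ : τ = 1 ∨ τ = -1) {A C : ℝ} (hm : lam * (A + 1 / 2) + 1 + lam < m)
    (hrel : ∀ s : ℕ → ℝ, Summable (fun n => |s n|) → Summable (fun n => |s n| * uu c lam n) →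
      ∃ α : ℕ → ℝ, Summable (fun n => |α n|) ∧ (∀ n, n ∉ Set.range (nn c lam) → α n = s n) ∧
      ∀ x : ℝ, 0 < x → ∑' n, α n * Real.cos (uu c lam n * x) =
        τ * x ^ (2 * m) * ∑' n, α n * Real.cos (uu c lam n / x))
    {r : ℕ → ℝ} (hr : ∀ n : ℕ, 1 ≤ n → |r n| ≤ C * (n : ℝ) ^ A) :
    ∃ (F : ℂ → ℂ) (b : ℕ → ℂ), Differentiable ℂ F ∧
    (∀ n : ℕ, 1 ≤ n → n ∉ Set.range (nn c lam) → b n = r n) ∧
    (∀ s : ℂ, sig lam m < s.re → LSeriesSummable b s ∧ F s = LSeries b s) ∧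
    (∀ σ₁ σ₂ : ℝ, ∃ M C : ℝ, ∀ s : ℂ, σ₁ ≤ s.re → s.re ≤ σ₂ → ‖F s‖ ≤ C * (1 + |s.im|) ^ M) ∧
    (∀ s : ℂ, (∀ n : ℕ, (lam : ℂ) * s + mu lam m ≠ -(n : ℂ)) →
      (∀ n : ℕ, (lam : ℂ) * (1 - starRingEnd ℂ s) + mu lam m ≠ -(n : ℂ)) →
      F s * (QQc lam c : ℂ) ^ s * Gamma ((lam : ℂ) * s + mu lam m) =
        (((-1) ^ (m + 1) * τ : ℝ) : ℂ) *
          starRingEnd ℂ (F (1 - starRingEnd ℂ s) * (QQc lam c : ℂ) ^ (1 - starRingEnd ℂ s) *
          Gamma ((lam : ℂ) * (1 - starRingEnd ℂ s) + mu lam m))) := by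
  obtain ⟨r', hr'⟩ : ∃ r' : ℕ → ℝ, r' = fun n => if n = 0 then 0 else r n := ⟨_, rfl⟩
  have hr'1 : ∀ n : ℕ, 1 ≤ n → r' n = r n := fun n hn => by
    rw [hr']; simp only; rw [if_neg (by omega)]
  have hr'0 : r' 0 = 0 := by rw [hr']; simp
  obtain ⟨h0, h1⟩ := sum_norm (r := r') (C := C) (A := A) hlam hc hm
    (fun n hn => by rw [hr'1 n hn]; exact hr n hn) hr'0
  obtain ⟨α, ha1, ha2, ha3⟩ := hrel _ h0 h1
  obtain ⟨F, hF1, hF2, hF3, hF4⟩ := wrap hlam hm1 hc hτ ha1 ha3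
  refine ⟨F, ff lam m α, hF1, fun n hn hoff => ?_, hF2, hF3, hF4⟩
  unfold ff aa
  have hn0 : (0 : ℝ) < n := by exact_mod_cast hn
  rw [ha2 n hoff, hr'1 n hn, mul_assoc, ← Real.rpow_add hn0, neg_add_cancel, Real.rpow_zero, mul_one]

/-- **Prescribed coefficients.** -/
theorem main (lam : ℝ) (hlam : 1 ≤ lam) (δ : ℝ) (hδ : 0 < δ) :
    ∃ (E : Set ℕ) (Q : ℝ), 0 < Q ∧
      (∀ x : ℝ, 0 ≤ x → (({n : ℕ | n ∈ E ∧ (n : ℝ) ≤ x}.ncard : ℕ) : ℝ) ≤ δ * x ^ (1 / lam)) ∧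
      ∀ a : ℕ → ℂ, (∃ C A : ℝ, ∀ n : ℕ, 1 ≤ n → ‖a n‖ ≤ C * (n : ℝ) ^ A) →
        ∃ (F : ℂ → ℂ) (b : ℕ → ℂ) (σ₀ ν ω : ℝ), 0 < ν ∧ (ω = 1 ∨ ω = -1) ∧ Differentiable ℂ F ∧
          (∀ n : ℕ, 1 ≤ n → n ∉ E → b n = a n) ∧ (∃ n : ℕ, 1 ≤ n ∧ b n ≠ 0) ∧
          (∀ s : ℂ, σ₀ < s.re → LSeriesSummable b s ∧ F s = LSeries b s) ∧
          (∀ σ₁ σ₂ : ℝ, ∃ M C : ℝ, ∀ s : ℂ, σ₁ ≤ s.re → s.re ≤ σ₂ → ‖F s‖ ≤ C * (1 + |s.im|) ^ M) ∧
          (∀ s : ℂ, (∀ n : ℕ, (lam : ℂ) * s + ν ≠ -(n : ℂ)) →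
            (∀ n : ℕ, (lam : ℂ) * (1 - starRingEnd ℂ s) + ν ≠ -(n : ℂ)) →
            F s * (Q : ℂ) ^ s * Gamma ((lam : ℂ) * s + ν) =
              (ω : ℂ) * starRingEnd ℂ (F (1 - starRingEnd ℂ s) * (Q : ℂ) ^ (1 - starRingEnd ℂ s) *
                Gamma ((lam : ℂ) * (1 - starRingEnd ℂ s) + ν))) := by
  classical
  have hl0 : 0 < lam := by linarith
  have hpi := Real.pi_pos
  obtain ⟨c, hcdef⟩ : ∃ c : ℝ, c = min (1 / 100) (Real.pi * δ / 4) := ⟨_, rfl⟩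
  have hc : 0 < c := by rw [hcdef]; positivity
  have hc1 : c ≤ 1 / 100 := by rw [hcdef]; exact min_le_left _ _
  have hc2 : 2 * c / Real.pi ≤ δ / 2 := by
    have : c ≤ Real.pi * δ / 4 := by rw [hcdef]; exact min_le_right _ _
    rw [div_le_iff₀ hpi]
    linarith
  -- a large integer outside the nodes
  obtain ⟨n0, hn01, hn0off, hn0⟩ : ∃ n0 : ℕ, 1 ≤ n0 ∧ n0 ∉ Set.range (nn c lam) ∧
      1 ≤ δ / 2 * (n0 : ℝ) ^ (1 / lam) := by
    have ht : Tendsto (fun n : ℕ => δ / 2 * (n : ℝ) ^ (1 / lam)) atTop atTop :=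
      ((tendsto_rpow_atTop (by positivity)).comp tendsto_natCast_atTop_atTop).const_mul_atTop (by positivity)
    obtain ⟨N, hN⟩ := eventually_atTop.1 (ht.eventually_ge_atTop 1)
    rcases next_off hc hc1 hlam (N + 1) with h | h
    · exact ⟨N + 1, by omega, h, hN _ (by omega)⟩
    · exact ⟨N + 1 + 1, by omega, h, hN _ (by omega)⟩
  refine ⟨{n : ℕ | 1 ≤ n ∧ (n ∈ Set.range (nn c lam) ∨ n = n0)}, QQc lam c, Real.exp_pos _,
    fun x hx => count_bound hc hlam hδ hc2 hn0 x hx, fun a ha => ?_⟩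
  obtain ⟨C, A, hCA⟩ := ha
  obtain ⟨a', ha'⟩ : ∃ a' : ℕ → ℂ, a' = fun n => if n = n0 then 1 else a n := ⟨_, rfl⟩
  have hC : 0 ≤ C := by
    have h1 := hCA 1 le_rfl
    rw [Nat.cast_one, Real.one_rpow, mul_one] at h1
    exact (norm_nonneg _).trans h1
  have ha'b : ∀ n : ℕ, 1 ≤ n → ‖a' n‖ ≤ (C + 1) * (n : ℝ) ^ |A| := by
    intro n hn
    have hn1 : (1 : ℝ) ≤ n := by exact_mod_cast hn
    have h2 : (1 : ℝ) ≤ (n : ℝ) ^ |A| := Real.one_le_rpow hn1 (abs_nonneg _)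
    rw [ha']
    simp only
    split_ifs with h
    · rw [norm_one]; nlinarith
    · have h3 : (n : ℝ) ^ A ≤ (n : ℝ) ^ |A| := Real.rpow_le_rpow_of_exponent_le hn1 (le_abs_self A)
      calc ‖a n‖ ≤ C * (n : ℝ) ^ A := hCA n hn
        _ ≤ C * (n : ℝ) ^ |A| := by gcongr
        _ ≤ _ := by nlinarith
  obtain ⟨m₀, hm₀⟩ := exists_relation
  obtain ⟨m₁, hm₁⟩ := exists_nat_gt (lam * (|A| + 1 / 2) + 1 + lam)
  obtain ⟨m, hm⟩ : ∃ m : ℕ, m = m₀ + m₁ + 1 := ⟨_, rfl⟩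
  have hmm : m₀ ≤ m := by omega
  have hm1 : 1 ≤ m := by omega
  have hmA : lam * (|A| + 1 / 2) + 1 + lam < m := by
    have : (m₁ : ℝ) ≤ m := by exact_mod_cast (by omega : m₁ ≤ m)
    linarith
  have hmu : 0 < mu lam m := by
    unfold mu
    have h1 : 0 ≤ lam * (|A| + 1 / 2) := by positivity
    linarith
  obtain ⟨FR, bR, hR1, hR2, hR3, hR4, hR5⟩ := real_case (τ := 1) (C := C + 1) (A := |A|)
    (r := fun n => (a' n).re) hlam hc hm1 (Or.inl rfl) hmA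
    (hm₀ m hmm lam hlam c hc hc1 1 (by norm_num))
    (fun n hn => (Complex.abs_re_le_norm _).trans (ha'b n hn))
  obtain ⟨FI, bI, hI1, hI2, hI3, hI4, hI5⟩ := real_case (τ := -1) (C := C + 1) (A := |A|)
    (r := fun n => (a' n).im) hlam hc hm1 (Or.inr rfl) hmA
    (hm₀ m hmm lam hlam c hc hc1 (-1) (by norm_num))
    (fun n hn => (Complex.abs_im_le_norm _).trans (ha'b n hn))
  have hoff : ∀ n : ℕ, 1 ≤ n → n ∉ Set.range (nn c lam) → (bR + I • bI) n = a' n := by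
    intro n hn h
    simp only [Pi.add_apply, Pi.smul_apply, smul_eq_mul]
    rw [hR2 n hn h, hI2 n hn h, mul_comm]
    exact Complex.re_add_im _
  refine ⟨fun s => FR s + I * FI s, bR + I • bI, sig lam m, mu lam m, (-1) ^ (m + 1), hmu,
    neg_one_pow_eq_or ℝ (m + 1), hR1.add (hI1.const_mul I), fun n hn hE => ?_, ⟨n0, hn01, ?_⟩,
    fun s hs => ?_, fun σ₁ σ₂ => ?_, fun s h1 h2 => ?_⟩
  · have h1 : n ∉ Set.range (nn c lam) := fun h => hE ⟨hn, Or.inl h⟩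
    have h2 : n ≠ n0 := fun h => hE ⟨hn, Or.inr h⟩
    rw [hoff n hn h1, ha']
    simp only
    rw [if_neg h2]
  · rw [hoff n0 hn01 hn0off, ha']
    simp
  · obtain ⟨h1, h2⟩ := hR3 s hs
    obtain ⟨h3, h4⟩ := hI3 s hs
    refine ⟨h1.add (h3.smul I), ?_⟩
    rw [LSeries_add h1 (h3.smul I), LSeries_smul, ← h2, ← h4]
  · obtain ⟨M, K, hK⟩ := hR4 σ₁ σ₂
    obtain ⟨M', K', hK'⟩ := hI4 σ₁ σ₂
    refine ⟨max M M', |K| + |K'|, fun s hs1 hs2 => ?_⟩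
    have hb : 1 ≤ 1 + |s.im| := by have := abs_nonneg s.im; linarith
    have g1 : (1 + |s.im|) ^ M ≤ (1 + |s.im|) ^ (max M M') :=
      Real.rpow_le_rpow_of_exponent_le hb (le_max_left _ _)
    have g2 : (1 + |s.im|) ^ M' ≤ (1 + |s.im|) ^ (max M M') :=
      Real.rpow_le_rpow_of_exponent_le hb (le_max_right _ _)
    have p1 : 0 ≤ (1 + |s.im|) ^ M := Real.rpow_nonneg (by linarith) _
    have p2 : 0 ≤ (1 + |s.im|) ^ M' := Real.rpow_nonneg (by linarith) _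
    calc ‖FR s + I * FI s‖ ≤ ‖FR s‖ + ‖I * FI s‖ := norm_add_le _ _
      _ = ‖FR s‖ + ‖FI s‖ := by rw [norm_mul, Complex.norm_I, one_mul]
      _ ≤ K * (1 + |s.im|) ^ M + K' * (1 + |s.im|) ^ M' := add_le_add (hK s hs1 hs2) (hK' s hs1 hs2)
      _ ≤ |K| * (1 + |s.im|) ^ M + |K'| * (1 + |s.im|) ^ M' := by
          gcongr
          · exact le_abs_self K
          · exact le_abs_self K'
      _ ≤ |K| * (1 + |s.im|) ^ (max M M') + |K'| * (1 + |s.im|) ^ (max M M') := by gcongr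
      _ = _ := by ring
  · have g1 := hR5 s h1 h2
    have g2 := hI5 s h1 h2
    simp only [map_mul, map_add, Complex.conj_I] at g1 g2 ⊢
    push_cast at g1 g2 ⊢
    linear_combination g1 + I * g2

end Pool.Agent.Y886.PC
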