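import Mathlib

set_option autoImplicit false
set_option maxHeartbeats 1000000

/-! # The numbers `q (n, k)` without small prime factors: elementary lemmas -/

namespace Pool.Agent.Y886.PL

open Finset Filter

/-- the value of `q (n, k)` -/
def qv (n k : ℕ) : ℕ := Nat.totient k + Nat.totient (n - k) / 2 + 1

lemma card_pf (T F z : ℕ) (hT : T ≠ 0) (h : T ≤ z ^ F) :
    (T.primeFactors.card : ℝ) * Real.log 2 ≤ F * Real.log z := by
  have h1 : 2 ^ T.primeFactors.card ≤ ∏ p ∈ T.primeFactors, p :=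
    Finset.pow_card_le_prod _ _ _ (fun p hp => (Nat.prime_of_mem_primeFactors hp).two_le)
  have h2 : 2 ^ T.primeFactors.card ≤ T :=
    h1.trans (Nat.le_of_dvd (by omega) (Nat.prod_primeFactors_dvd T))
  have h3 : ((2 : ℝ) ^ T.primeFactors.card) ≤ (z : ℝ) ^ F := by exact_mod_cast h2.trans h
  have h4 := Real.log_le_log (by positivity) h3
  rw [Real.log_pow, Real.log_pow] at h4
  exact h4

lemma pick (z K S T : ℕ) (c0 : ℝ) (hz : 0 < z) (hS : 0 < S) (hT : T ≠ 0)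
    (hsum : c0 / (S.totient : ℝ) ≤
      ∑ p ∈ (Ioc z (z ^ K)).filter (fun p => p.Prime ∧ p ≡ 1 [MOD S]), (1 : ℝ) / p)
    (hbig : (T.primeFactors.card : ℝ) * S < c0 * z) :
    ∃ l : ℕ, l.Prime ∧ z < l ∧ l ≤ z ^ K ∧ l ≡ 1 [MOD S] ∧ ¬ l ∣ T := by
  classical
  by_contra hcon
  have hsub : (Ioc z (z ^ K)).filter (fun p => p.Prime ∧ p ≡ 1 [MOD S]) ⊆ T.primeFactors := by
    intro p hp
    rw [mem_filter, mem_Ioc] at hp
    rw [Nat.mem_primeFactors]
    refine ⟨hp.2.1, ?_, hT⟩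
    by_contra hnd
    exact hcon ⟨p, hp.2.1, hp.1.1, hp.1.2, hp.2.2, hnd⟩
  have h1 : ∑ p ∈ (Ioc z (z ^ K)).filter (fun p => p.Prime ∧ p ≡ 1 [MOD S]), (1 : ℝ) / p ≤
      T.primeFactors.card * (1 / (z : ℝ)) := by
    calc _ ≤ ∑ p ∈ (Ioc z (z ^ K)).filter (fun p => p.Prime ∧ p ≡ 1 [MOD S]), (1 : ℝ) / z := by
          apply sum_le_sum
          intro p hp
          rw [mem_filter, mem_Ioc] at hp
          apply one_div_le_one_div_of_le (by exact_mod_cast hz)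
          exact_mod_cast hp.1.1.le
      _ = (((Ioc z (z ^ K)).filter (fun p => p.Prime ∧ p ≡ 1 [MOD S])).card : ℝ) * (1 / z) := by
          rw [sum_const, nsmul_eq_mul]
      _ ≤ _ := by
          apply mul_le_mul_of_nonneg_right _ (by positivity)
          exact_mod_cast card_le_card hsub
  have hφ : (0 : ℝ) < S.totient := by exact_mod_cast Nat.totient_pos.2 hS
  have hφS : (S.totient : ℝ) ≤ S := by exact_mod_cast Nat.totient_le S
  have hzr : (0 : ℝ) < z := by exact_mod_cast hz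
  have h2 := hsum.trans h1
  rw [div_le_iff₀ hφ] at h2
  have h3 : c0 * z ≤ T.primeFactors.card * S := by
    calc c0 * z ≤ (T.primeFactors.card * (1 / (z : ℝ)) * S.totient) * z :=
          mul_le_mul_of_nonneg_right h2 hzr.le
      _ = T.primeFactors.card * S.totient := by field_simp
      _ ≤ _ := mul_le_mul_of_nonneg_left hφS (Nat.cast_nonneg _)
  linarith

/-- the product of the odd primes up to `y` other than `p₁` -/
def SS (y p₁ : ℕ) : ℕ := ∏ p ∈ (Icc 3 y).filter (fun p => p.Prime ∧ p ≠ p₁), p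

lemma SS_pos (y p₁ : ℕ) : 0 < SS y p₁ := prod_pos (fun p hp => (mem_filter.1 hp).2.1.pos)

lemma SS_le (y p₁ : ℕ) : SS y p₁ ≤ 4 ^ y := by
  refine le_trans ?_ (primorial_le_four_pow y)
  unfold SS primorial
  apply prod_le_prod_of_subset_of_one_le'
  · intro p hp
    rw [mem_filter, mem_Icc] at hp
    rw [mem_filter, mem_range]
    exact ⟨by omega, hp.2.1⟩
  · intro p hp _
    exact (mem_filter.1 hp).2.pos

lemma dvd_SS {y p₁ p : ℕ} (hp : p.Prime) (h : p ∣ SS y p₁) : 3 ≤ p ∧ p ≤ y ∧ p ≠ p₁ := by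
  unfold SS at h
  obtain ⟨r, hr, hpr⟩ := (Prime.dvd_finsetProd_iff hp.prime _).1 h
  rw [mem_filter, mem_Icc] at hr
  have h1 := (Nat.prime_dvd_prime_iff_eq hp hr.2.1).1 hpr
  rw [h1]
  exact ⟨hr.1.1, hr.1.2, hr.2.2⟩

lemma exc (y q₁ : ℕ) (hq : 2 ≤ q₁) :
    ∃ p₁ : ℕ, p₁.Prime ∧ 3 ≤ p₁ ∧ (p₁ = 3 ∨ p₁ ≤ y) ∧ ¬ q₁ ∣ SS y p₁ := by
  by_cases h : q₁ ∣ SS y 3
  · have hp := Nat.minFac_prime (show q₁ ≠ 1 by omega)
    have h1 := dvd_SS hp ((Nat.minFac_dvd q₁).trans h)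
    refine ⟨q₁.minFac, hp, h1.1, Or.inr h1.2.1, ?_⟩
    intro h2
    exact (dvd_SS hp ((Nat.minFac_dvd q₁).trans h2)).2.2 rfl
  · exact ⟨3, Nat.prime_three, le_rfl, Or.inl rfl, h⟩

lemma rough {n r l₁ l₂ y p₁ : ℕ} (hr : r.Prime) (hry : y < r) (hrn : r < n) (h1 : l₁.Prime)
    (h2 : l₂.Prime) (h13 : 3 ≤ l₁) (h23 : 3 ≤ l₂) (hne : l₁ ≠ l₂) (hmod : r ≡ n [MOD l₁ * l₂])
    (hl1 : l₁ ≡ 1 [MOD SS y p₁]) (hl2 : l₂ ≡ 1 [MOD p₁]) (p : ℕ) (hp : p.Prime) (hpy : p ≤ y) :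
    ¬ p ∣ qv n r := by
  have hd : l₁ * l₂ ∣ n - r := (Nat.modEq_iff_dvd' hrn.le).1 hmod
  have ht : (l₁ - 1) * (l₂ - 1) ∣ Nat.totient (n - r) := by
    have := Nat.totient_dvd_of_dvd hd
    rwa [Nat.totient_mul ((Nat.coprime_primes h1 h2).2 hne), Nat.totient_prime h1,
      Nat.totient_prime h2] at this
  have hev1 : 2 ∣ l₁ - 1 := by
    rcases h1.eq_two_or_odd with h | h
    · omega
    · omega
  have hev2 : 2 ∣ l₂ - 1 := by
    rcases h2.eq_two_or_odd with h | h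
    · omega
    · omega
  have h4 : 2 * 2 ∣ Nat.totient (n - r) := (mul_dvd_mul hev1 hev2).trans ht
  have key : p ∣ Nat.totient (n - r) / 2 := by
    rcases hp.eq_two_or_odd with h | h
    · rw [h]
      obtain ⟨k, hk⟩ := h4
      exact ⟨k, by omega⟩
    · have hp3 : 3 ≤ p := by
        have := hp.two_le
        omega
      have hpd : p ∣ Nat.totient (n - r) := by
        by_cases hpp : p = p₁
        · rw [hpp]
          exact ((Nat.modEq_iff_dvd' (by omega)).1 hl2.symm).trans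
            ((Dvd.intro_left (l₁ - 1) rfl).trans ht)
        · have h5 : p ∣ SS y p₁ := by
            unfold SS
            apply dvd_prod_of_mem (fun p => p)
            rw [mem_filter, mem_Icc]
            exact ⟨⟨hp3, hpy⟩, hp, hpp⟩
          exact (h5.trans ((Nat.modEq_iff_dvd' (by omega)).1 hl1.symm)).trans
            ((Dvd.intro (l₂ - 1) rfl).trans ht)
      obtain ⟨k, hk⟩ := h4
      have h5 : Nat.totient (n - r) = 2 * (Nat.totient (n - r) / 2) := by omega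
      rw [h5] at hpd
      exact Nat.Coprime.dvd_of_dvd_mul_left
        ((Nat.coprime_primes hp Nat.prime_two).2 (by omega)) hpd
  intro hq
  unfold qv at hq
  rw [Nat.totient_prime hr] at hq
  have h5 : r - 1 + Nat.totient (n - r) / 2 + 1 = r + Nat.totient (n - r) / 2 := by
    have := hr.two_le
    omega
  rw [h5] at hq
  have h6 : p ∣ r := (Nat.dvd_add_left key).1 hq
  have := (Nat.prime_dvd_prime_iff_eq hp hr).1 h6
  omega

/-- the set of the `k` -/
def KS (y n : ℕ) : Set ℕ := {k : ℕ | 1 ≤ k ∧ k + 2 < n ∧ ∀ p : ℕ, p.Prime → p ≤ y → ¬ p ∣ qv n k}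

end Pool.Agent.Y886.PL
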