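import Pool.Agent.Y866.LK.Page
import Pool.Agent.Y886.PLA

set_option autoImplicit false
set_option maxHeartbeats 4000000

/-! # For every large `n` many `q (n, k)` have no small prime factor -/

namespace Pool.Agent.Y886.PL

open Finset Filter

lemma ev_log (F : ℕ) (c : ℝ) (hc : 0 < c) : ∀ᶠ z : ℕ in atTop,
    F * Real.log z / Real.log 2 * √(z : ℝ) < c * z := by
  have tN : Tendsto (fun N : ℕ => (N : ℝ)) atTop atTop := tendsto_natCast_atTop_atTop
  have hl2 : 0 < Real.log 2 := Real.log_pos (by norm_num)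
  have hd : 0 < c * Real.log 2 / (F + 1) := by positivity
  have h := ((isLittleO_log_rpow_atTop (by norm_num : (0 : ℝ) < 1 / 2)).comp_tendsto tN).bound hd
  filter_upwards [h, eventually_ge_atTop 1] with z h1 h2
  have hz : (1 : ℝ) ≤ z := by exact_mod_cast h2
  have hl := Real.log_nonneg hz
  simp only [Function.comp_def, ← Real.sqrt_eq_rpow] at h1
  rw [Real.norm_of_nonneg hl, Real.norm_of_nonneg (by positivity)] at h1
  have hs : 0 < √(z : ℝ) := Real.sqrt_pos.2 (by linarith)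
  have hss : √(z : ℝ) * √(z : ℝ) = z := Real.mul_self_sqrt (by linarith)
  have h3 : F * Real.log z / Real.log 2 < c * √(z : ℝ) := by
    rw [div_lt_iff₀ hl2]
    calc F * Real.log z ≤ F * (c * Real.log 2 / (F + 1) * √(z : ℝ)) := by gcongr
      _ = (F / (F + 1)) * (c * √(z : ℝ) * Real.log 2) := by field_simp
      _ < 1 * (c * √(z : ℝ) * Real.log 2) := by
          apply mul_lt_mul_of_pos_right _ (by positivity)
          rw [div_lt_one (by positivity)]
          linarith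
      _ = c * √(z : ℝ) * Real.log 2 := one_mul _
  calc F * Real.log z / Real.log 2 * √(z : ℝ) < c * √(z : ℝ) * √(z : ℝ) :=
        mul_lt_mul_of_pos_right h3 hs
    _ = c * z := by rw [mul_assoc, hss]

theorem core : ∃ (E : ℕ) (c0 : ℝ) (z1 : ℕ), 1 ≤ E ∧ 0 < c0 ∧ ∀ z : ℕ, z1 ≤ z → ∀ n y : ℕ,
    2 * z ^ E ≤ n → n ≤ z ^ (4 * E) → (4 ^ y) ^ 16 ≤ z → c0 * z ≤ ((KS y n).ncard : ℝ) := by
  classical
  obtain ⟨K, c, hK, hc, hpage⟩ := Pool.Agent.Y866.LK.page
  obtain ⟨z0, hz0⟩ := hpage 1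
  obtain ⟨E, hE⟩ : ∃ E, E = 32 * K * K := ⟨_, rfl⟩
  obtain ⟨F, hF⟩ : ∃ F, F = 4 * E + 33 * K := ⟨_, rfl⟩
  obtain ⟨z2, hz2⟩ := eventually_atTop.1 ((ev_log F c hc).and
    (((Real.tendsto_log_atTop.comp tendsto_natCast_atTop_atTop).eventually_ge_atTop (3 : ℝ)).and
      (eventually_ge_atTop (max z0 (3 ^ 16)))))
  refine ⟨E, c, z2, by nlinarith, hc, fun z hz n y hn1 hn2 hy => ?_⟩
  obtain ⟨hev, hlz, hzmax⟩ := hz2 z hz
  simp only [Function.comp_def] at hlz
  have hz00 : z0 ≤ z := (le_max_left _ _).trans hzmax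
  have hz3 : 3 ^ 16 ≤ z := (le_max_right _ _).trans hzmax
  have hzpos : 0 < z := by omega
  have hzr : (0 : ℝ) < z := by exact_mod_cast hzpos
  obtain ⟨w, hw⟩ : ∃ w, w = z ^ (32 * K) := ⟨_, rfl⟩
  have hzw : z ≤ w := by rw [hw]; exact Nat.le_self_pow (by omega) z
  have hwK : w ^ K = z ^ E := by rw [hw, ← pow_mul, hE]
  obtain ⟨q₁, hq₁2, hq₁L, H1⟩ := hz0 z hz00
  obtain ⟨q₂, hq₂2, hq₂L, H2⟩ := hz0 w (hz00.trans hzw)
  obtain ⟨p₁, hp₁, hp₁3, hp₁y, hp₁S⟩ := exc y q₁ hq₁2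
  -- sizes
  have hy4 : y < 4 ^ y := Nat.lt_pow_self (by norm_num)
  have h4y : 4 ^ y ≤ z := (Nat.le_self_pow (by norm_num) _).trans hy
  have hSp : (SS y p₁) ^ 16 ≤ z := (Nat.pow_le_pow_left (SS_le y p₁) 16).trans hy
  have hpp : p₁ ^ 16 ≤ z := by
    rcases hp₁y with h | h
    · rw [h]; exact hz3
    · exact (Nat.pow_le_pow_left (h.trans hy4.le) 16).trans hy
  have hlogy : (y : ℝ) ≤ Real.log z := by
    have h1 : ((4 : ℝ) ^ y) ^ 16 ≤ z := by exact_mod_cast hy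
    have h2 := Real.log_le_log (by positivity) h1
    rw [Real.log_pow, Real.log_pow] at h2
    have h3 : (1 : ℝ) ≤ Real.log 4 := by
      rw [Real.le_log_iff_exp_le (by norm_num)]
      have := Real.exp_one_lt_d9
      linarith
    have h4 : (0 : ℝ) ≤ y := Nat.cast_nonneg y
    push_cast at h2
    nlinarith
  have hq₁p : ¬ q₁ ∣ p₁ := by
    intro h
    have h1 := (Nat.dvd_prime hp₁).1 h
    have h2 : q₁ = p₁ := by
      rcases h1 with h1 | h1
      · omega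
      · exact h1
    rw [h2, pow_one] at hq₁L
    rcases hp₁y with h3 | h3
    · rw [h3] at hq₁L
      push_cast at hq₁L
      linarith
    · have h4 : (p₁ : ℝ) ≤ y := by exact_mod_cast h3
      linarith
  -- the modified second exceptional modulus
  obtain ⟨q₃, hq₃⟩ : ∃ q₃, q₃ = if q₂ ≤ w then q₂ else 1 := ⟨_, rfl⟩
  have hq₃0 : 0 < q₃ := by
    rw [hq₃]
    split_ifs <;> omega
  have hq₃w : q₃ ≤ w := by
    rw [hq₃]
    split_ifs with h
    · exact h
    · omega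
  have hn0 : 0 < n := by
    have : 0 < z ^ E := by positivity
    omega
  have hl2 : 0 < Real.log 2 := Real.log_pos (by norm_num)
  -- few prime factors
  have hfew : ∀ T S : ℕ, T ≠ 0 → T ≤ z ^ F → S ^ 16 ≤ z → (T.primeFactors.card : ℝ) * S < c * z := by
    intro T S hT hTF hS
    have h1 := card_pf T F z hT hTF
    have h2 : (T.primeFactors.card : ℝ) ≤ F * Real.log z / Real.log 2 := by
      rw [le_div_iff₀ hl2]
      exact h1
    have h3 : (S : ℝ) ≤ √(z : ℝ) := by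
      apply Real.le_sqrt_of_sq_le
      have h4 : S ^ 2 ≤ z := by
        rcases Nat.eq_zero_or_pos S with h | h
        · rw [h]; norm_num
        · exact (Nat.pow_le_pow_right h (by norm_num)).trans hS
      exact_mod_cast h4
    refine lt_of_le_of_lt ?_ hev
    apply mul_le_mul h2 h3 (Nat.cast_nonneg _)
    positivity
  have hKz : 1 ≤ z := hzpos
  -- the second prime
  have hT2 : n * q₃ ≤ z ^ F := by
    calc n * q₃ ≤ z ^ (4 * E) * z ^ (32 * K) := Nat.mul_le_mul hn2 (hw ▸ hq₃w)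
      _ = z ^ (4 * E + 32 * K) := (pow_add _ _ _).symm
      _ ≤ z ^ F := Nat.pow_le_pow_right hKz (by omega)
  obtain ⟨l₂, hl₂p, hl₂z, hl₂K, hl₂1, hl₂T⟩ := pick z K p₁ (n * q₃) c hzpos hp₁.pos
    (Nat.mul_ne_zero (by omega) (by omega))
    (H1 p₁ 1 hp₁.pos hpp hq₁p (Nat.coprime_one_left _))
    (hfew _ _ (Nat.mul_ne_zero (by omega) (by omega)) hT2 hpp)
  have hT1 : n * q₃ * l₂ ≤ z ^ F := by
    calc n * q₃ * l₂ ≤ z ^ (4 * E) * z ^ (32 * K) * z ^ K :=
          Nat.mul_le_mul (Nat.mul_le_mul hn2 (hw ▸ hq₃w)) hl₂K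
      _ = z ^ (4 * E + 32 * K + K) := by rw [pow_add, pow_add]
      _ ≤ z ^ F := Nat.pow_le_pow_right hKz (by omega)
  have hT10 : n * q₃ * l₂ ≠ 0 :=
    Nat.mul_ne_zero (Nat.mul_ne_zero (by omega) (by omega)) hl₂p.pos.ne'
  obtain ⟨l₁, hl₁p, hl₁z, hl₁K, hl₁1, hl₁T⟩ := pick z K (SS y p₁) (n * q₃ * l₂) c hzpos
    (SS_pos y p₁) hT10
    (H1 (SS y p₁) 1 (SS_pos y p₁) hSp hp₁S (Nat.coprime_one_left _))
    (hfew _ _ hT10 hT1 hSp)
  have hne : l₁ ≠ l₂ := by
    intro h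
    rw [h] at hl₁T
    exact hl₁T (Dvd.intro_left _ rfl)
  have hl₁n : ¬ l₁ ∣ n := fun h => hl₁T ((h.mul_right q₃).mul_right l₂)
  have hl₁q : ¬ l₁ ∣ q₃ := fun h => hl₁T ((h.mul_left n).mul_right l₂)
  have hl₂n : ¬ l₂ ∣ n := fun h => hl₂T (h.mul_right q₃)
  have hl₂q : ¬ l₂ ∣ q₃ := fun h => hl₂T (h.mul_left n)
  obtain ⟨M, hM⟩ : ∃ M, M = l₁ * l₂ := ⟨_, rfl⟩
  have hMpos : 0 < M := by rw [hM]; exact Nat.mul_pos hl₁p.pos hl₂p.pos
  have hM2 : M ≤ z ^ (2 * K) := by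
    rw [hM]
    calc l₁ * l₂ ≤ z ^ K * z ^ K := Nat.mul_le_mul hl₁K hl₂K
      _ = z ^ (2 * K) := by rw [← pow_add]; congr 1; omega
  have hM16 : M ^ 16 ≤ w := by
    calc M ^ 16 ≤ (z ^ (2 * K)) ^ 16 := Nat.pow_le_pow_left hM2 16
      _ = w := by rw [hw, ← pow_mul]; congr 1; omega
  have hMw : M ≤ w := (Nat.le_self_pow (by norm_num) M).trans hM16
  have hq₂M : ¬ q₂ ∣ M := by
    intro h
    by_cases hcase : q₂ ≤ w
    · have e3 : q₃ = q₂ := by rw [hq₃, if_pos hcase]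
      rw [e3] at hl₁q hl₂q
      have c1 : Nat.Coprime q₂ l₁ := ((Nat.Prime.coprime_iff_not_dvd hl₁p).2 hl₁q).symm
      have c2 : Nat.Coprime q₂ l₂ := ((Nat.Prime.coprime_iff_not_dvd hl₂p).2 hl₂q).symm
      have c3 : Nat.Coprime q₂ M := by rw [hM]; exact Nat.Coprime.mul_right c1 c2
      have c4 := Nat.Coprime.eq_one_of_dvd c3 h
      omega
    · have := Nat.le_of_dvd hMpos h
      omega
  have hnM : n.Coprime M := by
    rw [hM]
    exact Nat.Coprime.mul_right ((Nat.Prime.coprime_iff_not_dvd hl₁p).2 hl₁n).symm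
      ((Nat.Prime.coprime_iff_not_dvd hl₂p).2 hl₂n).symm
  have hsum := H2 M n hMpos hM16 hq₂M hnM
  rw [hwK] at hsum
  -- the primes `r`
  obtain ⟨R, hR⟩ : ∃ R : Finset ℕ, R = (Ioc w (z ^ E)).filter (fun p => p.Prime ∧ p ≡ n [MOD M]) :=
    ⟨_, rfl⟩
  rw [← hR] at hsum
  have hwpos : 0 < w := by omega
  have hwr : (0 : ℝ) < w := by exact_mod_cast hwpos
  have hMr : (0 : ℝ) < M := by exact_mod_cast hMpos
  have hcard : c * z ≤ (R.card : ℝ) := by
    have h1 : ∑ p ∈ R, (1 : ℝ) / p ≤ R.card * (1 / (w : ℝ)) := by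
      calc ∑ p ∈ R, (1 : ℝ) / p ≤ ∑ p ∈ R, (1 : ℝ) / w := by
            apply sum_le_sum
            intro p hp
            rw [hR, mem_filter, mem_Ioc] at hp
            apply one_div_le_one_div_of_le hwr
            exact_mod_cast hp.1.1.le
        _ = _ := by rw [sum_const, nsmul_eq_mul]
    have hφ : (0 : ℝ) < M.totient := by exact_mod_cast Nat.totient_pos.2 hMpos
    have hφM : (M.totient : ℝ) ≤ M := by exact_mod_cast Nat.totient_le M
    have h2 : c / M ≤ R.card * (1 / (w : ℝ)) :=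
      (div_le_div_of_nonneg_left hc.le hφ hφM).trans (hsum.trans h1)
    have h3 : M * z ≤ w := by
      calc M * z ≤ z ^ (2 * K) * z := Nat.mul_le_mul_right z hM2
        _ = z ^ (2 * K + 1) := (pow_succ _ _).symm
        _ ≤ w := by rw [hw]; exact Nat.pow_le_pow_right hKz (by omega)
    have h3' : (M : ℝ) * z ≤ w := by exact_mod_cast h3
    have h4 : c * w ≤ R.card * M := by
      rw [div_le_iff₀ hMr] at h2
      calc c * w ≤ (R.card * (1 / (w : ℝ)) * M) * w := mul_le_mul_of_nonneg_right h2 hwr.le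
        _ = (R.card * M) * ((w : ℝ)⁻¹ * w) := by rw [one_div]; ring
        _ = R.card * M := by rw [inv_mul_cancel₀ hwr.ne', mul_one]
    have h5 : (M : ℝ) * (c * z) ≤ M * R.card := by
      calc (M : ℝ) * (c * z) = c * (M * z) := by ring
        _ ≤ c * w := mul_le_mul_of_nonneg_left h3' hc.le
        _ ≤ R.card * M := h4
        _ = M * R.card := by ring
    exact le_of_mul_le_mul_left h5 hMr
  have hsub : (R : Set ℕ) ⊆ KS y n := by
    intro r hr
    rw [mem_coe, hR, mem_filter, mem_Ioc] at hr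
    obtain ⟨⟨hr1, hr2⟩, hr3, hr4⟩ := hr
    have hr5 : 3 ≤ r := by
      have : 3 ≤ w := by
        have : 3 ≤ z := by omega
        omega
      omega
    refine ⟨by omega, by omega, ?_⟩
    intro p hp hpy
    rw [hM] at hr4
    exact rough hr3 (by omega) (by omega) hl₁p hl₂p (by omega) (by omega) hne hr4 hl₁1 hl₂1 p hp hpy
  have hfin : (KS y n).Finite := (Set.finite_Iic n).subset fun k hk => by
    have := hk.2.1
    exact Set.mem_Iic.2 (by omega)
  refine hcard.trans ?_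
  have h6 := Set.ncard_le_ncard hsub hfin
  rw [Set.ncard_coe_finset] at h6
  exact_mod_cast h6

/-- the final form -/
theorem final : ∃ c : ℝ, 0 < c ∧ ∀ᶠ n : ℕ in atTop,
    (n : ℝ) ^ c ≤ ((KS ⌊c * Real.log n⌋₊ n).ncard : ℝ) := by
  obtain ⟨E, c0, z1, hE, hc0, h⟩ := core
  have hEr : (1 : ℝ) ≤ E := by exact_mod_cast hE
  have hE0 : (0 : ℝ) < E := by linarith
  refine ⟨1 / (100 * E), by positivity, ?_⟩
  have tN : Tendsto (fun N : ℕ => (N : ℝ)) atTop atTop := tendsto_natCast_atTop_atTop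
  have t1 : Tendsto (fun n : ℕ => (n : ℝ) ^ (1 / (4 * E : ℝ))) atTop atTop :=
    (tendsto_rpow_atTop (by positivity)).comp tN
  have t2 : Tendsto (fun n : ℕ => (n : ℝ) ^ (1 / (4 * E : ℝ) - 1 / (100 * E : ℝ))) atTop atTop := by
    apply (tendsto_rpow_atTop _).comp tN
    rw [sub_pos]
    apply one_div_lt_one_div_of_lt (by positivity)
    linarith
  filter_upwards [t1.eventually_ge_atTop (z1 + 2 : ℝ), t2.eventually_ge_atTop (1 / c0),
    eventually_ge_atTop 4] with n h1 h2 h3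
  have hn : (4 : ℝ) ≤ n := by exact_mod_cast h3
  have hn0 : (0 : ℝ) < n := by linarith
  obtain ⟨z, hz⟩ : ∃ z : ℕ, z = ⌊(n : ℝ) ^ (1 / (2 * E : ℝ))⌋₊ := ⟨_, rfl⟩
  obtain ⟨u, hu⟩ : ∃ u : ℝ, u = (n : ℝ) ^ (1 / (4 * E : ℝ)) := ⟨_, rfl⟩
  have huu : (n : ℝ) ^ (1 / (2 * E : ℝ)) = u * u := by
    rw [hu, ← Real.rpow_add hn0]
    congr 1
    field_simp
    ring
  rw [← hu] at h1
  have hu2 : 2 ≤ u := by
    have := Nat.cast_nonneg (α := ℝ) z1
    linarith
  have hzle : (z : ℝ) ≤ (n : ℝ) ^ (1 / (2 * E : ℝ)) := by rw [hz]; exact Nat.floor_le (by positivity)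
  have hzlt : (n : ℝ) ^ (1 / (2 * E : ℝ)) < z + 1 := by rw [hz]; exact Nat.lt_floor_add_one _
  have hzu : u ≤ z := by
    rw [huu] at hzlt
    nlinarith
  have hz1 : z1 ≤ z := by
    have : (z1 : ℝ) ≤ z := by linarith
    exact_mod_cast this
  have hn1 : 2 * z ^ E ≤ n := by
    have h5 : (z : ℝ) ^ E ≤ √(n : ℝ) := by
      calc (z : ℝ) ^ E ≤ ((n : ℝ) ^ (1 / (2 * E : ℝ))) ^ E :=
            pow_le_pow_left₀ (Nat.cast_nonneg _) hzle E
        _ = √(n : ℝ) := by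
            rw [← Real.rpow_natCast, ← Real.rpow_mul hn0.le, Real.sqrt_eq_rpow]
            congr 1
            field_simp
    have h6 : 2 ≤ √(n : ℝ) := by
      apply Real.le_sqrt_of_sq_le
      linarith
    have h7 : √(n : ℝ) * √(n : ℝ) = n := Real.mul_self_sqrt hn0.le
    have h8 : 2 * (z : ℝ) ^ E ≤ n := by nlinarith
    exact_mod_cast h8
  have hn2 : n ≤ z ^ (4 * E) := by
    have h5 : (n : ℝ) ≤ (z : ℝ) ^ (4 * E) := by
      calc (n : ℝ) = u ^ (4 * E) := by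
            rw [hu, ← Real.rpow_natCast, ← Real.rpow_mul hn0.le]
            push_cast
            rw [show 1 / (4 * (E : ℝ)) * (4 * E) = 1 by field_simp, Real.rpow_one]
        _ ≤ (z : ℝ) ^ (4 * E) := pow_le_pow_left₀ (by linarith) hzu _
    exact_mod_cast h5
  have hlogn : 0 < Real.log n := Real.log_pos (by linarith)
  have hy : (4 ^ ⌊1 / (100 * (E : ℝ)) * Real.log n⌋₊) ^ 16 ≤ z := by
    have h5 : (⌊1 / (100 * (E : ℝ)) * Real.log n⌋₊ : ℝ) ≤ 1 / (100 * (E : ℝ)) * Real.log n :=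
      Nat.floor_le (by positivity)
    have h6 : (((4 : ℝ) ^ ⌊1 / (100 * (E : ℝ)) * Real.log n⌋₊) ^ 16) ≤ z := by
      rw [← Real.log_le_log_iff (by positivity) (by linarith), Real.log_pow, Real.log_pow]
      have h7 : 1 / (4 * (E : ℝ)) * Real.log n ≤ Real.log z := by
        have h8 := Real.log_le_log (by linarith) hzu
        rw [hu, Real.log_rpow hn0] at h8
        exact h8
      have h9 : Real.log 4 ≤ 1.4 := by
        have e4 : (4 : ℝ) = 2 * 2 := by norm_num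
        rw [e4, Real.log_mul (by norm_num) (by norm_num)]
        have := Real.log_two_lt_d9
        linarith
      have h10 : 0 < Real.log 4 := Real.log_pos (by norm_num)
      refine le_trans ?_ h7
      push_cast
      calc 16 * ((⌊1 / (100 * (E : ℝ)) * Real.log n⌋₊ : ℝ) * Real.log 4)
          ≤ 16 * ((1 / (100 * (E : ℝ)) * Real.log n) * 1.4) := by gcongr
        _ = (1 / (4 * (E : ℝ)) * Real.log n) * (22.4 / 25) := by field_simp; norm_num
        _ ≤ (1 / (4 * (E : ℝ)) * Real.log n) * 1 := by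
            apply mul_le_mul_of_nonneg_left (by norm_num) (by positivity)
        _ = _ := mul_one _
    exact_mod_cast h6
  refine le_trans ?_ (h z hz1 n _ hn1 hn2 hy)
  have h5 : (n : ℝ) ^ (1 / (4 * E : ℝ)) = (n : ℝ) ^ (1 / (4 * E : ℝ) - 1 / (100 * E : ℝ)) *
      (n : ℝ) ^ (1 / (100 * E : ℝ)) := by
    rw [← Real.rpow_add hn0]
    congr 1
    ring
  rw [div_le_iff₀ hc0] at h2
  have h6 : 0 ≤ (n : ℝ) ^ (1 / (100 * E : ℝ)) := by positivity
  calc (n : ℝ) ^ (1 / (100 * E : ℝ)) = 1 * (n : ℝ) ^ (1 / (100 * E : ℝ)) := (one_mul _).symm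
    _ ≤ ((n : ℝ) ^ (1 / (4 * E : ℝ) - 1 / (100 * E : ℝ)) * c0) * (n : ℝ) ^ (1 / (100 * E : ℝ)) :=
        mul_le_mul_of_nonneg_right h2 h6
    _ = c0 * u := by rw [hu, h5]; ring
    _ ≤ c0 * z := mul_le_mul_of_nonneg_left hzu hc0.le

end Pool.Agent.Y886.PL
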