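import Mathlib

set_option autoImplicit false
set_option maxHeartbeats 1000000

/-! # The numbers `p_q - q - 1` and `p_q - q + 1` mostly have few divisors -/

namespace Pool.Agent.Y886.PP

open Finset Filter

/-- the `q`-th prime -/
noncomputable def P (q : ℕ) : ℕ := Nat.nth Nat.Prime (q - 1)

lemma pi_lower : ∀ᶠ N : ℕ in atTop, (N : ℝ) / (2 * Real.log N) ≤ Nat.primeCounting N := by
  have tN : Tendsto (fun N : ℕ => (N : ℝ)) atTop atTop := tendsto_natCast_atTop_atTop
  have h1 := (Real.isLittleO_log_id_atTop.comp_tendsto tN).bound (show (0 : ℝ) < 1 / 20 by norm_num)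
  filter_upwards [h1, eventually_ge_atTop 100] with N h2 h3
  have hN : (100 : ℝ) ≤ N := by exact_mod_cast h3
  simp only [Function.comp_def, id] at h2
  have hl : 0 < Real.log N := Real.log_pos (by linarith)
  rw [Real.norm_of_nonneg hl.le, Real.norm_of_nonneg (by linarith)] at h2
  refine le_trans ?_ (Chebyshev.pi_ge N)
  have hl2 := Real.log_two_gt_d9
  have h4 : Real.log (N + 1) ≤ Real.log N + 1 := by
    have h5 : (N : ℝ) + 1 ≤ N * Real.exp 1 := by
      have := Real.add_one_le_exp (1 : ℝ)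
      nlinarith
    have h6 := Real.log_le_log (by linarith) h5
    rw [Real.log_mul (by linarith) (Real.exp_pos 1).ne', Real.log_exp] at h6
    exact h6
  rw [div_le_div_iff₀ (by positivity) hl]
  have h5 : (N : ℝ) * (1 / 2) ≤ N * Real.log 2 - Real.log (N + 1) := by nlinarith
  nlinarith

lemma P_le {q Y : ℕ} (hq : 1 ≤ q) (h : q ≤ Nat.primeCounting Y) : P q ≤ Y := by
  unfold P
  have h1 : Nat.nth Nat.Prime (q - 1) < Y + 1 := by
    apply Nat.nth_lt_of_lt_count
    unfold Nat.primeCounting Nat.primeCounting' at h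
    omega
  omega

lemma P_gt (q : ℕ) (hq : 1 ≤ q) : q + 1 ≤ P q := by
  unfold P
  have := Nat.add_two_le_nth_prime (q - 1)
  omega

lemma P_step (i : ℕ) : P (i + 2) + 2 ≤ P (i + 3) := by
  unfold P
  have h1 : Nat.nth Nat.Prime (i + 2 - 1) < Nat.nth Nat.Prime (i + 3 - 1) :=
    Nat.nth_strictMono Nat.infinite_setOfPred_prime (by omega)
  have p1 : (Nat.nth Nat.Prime (i + 2 - 1)).Prime := Nat.prime_nth_prime _
  have p2 : (Nat.nth Nat.Prime (i + 3 - 1)).Prime := Nat.prime_nth_prime _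
  have h2 := Nat.add_two_le_nth_prime (i + 2 - 1)
  have o1 : Nat.nth Nat.Prime (i + 2 - 1) % 2 = 1 := by
    rcases p1.eq_two_or_odd with h | h
    · omega
    · exact h
  have o2 : Nat.nth Nat.Prime (i + 3 - 1) % 2 = 1 := by
    rcases p2.eq_two_or_odd with h | h
    · omega
    · exact h
  omega

lemma F_mono (e : ℕ) : StrictMono (fun i : ℕ => P (i + 2) - (i + 2) - 1 + e) := by
  apply strictMono_nat_of_lt_succ
  intro i
  have h1 := P_step i
  have h2 := P_gt (i + 2) (by omega)
  show P (i + 2) - (i + 2) - 1 + e < P (i + 1 + 2) - (i + 1 + 2) - 1 + e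
  have h3 : i + 1 + 2 = i + 3 := by omega
  rw [h3]
  omega

lemma F_inj (e q q' : ℕ) (hq : 2 ≤ q) (hq' : 2 ≤ q') (h : P q - q - 1 + e = P q' - q' - 1 + e) :
    q = q' := by
  obtain ⟨i, rfl⟩ := Nat.exists_eq_add_of_le' hq
  obtain ⟨j, rfl⟩ := Nat.exists_eq_add_of_le' hq'
  have := (F_mono e).injective h
  omega

lemma sum_div (Y : ℕ) :
    ((∑ v ∈ Ioc 0 Y, v.divisors.card : ℕ) : ℝ) ≤ Y * (1 + Real.log Y) := by
  have h1 : (∑ v ∈ Ioc 0 Y, v.divisors.card : ℕ) = ∑ n ∈ Ioc 0 Y, Y / n := by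
    rw [← ArithmeticFunction.sum_Ioc_sigma0_eq_sum_div]
    apply sum_congr rfl
    intro v _
    rw [ArithmeticFunction.sigma_zero_apply]
  rw [h1]
  push_cast
  have h2 : (harmonic Y : ℝ) ≤ 1 + Real.log Y := harmonic_le_one_add_log Y
  have h3 : ∑ n ∈ Ioc 0 Y, ((Y / n : ℕ) : ℝ) ≤ Y * (harmonic Y : ℝ) := by
    rw [harmonic_eq_sum_Icc]
    push_cast
    rw [mul_sum]
    have h4 : Ioc 0 Y = Icc 1 Y := by ext; simp [Nat.succ_le_iff]
    rw [h4]
    apply sum_le_sum
    intro n _
    have := Nat.cast_div_le (α := ℝ) (m := Y) (n := n)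
    rw [div_eq_mul_inv] at this
    exact this
  exact h3.trans (mul_le_mul_of_nonneg_left h2 (Nat.cast_nonneg Y))

/-- few integers have many divisors -/
lemma many (Y : ℕ) (T : ℝ) (hT : 0 < T) :
    (((Ioc 0 Y).filter (fun v => T < (v.divisors.card : ℝ))).card : ℝ) ≤ Y * (1 + Real.log Y) / T := by
  rw [le_div_iff₀ hT]
  refine le_trans ?_ (sum_div Y)
  push_cast
  calc (((Ioc 0 Y).filter (fun v => T < (v.divisors.card : ℝ))).card : ℝ) * T
      = ∑ v ∈ (Ioc 0 Y).filter (fun v => T < (v.divisors.card : ℝ)), T := by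
        rw [sum_const, nsmul_eq_mul]
    _ ≤ ∑ v ∈ (Ioc 0 Y).filter (fun v => T < (v.divisors.card : ℝ)), (v.divisors.card : ℝ) := by
        apply sum_le_sum
        intro v hv
        exact (mem_filter.1 hv).2.le
    _ ≤ ∑ v ∈ Ioc 0 Y, (v.divisors.card : ℝ) := by
        apply sum_le_sum_of_subset_of_nonneg (filter_subset _ _)
        intro i _ _
        exact Nat.cast_nonneg _

/-- `p_q - q - 1` and `p_q - q + 1` have at most `T` divisors -/
def Few (T : ℝ) (q : ℕ) : Prop :=
  ((P q - q - 1).divisors.card : ℝ) ≤ T ∧ ((P q - q + 1).divisors.card : ℝ) ≤ T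

open Classical in
/-- the exceptional `q` -/
noncomputable def BQ (X : ℕ) (T : ℝ) : Finset ℕ := (Icc 2 X).filter (fun q => ¬ Few T q)

lemma BQ_le (X Y : ℕ) (T : ℝ) (hT : 0 < T) (hY : 1 ≤ Y) (hXY : X ≤ Nat.primeCounting Y) :
    ((BQ X T).card : ℝ) ≤ 2 * (Y * (1 + Real.log Y) / T) := by
  classical
  have key : ∀ e : ℕ, e ≤ 2 → (((Icc 2 X).filter (fun q => T < ((P q - q - 1 + e).divisors.card : ℝ))).card : ℝ) ≤
      Y * (1 + Real.log Y) / T := by
    intro e he
    refine le_trans ?_ (many Y T hT)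
    have : ((Icc 2 X).filter (fun q => T < ((P q - q - 1 + e).divisors.card : ℝ))).card ≤
        ((Ioc 0 Y).filter (fun v => T < (v.divisors.card : ℝ))).card := by
      apply card_le_card_of_injOn (fun q => P q - q - 1 + e)
      · intro q hq
        rw [mem_coe, mem_filter, mem_Icc] at hq
        rw [mem_coe, mem_filter, mem_Ioc]
        have h1 := P_le (q := q) (Y := Y) (by omega) (by omega)
        have h2 := P_gt q (by omega)
        refine ⟨⟨?_, ?_⟩, hq.2⟩
        · rw [Nat.pos_iff_ne_zero]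
          intro h0
          have h3 := hq.2
          simp only at h0
          rw [h0] at h3
          simp at h3
          linarith
        · simp only
          omega
      · intro a ha b hb hab
        rw [mem_coe, mem_filter, mem_Icc] at ha hb
        exact F_inj e a b ha.1.1 hb.1.1 hab
    exact_mod_cast this
  have h1 : BQ X T ⊆ (Icc 2 X).filter (fun q => T < ((P q - q - 1 + 0).divisors.card : ℝ)) ∪
      (Icc 2 X).filter (fun q => T < ((P q - q - 1 + 2).divisors.card : ℝ)) := by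
    intro q hq
    unfold BQ at hq
    rw [mem_filter] at hq
    rw [mem_union, mem_filter, mem_filter]
    obtain ⟨h1, h2⟩ := hq
    unfold Few at h2
    rw [not_and_or, not_le, not_le] at h2
    have h3 := (mem_Icc.1 h1).1
    have h4 := P_gt q (by omega)
    rcases h2 with h2 | h2
    · left
      exact ⟨h1, h2⟩
    · right
      have h5 : P q - q - 1 + 2 = P q - q + 1 := by omega
      rw [h5]
      exact ⟨h1, h2⟩
  have h2 := (card_le_card h1).trans (card_union_le _ _)
  have h3 : ((BQ X T).card : ℝ) ≤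
      ((Icc 2 X).filter (fun q => T < ((P q - q - 1 + 0).divisors.card : ℝ))).card +
      ((Icc 2 X).filter (fun q => T < ((P q - q - 1 + 2).divisors.card : ℝ))).card := by exact_mod_cast h2
  have h4 := key 0 (by omega)
  have h5 := key 2 (by omega)
  linarith

/-- the exceptional `q` are few -/
theorem BQ_few : ∀ᶠ X : ℕ in atTop,
    ((BQ X (Real.log X ^ 10)).card : ℝ) ≤ X / Real.log X ^ 4 := by
  have tN : Tendsto (fun N : ℕ => (N : ℝ)) atTop atTop := tendsto_natCast_atTop_atTop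
  have tL : Tendsto (fun N : ℕ => Real.log (N : ℝ)) atTop atTop := Real.tendsto_log_atTop.comp tN
  obtain ⟨N0, hN0⟩ := eventually_atTop.1 pi_lower
  filter_upwards [tL.eventually_ge_atTop 20, eventually_ge_atTop (N0 + 2)] with X hL hX
  obtain ⟨L, hLd⟩ : ∃ L, L = Real.log (X : ℝ) := ⟨_, rfl⟩
  rw [← hLd] at hL ⊢
  have hX0 : (1 : ℝ) ≤ X := by exact_mod_cast (by omega : 1 ≤ X)
  obtain ⟨Y, hY⟩ : ∃ Y : ℕ, Y = ⌈X * L ^ 2⌉₊ := ⟨_, rfl⟩
  have hY1 : (X : ℝ) * L ^ 2 ≤ Y := by rw [hY]; exact Nat.le_ceil _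
  have hY2 : (Y : ℝ) ≤ 2 * X * L ^ 2 := by
    have h1 : (Y : ℝ) < X * L ^ 2 + 1 := by rw [hY]; exact Nat.ceil_lt_add_one (by positivity)
    have h2 : (1 : ℝ) ≤ X * L ^ 2 := by nlinarith
    linarith
  have hL2 : (1 : ℝ) ≤ L ^ 2 := one_le_pow₀ (by linarith)
  have hXYr : (X : ℝ) ≤ Y := (le_mul_of_one_le_right (by linarith) hL2).trans hY1
  have hYX : X ≤ Y := by exact_mod_cast hXYr
  have hYr : (1 : ℝ) ≤ Y := by linarith
  have hlY : Real.log Y ≤ 2 * L := by
    have h1 : (Y : ℝ) ≤ X * X := by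
      have h2 : 2 * L ^ 2 ≤ X := by
        have h3 : Real.exp L = X := by rw [hLd, Real.exp_log (by linarith)]
        have h4 := Real.pow_div_factorial_le_exp L (by linarith) 3
        rw [h3] at h4
        have h5 : (Nat.factorial 3 : ℝ) = 6 := by norm_num [Nat.factorial]
        rw [h5, div_le_iff₀ (by norm_num)] at h4
        nlinarith [sq_nonneg L]
      calc (Y : ℝ) ≤ 2 * X * L ^ 2 := hY2
        _ = X * (2 * L ^ 2) := by ring
        _ ≤ X * X := by gcongr
    have h2 := Real.log_le_log (by linarith) h1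
    rw [Real.log_mul (by linarith) (by linarith), ← hLd] at h2
    linarith
  have hlY0 : L ≤ Real.log Y := by
    rw [hLd]
    apply Real.log_le_log (by linarith)
    exact_mod_cast hYX
  have hpi := hN0 Y (by omega)
  have hXpi : X ≤ Nat.primeCounting Y := by
    have h1 : (X : ℝ) ≤ Nat.primeCounting Y := by
      refine le_trans ?_ hpi
      rw [le_div_iff₀ (by linarith)]
      calc (X : ℝ) * (2 * Real.log Y) ≤ X * (2 * (2 * L)) := by gcongr
        _ ≤ X * L ^ 2 := by
            apply mul_le_mul_of_nonneg_left _ (by linarith)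
            nlinarith
        _ ≤ Y := hY1
    exact_mod_cast h1
  have h1 := BQ_le X Y (L ^ 10) (by positivity) (by omega) hXpi
  refine h1.trans ?_
  rw [le_div_iff₀ (by positivity)]
  have h2 : (Y : ℝ) * (1 + Real.log Y) ≤ 2 * X * L ^ 2 * (3 * L) := by
    apply mul_le_mul hY2 (by linarith) (by linarith) (by positivity)
  calc 2 * ((Y : ℝ) * (1 + Real.log Y) / L ^ 10) * L ^ 4
      ≤ 2 * (2 * X * L ^ 2 * (3 * L) / L ^ 10) * L ^ 4 := by gcongr
    _ = 12 * X / L ^ 3 := by
        field_simp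
        ring
    _ ≤ X := by
        rw [div_le_iff₀ (by positivity)]
        have h3 : (12 : ℝ) ≤ L ^ 3 := by nlinarith [sq_nonneg L, mul_nonneg (sq_nonneg L) (by linarith : 0 ≤ L)]
        nlinarith

end Pool.Agent.Y886.PP
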