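import Pool.Agent.W340.RT.SVR2
import Pool.Agent.W216.RT.AVH

set_option autoImplicit false
set_option maxHeartbeats 1000000

/-! # The number of primes `s ≤ N` with `n - 3 s` and `n - 2 s - 1` prime -/

namespace Pool.Agent.Y886.PP

open Finset Filter Pool.Agent.W262.RK

/-- the local factor -/
noncomputable def g (c z v : ℕ) : ℝ := ∏ p ∈ v.primeFactors.filter (fun p => z < p), (p : ℝ) / ((p : ℝ) - c)

lemma fac_ge {c p : ℕ} (h : c < p) : (1 : ℝ) ≤ (p : ℝ) / ((p : ℝ) - c) := by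
  have h1 : (c : ℝ) < p := by exact_mod_cast h
  rw [le_div_iff₀ (by linarith)]
  have : (0 : ℝ) ≤ c := Nat.cast_nonneg c
  linarith

lemma one_le_prod_real (s : Finset ℕ) (f : ℕ → ℝ) (h : ∀ p ∈ s, 1 ≤ f p) : 1 ≤ ∏ p ∈ s, f p := by
  calc (1 : ℝ) = ∏ p ∈ s, (1 : ℝ) := by rw [prod_const_one]
    _ ≤ ∏ p ∈ s, f p := Finset.prod_le_prod (fun _ _ => zero_le_one) h

lemma prod_sub_real {s t : Finset ℕ} (hst : s ⊆ t) (f : ℕ → ℝ) (h : ∀ p ∈ t, 1 ≤ f p) :
    ∏ p ∈ s, f p ≤ ∏ p ∈ t, f p := by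
  rw [← prod_sdiff hst]
  have h1 : 1 ≤ ∏ p ∈ t \ s, f p := one_le_prod_real _ _ fun p hp => h p (mem_sdiff.1 hp).1
  have h2 : 0 ≤ ∏ p ∈ s, f p := prod_nonneg fun p hp => by linarith [h p (hst hp)]
  exact le_mul_of_one_le_left h2 h1

lemma g_ge_one {c z : ℕ} (hcz : c ≤ z) (v : ℕ) : 1 ≤ g c z v := by
  unfold g
  apply one_le_prod_real
  intro p hp
  exact fac_ge (lt_of_le_of_lt hcz (mem_filter.1 hp).2)

lemma g_mul_le {c z : ℕ} (hcz : c ≤ z) (a b : ℕ) (ha : a ≠ 0) (hb : b ≠ 0) :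
    g c z (a * b) ≤ g c z a * g c z b := by
  unfold g
  rw [Nat.primeFactors_mul ha hb, filter_union]
  have h1 : ∀ (s t : Finset ℕ), (∀ p ∈ s, c < p) → (∀ p ∈ t, c < p) →
      ∏ p ∈ s ∪ t, (p : ℝ) / ((p : ℝ) - c) ≤
      (∏ p ∈ s, (p : ℝ) / ((p : ℝ) - c)) * ∏ p ∈ t, (p : ℝ) / ((p : ℝ) - c) := by
    intro s t hs ht
    rw [← prod_union_inter]
    have h2 : 1 ≤ ∏ p ∈ s ∩ t, (p : ℝ) / ((p : ℝ) - c) := by
      apply one_le_prod_real
      intro p hp
      exact fac_ge (hs p (mem_inter.1 hp).1)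
    have h3 : 0 ≤ ∏ p ∈ s ∪ t, (p : ℝ) / ((p : ℝ) - c) := by
      apply prod_nonneg
      intro p hp
      rcases mem_union.1 hp with h | h
      · linarith [fac_ge (hs p h)]
      · linarith [fac_ge (ht p h)]
    exact le_mul_of_one_le_right h3 h2
  apply h1
  · intro p hp
    exact lt_of_le_of_lt hcz (mem_filter.1 hp).2
  · intro p hp
    exact lt_of_le_of_lt hcz (mem_filter.1 hp).2

/-- the factor of `n` -/
noncomputable def G (n : ℕ) : ℝ := g 3 8 (n * (n - 1) * (n - 3))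

lemma G_ge_one (n : ℕ) : 1 ≤ G n := g_ge_one (by omega) _

lemma g_six : ∃ K0 : ℝ, 0 ≤ K0 ∧ ∀ v : ℕ, g 3 8 v ^ 6 ≤ K0 * g 18 38 v := by
  refine ⟨∏ p ∈ Icc (9 : ℕ) 38, ((p : ℝ) / ((p : ℝ) - 3)) ^ 6, by positivity, fun v => ?_⟩
  have h1 : v.primeFactors.filter (fun p => 8 < p) ⊆
      Icc (9 : ℕ) 38 ∪ v.primeFactors.filter (fun p => 38 < p) := by
    intro p hp
    rw [mem_filter] at hp
    rw [mem_union, mem_Icc, mem_filter]
    by_cases h : p ≤ 38
    · left; omega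
    · right; exact ⟨hp.1, by omega⟩
  have hdisj : Disjoint (Icc (9 : ℕ) 38) (v.primeFactors.filter (fun p => 38 < p)) := by
    rw [disjoint_left]
    intro p hp hp2
    have := (mem_Icc.1 hp).2
    have := (mem_filter.1 hp2).2
    omega
  unfold g
  rw [← prod_pow]
  have hge : ∀ p : ℕ, 8 < p → (1 : ℝ) ≤ ((p : ℝ) / ((p : ℝ) - (3 : ℕ))) ^ 6 := by
    intro p hp
    exact one_le_pow₀ (fac_ge (by omega))
  calc ∏ p ∈ v.primeFactors.filter (fun p => 8 < p), ((p : ℝ) / ((p : ℝ) - (3 : ℕ))) ^ 6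
      ≤ ∏ p ∈ Icc (9 : ℕ) 38 ∪ v.primeFactors.filter (fun p => 38 < p), ((p : ℝ) / ((p : ℝ) - (3 : ℕ))) ^ 6 := by
        apply prod_sub_real h1 (fun p : ℕ => ((p : ℝ) / ((p : ℝ) - (3 : ℕ))) ^ 6)
        intro p hp
        apply hge
        rcases mem_union.1 hp with h | h
        · have := (mem_Icc.1 h).1; omega
        · have := (mem_filter.1 h).2; omega
    _ = (∏ p ∈ Icc (9 : ℕ) 38, ((p : ℝ) / ((p : ℝ) - (3 : ℕ))) ^ 6) *
        ∏ p ∈ v.primeFactors.filter (fun p => 38 < p), ((p : ℝ) / ((p : ℝ) - (3 : ℕ))) ^ 6 :=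
        prod_union hdisj
    _ ≤ _ := by
        have h2 : ∏ p ∈ v.primeFactors.filter (fun p => 38 < p), ((p : ℝ) / ((p : ℝ) - (3 : ℕ))) ^ 6 ≤
            ∏ p ∈ v.primeFactors.filter (fun p => 38 < p), (p : ℝ) / ((p : ℝ) - (18 : ℕ)) := by
          apply Finset.prod_le_prod
          · intro p hp
            have := (mem_filter.1 hp).2
            linarith [hge p (by omega)]
          · intro p hp
            have h3 := (mem_filter.1 hp).2
            have h4 : (38 : ℝ) < p := by exact_mod_cast h3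
            push_cast
            have h5 : (1 - 18 / (p : ℝ)) ≤ (1 - 3 / (p : ℝ)) ^ 6 := by
              have h6 := one_add_mul_le_pow (a := -(3 / (p : ℝ))) (by
                have : (3 : ℝ) / p ≤ 1 := by
                  rw [div_le_one (by linarith)]
                  linarith
                linarith) 6
              calc 1 - 18 / (p : ℝ) = 1 + ((6 : ℕ) : ℝ) * (-(3 / (p : ℝ))) := by push_cast; ring
                _ ≤ (1 + -(3 / (p : ℝ))) ^ 6 := h6
                _ = (1 - 3 / (p : ℝ)) ^ 6 := by ring_nf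
            have h7 : (0 : ℝ) < 1 - 18 / (p : ℝ) := by
              rw [sub_pos, div_lt_one (by linarith)]
              linarith
            have e1 : (p : ℝ) / (p - 3) = 1 / (1 - 3 / (p : ℝ)) := by
              have : (p : ℝ) ≠ 0 := by linarith
              have : (p : ℝ) - 3 ≠ 0 := by linarith
              field_simp
            have e2 : (p : ℝ) / (p - 18) = 1 / (1 - 18 / (p : ℝ)) := by
              have : (p : ℝ) ≠ 0 := by linarith
              have : (p : ℝ) - 18 ≠ 0 := by linarith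
              field_simp
            rw [e1, e2, div_pow, one_pow]
            exact one_div_le_one_div_of_le h7 h5
        have h3 : 0 ≤ ∏ p ∈ Icc (9 : ℕ) 38, ((p : ℝ) / ((p : ℝ) - 3)) ^ 6 := by positivity
        push_cast at h2 ⊢
        exact mul_le_mul_of_nonneg_left h2 h3

/-- the average of `G²` -/
theorem avG : ∃ C : ℝ, 0 < C ∧ ∀ Y : ℕ, ∑ n ∈ Icc 4 Y, G n ^ 2 ≤ C * Y := by
  obtain ⟨K0, hK0, hsix⟩ := g_six
  obtain ⟨C, hC, hav⟩ := Pool.Agent.W216.RT.AVH.avh 18 38 (by norm_num)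
  refine ⟨K0 * C + 1, by positivity, fun Y => ?_⟩
  have hcube : ∀ a b c : ℝ, 0 ≤ a → 0 ≤ b → 0 ≤ c → (a * b * c) ^ 2 ≤ (a ^ 6 + b ^ 6 + c ^ 6) / 3 := by
    intro a b c ha hb hc
    have h1 : ∀ x y z : ℝ, 0 ≤ x → 0 ≤ y → 0 ≤ z → x * y * z ≤ (x ^ 3 + y ^ 3 + z ^ 3) / 3 := by
      intro x y z hx hy hz
      have h2 : 0 ≤ (x + y + z) * ((x - y) ^ 2 + (y - z) ^ 2 + (z - x) ^ 2) := by positivity
      nlinarith
    have h3 := h1 (a ^ 2) (b ^ 2) (c ^ 2) (by positivity) (by positivity) (by positivity)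
    calc (a * b * c) ^ 2 = a ^ 2 * b ^ 2 * c ^ 2 := by ring
      _ ≤ _ := h3
      _ = _ := by ring
  have hpt : ∀ n ∈ Icc 4 Y, G n ^ 2 ≤ K0 * (g 18 38 n + g 18 38 (n - 1) + g 18 38 (n - 3)) / 3 := by
    intro n hn
    have hn4 := (mem_Icc.1 hn).1
    have h1 : G n ≤ g 3 8 n * g 3 8 (n - 1) * g 3 8 (n - 3) := by
      unfold G
      refine (g_mul_le (by omega) (n * (n - 1)) (n - 3) ?_ (by omega)).trans ?_
      · exact Nat.mul_ne_zero (by omega) (by omega)
      · have h2 := g_mul_le (c := 3) (z := 8) (by omega) n (n - 1) (by omega) (by omega)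
        have h3 := g_ge_one (c := 3) (z := 8) (by omega) (n - 3)
        exact mul_le_mul_of_nonneg_right h2 (by linarith)
    have p1 := g_ge_one (c := 3) (z := 8) (by omega) n
    have p2 := g_ge_one (c := 3) (z := 8) (by omega) (n - 1)
    have p3 := g_ge_one (c := 3) (z := 8) (by omega) (n - 3)
    have h4 := G_ge_one n
    have h5 : G n ^ 2 ≤ (g 3 8 n * g 3 8 (n - 1) * g 3 8 (n - 3)) ^ 2 :=
      pow_le_pow_left₀ (by linarith) h1 2
    refine h5.trans ((hcube _ _ _ (by linarith) (by linarith) (by linarith)).trans ?_)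
    have q1 := hsix n
    have q2 := hsix (n - 1)
    have q3 := hsix (n - 3)
    linarith
  refine (sum_le_sum hpt).trans ?_
  rw [← sum_div, ← mul_sum, sum_add_distrib, sum_add_distrib]
  have hshift : ∀ e : ℕ, e ≤ 3 → ∑ n ∈ Icc 4 Y, g 18 38 (n - e) ≤ C * Y := by
    intro e he
    refine le_trans ?_ (hav Y)
    have h1 : ∑ n ∈ Icc 4 Y, g 18 38 (n - e) = ∑ v ∈ (Icc 4 Y).image (fun n => n - e), g 18 38 v := by
      rw [sum_image]
      intro a ha b hb hab
      rw [mem_coe, mem_Icc] at ha hb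
      simp only at hab
      omega
    rw [h1]
    apply sum_le_sum_of_subset_of_nonneg
    · intro v hv
      obtain ⟨n, hn, rfl⟩ := mem_image.1 hv
      rw [mem_Icc] at hn ⊢
      omega
    · intro v _ _
      have := g_ge_one (c := 18) (z := 38) (by omega) v
      exact le_trans zero_le_one this
  have s0 := hshift 0 (by omega)
  have s1 := hshift 1 (by omega)
  have s3 := hshift 3 (by omega)
  have hY : (0 : ℝ) ≤ Y := Nat.cast_nonneg Y
  have e0 : ∑ n ∈ Icc 4 Y, g 18 38 (n - 0) = ∑ n ∈ Icc 4 Y, g 18 38 n := rfl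
  rw [e0] at s0
  have h6 : K0 * (∑ n ∈ Icc 4 Y, g 18 38 n + ∑ n ∈ Icc 4 Y, g 18 38 (n - 1) +
      ∑ n ∈ Icc 4 Y, g 18 38 (n - 3)) ≤ K0 * (3 * (C * Y)) := by
    apply mul_le_mul_of_nonneg_left _ hK0
    linarith
  rw [div_le_iff₀ (by norm_num)]
  nlinarith

open Classical in
/-- the number of `s ≤ N` with `s`, `n - 3 s` and `n - 2 s - 1` prime -/
noncomputable def rn (N n : ℕ) : ℕ :=
  ((Icc 1 N).filter (fun s => s.Prime ∧ (n - 3 * s).Prime ∧ (n - 2 * s - 1).Prime)).card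

/-- the upper bound -/
theorem rn_le : ∃ C : ℝ, 0 < C ∧ ∃ N0 : ℕ, ∀ N : ℕ, N0 ≤ N → ∀ n : ℕ, 4 ≤ n →
    (rn N n : ℝ) ≤ C * N * G n / Real.log N ^ 3 := by
  classical
  obtain ⟨C, K, y0, hC, hK, hsv⟩ := Pool.Agent.W340.RT.SVR2.svr2 (Fin 3) 8 (by simp)
  have tN : Tendsto (fun N : ℕ => (N : ℝ)) atTop atTop := tendsto_natCast_atTop_atTop
  have hKr : (1 : ℝ) ≤ K := by exact_mod_cast hK
  obtain ⟨e, he⟩ : ∃ e : ℝ, e = 1 / (2 * K) := ⟨_, rfl⟩
  have he0 : 0 < e := by rw [he]; positivity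
  have heK : e * K = 1 / 2 := by rw [he]; field_simp
  have te : Tendsto (fun N : ℕ => (N : ℝ) ^ e) atTop atTop := (tendsto_rpow_atTop he0).comp tN
  have te2 : Tendsto (fun N : ℕ => (N : ℝ) ^ (e / 2)) atTop atTop :=
    (tendsto_rpow_atTop (by positivity)).comp tN
  have e1 : ∀ᶠ N : ℕ in atTop, 6 * (N : ℝ) ^ (1 / 2 : ℝ) * Real.log N ^ 3 ≤ N := by
    have h := ((isLittleO_log_rpow_rpow_atTop ((3 : ℕ) : ℝ)
      (by norm_num : (0 : ℝ) < 1 / 2)).comp_tendsto tN).bound (by norm_num : (0 : ℝ) < 1 / 6)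
    filter_upwards [h, eventually_ge_atTop 1] with N hN hN1
    have hN1' : (1 : ℝ) ≤ N := by exact_mod_cast hN1
    have hl := Real.log_nonneg hN1'
    simp only [Function.comp_def, Real.rpow_natCast] at hN
    rw [Real.norm_of_nonneg (by positivity), Real.norm_of_nonneg (by positivity)] at hN
    have h2 : (N : ℝ) ^ (1 / 2 : ℝ) * (N : ℝ) ^ (1 / 2 : ℝ) = N := by
      rw [← Real.rpow_add (by linarith)]
      norm_num
    have h3 : 0 ≤ (N : ℝ) ^ (1 / 2 : ℝ) := by positivity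
    nlinarith
  obtain ⟨N0, hN0⟩ := eventually_atTop.1 ((te.eventually_ge_atTop (y0 + 10 : ℝ)).and
    ((te2.eventually_ge_atTop 2).and (e1.and (eventually_ge_atTop 3))))
  refine ⟨C * (4 * K) ^ 3 + 1, by positivity, N0, fun N hN n hn => ?_⟩
  obtain ⟨h1, h2, h3, h4⟩ := hN0 N hN
  have hNr : (3 : ℝ) ≤ N := by exact_mod_cast h4
  have hlN : 0 < Real.log N := Real.log_pos (by linarith)
  obtain ⟨y, hy⟩ : ∃ y : ℕ, y = ⌊(N : ℝ) ^ e⌋₊ := ⟨_, rfl⟩
  have hyle : (y : ℝ) ≤ (N : ℝ) ^ e := by rw [hy]; exact Nat.floor_le (by positivity)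
  have hylt : (N : ℝ) ^ e < y + 1 := by rw [hy]; exact Nat.lt_floor_add_one _
  have hyr : (y0 : ℝ) + 9 ≤ y := by linarith
  have hy9 : y0 + 9 ≤ y := by exact_mod_cast hyr
  have hsplit : (N : ℝ) ^ (e / 2) * (N : ℝ) ^ (e / 2) = (N : ℝ) ^ e := by
    rw [← Real.rpow_add (by linarith)]
    congr 1
    ring
  have hylow : (N : ℝ) ^ (e / 2) ≤ y := by nlinarith
  have hlogy : Real.log N / (4 * K) ≤ Real.log y := by
    have h5 := Real.log_le_log (by positivity) hylow
    rw [Real.log_rpow (by linarith)] at h5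
    refine le_trans (le_of_eq ?_) h5
    rw [he]
    field_simp
    ring
  have hyK : y ^ K ≤ N := by
    have h5 : (y : ℝ) ^ K ≤ N := by
      calc (y : ℝ) ^ K ≤ ((N : ℝ) ^ e) ^ K := pow_le_pow_left₀ (Nat.cast_nonneg _) hyle K
        _ = (N : ℝ) ^ (1 / 2 : ℝ) := by
            rw [← Real.rpow_natCast, ← Real.rpow_mul (by linarith), heK]
        _ ≤ (N : ℝ) ^ (1 : ℝ) := Real.rpow_le_rpow_of_exponent_le (by linarith) (by norm_num)
        _ = N := Real.rpow_one _
    exact_mod_cast h5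
  have hyhalf : (y : ℝ) ≤ (N : ℝ) ^ (1 / 2 : ℝ) := by
    refine hyle.trans (Real.rpow_le_rpow_of_exponent_le (by linarith) ?_)
    rw [he]
    apply one_div_le_one_div_of_le (by norm_num)
    linarith
  obtain ⟨M, hM⟩ : ∃ M : ℕ, M = n * (n - 1) * (n - 3) := ⟨_, rfl⟩
  have hM0 : M ≠ 0 := by
    rw [hM]
    exact Nat.mul_ne_zero (Nat.mul_ne_zero (by omega) (by omega)) (by omega)
  have hd1 : n ∣ M := by rw [hM, mul_assoc]; exact Dvd.intro _ rfl
  have hd2 : (n - 1) ∣ M := by rw [hM]; exact Dvd.intro_left (n * (n - 3)) (by ring)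
  have hd3 : (n - 3) ∣ M := by rw [hM]; exact Dvd.intro_left _ rfl
  obtain ⟨α, hα⟩ : ∃ α : Fin 3 → ℤ, α = ![1, -3, -2] := ⟨_, rfl⟩
  obtain ⟨β, hβ⟩ : ∃ β : Fin 3 → ℤ, β = ![0, (n : ℤ), (n : ℤ) - 1] := ⟨_, rfl⟩
  have a0 : α 0 = 1 := by rw [hα]; rfl
  have a1 : α 1 = -3 := by rw [hα]; rfl
  have a2 : α 2 = -2 := by rw [hα]; rfl
  have b0 : β 0 = 0 := by rw [hβ]; rfl
  have b1 : β 1 = n := by rw [hβ]; rfl
  have b2 : β 2 = n - 1 := by rw [hβ]; rfl
  have key := hsv N y (by omega) (by omega) hyK α β 1 M 0 le_rfl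
    (one_dvd _) hM0 (by rw [one_pow]; omega) (by
      intro p hp hpM
      unfold PS at hp
      rw [mem_filter, mem_Ioc] at hp
      obtain ⟨⟨hp8, -⟩, hpp⟩ := hp
      have hn1 : ¬ (p : ℤ) ∣ (n : ℤ) := by
        rw [Int.natCast_dvd_natCast]
        exact fun h => hpM (h.trans hd1)
      have hn2 : ¬ (p : ℤ) ∣ (n : ℤ) - 1 := by
        have e2 : (n : ℤ) - 1 = ((n - 1 : ℕ) : ℤ) := by omega
        rw [e2, Int.natCast_dvd_natCast]
        exact fun h => hpM (h.trans hd2)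
      have hn3 : ¬ (p : ℤ) ∣ (n : ℤ) - 3 := by
        have e2 : (n : ℤ) - 3 = ((n - 3 : ℕ) : ℤ) := by omega
        rw [e2, Int.natCast_dvd_natCast]
        exact fun h => hpM (h.trans hd3)
      constructor
      · intro j h
        have h5 : (p : ℤ) ∣ 1 ∨ (p : ℤ) ∣ -3 ∨ (p : ℤ) ∣ -2 := by
          fin_cases j
          · left; rw [← a0]; exact h
          · right; left; rw [← a1]; exact h
          · right; right; rw [← a2]; exact h
        rcases h5 with h5 | h5 | h5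
        · have := Int.le_of_dvd (by norm_num) h5
          omega
        · have := Int.le_of_dvd (by norm_num) ((dvd_neg (b := (3 : ℤ))).1 h5)
          omega
        · have := Int.le_of_dvd (by norm_num) ((dvd_neg (b := (2 : ℤ))).1 h5)
          omega
      · have r01 : Res α β 0 1 = n := by unfold Res; rw [a0, a1, b0, b1]; ring
        have r02 : Res α β 0 2 = n - 1 := by unfold Res; rw [a0, a2, b0, b2]; ring
        have r12 : Res α β 1 2 = -(n - 3) := by unfold Res; rw [a1, a2, b1, b2]; ring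
        have r10 : Res α β 1 0 = -n := by unfold Res; rw [a0, a1, b0, b1]; ring
        have r20 : Res α β 2 0 = -(n - 1) := by unfold Res; rw [a0, a2, b0, b2]; ring
        have r21 : Res α β 2 1 = n - 3 := by unfold Res; rw [a1, a2, b1, b2]; ring
        intro j l hjl h
        have hall : (p : ℤ) ∣ n ∨ (p : ℤ) ∣ (n : ℤ) - 1 ∨ (p : ℤ) ∣ (n : ℤ) - 3 := by
          fin_cases j <;> fin_cases l
          · exact absurd rfl hjl
          · left; rw [← r01]; exact h
          · right; left; rw [← r02]; exact h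
          · left; rw [← dvd_neg, ← r10]; exact h
          · exact absurd rfl hjl
          · right; right; rw [← dvd_neg, ← r12]; exact h
          · right; left; rw [← dvd_neg, ← r20]; exact h
          · right; right; rw [← r21]; exact h
          · exact absurd rfl hjl
        rcases hall with h5 | h5 | h5
        · exact hn1 h5
        · exact hn2 h5
        · exact hn3 h5)
  obtain ⟨B, hB⟩ : ∃ B : Finset ℕ, B = (Icc 1 N).filter (fun t : ℕ => t ≡ 0 [MOD 1] ∧
      ∀ p ∈ PS 8 y, ¬ p ∣ M → ∀ j, ¬ (p : ℤ) ∣ ff α β (t : ℤ) j) :=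
    ⟨_, rfl⟩
  have hsub : (Icc 1 N).filter (fun s => s.Prime ∧ (n - 3 * s).Prime ∧ (n - 2 * s - 1).Prime) ⊆
      B ∪ (Icc 0 y ∪ ((Icc 0 y).image (fun a => (n - a) / 3) ∪ (Icc 0 y).image (fun a => (n - 1 - a) / 2))) := by
    intro s hs
    rw [mem_filter, mem_Icc] at hs
    obtain ⟨⟨hs1, hsN⟩, hp1, hp2, hp3⟩ := hs
    have g2 := hp2.two_le
    have g3 := hp3.two_le
    rw [mem_union, mem_union, mem_union, mem_image, mem_image]
    by_cases c1 : s ≤ y
    · right; left; exact mem_Icc.2 ⟨by omega, c1⟩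
    by_cases c2 : n - 3 * s ≤ y
    · right; right; left
      exact ⟨n - 3 * s, mem_Icc.2 ⟨by omega, c2⟩, by omega⟩
    by_cases c3 : n - 2 * s - 1 ≤ y
    · right; right; right
      exact ⟨n - 2 * s - 1, mem_Icc.2 ⟨by omega, c3⟩, by omega⟩
    left
    rw [hB, mem_filter, mem_Icc]
    refine ⟨⟨hs1, hsN⟩, Nat.modEq_one, ?_⟩
    intro p hp _ j
    unfold PS at hp
    rw [mem_filter, mem_Ioc] at hp
    intro h
    have f0 : ff α β (s : ℤ) 0 = (s : ℤ) := by unfold ff; rw [a0, b0]; ring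
    have f1 : ff α β (s : ℤ) 1 = ((n - 3 * s : ℕ) : ℤ) := by
      have : ((n - 3 * s : ℕ) : ℤ) = n - 3 * s := by omega
      rw [this]; unfold ff; rw [a1, b1]; ring
    have f2 : ff α β (s : ℤ) 2 = ((n - 2 * s - 1 : ℕ) : ℤ) := by
      have : ((n - 2 * s - 1 : ℕ) : ℤ) = n - 2 * s - 1 := by omega
      rw [this]; unfold ff; rw [a2, b2]; ring
    have hall : (p : ℤ) ∣ (s : ℤ) ∨ (p : ℤ) ∣ ((n - 3 * s : ℕ) : ℤ) ∨ (p : ℤ) ∣ ((n - 2 * s - 1 : ℕ) : ℤ) := by
      fin_cases j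
      · left; rw [← f0]; exact h
      · right; left; rw [← f1]; exact h
      · right; right; rw [← f2]; exact h
    rcases hall with h5 | h5 | h5
    · rw [Int.natCast_dvd_natCast, Nat.prime_dvd_prime_iff_eq hp.2 hp1] at h5
      omega
    · rw [Int.natCast_dvd_natCast, Nat.prime_dvd_prime_iff_eq hp.2 hp2] at h5
      omega
    · rw [Int.natCast_dvd_natCast, Nat.prime_dvd_prime_iff_eq hp.2 hp3] at h5
      omega
  have hcard : (rn N n : ℝ) ≤ B.card + 3 * (y + 1) := by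
    have a1 := card_le_card hsub
    have a2 := card_union_le B (Icc 0 y ∪ ((Icc 0 y).image (fun a => (n - a) / 3) ∪
      (Icc 0 y).image (fun a => (n - 1 - a) / 2)))
    have a3 := card_union_le (Icc 0 y) ((Icc 0 y).image (fun a => (n - a) / 3) ∪
      (Icc 0 y).image (fun a => (n - 1 - a) / 2))
    have a4 := card_union_le ((Icc 0 y).image (fun a => (n - a) / 3))
      ((Icc 0 y).image (fun a => (n - 1 - a) / 2))
    have a5 : ((Icc 0 y).image (fun a => (n - a) / 3)).card ≤ (Icc 0 y).card := card_image_le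
    have a6 : ((Icc 0 y).image (fun a => (n - 1 - a) / 2)).card ≤ (Icc 0 y).card := card_image_le
    have a7 : (Icc 0 y).card = y + 1 := by simp
    have a8 : rn N n ≤ B.card + 3 * (y + 1) := by
      unfold rn
      omega
    exact_mod_cast a8
  have hprod : ∏ p ∈ M.primeFactors.filter (fun p => p ∈ PS 8 y),
      (p : ℝ) / ((p : ℝ) - Fintype.card (Fin 3)) ≤ G n := by
    unfold G g
    rw [← hM, Fintype.card_fin]
    apply prod_sub_real _ (fun p : ℕ => (p : ℝ) / ((p : ℝ) - (3 : ℕ)))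
    · intro p hp
      exact fac_ge (by have := (mem_filter.1 hp).2; omega)
    · intro p hp
      rw [mem_filter] at hp ⊢
      have := hp.2
      unfold PS at this
      rw [mem_filter, mem_Ioc] at this
      exact ⟨hp.1, this.1.1⟩
  have hG1 := G_ge_one n
  have hly0 : 0 < Real.log N / (4 * K) := by positivity
  have hB1 : (B.card : ℝ) ≤ C * (4 * K) ^ 3 * N * G n / Real.log N ^ 3 := by
    have key2 : (B.card : ℝ) ≤ C * (N / (1 : ℕ)) * (∏ p ∈ M.primeFactors.filter (fun p => p ∈ PS 8 y),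
        (p : ℝ) / ((p : ℝ) - Fintype.card (Fin 3))) / (Real.log y) ^ (Fintype.card (Fin 3)) := by
      rw [hB]
      convert key
    refine key2.trans ?_
    rw [Fintype.card_fin, Nat.cast_one, div_one]
    rw [div_le_div_iff₀ (by
      apply pow_pos
      linarith) (by positivity)]
    have b1' : (Real.log N) ^ 3 ≤ (4 * K) ^ 3 * Real.log y ^ 3 := by
      rw [← mul_pow]
      apply pow_le_pow_left₀ hlN.le
      rw [div_le_iff₀ (by positivity)] at hlogy
      linarith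
    rw [Fintype.card_fin] at hprod
    have b2' : 0 ≤ ∏ p ∈ M.primeFactors.filter (fun p => p ∈ PS 8 y), (p : ℝ) / ((p : ℝ) - (3 : ℕ)) := by
      apply prod_nonneg
      intro p hp
      have h5 := (mem_filter.1 hp).2
      unfold PS at h5
      rw [mem_filter, mem_Ioc] at h5
      linarith [fac_ge (c := 3) (p := p) (by omega)]
    calc C * N * (∏ p ∈ M.primeFactors.filter (fun p => p ∈ PS 8 y), (p : ℝ) / ((p : ℝ) - (3 : ℕ))) *
          Real.log N ^ 3 ≤ C * N * G n * ((4 * K) ^ 3 * Real.log y ^ 3) := by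
          apply mul_le_mul _ b1' (by positivity) (by positivity)
          exact mul_le_mul_of_nonneg_left hprod (by positivity)
      _ = C * (4 * K) ^ 3 * N * G n * Real.log y ^ 3 := by ring
  have hB2 : 3 * ((y : ℝ) + 1) ≤ N * G n / Real.log N ^ 3 := by
    rw [le_div_iff₀ (by positivity)]
    have hy1 : (1 : ℝ) ≤ y := by linarith [Nat.cast_nonneg (α := ℝ) y0]
    calc 3 * ((y : ℝ) + 1) * Real.log N ^ 3 ≤ 6 * (N : ℝ) ^ (1 / 2 : ℝ) * Real.log N ^ 3 := by
          apply mul_le_mul_of_nonneg_right _ (by positivity)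
          linarith
      _ ≤ (N : ℝ) := h3
      _ ≤ N * G n := le_mul_of_one_le_right (by linarith) hG1
  calc (rn N n : ℝ) ≤ B.card + 3 * (y + 1) := hcard
    _ ≤ C * (4 * K) ^ 3 * N * G n / Real.log N ^ 3 + N * G n / Real.log N ^ 3 := by linarith
    _ = (C * (4 * K) ^ 3 + 1) * N * G n / Real.log N ^ 3 := by ring

end Pool.Agent.Y886.PP
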