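import Pool.Agent.TH935.DF5
import Pool.Agent.Y886.PPA

set_option autoImplicit false
set_option maxHeartbeats 1000000

/-! # Many pairs of primes `r`, `r + s - 1` with `s` prime -/

namespace Pool.Agent.Y886.PP

open Finset Filter

open Pool.Agent.W93.PP (GoodD pc Cnt Li2 sum_int)
open Pool.Agent.H560R3.GB (sing C₂)

/-- Hardy and Littlewood's formula holds for most differences -/
theorem few_bad : ∃ N0 : ℕ, ∀ N : ℕ, N0 ≤ N → ∀ X : ℕ, N ≤ X → (N : ℝ) * Real.log X ^ 9 ≤ X →
    (X : ℝ) ≤ N * Real.log X ^ 10 → ∀ S : Finset ℕ, S ⊆ Icc 1 N → (∀ m ∈ S, ¬ GoodD 0 0 3 X m) →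
    (S.card : ℝ) ≤ N / Real.log N ^ 2 := by
  obtain ⟨N0, h0⟩ := Pool.Agent.TH935.DF.gd_fam 1 0 0 3 2 0 1 10
  refine ⟨N0, fun N hN X hNX h1 h2 S hS hbad => ?_⟩
  have hen : (Pool.Agent.H373R2.T7.energy 1 N (fun m => (m : ℤ)) : ℝ) ≤ N := by
    have : Pool.Agent.H373R2.T7.energy 1 N (fun m => (m : ℤ)) ≤ (Icc 1 N).card := by
      unfold Pool.Agent.H373R2.T7.energy
      apply card_le_card_of_injOn (fun q => q.1 0)
      · intro q hq
        rw [mem_coe, mem_filter, mem_product] at hq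
        exact (Fintype.mem_piFinset.1 hq.1.1) 0
      · intro a ha b hb hab
        rw [mem_coe, mem_filter] at ha hb
        have e1 := ha.2
        have e2 := hb.2
        simp only [Fin.sum_univ_one] at e1 e2
        simp only at hab
        have e3 : a.1 = b.1 := by
          funext i
          rw [Subsingleton.elim i 0]
          exact hab
        have e4 : a.2 = b.2 := by
          funext i
          rw [Subsingleton.elim i 0]
          have e5 : (a.2 0 : ℤ) = b.2 0 := by rw [← e1, ← e2, hab]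
          exact_mod_cast e5
        exact Prod.ext e3 e4
    rw [Nat.card_Icc, Nat.add_sub_cancel] at this
    exact_mod_cast this
  refine h0 N hN N (fun m => (m : ℤ)) ?_ ?_ X hNX h1 h2 S hS ?_
  · intro m hm
    have := (mem_Icc.1 hm).2
    rw [abs_of_nonneg (by positivity)]
    push_cast
    omega
  · rw [pow_zero, one_mul]
    have hN0 : (0 : ℝ) ≤ N := Nat.cast_nonneg N
    calc _ ≤ (N : ℝ) * N := mul_le_mul_of_nonneg_right hen hN0
      _ = _ := by ring
  · intro m hm
    refine ⟨by positivity, ?_⟩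
    rw [Int.toNat_natCast]
    exact hbad m hm

lemma sing_ge (n : ℕ) : 1 ≤ sing n := by
  unfold sing
  have h1 := Pool.Agent.W93.GB.C2_half
  have h2 : 1 ≤ ∏ p ∈ n.primeFactors.filter (fun p => 2 < p), ((p : ℝ) - 1) / ((p : ℝ) - 2) := by
    calc (1 : ℝ) = ∏ p ∈ n.primeFactors.filter (fun p => 2 < p), (1 : ℝ) := by rw [prod_const_one]
      _ ≤ _ := by
        apply Finset.prod_le_prod (fun _ _ => zero_le_one)
        intro p hp
        have h3 : (2 : ℝ) < p := by exact_mod_cast (mem_filter.1 hp).2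
        rw [le_div_iff₀ (by linarith)]
        linarith
  nlinarith

lemma Li2_ge : ∀ᶠ X : ℕ in atTop, (3 / 4) * (X : ℝ) / Real.log X ^ 2 ≤ Li2 X := by
  have tN : Tendsto (fun N : ℕ => (N : ℝ)) atTop atTop := tendsto_natCast_atTop_atTop
  have e1 : ∀ᶠ N : ℕ in atTop, Real.log N ^ 2 * 16 ≤ N := by
    have h := ((isLittleO_log_rpow_rpow_atTop ((2 : ℕ) : ℝ)
      (by norm_num : (0 : ℝ) < 1)).comp_tendsto tN).bound (by norm_num : (0 : ℝ) < 1 / 16)
    filter_upwards [h, eventually_ge_atTop 1] with N hN hN1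
    have hN1' : (1 : ℝ) ≤ N := by exact_mod_cast hN1
    have hl := Real.log_nonneg hN1'
    simp only [Function.comp_def, Real.rpow_natCast, Real.rpow_one] at hN
    rw [Real.norm_of_nonneg (by positivity), Real.norm_of_nonneg (by positivity)] at hN
    linarith
  filter_upwards [e1, eventually_ge_atTop 100] with X h1 h2
  have hX : (100 : ℝ) ≤ X := by exact_mod_cast h2
  have hl : 0 < Real.log (X : ℝ) := Real.log_pos (by linarith)
  have h3 := sum_int X (by linarith)
  rw [Nat.floor_natCast] at h3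
  have h4 : ((X : ℝ) - 1) / Real.log X ^ 2 ≤ ∑ n ∈ Icc 2 X, 1 / Real.log (n : ℝ) ^ 2 := by
    have h5 : ∑ n ∈ Icc 2 X, 1 / Real.log (X : ℝ) ^ 2 = ((X : ℝ) - 1) / Real.log X ^ 2 := by
      rw [sum_const, Nat.card_Icc, nsmul_eq_mul, Nat.cast_sub (by omega)]
      push_cast
      ring
    rw [← h5]
    apply sum_le_sum
    intro n hn
    rw [mem_Icc] at hn
    have h6 : (2 : ℝ) ≤ n := by exact_mod_cast hn.1
    have h7 : (n : ℝ) ≤ X := by exact_mod_cast hn.2
    have h8 : 0 < Real.log (n : ℝ) := Real.log_pos (by linarith)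
    apply one_div_le_one_div_of_le (by positivity)
    exact pow_le_pow_left₀ h8.le (Real.log_le_log (by linarith) h7) 2
  have h5 := (abs_le.1 h3).2
  have h6 : (3 / 4) * (X : ℝ) / Real.log X ^ 2 ≤ ((X : ℝ) - 1) / Real.log X ^ 2 - 3 := by
    rw [div_le_iff₀ (by positivity), sub_mul, div_mul_cancel₀ _ (by positivity)]
    linarith
  linarith

open Classical in
/-- the number of the primes `r` is large for a good difference -/
lemma pc_ge : ∃ X0 : ℕ, ∀ X : ℕ, X0 ≤ X → ∀ h : ℕ, 0 < h → 2 ∣ h → GoodD 0 0 3 X h →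
    (X : ℝ) / (2 * Real.log X ^ 2) ≤ (((range (X + 1)).filter
      (fun r => r.Prime ∧ (r + h).Prime ∧ r + h ≤ X)).card : ℝ) := by
  have tN : Tendsto (fun N : ℕ => (N : ℝ)) atTop atTop := tendsto_natCast_atTop_atTop
  have tL : Tendsto (fun N : ℕ => Real.log (N : ℝ)) atTop atTop := Real.tendsto_log_atTop.comp tN
  obtain ⟨X0, h0⟩ := eventually_atTop.1 (Li2_ge.and ((tL.eventually_ge_atTop 4).and
    (eventually_ge_atTop 2)))
  refine ⟨X0, fun X hX h hh h2 hgood => ?_⟩
  obtain ⟨g1, g2, g3⟩ := h0 X hX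
  have hX2 : (2 : ℝ) ≤ X := by exact_mod_cast g3
  have hg := hgood 0 1 0 (by simp) le_rfl (by simp) (by simp) (by simp) (by simpa using h2)
    (by omega) X hX2 le_rfl
  rw [Nat.add_zero] at hg
  have hc : Cnt 1 h = 1 := by
    unfold Cnt
    rw [show (range 1).filter (fun A => Nat.Coprime A 1 ∧ Nat.Coprime (A + h) 1) = {0} by
      ext a
      simp]
    rfl
  rw [hc, Nat.cast_one, div_one] at hg
  have h5 := (abs_le.1 hg).1
  have hs := sing_ge h
  have hl : 0 < Real.log (X : ℝ) := by linarith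
  have hLi : 0 ≤ Li2 X := le_trans (by positivity) g1
  have h6 : Li2 X ≤ sing h * Li2 X := le_mul_of_one_le_left hLi hs
  have h7 : (X : ℝ) / Real.log X ^ 3 ≤ (1 / 4) * X / Real.log X ^ 2 := by
    rw [div_le_div_iff₀ (by positivity) (by positivity)]
    have : (0 : ℝ) ≤ X * Real.log X ^ 2 := by positivity
    calc (X : ℝ) * Real.log X ^ 2 ≤ X * Real.log X ^ 2 * (1 / 4 * Real.log X) :=
          le_mul_of_one_le_right this (by linarith)
      _ = 1 / 4 * X * Real.log X ^ 3 := by ring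
  have h8 : (X : ℝ) / (2 * Real.log X ^ 2) ≤ (pc h X 0 1 : ℝ) := by
    have e1 : (X : ℝ) / (2 * Real.log X ^ 2) = 3 / 4 * X / Real.log X ^ 2 - 1 / 4 * X / Real.log X ^ 2 := by
      field_simp
      ring
    rw [e1]
    linarith
  refine h8.trans ?_
  unfold pc
  rw [Nat.floor_natCast]
  have h9 : ((range (X + 1)).filter (fun p => p.Prime ∧ (p + h).Prime ∧ (p : ℝ) + h ≤ X ∧ p ≡ 0 [MOD 1])).card ≤
      ((range (X + 1)).filter (fun r => r.Prime ∧ (r + h).Prime ∧ r + h ≤ X)).card := by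
    apply card_le_card
    intro p hp
    rw [mem_filter] at hp ⊢
    exact ⟨hp.1, hp.2.1, hp.2.2.1, by exact_mod_cast hp.2.2.2.1⟩
  exact_mod_cast h9

open Classical in
/-- the pairs `(s, r)` -/
noncomputable def pairs (X N : ℕ) : Finset (ℕ × ℕ) := ((Icc 5 N) ×ˢ (range (X + 1))).filter
  (fun z => z.1.Prime ∧ z.2.Prime ∧ (z.2 + z.1 - 1).Prime ∧ z.2 + z.1 - 1 ≤ X ∧
    Few (Real.log X ^ 10) (z.2 + z.1 - 1))

/-- many pairs -/
theorem pairs_ge : ∀ᶠ X : ℕ in atTop, ∃ N : ℕ, N ≤ X ∧ Real.log X / 2 ≤ Real.log N ∧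
    Real.sqrt X ≤ N ∧ (X : ℝ) ≤ N * Real.log X ^ 10 ∧
    (N : ℝ) * X / (16 * Real.log X ^ 3) ≤ (pairs X N).card := by
  classical
  obtain ⟨N0, hbad⟩ := few_bad
  obtain ⟨X0, hpc⟩ := pc_ge
  obtain ⟨N1, hpi⟩ := eventually_atTop.1 pi_lower
  have tN : Tendsto (fun N : ℕ => (N : ℝ)) atTop atTop := tendsto_natCast_atTop_atTop
  have tL : Tendsto (fun N : ℕ => Real.log (N : ℝ)) atTop atTop := Real.tendsto_log_atTop.comp tN
  have tS : Tendsto (fun N : ℕ => Real.sqrt (N : ℝ)) atTop atTop := Real.tendsto_sqrt_atTop.comp tN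
  have e1 : ∀ᶠ N : ℕ in atTop, Real.log N ^ 10 ≤ Real.sqrt N / 2 := by
    have h := ((isLittleO_log_rpow_rpow_atTop ((10 : ℕ) : ℝ)
      (by norm_num : (0 : ℝ) < 1 / 2)).comp_tendsto tN).bound (by norm_num : (0 : ℝ) < 1 / 2)
    filter_upwards [h, eventually_ge_atTop 1] with N hN hN1
    have hN1' : (1 : ℝ) ≤ N := by exact_mod_cast hN1
    have hl := Real.log_nonneg hN1'
    simp only [Function.comp_def, Real.rpow_natCast, ← Real.sqrt_eq_rpow] at hN
    rw [Real.norm_of_nonneg (by positivity), Real.norm_of_nonneg (by positivity)] at hN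
    linarith
  filter_upwards [BQ_few, e1, tL.eventually_ge_atTop 100, eventually_ge_atTop (X0 + 100),
    tS.eventually_ge_atTop (N0 + N1 + 100 : ℝ)] with X h1 h2 h3 h4 h5
  obtain ⟨L, hL⟩ : ∃ L, L = Real.log (X : ℝ) := ⟨_, rfl⟩
  rw [← hL] at h1 h2 h3 ⊢
  have hX0 : (100 : ℝ) ≤ X := by exact_mod_cast (by omega : 100 ≤ X)
  have hsq : Real.sqrt X * Real.sqrt X = X := Real.mul_self_sqrt (by linarith)
  have hsq1 : 100 ≤ Real.sqrt X := by
    have := Nat.cast_nonneg (α := ℝ) N0
    have := Nat.cast_nonneg (α := ℝ) N1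
    linarith
  have hL1 : (1 : ℝ) ≤ L := by linarith
  have hL9 : (1 : ℝ) ≤ L ^ 9 := one_le_pow₀ hL1
  obtain ⟨N, hN⟩ : ∃ N : ℕ, N = ⌊(X : ℝ) / L ^ 9⌋₊ := ⟨_, rfl⟩
  have hN1 : (N : ℝ) ≤ X / L ^ 9 := by rw [hN]; exact Nat.floor_le (by positivity)
  have hN2 : (X : ℝ) / L ^ 9 < N + 1 := by rw [hN]; exact Nat.lt_floor_add_one _
  have hN9 : (N : ℝ) * L ^ 9 ≤ X := by rwa [le_div_iff₀ (by positivity)] at hN1
  have hNX : N ≤ X := by
    have : (N : ℝ) ≤ X := (le_mul_of_one_le_right (Nat.cast_nonneg N) hL9).trans hN9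
    exact_mod_cast this
  have hL910 : L ^ 9 ≤ L ^ 10 := pow_le_pow_right₀ hL1 (by norm_num)
  have hNs : Real.sqrt X ≤ N := by
    have a1 : 2 * Real.sqrt X ≤ X / L ^ 9 := by
      rw [le_div_iff₀ (by positivity)]
      calc 2 * Real.sqrt X * L ^ 9 ≤ 2 * Real.sqrt X * (Real.sqrt X / 2) := by
            apply mul_le_mul_of_nonneg_left _ (by positivity)
            linarith
        _ = X := by rw [← hsq]; ring_nf; rw [Real.sq_sqrt (by linarith), Real.sq_sqrt (by positivity)]
    linarith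
  have hN10 : (X : ℝ) ≤ N * L ^ 10 := by
    rw [div_lt_iff₀ (by positivity)] at hN2
    have a1 : (N : ℝ) + 1 ≤ N * L := by nlinarith
    calc (X : ℝ) ≤ (N + 1) * L ^ 9 := hN2.le
      _ ≤ (N * L) * L ^ 9 := by gcongr
      _ = N * L ^ 10 := by ring
  have hNr0 : (0 : ℝ) < N := by linarith
  have hlN1 : L / 2 ≤ Real.log N := by
    have a1 := Real.log_le_log (by positivity) hNs
    rw [Real.log_sqrt (by linarith), ← hL] at a1
    linarith
  have hlN2 : Real.log N ≤ L := by
    rw [hL]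
    apply Real.log_le_log hNr0
    exact_mod_cast hNX
  have hNN : N0 + N1 + 100 ≤ N := by
    have : ((N0 + N1 + 100 : ℕ) : ℝ) ≤ N := by push_cast; linarith
    exact_mod_cast this
  refine ⟨N, hNX, hlN1, hNs, hN10, ?_⟩
  -- the primes `s`
  obtain ⟨H, hH⟩ : ∃ H : Finset ℕ, H = (Icc 5 N).filter Nat.Prime := ⟨_, rfl⟩
  obtain ⟨S, hS⟩ : ∃ S : Finset ℕ, S = H.filter (fun s => ¬ GoodD 0 0 3 X (s - 1)) := ⟨_, rfl⟩
  have hScard : (S.card : ℝ) ≤ N / Real.log N ^ 2 := by
    have a1 := hbad N (by omega) X hNX (by rw [← hL]; exact hN9) (by rw [← hL]; exact hN10)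
      (S.image (fun s => s - 1)) (by
        intro m hm
        obtain ⟨s, hs, rfl⟩ := mem_image.1 hm
        rw [hS, mem_filter, hH, mem_filter, mem_Icc] at hs
        rw [mem_Icc]
        omega) (by
        intro m hm
        obtain ⟨s, hs, rfl⟩ := mem_image.1 hm
        rw [hS, mem_filter] at hs
        exact hs.2)
    rwa [card_image_of_injOn (by
      intro a ha b hb hab
      rw [mem_coe, hS, mem_filter, hH, mem_filter, mem_Icc] at ha hb
      simp only at hab
      omega)] at a1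
  have hHcard : (N : ℝ) / (2 * Real.log N) - 4 ≤ H.card := by
    have a1 := hpi N (by omega)
    have a2 : Nat.primeCounting N ≤ H.card + 4 := by
      unfold Nat.primeCounting Nat.primeCounting'
      rw [Nat.count_eq_card_filter_range]
      have a3 : (range (N + 1)).filter Nat.Prime ⊆ H ∪ Icc 1 4 := by
        intro p hp
        rw [mem_filter, mem_range] at hp
        rw [mem_union, hH, mem_filter, mem_Icc, mem_Icc]
        have := hp.2.two_le
        by_cases h : p ≤ 4
        · right; omega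
        · left; exact ⟨by omega, hp.2⟩
      refine (card_le_card a3).trans ((card_union_le _ _).trans ?_)
      simp
    have a3 : (Nat.primeCounting N : ℝ) ≤ H.card + 4 := by exact_mod_cast a2
    linarith
  -- all pairs
  obtain ⟨A, hA⟩ : ∃ A : ℕ → Finset ℕ, A = fun s => (range (X + 1)).filter
    (fun r => r.Prime ∧ (r + (s - 1)).Prime ∧ r + (s - 1) ≤ X) := ⟨_, rfl⟩
  obtain ⟨Tt, hT⟩ : ∃ Tt : Finset (ℕ × ℕ), Tt = ((Icc 5 N) ×ˢ (range (X + 1))).filter
    (fun z => z.1.Prime ∧ z.2.Prime ∧ (z.2 + z.1 - 1).Prime ∧ z.2 + z.1 - 1 ≤ X) := ⟨_, rfl⟩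
  have hTsum : Tt.card = ∑ s ∈ H, (A s).card := by
    have a1 : Tt = H.biUnion (fun s => (A s).image (fun r => (s, r))) := by
      ext z
      rw [hT, mem_filter, mem_product, mem_biUnion]
      constructor
      · rintro ⟨⟨b1, b2⟩, b3, b4, b5, b6⟩
        have b7 := (mem_Icc.1 b1).1
        have b8 : z.2 + (z.1 - 1) = z.2 + z.1 - 1 := by omega
        refine ⟨z.1, by rw [hH, mem_filter]; exact ⟨b1, b3⟩, ?_⟩
        rw [mem_image]
        refine ⟨z.2, ?_, rfl⟩
        rw [hA]
        simp only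
        rw [mem_filter, b8]
        exact ⟨b2, b4, b5, b6⟩
      · rintro ⟨s, b1, b2⟩
        obtain ⟨r, b3, rfl⟩ := mem_image.1 b2
        rw [hH, mem_filter] at b1
        rw [hA] at b3
        simp only at b3
        rw [mem_filter] at b3
        have b7 := (mem_Icc.1 b1.1).1
        have b8 : r + (s - 1) = r + s - 1 := by omega
        rw [b8] at b3
        exact ⟨⟨b1.1, b3.1⟩, b1.2, b3.2.1, b3.2.2.1, b3.2.2.2⟩
    rw [a1, card_biUnion]
    · apply sum_congr rfl
      intro s _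
      apply card_image_of_injective
      intro a b hab
      exact (Prod.mk.inj hab).2
    · intro s _ t _ hst
      rw [Function.onFun, disjoint_left]
      intro z hz hz2
      obtain ⟨r, -, rfl⟩ := mem_image.1 hz
      obtain ⟨r', -, h⟩ := mem_image.1 hz2
      exact hst (Prod.mk.inj h).1.symm
  have hAs : ∀ s ∈ H \ S, (X : ℝ) / (2 * L ^ 2) ≤ (A s).card := by
    intro s hs
    rw [Finset.mem_sdiff, hS, mem_filter, not_and, not_not] at hs
    have b1 := hs.2 hs.1
    have b2 := hs.1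
    rw [hH, mem_filter, mem_Icc] at b2
    have b3 := hpc X (by omega) (s - 1) (by omega) (by
      rcases b2.2.eq_two_or_odd with h | h
      · omega
      · omega) b1
    rw [hA, hL]
    exact b3
  have hTge : ((H.card : ℝ) - S.card) * (X / (2 * L ^ 2)) ≤ Tt.card := by
    rw [hTsum]
    push_cast
    have b0 : S ⊆ H := by rw [hS]; exact filter_subset _ _
    have b1 : ∑ s ∈ H \ S, ((X : ℝ) / (2 * L ^ 2)) ≤ ∑ s ∈ H, ((A s).card : ℝ) := by
      refine (sum_le_sum hAs).trans ?_
      apply sum_le_sum_of_subset_of_nonneg sdiff_subset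
      intro i _ _
      exact Nat.cast_nonneg _
    rw [sum_const, nsmul_eq_mul, card_sdiff_of_subset b0, Nat.cast_sub (card_le_card b0)] at b1
    exact b1
  -- the bad pairs
  have hbadp : (Tt.card : ℝ) ≤ (pairs X N).card + N * (BQ X (L ^ 10)).card := by
    have b1 : Tt ⊆ pairs X N ∪ Tt.filter (fun z => ¬ Few (L ^ 10) (z.2 + z.1 - 1)) := by
      intro z hz
      rw [mem_union]
      by_cases h : Few (L ^ 10) (z.2 + z.1 - 1)
      · left
        unfold pairs
        rw [hT, mem_filter] at hz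
        rw [mem_filter, ← hL]
        exact ⟨hz.1, hz.2.1, hz.2.2.1, hz.2.2.2.1, hz.2.2.2.2, h⟩
      · right
        rw [mem_filter]
        exact ⟨hz, h⟩
    have b2 : (Tt.filter (fun z => ¬ Few (L ^ 10) (z.2 + z.1 - 1))).card ≤
        ((Icc 1 N) ×ˢ (BQ X (L ^ 10))).card := by
      apply card_le_card_of_injOn (fun z => (z.1, z.2 + z.1 - 1))
      · intro z hz
        rw [mem_coe, mem_filter, hT, mem_filter, mem_product, mem_Icc] at hz
        rw [mem_coe, mem_product, mem_Icc]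
        unfold BQ
        rw [mem_filter, mem_Icc]
        have b5 := hz.1.2.2.2.1.two_le
        have b6 := hz.1.1.1
        refine ⟨⟨?_, ?_⟩, ⟨?_, hz.1.2.2.2.2⟩, hz.2⟩
        · simp only
          omega
        · simp only
          omega
        · simp only
          omega
      · intro a ha b hb hab
        rw [mem_coe, mem_filter, hT, mem_filter, mem_product, mem_Icc] at ha hb
        obtain ⟨c1, c2⟩ := Prod.mk.inj hab
        have d1 := ha.1.2.2.2.1.two_le
        have d2 := hb.1.2.2.2.1.two_le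
        exact Prod.ext c1 (by omega)
    rw [card_product, Nat.card_Icc, Nat.add_sub_cancel] at b2
    have b3 := (card_le_card b1).trans (card_union_le _ _)
    have b4 : Tt.card ≤ (pairs X N).card + N * (BQ X (L ^ 10)).card := by omega
    exact_mod_cast b4
  -- numerics
  have f1 : (N : ℝ) / (2 * L) ≤ N / (2 * Real.log N) := by
    apply div_le_div_of_nonneg_left hNr0.le (by linarith) (by linarith)
  have f2 : (N : ℝ) / Real.log N ^ 2 ≤ 4 * N / L ^ 2 := by
    rw [div_le_div_iff₀ (by nlinarith) (by positivity)]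
    have : L ^ 2 ≤ 4 * Real.log N ^ 2 := by nlinarith
    nlinarith
  have f3 : (N : ℝ) / (4 * L) ≤ H.card - S.card := by
    have g1 : (4 : ℝ) ≤ N / (8 * L) := by
      rw [le_div_iff₀ (by positivity)]
      have g2 : 32 * L ≤ L ^ 10 := by
        have g3 : (100 : ℝ) ≤ L ^ 9 := by
          calc (100 : ℝ) ≤ L := h3
            _ = L ^ 1 := (pow_one L).symm
            _ ≤ L ^ 9 := pow_le_pow_right₀ hL1 (by norm_num)
        calc 32 * L ≤ L ^ 9 * L := by gcongr; linarith
          _ = L ^ 10 := by ring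
      linarith
    have g2 : 4 * (N : ℝ) / L ^ 2 ≤ N / (8 * L) := by
      rw [div_le_div_iff₀ (by positivity) (by positivity)]
      have : (0 : ℝ) ≤ N * L := by positivity
      nlinarith
    have g3 : (N : ℝ) / (2 * L) - N / (8 * L) - N / (8 * L) = N / (4 * L) := by
      field_simp
      ring
    linarith
  have f4 : (N : ℝ) * X / (8 * L ^ 3) ≤ Tt.card := by
    refine le_trans ?_ hTge
    calc (N : ℝ) * X / (8 * L ^ 3) = N / (4 * L) * (X / (2 * L ^ 2)) := by field_simp; ring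
      _ ≤ _ := by
        apply mul_le_mul_of_nonneg_right f3
        positivity
  have f5 : (N : ℝ) * (BQ X (L ^ 10)).card ≤ N * X / (16 * L ^ 3) := by
    calc (N : ℝ) * (BQ X (L ^ 10)).card ≤ N * (X / L ^ 4) := by gcongr
      _ ≤ N * X / (16 * L ^ 3) := by
        rw [← mul_div_assoc, div_le_div_iff₀ (by positivity) (by positivity)]
        have : (0 : ℝ) ≤ N * X * L ^ 3 := by positivity
        calc (N : ℝ) * X * (16 * L ^ 3) = N * X * L ^ 3 * 16 := by ring
          _ ≤ N * X * L ^ 3 * L := by gcongr; linarith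
          _ = N * X * L ^ 4 := by ring
  have f6 : (N : ℝ) * X / (8 * L ^ 3) - N * X / (16 * L ^ 3) = N * X / (16 * L ^ 3) := by
    field_simp
    ring
  linarith

end Pool.Agent.Y886.PP
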