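import Pool.Agent.Y886.PPB
import Pool.Agent.Y886.PPC

set_option autoImplicit false
set_option maxHeartbeats 1000000

/-! # A positive proportion of the integers is `r + 3 s` -/

namespace Pool.Agent.Y886.PP

open Finset Filter

open Classical in
/-- the pairs with `r + 3 s = n` -/
noncomputable def fib (X N n : ℕ) : Finset (ℕ × ℕ) := (pairs X N).filter (fun z => z.2 + 3 * z.1 = n)

open Classical in
/-- the sums `r + 3 s` -/
noncomputable def sums0 (X N : ℕ) : Finset ℕ := (pairs X N).image (fun z => z.2 + 3 * z.1)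

open Classical in
/-- the sums `r + 3 s` which occur often -/
noncomputable def sums (X N : ℕ) : Finset ℕ := (sums0 X N).filter
  (fun n => (N : ℝ) / (128 * Real.log X ^ 3) ≤ ((fib X N n).card : ℝ))

lemma sums0_mem {X N n : ℕ} (hNX : N ≤ X) (h : n ∈ sums0 X N) : n ∈ Icc 4 (4 * X) := by
  classical
  unfold sums0 at h
  obtain ⟨z, hz, rfl⟩ := mem_image.1 h
  unfold pairs at hz
  rw [mem_filter, mem_product, mem_Icc, mem_range] at hz
  rw [mem_Icc]
  obtain ⟨⟨⟨h1, h2⟩, h3⟩, -⟩ := hz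
  constructor <;> omega

lemma sums_mem {X N n : ℕ} (hNX : N ≤ X) (h : n ∈ sums X N) : n ∈ Icc 4 (4 * X) := by
  unfold sums at h
  exact sums0_mem hNX (mem_filter.1 h).1

lemma fiber_le (X N n : ℕ) : (fib X N n).card ≤ rn N n := by
  classical
  unfold rn fib
  apply card_le_card_of_injOn (fun z => z.1)
  · intro z hz
    rw [mem_coe, mem_filter] at hz
    obtain ⟨h1, h2⟩ := hz
    unfold pairs at h1
    rw [mem_filter, mem_product, mem_Icc] at h1
    obtain ⟨⟨⟨h3, h4⟩, h5⟩, h6, h7, h8, -⟩ := h1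
    rw [mem_coe, mem_filter, mem_Icc]
    have e1 : n - 3 * z.1 = z.2 := by omega
    have e2 : n - 2 * z.1 - 1 = z.2 + z.1 - 1 := by omega
    simp only
    rw [e1, e2]
    exact ⟨⟨by omega, h4⟩, h6, h7, h8⟩
  · intro a ha b hb hab
    rw [mem_coe, mem_filter] at ha hb
    simp only at hab
    apply Prod.ext hab
    omega

/-- the set of sums is large -/
theorem sums_card : ∃ c : ℝ, 0 < c ∧ ∀ᶠ X : ℕ in atTop, ∃ N : ℕ, N ≤ X ∧
    (X : ℝ) ≤ N * Real.log X ^ 10 ∧ c * X ≤ (sums X N).card := by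
  classical
  obtain ⟨C1, hC1, hav⟩ := avG
  obtain ⟨C2, hC2, N0, hrn⟩ := rn_le
  have tN : Tendsto (fun N : ℕ => (N : ℝ)) atTop atTop := tendsto_natCast_atTop_atTop
  have tL : Tendsto (fun N : ℕ => Real.log (N : ℝ)) atTop atTop := Real.tendsto_log_atTop.comp tN
  have tS : Tendsto (fun N : ℕ => Real.sqrt (N : ℝ)) atTop atTop := Real.tendsto_sqrt_atTop.comp tN
  refine ⟨1 / (C1 * 4 * (256 * C2) ^ 2), by positivity, ?_⟩
  filter_upwards [pairs_ge, tL.eventually_ge_atTop 1, tS.eventually_ge_atTop (N0 + 1 : ℝ),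
    eventually_ge_atTop 1] with X h1 h2 h3 h4
  obtain ⟨N, hNX, hlN, hsN, hN10, hp⟩ := h1
  refine ⟨N, hNX, hN10, ?_⟩
  have hX : (1 : ℝ) ≤ X := by exact_mod_cast h4
  have hN0 : N0 ≤ N := by
    have : (N0 : ℝ) ≤ N := by linarith
    exact_mod_cast this
  obtain ⟨D, hD⟩ : ∃ D, D = (N : ℝ) / (128 * Real.log X ^ 3) := ⟨_, rfl⟩
  obtain ⟨L, hL⟩ : ∃ L, L = Real.log (X : ℝ) := ⟨_, rfl⟩
  rw [← hL] at h2 hlN hp hD
  have hNr : (1 : ℝ) ≤ N := by linarith [Nat.cast_nonneg (α := ℝ) N0]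
  have hlN0 : 0 < Real.log (N : ℝ) := by linarith
  have hD0 : 0 ≤ D := by rw [hD]; positivity
  have a1 : (pairs X N).card = ∑ n ∈ sums0 X N, (fib X N n).card := by
    unfold fib
    apply card_eq_sum_card_fiberwise
    intro z hz
    exact mem_coe.2 (mem_image_of_mem _ (mem_coe.1 hz))
  have a1' : ((pairs X N).card : ℝ) ≤ ∑ n ∈ sums X N, ((fib X N n).card : ℝ) + 4 * X * D := by
    rw [a1]
    push_cast
    have b0 : sums X N ⊆ sums0 X N := by unfold sums; exact filter_subset _ _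
    rw [← sum_sdiff b0]
    have b1 : ∑ n ∈ sums0 X N \ sums X N, ((fib X N n).card : ℝ) ≤
        ∑ n ∈ sums0 X N \ sums X N, D := by
      apply sum_le_sum
      intro n hn
      rw [Finset.mem_sdiff] at hn
      have b2 := hn.2
      unfold sums at b2
      rw [mem_filter, not_and, not_le] at b2
      rw [hD, hL]
      exact (b2 hn.1).le
    rw [sum_const, nsmul_eq_mul] at b1
    have b3 : ((sums0 X N \ sums X N).card : ℝ) ≤ 4 * X := by
      have b4 : sums0 X N \ sums X N ⊆ Icc 4 (4 * X) := by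
        intro n hn
        rw [Finset.mem_sdiff] at hn
        exact sums0_mem hNX hn.1
      have b5 := card_le_card b4
      rw [Nat.card_Icc] at b5
      have b6 : (sums0 X N \ sums X N).card ≤ 4 * X := by omega
      exact_mod_cast b6
    have b7 := mul_le_mul_of_nonneg_right b3 hD0
    linarith
  have a2 : ∑ n ∈ sums X N, ((fib X N n).card : ℝ) ≤
      ∑ n ∈ sums X N, C2 * N * G n / Real.log N ^ 3 := by
    apply sum_le_sum
    intro n hn
    have hn4 := (mem_Icc.1 (sums_mem hNX hn)).1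
    refine le_trans ?_ (hrn N hN0 n hn4)
    exact_mod_cast fiber_le X N n
  obtain ⟨S, hS⟩ : ∃ S, S = ∑ n ∈ sums X N, G n := ⟨_, rfl⟩
  have hS0 : 0 ≤ S := by
    rw [hS]
    apply sum_nonneg
    intro n _
    linarith [G_ge_one n]
  have a3 : ∑ n ∈ sums X N, C2 * N * G n / Real.log N ^ 3 = (C2 * N / Real.log N ^ 3) * S := by
    rw [hS, mul_sum]
    apply sum_congr rfl
    intro n _
    ring
  have a4 : C2 * N / Real.log N ^ 3 ≤ 8 * C2 * N / L ^ 3 := by
    have b1 : L ^ 3 ≤ 8 * Real.log N ^ 3 := by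
      have := pow_le_pow_left₀ (by linarith : 0 ≤ L / 2) hlN 3
      have e : (L / 2) ^ 3 = L ^ 3 / 8 := by ring
      rw [e] at this
      linarith
    rw [div_le_div_iff₀ (by positivity) (by positivity)]
    calc C2 * N * L ^ 3 ≤ C2 * N * (8 * Real.log N ^ 3) := by gcongr
      _ = 8 * C2 * N * Real.log N ^ 3 := by ring
  have a5 : (X : ℝ) ≤ 256 * C2 * S := by
    have b0 : 4 * X * D = N * X / (32 * L ^ 3) := by
      rw [hD]
      field_simp
      ring
    have b00 : (N : ℝ) * X / (16 * L ^ 3) = N * X / (32 * L ^ 3) + N * X / (32 * L ^ 3) := by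
      field_simp
      ring
    have b1 : (N : ℝ) * X / (32 * L ^ 3) ≤ 8 * C2 * N / L ^ 3 * S := by
      have b2 : (N : ℝ) * X / (32 * L ^ 3) ≤ (C2 * N / Real.log N ^ 3) * S := by
        rw [a3] at a2
        rw [b00] at hp
        rw [b0] at a1'
        linarith
      exact b2.trans (mul_le_mul_of_nonneg_right a4 hS0)
    have b2 : (N : ℝ) * X ≤ N * (256 * C2 * S) := by
      rw [div_le_iff₀ (by positivity)] at b1
      calc (N : ℝ) * X ≤ 8 * C2 * N / L ^ 3 * S * (32 * L ^ 3) := b1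
        _ = N * (256 * C2 * S) := by
          field_simp
          ring
    exact le_of_mul_le_mul_left b2 (by linarith)
  have a6 : S ^ 2 ≤ (sums X N).card * ∑ n ∈ sums X N, G n ^ 2 := by
    rw [hS]
    exact sq_sum_le_card_mul_sum_sq
  have a7 : ∑ n ∈ sums X N, G n ^ 2 ≤ C1 * (4 * X) := by
    have b1 := hav (4 * X)
    push_cast at b1
    refine le_trans ?_ b1
    apply sum_le_sum_of_subset_of_nonneg
    · intro n hn
      exact sums_mem hNX hn
    · intro i _ _
      positivity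
  have a8 : (X : ℝ) * X ≤ X * ((C1 * 4 * (256 * C2) ^ 2) * (sums X N).card) := by
    calc (X : ℝ) * X ≤ (256 * C2 * S) * (256 * C2 * S) := by gcongr
      _ = (256 * C2) ^ 2 * S ^ 2 := by ring
      _ ≤ (256 * C2) ^ 2 * ((sums X N).card * (C1 * (4 * X))) := by
          apply mul_le_mul_of_nonneg_left _ (by positivity)
          exact a6.trans (mul_le_mul_of_nonneg_left a7 (Nat.cast_nonneg _))
      _ = _ := by ring
  have a9 := le_of_mul_le_mul_left a8 (by linarith : (0 : ℝ) < X)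
  rw [one_div, inv_mul_le_iff₀ (by positivity)]
  exact a9

/-- the value of `q (n, k)` for `k = r`, `n = r + 3 s` -/
lemma q_val {r s : ℕ} (hr : r.Prime) (hs : s.Prime) (h5 : 5 ≤ s) :
    Nat.totient r + Nat.totient (r + 3 * s - r) / 2 + 1 = r + s - 1 := by
  rw [Nat.add_sub_cancel_left, Nat.totient_prime hr]
  have h1 : Nat.totient (3 * s) = 2 * (s - 1) := by
    rw [Nat.totient_mul ((Nat.coprime_primes Nat.prime_three hs).2 (by omega)),
      Nat.totient_prime hs, Nat.totient_prime Nat.prime_three]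
  rw [h1]
  have := hr.two_le
  omega

/-- the set of the `k` for `n` -/
def Ks (n : ℕ) : Set ℕ := {k : ℕ | 1 ≤ k ∧ k + 2 < n ∧
  (Nat.totient k + Nat.totient (n - k) / 2 + 1).Prime ∧
  Few (Real.log n ^ 11) (Nat.totient k + Nat.totient (n - k) / 2 + 1)}

/-- the property of `n` -/
def Good (n : ℕ) : Prop := (n : ℝ) / Real.log n ^ 14 ≤ ((Ks n).ncard : ℝ)

lemma fib_le {X N n : ℕ} (hlog : Real.log X ^ 10 ≤ Real.log n ^ 11) :
    (fib X N n).card ≤ (Ks n).ncard := by
  classical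
  have hfin : (Ks n).Finite := (Set.finite_Iic n).subset fun k hk => by
    have := hk.2.1
    exact Set.mem_Iic.2 (by omega)
  have h1 : (((fib X N n).image (fun z => z.2) : Finset ℕ) : Set ℕ) ⊆ Ks n := by
    intro k hk
    obtain ⟨z, hz, rfl⟩ := mem_image.1 (mem_coe.1 hk)
    unfold fib at hz
    obtain ⟨hz1, hz2⟩ := mem_filter.1 hz
    unfold pairs at hz1
    rw [mem_filter, mem_product, mem_Icc] at hz1
    obtain ⟨⟨⟨h1, h2⟩, h3⟩, h4, h5, h6, h7, h8⟩ := hz1
    subst hz2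
    refine ⟨h5.one_le, by omega, ?_, ?_⟩
    · rw [q_val h5 h4 h1]
      exact h6
    · rw [q_val h5 h4 h1]
      exact ⟨h8.1.trans hlog, h8.2.trans hlog⟩
  have h2 := Set.ncard_le_ncard h1 hfin
  rw [Set.ncard_coe_finset, card_image_of_injOn] at h2
  · exact h2
  · intro a ha b hb hab
    rw [mem_coe] at ha hb
    unfold fib at ha hb
    have e1 := (mem_filter.1 ha).2
    have e2 := (mem_filter.1 hb).2
    simp only at hab
    exact Prod.ext (by omega) hab

/-- the final form -/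
theorem good_card : ∃ c : ℝ, 0 < c ∧ ∀ᶠ x : ℕ in atTop,
    c * x ≤ (Set.ncard {n : ℕ | 32 ≤ n ∧ n ≤ x ∧ Good n} : ℝ) := by
  classical
  obtain ⟨c, hc, hs⟩ := sums_card
  obtain ⟨X0, h0⟩ := eventually_atTop.1 hs
  have tN : Tendsto (fun N : ℕ => (N : ℝ)) atTop atTop := tendsto_natCast_atTop_atTop
  have tL : Tendsto (fun N : ℕ => Real.log (N : ℝ)) atTop atTop := Real.tendsto_log_atTop.comp tN
  refine ⟨c / 32, by positivity, ?_⟩
  obtain ⟨X1, h1⟩ := eventually_atTop.1 ((tL.eventually_ge_atTop (2 ^ 30)).and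
    (tN.eventually_ge_atTop ((4 / c) ^ 2)))
  filter_upwards [eventually_ge_atTop (8 * (X0 + X1 + 1024))] with x hx
  obtain ⟨X, hX⟩ : ∃ X, X = x / 4 := ⟨_, rfl⟩
  have hX1 : X0 + X1 + 1024 ≤ X := by omega
  have hXx : x ≤ 8 * X := by omega
  have hXx' : 4 * X ≤ x := by omega
  obtain ⟨N, hNX, hN10, hN⟩ := h0 X (by omega)
  obtain ⟨g1, g2⟩ := h1 X (by omega)
  have hX8 : (1024 : ℝ) ≤ X := by exact_mod_cast (by omega : 1024 ≤ X)
  have hXr : (x : ℝ) ≤ 8 * X := by exact_mod_cast hXx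
  -- drop the small `n`
  obtain ⟨I, hI⟩ : ∃ I : Finset ℕ, I = (sums X N).filter (fun n : ℕ => (c / 2) * X ≤ (n : ℝ)) :=
    ⟨_, rfl⟩
  have hIcard : (c / 2) * X - 1 ≤ I.card := by
    have b1 : sums X N ⊆ I ∪ range (⌊(c / 2) * X⌋₊ + 1) := by
      intro n hn
      rw [mem_union, hI, mem_filter, mem_range]
      by_cases h : (c / 2) * X ≤ (n : ℝ)
      · left
        exact ⟨hn, h⟩
      · right
        rw [not_le] at h
        exact Nat.lt_succ_of_le (Nat.le_floor h.le)
    have b2 := (card_le_card b1).trans (card_union_le _ _)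
    rw [card_range] at b2
    have b3 : ((sums X N).card : ℝ) ≤ I.card + (⌊(c / 2) * X⌋₊ + 1) := by exact_mod_cast b2
    have b4 : (⌊(c / 2) * (X : ℝ)⌋₊ : ℝ) ≤ (c / 2) * X := Nat.floor_le (by positivity)
    linarith
  have hsub : (I : Set ℕ) ⊆ {n : ℕ | 32 ≤ n ∧ n ≤ x ∧ Good n} := by
    intro n hn
    rw [mem_coe, hI, mem_filter] at hn
    have b1 := mem_Icc.1 (sums_mem hNX hn.1)
    -- `log n ≥ log X / 2`
    have b2 : (X : ℝ) ≤ (n : ℝ) ^ 2 := by
      have c1 : 4 ≤ c ^ 2 * X := by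
        rw [div_pow, div_le_iff₀ (by positivity)] at g2
        nlinarith
      calc (X : ℝ) ≤ (c ^ 2 * X / 4) * X := by
            have : (1 : ℝ) ≤ c ^ 2 * X / 4 := by linarith
            exact le_mul_of_one_le_left (by linarith) this
        _ = ((c / 2) * X) ^ 2 := by ring
        _ ≤ (n : ℝ) ^ 2 := by
            apply pow_le_pow_left₀ (by positivity) hn.2
    have b22 : 32 ≤ n := by
      have c1 : (1024 : ℝ) ≤ (n : ℝ) ^ 2 := hX8.trans b2
      have c2 : 1024 ≤ n ^ 2 := by exact_mod_cast c1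
      nlinarith
    refine ⟨b22, by omega, ?_⟩
    have b3 : Real.log X ≤ 2 * Real.log n := by
      have := Real.log_le_log (by linarith) b2
      rw [Real.log_pow] at this
      exact_mod_cast this
    obtain ⟨L, hL⟩ : ∃ L, L = Real.log (X : ℝ) := ⟨_, rfl⟩
    obtain ⟨l, hl⟩ : ∃ l, l = Real.log (n : ℝ) := ⟨_, rfl⟩
    rw [← hL] at g1 b3 hN10
    rw [← hl] at b3
    have b4 : L / 2 ≤ l := by linarith
    have b5 : L ^ 10 ≤ l ^ 11 := by
      calc L ^ 10 = (2 ^ 11) * L ^ 10 / 2 ^ 11 := by ring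
        _ ≤ L * L ^ 10 / 2 ^ 11 := by gcongr; linarith
        _ = (L / 2) ^ 11 := by ring
        _ ≤ l ^ 11 := pow_le_pow_left₀ (by linarith) b4 11
    have b6 : (fib X N n).card ≤ (Ks n).ncard := fib_le (by rw [← hL, ← hl]; exact b5)
    have b7 : (N : ℝ) / (128 * L ^ 3) ≤ ((fib X N n).card : ℝ) := by
      have := hn.1
      unfold sums at this
      rw [hL]
      exact (mem_filter.1 this).2
    have b8 : (n : ℝ) / l ^ 14 ≤ N / (128 * L ^ 3) := by
      have c0 : (n : ℝ) ≤ 4 * X := by exact_mod_cast b1.2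
      have c1 : (n : ℝ) ≤ 4 * (N * L ^ 10) := by linarith
      have hl0 : 0 < l := by linarith
      have hL0 : 0 < L := by linarith
      rw [div_le_div_iff₀ (by positivity) (by positivity)]
      have c2 : 512 * L ^ 13 ≤ l ^ 14 := by
        calc 512 * L ^ 13 = (512 * 2 ^ 14) * L ^ 13 / 2 ^ 14 := by ring
          _ ≤ L * L ^ 13 / 2 ^ 14 := by gcongr; linarith
          _ = (L / 2) ^ 14 := by ring
          _ ≤ l ^ 14 := pow_le_pow_left₀ (by linarith) b4 14
      calc (n : ℝ) * (128 * L ^ 3) ≤ 4 * (N * L ^ 10) * (128 * L ^ 3) := by gcongr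
        _ = N * (512 * L ^ 13) := by ring
        _ ≤ N * l ^ 14 := by gcongr
    show (n : ℝ) / Real.log n ^ 14 ≤ ((Ks n).ncard : ℝ)
    rw [← hl]
    refine b8.trans (b7.trans ?_)
    exact_mod_cast b6
  have hfin : {n : ℕ | 32 ≤ n ∧ n ≤ x ∧ Good n}.Finite :=
    (Set.finite_Iic x).subset fun n hn => hn.2.1
  have hcard : I.card ≤ Set.ncard {n : ℕ | 32 ≤ n ∧ n ≤ x ∧ Good n} := by
    rw [← Set.ncard_coe_finset]
    exact Set.ncard_le_ncard hsub hfin
  have hcard' : (I.card : ℝ) ≤ Set.ncard {n : ℕ | 32 ≤ n ∧ n ≤ x ∧ Good n} := by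
    exact_mod_cast hcard
  have hcX : 1 ≤ c * X / 4 := by
    by_contra hcon
    rw [not_le] at hcon
    have d1 : (4 / c) ^ 2 ≤ X := g2
    rw [div_pow, div_le_iff₀ (by positivity)] at d1
    nlinarith
  refine le_trans ?_ hcard'
  have d2 : c / 32 * (x : ℝ) ≤ c / 32 * (8 * X) := mul_le_mul_of_nonneg_left hXr (by positivity)
  linarith

end Pool.Agent.Y886.PP
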