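import Pool.Agent.TH665.GP.F3

/-!
Iterated primes, uniformly in the number of the iterations.
-/

set_option autoImplicit false

open Finset Filter Topology

namespace Pool.Agent.Y886.UT

open Pool.Agent.H197R2.PG (PI gg one_le_gg QQ QQ_card RR pair_avg second_moment pi_le_self)

lemma log_two_ge : (1 / 2 : ℝ) ≤ Real.log 2 := by
  have := Real.log_two_gt_d9
  linarith

/-- a bound of the Chebyshev type for all `y ≥ 2` -/
lemma cheb : ∃ c : ℝ, 0 < c ∧ c ≤ 1 / 4 ∧ ∀ y : ℕ, 2 ≤ y →
    c * y ≤ Nat.primeCounting y * Real.log y := by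
  have hQ : ∀ᶠ y : ℕ in atTop, (y : ℝ) / (2 * Real.log y) ≤ Nat.primeCounting y := by
    filter_upwards [QQ_card] with y h2
    refine h2.trans ?_
    have h4 : (QQ y).card ≤ Nat.primeCounting y := by
      rw [Nat.primeCounting, Nat.primeCounting', Nat.count_eq_card_filter_range]
      apply Finset.card_le_card
      intro p hp
      unfold QQ at hp
      rw [mem_filter, mem_Ioc] at hp
      rw [mem_filter, mem_range]
      exact ⟨by omega, hp.2⟩
    exact_mod_cast h4
  obtain ⟨y0, hy0⟩ := eventually_atTop.1 hQ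
  have hl2 := log_two_ge
  refine ⟨1 / (4 * (y0 + 1)), by positivity, ?_, fun y hy => ?_⟩
  · apply div_le_div_of_nonneg_left (by norm_num) (by norm_num)
    have : (0 : ℝ) ≤ y0 := Nat.cast_nonneg _
    linarith
  · have hy2 : (2 : ℝ) ≤ y := by exact_mod_cast hy
    have hly : Real.log 2 ≤ Real.log y := Real.log_le_log (by norm_num) hy2
    have hly0 : 0 < Real.log y := by linarith
    have hy00 : (0 : ℝ) ≤ y0 := Nat.cast_nonneg _
    rcases le_or_gt y0 y with h | h
    · have h1 := hy0 y h
      rw [div_le_iff₀ (by positivity)] at h1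
      have h2 : 1 / (4 * ((y0 : ℝ) + 1)) ≤ 1 / 4 := by
        apply div_le_div_of_nonneg_left (by norm_num) (by norm_num)
        linarith
      have h3 : 1 / (4 * ((y0 : ℝ) + 1)) * y ≤ 1 / 4 * y := mul_le_mul_of_nonneg_right h2 (by linarith)
      have h4 : (0 : ℝ) ≤ Nat.primeCounting y * Real.log y := by positivity
      linarith
    · have h1 : (y : ℝ) ≤ y0 := by exact_mod_cast h.le
      have h2 : (1 : ℝ) ≤ Nat.primeCounting y := by
        have h3 := Nat.monotone_primeCounting hy
        have h4 : Nat.primeCounting 2 = 1 := by decide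
        rw [h4] at h3
        exact_mod_cast h3
      have h3 : 1 / (4 * ((y0 : ℝ) + 1)) * y ≤ 1 / 4 := by
        rw [div_mul_eq_mul_div, one_mul, div_le_div_iff₀ (by positivity) (by norm_num)]
        linarith
      nlinarith

/-- **Iterated primes have the expected order of magnitude from below, uniformly** -/
theorem dens : ∃ c : ℝ, 0 < c ∧ c ≤ 1 / 4 ∧ ∀ (a y : ℕ), 2 ≤ y → ∃ S : Finset ℕ,
    S ⊆ Icc 1 y ∧ (∀ p ∈ S, PI a p) ∧
      c ^ (a + 1) * y ≤ ((S.card : ℝ) + 1) * Real.log y ^ (a + 1) := by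
  classical
  obtain ⟨c, hc, hc4, hch⟩ := cheb
  refine ⟨c, hc, hc4, ?_⟩
  intro a
  induction a with
  | zero =>
    intro y hy
    refine ⟨(Icc 1 y).filter Nat.Prime, Finset.filter_subset _ _, ?_, ?_⟩
    · intro a ha j hj
      have : j = 0 := by omega
      subst this
      exact (mem_filter.mp ha).2
    · have h3 : (Nat.primeCounting y : ℝ) ≤ ((Icc 1 y).filter Nat.Prime).card := by
        have : Nat.primeCounting y ≤ ((Icc 1 y).filter Nat.Prime).card := by
          rw [Nat.primeCounting, Nat.primeCounting', Nat.count_eq_card_filter_range]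
          apply Finset.card_le_card
          intro p hp
          rw [mem_filter, mem_range] at hp
          rw [mem_filter, mem_Icc]
          exact ⟨⟨hp.2.one_lt.le, by omega⟩, hp.2⟩
        exact_mod_cast this
      rw [zero_add, pow_one, pow_one]
      refine (hch y hy).trans ?_
      apply mul_le_mul_of_nonneg_right _ (Real.log_natCast_nonneg y)
      linarith
  | succ a ih =>
    intro y hy
    have hl2 := log_two_ge
    have hy2 : (2 : ℝ) ≤ y := by exact_mod_cast hy
    have hly : Real.log 2 ≤ Real.log y := Real.log_le_log (by norm_num) hy2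
    have hly0 : 0 < Real.log y := by linarith
    rcases le_or_gt 2 (Nat.primeCounting y) with h3 | h3
    · obtain ⟨S, hS1, hS2, hS3⟩ := ih _ h3
      have hpi : ∀ m : ℕ, 1 ≤ m → Nat.primeCounting (Nat.nth Nat.Prime (m - 1)) = m := by
        intro m hm
        rw [Nat.primeCounting, Nat.primeCounting', Nat.count_succ, ← Nat.primeCounting',
          Nat.primeCounting'_nth_eq, if_pos (Nat.prime_nth_prime _)]
        omega
      have hinj : Set.InjOn (fun m : ℕ => Nat.nth Nat.Prime (m - 1)) (S : Set ℕ) := by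
        intro a ha b hb hab
        have ha1 := (mem_Icc.mp (hS1 ha)).1
        have hb1 := (mem_Icc.mp (hS1 hb)).1
        simp only at hab
        rw [← hpi a ha1, ← hpi b hb1, hab]
      refine ⟨S.image (fun m : ℕ => Nat.nth Nat.Prime (m - 1)), ?_, ?_, ?_⟩
      · intro p hp
        obtain ⟨m, hm, rfl⟩ := mem_image.mp hp
        have hm1 := mem_Icc.mp (hS1 hm)
        rw [mem_Icc]
        refine ⟨(Nat.prime_nth_prime _).one_lt.le, ?_⟩
        have h5 : m - 1 < Nat.count Nat.Prime (y + 1) := by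
          have : Nat.primeCounting y = Nat.count Nat.Prime (y + 1) := rfl
          omega
        have h6 := Nat.nth_lt_of_lt_count h5
        omega
      · intro p hp j hj
        obtain ⟨m, hm, rfl⟩ := mem_image.mp hp
        have hm1 := mem_Icc.mp (hS1 hm)
        rcases j with _ | j
        · exact Nat.prime_nth_prime _
        · rw [Function.iterate_succ_apply, hpi m hm1.1]
          exact hS2 m hm j (by omega)
      · rw [Finset.card_image_of_injOn hinj]
        have hle : (Nat.primeCounting y : ℝ) ≤ y := by exact_mod_cast pi_le_self y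
        have hge1 : (1 : ℝ) ≤ Nat.primeCounting y := by exact_mod_cast (by omega : 1 ≤ Nat.primeCounting y)
        have hlog1 : 0 ≤ Real.log (Nat.primeCounting y) := Real.log_nonneg hge1
        have hlog2 : Real.log (Nat.primeCounting y) ≤ Real.log y :=
          Real.log_le_log (by linarith) hle
        calc c ^ (a + 1 + 1) * (y : ℝ) = c ^ (a + 1) * (c * y) := by ring
          _ ≤ c ^ (a + 1) * (Nat.primeCounting y * Real.log y) :=
              mul_le_mul_of_nonneg_left (hch y hy) (by positivity)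
          _ = (c ^ (a + 1) * Nat.primeCounting y) * Real.log y := by ring
          _ ≤ (((S.card : ℝ) + 1) * Real.log (Nat.primeCounting y) ^ (a + 1)) * Real.log y :=
              mul_le_mul_of_nonneg_right hS3 hly0.le
          _ ≤ (((S.card : ℝ) + 1) * Real.log y ^ (a + 1)) * Real.log y := by gcongr
          _ = ((S.card : ℝ) + 1) * Real.log y ^ (a + 1 + 1) := by ring
    · have hy2' : y = 2 := by
        by_contra hne
        have h4 : 3 ≤ y := by omega
        have h5 := Nat.monotone_primeCounting h4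
        have h6 : Nat.primeCounting 3 = 2 := by decide
        omega
      refine ⟨∅, Finset.empty_subset _, by simp, ?_⟩
      rw [hy2', Finset.card_empty]
      push_cast
      rw [zero_add, one_mul]
      have h7 : c ^ (a + 1 + 1) ≤ (Real.log 2 / 2) ^ (a + 1 + 1) :=
        pow_le_pow_left₀ hc.le (by linarith) _
      have h8 : (2 : ℝ) ≤ 2 ^ (a + 1 + 1) := by
        calc (2 : ℝ) = 2 ^ 1 := by norm_num
          _ ≤ 2 ^ (a + 1 + 1) := pow_le_pow_right₀ (by norm_num) (by omega)
      have h9 : 0 ≤ Real.log 2 ^ (a + 1 + 1) := by positivity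
      calc c ^ (a + 1 + 1) * 2 ≤ (Real.log 2 / 2) ^ (a + 1 + 1) * 2 :=
            mul_le_mul_of_nonneg_right h7 (by norm_num)
        _ = Real.log 2 ^ (a + 1 + 1) * (2 / 2 ^ (a + 1 + 1)) := by rw [div_pow]; ring
        _ ≤ Real.log 2 ^ (a + 1 + 1) * 1 := by
            apply mul_le_mul_of_nonneg_left _ h9
            rw [div_le_one (by positivity)]
            exact h8
        _ = _ := mul_one _

/-- **Sums with the primes, uniformly** -/
theorem GU : ∃ C : ℝ, 1 ≤ C ∧ ∃ x0 : ℕ, ∀ (x Y k : ℕ) (S : Finset ℕ), x0 ≤ x →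
    2 * (Y : ℝ) ≤ (x : ℝ) ^ (1 / 16 : ℝ) → S ⊆ Icc 1 Y → (∀ a ∈ S, 3 ≤ a ∧ a % 2 = 1) →
    Real.log x ≤ S.card → 3 ≤ k → 2 * (Y : ℝ) ≤ Real.exp 1 ^ k * S.card →
    (x : ℝ) ≤ C * Real.log k * (RR S x).card := by
  classical
  obtain ⟨C1, hC1, hpa⟩ := pair_avg
  obtain ⟨C2, hC2, u0, hsm⟩ := second_moment
  set E : ℝ := Real.exp 1 with hE
  have hE0 : 0 < E := Real.exp_pos _
  set D' : ℝ := C2 * (C1 * E) with hD'
  have hD'0 : 0 < D' := by positivity
  obtain ⟨x1, hx1⟩ := eventually_atTop.mp QQ_card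
  refine ⟨2 + 4 * D', by linarith, max (max x1 u0) 10, ?_⟩
  intro x Y k S hx hY116 hSY hodd hKL hk3 hEk
  have hQ := hx1 x ((le_max_left _ _).trans ((le_max_left _ _).trans hx))
  have hxu : u0 ≤ x := (le_max_right _ _).trans ((le_max_left _ _).trans hx)
  have hx10 : 10 ≤ x := (le_max_right _ _).trans hx
  set L := Real.log (x : ℝ) with hL
  have hxpos : (0 : ℝ) < x := by exact_mod_cast (by omega : 0 < x)
  have hL0 : 0 < L := Real.log_pos (by exact_mod_cast (by omega : 1 < x))
  have hK0 : (0 : ℝ) < S.card := by linarith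
  have hmain := hsm x Y S hxu hY116 hSY hodd
  have havg := hpa k Y S E hk3 hSY hE0.le hEk
  have hlogk1 : 1 ≤ Real.log k := by
    have h1 : (3 : ℝ) ≤ k := by exact_mod_cast hk3
    rw [Real.le_log_iff_exp_le (by linarith)]
    have := Real.exp_one_lt_d9
    linarith
  set K : ℝ := (S.card : ℝ) with hKdef
  set t : ℝ := K * (QQ x).card with ht
  set l4 : ℝ := Real.log k with hl4
  have ht1 : K * x / (2 * L) ≤ t := by
    rw [ht]
    calc K * x / (2 * L) = K * (x / (2 * L)) := by ring
      _ ≤ _ := mul_le_mul_of_nonneg_left hQ hK0.le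
  have htpos : 0 < t := lt_of_lt_of_le (by positivity) ht1
  have ht2 : (x : ℝ) / 2 ≤ t := by
    refine le_trans ?_ ht1
    rw [div_le_div_iff₀ (by norm_num) (by positivity)]
    nlinarith
  have hZ : C2 * (∑ z ∈ S.offDiag, gg (2 * Nat.dist z.1 z.2)) * x / L ^ 2 ≤
      4 * (D' * l4) * t ^ 2 / x := by
    have h1 : C2 * (∑ z ∈ S.offDiag, gg (2 * Nat.dist z.1 z.2)) * x / L ^ 2 ≤
        C2 * (C1 * E * l4 * K ^ 2) * x / L ^ 2 := by
      gcongr
    refine h1.trans ?_
    have h2 : (K * x / (2 * L)) ^ 2 ≤ t ^ 2 := by gcongr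
    have h3 : C2 * (C1 * E * l4 * K ^ 2) * x / L ^ 2 =
        4 * (D' * l4) * (K * x / (2 * L)) ^ 2 / x := by
      rw [hD']
      field_simp
      norm_num
    rw [h3]
    gcongr
  have ht3 : t ≤ 2 * t ^ 2 / x := by
    rw [le_div_iff₀ hxpos]
    nlinarith
  have h1 : t ^ 2 ≤ (RR S x).card * (((2 + 4 * D') * l4) * t ^ 2 / x) := by
    refine hmain.trans ?_
    apply mul_le_mul_of_nonneg_left _ (Nat.cast_nonneg _)
    have h2 : 2 * t ^ 2 / x ≤ 2 * l4 * t ^ 2 / x := by
      gcongr
      linarith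
    calc t + C2 * (∑ z ∈ S.offDiag, gg (2 * Nat.dist z.1 z.2)) * x / L ^ 2
        ≤ 2 * l4 * t ^ 2 / x + 4 * (D' * l4) * t ^ 2 / x := by linarith
      _ = ((2 + 4 * D') * l4) * t ^ 2 / x := by ring
  have h3 : t ^ 2 * x ≤ t ^ 2 * ((2 + 4 * D') * l4 * (RR S x).card) := by
    calc t ^ 2 * x ≤ ((RR S x).card * (((2 + 4 * D') * l4) * t ^ 2 / x)) * x := by gcongr
      _ = t ^ 2 * ((2 + 4 * D') * l4 * (RR S x).card) := by field_simp
  exact le_of_mul_le_mul_left h3 (by positivity)

end Pool.Agent.Y886.UT
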