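import Pool.Agent.Y886.UTB

/-!
The thresholds `f₂` and the types which have to be considered.
-/

set_option autoImplicit false

open Finset Filter Topology

namespace Pool.Agent.Y886.UT

open Pool.Agent.H197R2.PG (PI RR)
open Pool.Agent.TH665.GP (PI_prime exists_index ff)

/-- the threshold `f₂` -/
noncomputable def f2 (a b : ℕ) : ℝ :=
  if a = b then
    (if a = 0 then (2 : ℝ) ^ (((a : ℝ) + 1) * (b + 1) * (a + b + 2))
      else (2 : ℝ) ^ (((a : ℝ) + 1) ^ 2 * (2 * a + 3) / a - 2 * a))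
  else (2 : ℝ) ^ (((a : ℝ) + 1) * (b + 1) * (a + b + 2) - (a + b - 2))

lemma f2_ge (a b : ℕ) : (2 : ℝ) ^ (a ^ 2) ≤ f2 a b ∧ (2 : ℝ) ^ (b ^ 2) ≤ f2 a b ∧
    (2 : ℝ) ^ (2 * (min a b) ^ 2) ≤ f2 a b := by
  have ha : (0 : ℝ) ≤ a := Nat.cast_nonneg _
  have hb : (0 : ℝ) ≤ b := Nat.cast_nonneg _
  unfold f2
  split_ifs with h1 h2
  · subst h1
    subst h2
    norm_num
  · subst h1
    have ha1 : (1 : ℝ) ≤ a := by exact_mod_cast (by omega : 1 ≤ a)
    have h3 : 2 * (a : ℝ) ^ 2 ≤ ((a : ℝ) + 1) ^ 2 * (2 * a + 3) / a - 2 * a := by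
      have h4 : ((a : ℝ) + 1) ^ 2 * (2 * a + 3) / a = 2 * (a : ℝ) ^ 2 + 7 * a + 8 + 3 / a := by
        field_simp
        ring
      rw [h4]
      have : 0 ≤ 3 / (a : ℝ) := by positivity
      linarith
    have h5 : ∀ m : ℕ, (m : ℝ) ≤ 2 * (a : ℝ) ^ 2 → (2 : ℝ) ^ m ≤
        (2 : ℝ) ^ (((a : ℝ) + 1) ^ 2 * (2 * a + 3) / a - 2 * a) := by
      intro m hm
      rw [← Real.rpow_natCast]
      exact Real.rpow_le_rpow_of_exponent_le (by norm_num) (hm.trans h3)
    refine ⟨h5 _ ?_, h5 _ ?_, h5 _ ?_⟩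
    · push_cast; nlinarith
    · push_cast; nlinarith
    · rw [min_self]; push_cast; exact le_rfl
  · have h3 : ((a : ℝ) + b) ^ 2 ≤ ((a : ℝ) + 1) * (b + 1) * (a + b + 2) - (a + b - 2) := by
      have : 0 ≤ (a : ℝ) * b := by positivity
      have h4 : 0 ≤ (a : ℝ) * b * (a + b) := by positivity
      nlinarith
    have h5 : ∀ m : ℕ, (m : ℝ) ≤ ((a : ℝ) + b) ^ 2 → (2 : ℝ) ^ m ≤
        (2 : ℝ) ^ (((a : ℝ) + 1) * (b + 1) * (a + b + 2) - (a + b - 2)) := by
      intro m hm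
      rw [← Real.rpow_natCast]
      exact Real.rpow_le_rpow_of_exponent_le (by norm_num) (hm.trans h3)
    refine ⟨h5 _ ?_, h5 _ ?_, h5 _ ?_⟩
    · push_cast; nlinarith
    · push_cast; nlinarith
    · push_cast
      have h6 : min (a : ℝ) b ≤ a := min_le_left _ _
      have h7 : min (a : ℝ) b ≤ b := min_le_right _ _
      have h8 : 0 ≤ min (a : ℝ) b := le_min ha hb
      nlinarith

lemma log_of_f2 {a b n x m : ℕ} (hn : n ≤ x) (h : f2 a b ≤ n)
    (hm : (2 : ℝ) ^ m ≤ f2 a b) : m ≤ Nat.log 2 x := by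
  apply Nat.le_log_of_pow_le (by norm_num)
  have h1 : (2 : ℝ) ^ m ≤ x := hm.trans (h.trans (by exact_mod_cast hn))
  exact_mod_cast h1

/-- a representation of type `(a, b)` -/
def Rep (a b m : ℕ) : Prop := ∃ u v : ℕ, 0 < u ∧ 0 < v ∧
  Nat.iterate (fun k : ℕ => Nat.nth Nat.Prime (k - 1)) (a + 1) u +
    Nat.iterate (fun k : ℕ => Nat.nth Nat.Prime (k - 1)) (b + 1) v = m ∧
  Nat.iterate (fun k : ℕ => Nat.nth Nat.Prime (k - 1)) (a + 1) u ≠
    Nat.iterate (fun k : ℕ => Nat.nth Nat.Prime (k - 1)) (b + 1) v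

lemma PI_mono {a b p : ℕ} (h : a ≤ b) (hp : PI b p) : PI a p := fun j hj => hp j (hj.trans h)

lemma rep_of {a b p q m : ℕ} (hp : PI a p) (hq : PI b q) (h : p + q = m) (hne : p ≠ q) : Rep a b m := by
  obtain ⟨u, hu, hu2⟩ := exists_index hp
  obtain ⟨v, hv, hv2⟩ := exists_index hq
  refine ⟨u, v, hu, hv, ?_, ?_⟩
  · change ff^[a + 1] u + ff^[b + 1] v = m
    rw [hu2, hv2, h]
  · change ff^[a + 1] u ≠ ff^[b + 1] v
    rw [hu2, hv2]
    exact hne

lemma nlog_le {x : ℕ} (hx : 1 ≤ x) : (Nat.log 2 x : ℝ) * Real.log 2 ≤ Real.log x := by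
  have h7 : 2 ^ Nat.log 2 x ≤ x := Nat.pow_log_le_self 2 (by omega)
  have h8 : ((2 : ℝ) ^ Nat.log 2 x) ≤ x := by exact_mod_cast h7
  have h9 := Real.log_le_log (by positivity) h8
  rwa [Real.log_pow] at h9

/-- **All types `(a, b)` with `a b = 0` at once** -/
theorem main2 : ∃ c : ℝ, 0 < c ∧ ∀ᶠ x : ℕ in atTop,
    c * (x / Real.log (Real.log x)) ≤ Set.ncard {n : ℕ | n ≤ x ∧
      ∀ a b : ℕ, a = 0 ∨ b = 0 → f2 a b ≤ n → Rep a b (2 * n)} := by
  classical
  obtain ⟨c, K, hc, hK, h⟩ := main1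
  refine ⟨c / 2, by positivity, ?_⟩
  have tN : Tendsto (fun N : ℕ => (N : ℝ)) atTop atTop := tendsto_natCast_atTop_atTop
  have tL : Tendsto (fun N : ℕ => Real.log (N : ℝ)) atTop atTop := Real.tendsto_log_atTop.comp tN
  have tLL : Tendsto (fun L : ℝ => Real.log (Real.log L)) atTop atTop :=
    Real.tendsto_log_atTop.comp Real.tendsto_log_atTop
  have hev : ∀ᶠ L : ℝ in atTop, ∀ t : ℝ, 2 ≤ t → (t - 2) ^ 2 ≤ 2 * L → K * (t * Real.log t) ≤ L ∧ t ≤ L := by
    have h1 := Real.isLittleO_log_id_atTop.bound (show (0 : ℝ) < 1 / (8 * K) by positivity)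
    obtain ⟨t0, ht0⟩ := eventually_atTop.1 h1
    filter_upwards [eventually_ge_atTop (max (max t0 4) 1 ^ 2 * (K + 1) + 16)] with L hL
    intro t ht2 ht
    set m : ℝ := max (max t0 4) 1 with hm
    have hm4 : 4 ≤ m := (le_max_right _ _).trans (le_max_left _ _)
    have hmt0 : t0 ≤ m := (le_max_left _ _).trans (le_max_left _ _)
    have hm2 : 0 ≤ m ^ 2 := by positivity
    have hmK : m ^ 2 + 16 ≤ L := by nlinarith
    rcases le_or_gt t m with h2 | h2
    · have h3 : Real.log t ≤ t := by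
        have := Real.log_le_sub_one_of_pos (show 0 < t by linarith)
        linarith
      have h4 : t * Real.log t ≤ m * m := by
        have h5 : 0 ≤ Real.log t := Real.log_nonneg (by linarith)
        apply mul_le_mul h2 (h3.trans h2) h5 (by linarith)
      constructor
      · have : K * (t * Real.log t) ≤ K * (m * m) := mul_le_mul_of_nonneg_left h4 hK.le
        nlinarith
      · nlinarith
    · have h3 := ht0 t (hmt0.trans h2.le)
      rw [Real.norm_of_nonneg (Real.log_nonneg (by linarith))] at h3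
      simp only [id] at h3
      rw [Real.norm_of_nonneg (by linarith)] at h3
      have h4 : t ^ 2 / 8 ≤ (t - 2) ^ 2 / 2 := by nlinarith
      have h5 : K * (t * Real.log t) ≤ t ^ 2 / 8 := by
        calc K * (t * Real.log t) ≤ K * (t * (1 / (8 * K) * t)) := by
              apply mul_le_mul_of_nonneg_left _ hK.le
              exact mul_le_mul_of_nonneg_left h3 (by linarith)
          _ = t ^ 2 / 8 := by
              field_simp
      constructor
      · linarith
      · nlinarith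
  filter_upwards [h, tL.eventually hev, tL.eventually_ge_atTop 100, tL.eventually (tLL.eventually_ge_atTop (Real.exp 1)),
    eventually_ge_atTop 2] with x h1 h2 h3 h4 h5
  set L := Real.log (x : ℝ) with hL
  have hL0 : 0 < L := by linarith
  have hx0 : (0 : ℝ) < x := by exact_mod_cast (by omega : 0 < x)
  set A : ℕ := Nat.sqrt (Nat.log 2 x) with hA
  have hA2 : ((A : ℝ)) ^ 2 ≤ 2 * L := by
    have h6 : A * A ≤ Nat.log 2 x := Nat.sqrt_le _
    have h7 : ((A : ℝ)) * A ≤ Nat.log 2 x := by exact_mod_cast h6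
    have h8 := nlog_le (show 1 ≤ x by omega)
    have h9 := log_two_ge
    have h10 : (0 : ℝ) ≤ Nat.log 2 x := Nat.cast_nonneg _
    nlinarith
  have hA0 : (0 : ℝ) ≤ A := Nat.cast_nonneg _
  obtain ⟨g1, g2⟩ := h2 ((A : ℝ) + 2) (by linarith) (by
    have : (A : ℝ) + 2 - 2 = A := by ring
    rw [this]
    exact hA2)
  obtain ⟨T, hT1, hT2, hT3⟩ := h1 A g1
  have hfin : {n : ℕ | n ≤ x ∧ ∀ a b : ℕ, a = 0 ∨ b = 0 → f2 a b ≤ n → Rep a b (2 * n)}.Finite :=
    (Set.finite_Iic x).subset (fun n hn => hn.1)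
  have hsub : (T : Set ℕ) ⊆ {n : ℕ | n ≤ x ∧ ∀ a b : ℕ, a = 0 ∨ b = 0 → f2 a b ≤ n → Rep a b (2 * n)} := by
    intro n hn
    rw [mem_coe] at hn
    have hnx := (mem_Icc.1 (hT1 hn)).2
    refine ⟨hnx, ?_⟩
    obtain ⟨p, q, hpq, hp, hq, hsum⟩ := hT2 n hn
    have hq0 : PI 0 q := by
      intro j hj
      have : j = 0 := by omega
      subst this
      exact hq
    intro a b hab hf
    obtain ⟨k1, k2, -⟩ := f2_ge a b
    have haA : a ≤ A := by
      rw [hA, Nat.le_sqrt]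
      have := log_of_f2 hnx hf k1
      rwa [pow_two] at this
    have hbA : b ≤ A := by
      rw [hA, Nat.le_sqrt]
      have := log_of_f2 hnx hf k2
      rwa [pow_two] at this
    rcases hab with h0 | h0
    · subst h0
      exact rep_of hq0 (PI_mono hbA hp) (by omega) (by omega)
    · subst h0
      exact rep_of (PI_mono haA hp) hq0 hsum (by omega)
  have h6 := Set.ncard_le_ncard hsub hfin
  rw [Set.ncard_coe_finset] at h6
  have h7 : (T.card : ℝ) ≤ Set.ncard {n : ℕ | n ≤ x ∧ ∀ a b : ℕ, a = 0 ∨ b = 0 → f2 a b ≤ n → Rep a b (2 * n)} := by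
    exact_mod_cast h6
  refine le_trans ?_ (hT3.trans h7)
  -- the logarithms
  have hlogL1 : 1 ≤ Real.log L := by
    rw [Real.le_log_iff_exp_le hL0]
    have := Real.exp_one_lt_d9
    linarith
  have hmu1 : 1 ≤ Real.log (Real.log L) := by
    have := Real.add_one_le_exp (1 : ℝ)
    linarith
  have hlmu : 1 ≤ Real.log (Real.log (Real.log L)) := by
    rw [Real.le_log_iff_exp_le (by linarith)]
    exact h4
  have k1 : Real.log ((A : ℝ) + 2) ≤ Real.log L := Real.log_le_log (by linarith) g2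
  have k2 : Real.log (Real.log (Real.log L)) ≤ Real.log L := by
    have e1 := Real.log_le_sub_one_of_pos (show 0 < Real.log (Real.log L) by linarith)
    have e2 := Real.log_le_sub_one_of_pos (show 0 < Real.log L by linarith)
    linarith
  have k3 : 0 < Real.log ((A : ℝ) + 2) := Real.log_pos (by linarith)
  have k4 : (x : ℝ) / (2 * Real.log L) ≤
      x / (Real.log ((A : ℝ) + 2) + Real.log (Real.log (Real.log L))) :=
    div_le_div_of_nonneg_left hx0.le (by linarith) (by linarith)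
  calc c / 2 * (x / Real.log L) = c * (x / (2 * Real.log L)) := by
        field_simp
    _ ≤ _ := mul_le_mul_of_nonneg_left k4 hc.le

end Pool.Agent.Y886.UT
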