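import Pool.Agent.Y886.UTC

/-!
All types at once.
-/

set_option autoImplicit false

open Finset Filter Topology

namespace Pool.Agent.Y886.UT

open Pool.Agent.H197R2.PG (PI)
open Pool.Agent.TH665.GP (PI_prime)

lemma dens_exp : ∃ κ : ℝ, 0 ≤ κ ∧ ∀ (a y : ℕ) (l : ℝ), 2 ≤ y → 1 ≤ l → Real.log y ≤ Real.exp l → ∃ S : Finset ℕ,
    S ⊆ Icc 1 y ∧ (∀ p ∈ S, PI a p) ∧
      (y : ℝ) * Real.exp (-(((a : ℝ) + 1) * (l + κ))) ≤ (S.card : ℝ) + 1 := by
  obtain ⟨c, hc, hc4, hdens⟩ := dens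
  refine ⟨-Real.log c, ?_, fun a y l hy hl1 hl => ?_⟩
  · have : Real.log c ≤ 0 := Real.log_nonpos hc.le (by linarith)
    linarith
  obtain ⟨S, h1, h2, h3⟩ := hdens a y hy
  refine ⟨S, h1, h2, ?_⟩
  have hl0 : 0 ≤ Real.log y := Real.log_natCast_nonneg y
  have h4 : ((S.card : ℝ) + 1) * Real.log y ^ (a + 1) ≤ ((S.card : ℝ) + 1) * Real.exp l ^ (a + 1) := by
    apply mul_le_mul_of_nonneg_left _ (by positivity)
    exact pow_le_pow_left₀ hl0 hl _
  have h5 : Real.exp (((a : ℝ) + 1) * (l + -Real.log c)) * c ^ (a + 1) = Real.exp l ^ (a + 1) := by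
    have h6 : Real.exp (((a : ℝ) + 1) * (l + -Real.log c)) = (Real.exp l * c⁻¹) ^ (a + 1) := by
      have h7 : Real.exp l * c⁻¹ = Real.exp (l + -Real.log c) := by
        rw [Real.exp_add, Real.exp_neg, Real.exp_log hc]
      rw [h7, ← Real.exp_nat_mul]
      congr 1
      push_cast
      ring
    rw [h6, ← mul_pow, mul_assoc, inv_mul_cancel₀ hc.ne', mul_one]
  rw [← h5] at h4
  set W := Real.exp (((a : ℝ) + 1) * (l + -Real.log c)) with hW
  have hW0 : 0 < W := Real.exp_pos _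
  have h6 : c ^ (a + 1) * y ≤ c ^ (a + 1) * (((S.card : ℝ) + 1) * W) := by
    calc c ^ (a + 1) * y ≤ ((S.card : ℝ) + 1) * (W * c ^ (a + 1)) := h3.trans h4
      _ = _ := by ring
  have h7 : (y : ℝ) ≤ ((S.card : ℝ) + 1) * W := le_of_mul_le_mul_left h6 (by positivity)
  rw [Real.exp_neg, ← hW, ← div_eq_mul_inv, div_le_iff₀ hW0]
  exact h7

lemma abs_le_of_mul_self {a b : ℝ} (ha : 0 ≤ a) (hb : 0 ≤ b) (h : a * a ≤ b * b) : a ≤ b := by
  by_contra hcon
  push Not at hcon
  have : b * b < a * a := mul_self_lt_mul_self hb hcon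
  linarith

/-- **All types at once** -/
theorem main3 : ∀ᶠ x : ℕ in atTop,
    (x : ℝ) * Real.exp (-(√(Real.log x) * Real.log (Real.log x))) ≤ Set.ncard {n : ℕ | n ≤ x ∧
      ∀ a b : ℕ, f2 a b ≤ n → Rep a b (2 * n)} := by
  classical
  obtain ⟨κ, hκ, hd⟩ := dens_exp
  have tN : Tendsto (fun N : ℕ => (N : ℝ)) atTop atTop := tendsto_natCast_atTop_atTop
  have tL : Tendsto (fun N : ℕ => Real.log (N : ℝ)) atTop atTop := Real.tendsto_log_atTop.comp tN
  have hev : ∀ᶠ t : ℝ in atTop, 100 ≤ t ∧ 20 * κ + 1 ≤ 2 * Real.log t ∧ 16 * Real.log t ≤ t ∧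
      16 * (2 * Real.log t + κ) * (2 * t + 1) ≤ t ^ 2 := by
    have h1 := Real.isLittleO_log_id_atTop.bound (show (0 : ℝ) < 1 / 400 by norm_num)
    filter_upwards [eventually_ge_atTop 100, Real.tendsto_log_atTop.eventually_ge_atTop (20 * κ + 1), h1]
      with t h1 h2 h3
    have hl : 0 ≤ Real.log t := Real.log_nonneg (by linarith)
    rw [Real.norm_of_nonneg hl] at h3
    simp only [id] at h3
    rw [Real.norm_of_nonneg (by linarith)] at h3
    refine ⟨h1, by linarith, by linarith, ?_⟩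
    have h4 : 2 * Real.log t + κ ≤ 3 * Real.log t := by linarith
    have h5 : 2 * t + 1 ≤ 3 * t := by linarith
    calc 16 * (2 * Real.log t + κ) * (2 * t + 1) ≤ 16 * (3 * Real.log t) * (3 * t) := by gcongr
      _ = 144 * (Real.log t * t) := by ring
      _ ≤ 144 * ((1 / 400 * t) * t) := by gcongr
      _ ≤ t ^ 2 := by nlinarith
  have tS : Tendsto (fun N : ℕ => √(Real.log (N : ℝ))) atTop atTop := Real.tendsto_sqrt_atTop.comp tL
  filter_upwards [tS.eventually hev, eventually_ge_atTop 16] with x h1 h5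
  obtain ⟨e1, e2, e3, e4⟩ := h1
  set L := Real.log (x : ℝ) with hL
  set t := √L with ht
  have hx0 : (0 : ℝ) < x := by exact_mod_cast (by omega : 0 < x)
  have hL0 : 0 < L := Real.log_pos (by exact_mod_cast (by omega : 1 < x))
  have ht2 : t * t = L := Real.mul_self_sqrt hL0.le
  have ht0 : 0 < t := by linarith
  have hLt : Real.log L = 2 * Real.log t := by
    rw [← ht2, Real.log_mul ht0.ne' ht0.ne']
    ring
  set l := 2 * Real.log t with hl
  rw [hLt]
  have hl1 : 1 ≤ l := by linarith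
  have hexpl : Real.exp l = L := by
    rw [hl, two_mul, Real.exp_add, Real.exp_log ht0, ht2]
  have hxL : (x : ℝ) = Real.exp L := (Real.exp_log hx0).symm
  have hnl := nlog_le (show 1 ≤ x by omega)
  have hlog2 : (0.69 : ℝ) ≤ Real.log 2 := by
    have := Real.log_two_gt_d9
    linarith
  have hNL0 : (0 : ℝ) ≤ Nat.log 2 x := Nat.cast_nonneg _
  -- the two orders
  set A : ℕ := Nat.sqrt (Nat.log 2 x) with hA
  set B : ℕ := Nat.sqrt (Nat.log 2 x / 2) with hB
  have hA0 : (0 : ℝ) ≤ A := Nat.cast_nonneg _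
  have hB0 : (0 : ℝ) ≤ B := Nat.cast_nonneg _
  have hAt : (A : ℝ) ≤ 2 * t := by
    have h6 : A * A ≤ Nat.log 2 x := Nat.sqrt_le _
    have h7 : ((A : ℝ)) * A ≤ Nat.log 2 x := by exact_mod_cast h6
    have h8 : (A : ℝ) * A ≤ (2 * t) * (2 * t) := by nlinarith
    exact abs_le_of_mul_self (by positivity) (by linarith) h8
  have hBt : (B : ℝ) ≤ 0.86 * t := by
    have h6 : B * B ≤ Nat.log 2 x / 2 := Nat.sqrt_le _
    have h7 : 2 * (B * B) ≤ Nat.log 2 x := by omega
    have h7' : 2 * ((B : ℝ) * B) ≤ Nat.log 2 x := by exact_mod_cast h7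
    have h8 : (B : ℝ) * B ≤ (0.86 * t) * (0.86 * t) := by nlinarith
    exact abs_le_of_mul_self (by positivity) (by linarith) h8
  -- the small prime
  set Y : ℕ := Nat.sqrt x with hY
  have hY4 : 4 ≤ Y := by
    rw [hY, Nat.le_sqrt]
    omega
  have hYx : Y * Y ≤ x := Nat.sqrt_le _
  have hYr4 : (4 : ℝ) ≤ Y := by exact_mod_cast hY4
  have hYle : (Y : ℝ) ≤ Real.exp (L / 2) := by
    have h6 : (Y : ℝ) * Y ≤ Real.exp (L / 2) * Real.exp (L / 2) := by
      rw [← Real.exp_add, show L / 2 + L / 2 = L by ring, ← hxL]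
      exact_mod_cast hYx
    exact abs_le_of_mul_self (Nat.cast_nonneg _) (Real.exp_pos _).le h6
  have hYge : Real.exp (L / 2) ≤ 2 * Y := by
    have h6 : x < (Y + 1) * (Y + 1) := Nat.lt_succ_sqrt x
    have h7 : Real.exp (L / 2) * Real.exp (L / 2) ≤ (2 * Y) * (2 * (Y : ℝ)) := by
      rw [← Real.exp_add, show L / 2 + L / 2 = L by ring, ← hxL]
      have h8 : (x : ℝ) < ((Y : ℝ) + 1) * (Y + 1) := by exact_mod_cast h6
      nlinarith
    exact abs_le_of_mul_self (Real.exp_pos _).le (by positivity) h7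
  have hlogY : Real.log Y ≤ Real.exp l := by
    rw [hexpl]
    have h6 := Real.log_le_log (by linarith) hYle
    rw [Real.log_exp] at h6
    linarith
  obtain ⟨S0, hS01, hS02, hS03⟩ := hd A Y l (by omega) hl1 hlogY
  have hlk : 0 ≤ l + κ := by linarith
  have hAl : ((A : ℝ) + 1) * (l + κ) ≤ L / 16 := by
    have h6 : ((A : ℝ) + 1) * (l + κ) ≤ (2 * t + 1) * (l + κ) :=
      mul_le_mul_of_nonneg_right (by linarith) hlk
    have h7 : 16 * (l + κ) * (2 * t + 1) ≤ t ^ 2 := e4
    nlinarith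
  have hbig : 16 ≤ Real.exp (L / 8) := by
    have h6 : L / 8 + 1 ≤ Real.exp (L / 8) := Real.add_one_le_exp _
    nlinarith
  have hS04 : (2 : ℝ) < S0.card := by
    have h6 : Real.exp (L / 2) / 2 * Real.exp (-(L / 16)) ≤ (S0.card : ℝ) + 1 := by
      refine le_trans ?_ hS03
      apply mul_le_mul (by linarith) _ (Real.exp_pos _).le (by positivity)
      exact Real.exp_le_exp.2 (by linarith)
    have h7 : Real.exp (L / 2) / 2 * Real.exp (-(L / 16)) = Real.exp (7 * L / 16) / 2 := by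
      rw [div_mul_eq_mul_div, ← Real.exp_add]
      congr 2
      ring
    have h8 : Real.exp (L / 8) ≤ Real.exp (7 * L / 16) := Real.exp_le_exp.2 (by linarith)
    rw [h7] at h6
    linarith
  have hp0 : ∃ p ∈ S0, p ≠ 2 := by
    by_contra hcon
    push Not at hcon
    have h6 : S0 ⊆ {2} := fun p hp => mem_singleton.2 (hcon p hp)
    have h7 := card_le_card h6
    rw [card_singleton] at h7
    have h8 : (S0.card : ℝ) ≤ 1 := by exact_mod_cast h7
    linarith
  obtain ⟨p, hpS, hp2⟩ := hp0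
  have hpp := PI_prime (hS02 p hpS)
  have hpY := (mem_Icc.1 (hS01 hpS)).2
  have hpodd : p % 2 = 1 := by
    rcases hpp.eq_two_or_odd with h | h
    · exact absurd h hp2
    · exact h
  -- the large primes
  have hlogx : Real.log x ≤ Real.exp l := by rw [hexpl]
  obtain ⟨S1, hS11, hS12, hS13⟩ := hd B x l (by omega) hl1 hlogx
  set Q := S1.filter (fun q => Y < q) with hQ
  have hQc : (S1.card : ℝ) ≤ Q.card + Y := by
    have h4 : S1 ⊆ Q ∪ Icc 1 Y := by
      intro n hn
      rw [mem_union, hQ, mem_filter, mem_Icc]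
      rcases Nat.lt_or_ge Y n with h5 | h5
      · exact Or.inl ⟨hn, h5⟩
      · exact Or.inr ⟨(mem_Icc.1 (hS11 hn)).1, h5⟩
    have h5 := (card_le_card h4).trans (card_union_le _ _)
    rw [Nat.card_Icc, Nat.add_sub_cancel] at h5
    exact_mod_cast h5
  have hqodd : ∀ q ∈ Q, q % 2 = 1 ∧ Y < q ∧ q ≤ x ∧ PI B q := by
    intro q hq
    rw [hQ, mem_filter] at hq
    have h6 := PI_prime (hS12 q hq.1)
    rcases h6.eq_two_or_odd with h | h
    · omega
    · exact ⟨h, hq.2, (mem_Icc.1 (hS11 hq.1)).2, hS12 q hq.1⟩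
  set T := Q.image (fun q => (p + q) / 2) with hT
  have hTc : T.card = Q.card := by
    apply card_image_of_injOn
    intro q hq q' hq' h
    rw [mem_coe] at hq hq'
    have h6 := hqodd q hq
    have h7 := hqodd q' hq'
    simp only at h
    omega
  have hfin : {n : ℕ | n ≤ x ∧ ∀ a b : ℕ, f2 a b ≤ n → Rep a b (2 * n)}.Finite :=
    (Set.finite_Iic x).subset (fun n hn => hn.1)
  have hsub : (T : Set ℕ) ⊆ {n : ℕ | n ≤ x ∧ ∀ a b : ℕ, f2 a b ≤ n → Rep a b (2 * n)} := by
    intro n hn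
    rw [mem_coe, hT] at hn
    obtain ⟨q, hq, rfl⟩ := mem_image.1 hn
    obtain ⟨q1, q2, q3, q4⟩ := hqodd q hq
    have hnx : (p + q) / 2 ≤ x := by omega
    refine ⟨hnx, fun a b hf => ?_⟩
    obtain ⟨k1, k2, k3⟩ := f2_ge a b
    have haA : a ≤ A := by
      rw [hA, Nat.le_sqrt]
      have := log_of_f2 hnx hf k1
      rwa [pow_two] at this
    have hbA : b ≤ A := by
      rw [hA, Nat.le_sqrt]
      have := log_of_f2 hnx hf k2
      rwa [pow_two] at this
    have hmin : min a b ≤ B := by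
      rw [hB, Nat.le_sqrt]
      have h6 := log_of_f2 hnx hf k3
      rw [pow_two] at h6
      omega
    rcases le_total a b with hab | hab
    · rw [min_eq_left hab] at hmin
      exact rep_of (PI_mono hmin q4) (PI_mono hbA (hS02 p hpS)) (by omega) (by omega)
    · rw [min_eq_right hab] at hmin
      exact rep_of (PI_mono haA (hS02 p hpS)) (PI_mono hmin q4) (by omega) (by omega)
  have h6 := Set.ncard_le_ncard hsub hfin
  rw [Set.ncard_coe_finset, hTc] at h6
  have h7 : (Q.card : ℝ) ≤ Set.ncard {n : ℕ | n ≤ x ∧ ∀ a b : ℕ, f2 a b ≤ n → Rep a b (2 * n)} := by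
    exact_mod_cast h6
  refine le_trans ?_ h7
  -- the final computation
  have hB1 : ((B : ℝ) + 1) * (l + κ) + 1 ≤ t * l := by
    have h8 : ((B : ℝ) + 1) * (l + κ) ≤ (0.86 * t + 1) * (l + κ) :=
      mul_le_mul_of_nonneg_right (by linarith) hlk
    have h9 : κ ≤ l / 20 := by linarith
    have h10 : (0.86 * t + 1) * (l + κ) ≤ (0.86 * t + 1) * (l + l / 20) :=
      mul_le_mul_of_nonneg_left (by linarith) (by linarith)
    have h11 : (0.86 * t + 1) * (l + l / 20) = 0.903 * (t * l) + 1.05 * l := by ring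
    have h12 : 100 * l ≤ t * l := mul_le_mul_of_nonneg_right e1 (by linarith)
    linarith
  have htl : t * l ≤ L / 8 := by
    have h8 : t * l ≤ t * (t / 8) := mul_le_mul_of_nonneg_left (by linarith) ht0.le
    nlinarith
  have hexp2 : 2 ≤ Real.exp 1 := by
    have := Real.add_one_le_exp (1 : ℝ)
    linarith
  have h8 : 2 * (x * Real.exp (-(t * l))) ≤ S1.card + 1 := by
    refine le_trans ?_ hS13
    have h9 : 2 * Real.exp (-(t * l)) ≤ Real.exp (-(((B : ℝ) + 1) * (l + κ))) := by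
      calc 2 * Real.exp (-(t * l)) ≤ Real.exp 1 * Real.exp (-(t * l)) :=
            mul_le_mul_of_nonneg_right hexp2 (Real.exp_pos _).le
        _ = Real.exp (1 + -(t * l)) := (Real.exp_add _ _).symm
        _ ≤ _ := Real.exp_le_exp.2 (by linarith)
    calc 2 * (x * Real.exp (-(t * l))) = x * (2 * Real.exp (-(t * l))) := by ring
      _ ≤ _ := mul_le_mul_of_nonneg_left h9 hx0.le
  have h9 : (Y : ℝ) + 1 ≤ x * Real.exp (-(t * l)) := by
    have h10 : x * Real.exp (-(L / 8)) ≤ x * Real.exp (-(t * l)) := by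
      apply mul_le_mul_of_nonneg_left _ hx0.le
      exact Real.exp_le_exp.2 (by linarith)
    refine le_trans ?_ h10
    have h11 : (x : ℝ) * Real.exp (-(L / 8)) = Real.exp (L / 2) * Real.exp (3 * L / 8) := by
      rw [hxL, ← Real.exp_add, ← Real.exp_add]
      congr 1
      ring
    rw [h11]
    have h12 : Real.exp (L / 8) ≤ Real.exp (3 * L / 8) := Real.exp_le_exp.2 (by linarith)
    have h13 : 1 ≤ Real.exp (L / 2) := Real.one_le_exp (by linarith)
    nlinarith
  linarith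

end Pool.Agent.Y886.UT
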